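import Mathlib

set_option autoImplicit false

open MeasureTheory Filter
open scoped ENNReal

namespace Pool.Agent.P.MP_467638_an

variable {X Y Z : Type*} [MeasurableSpace X] [MeasurableSpace Y] [MeasurableSpace Z]

def M2 (F : Y → Z → ℝ≥0∞) : Prop := Measurable (fun q : Y × Z => F q.1 q.2)

def M3 (F : X → Y → Z → ℝ≥0∞) : Prop := Measurable (fun q : X × Y × Z => F q.1 q.2.1 q.2.2)

theorem M3.fix {F : X → Y → Z → ℝ≥0∞} (h : M3 F) (x : X) : M2 (F x) :=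
  Measurable.comp h (measurable_prodMk_left (x := x))

theorem M2.fix {F : Y → Z → ℝ≥0∞} (h : M2 F) (y : Y) : Measurable (F y) :=
  Measurable.comp (g := fun q : Y × Z => F q.1 q.2) h (measurable_prodMk_left (x := y))

theorem M2.int {F : Y → Z → ℝ≥0∞} (h : M2 F) (ρ : Measure Z) [SFinite ρ] :
    Measurable (fun y => ∫⁻ z, F y z ∂ρ) :=
  Measurable.lintegral_prod_right' (f := fun q : Y × Z => F q.1 q.2) h

theorem M2.swap {F : Y → Z → ℝ≥0∞} (h : M2 F) (ν : Measure Y) (ρ : Measure Z) [SFinite ν]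
    [SFinite ρ] : ∫⁻ y, ∫⁻ z, F y z ∂ρ ∂ν = ∫⁻ z, ∫⁻ y, F y z ∂ν ∂ρ :=
  lintegral_lintegral_swap (Measurable.aemeasurable h)

theorem M2.add {F G : Y → Z → ℝ≥0∞} (h : M2 F) (ν : Measure Y) (ρ : Measure Z) [SFinite ρ] :
    ∫⁻ y, ∫⁻ z, (F y z + G y z) ∂ρ ∂ν = (∫⁻ y, ∫⁻ z, F y z ∂ρ ∂ν) + ∫⁻ y, ∫⁻ z, G y z ∂ρ ∂ν := by
  rw [← lintegral_add_left (h.int ρ)]
  exact lintegral_congr fun y => lintegral_add_left (h.fix y) _

theorem M3.int {F : X → Y → Z → ℝ≥0∞} (h : M3 F) (ρ : Measure Z) [SFinite ρ] :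
    M2 (fun x y => ∫⁻ z, F x y z ∂ρ) :=
  Measurable.lintegral_prod_right' (f := fun q : (X × Y) × Z => F q.1.1 q.1.2 q.2)
    (Measurable.comp h (MeasurableEquiv.prodAssoc (α := X) (β := Y) (γ := Z)).measurable)

theorem M3.rotate {F : X → Y → Z → ℝ≥0∞} (h : M3 F) (μ : Measure X) (ν : Measure Y)
    (ρ : Measure Z) [SFinite μ] [SFinite ν] [SFinite ρ] :
    ∫⁻ x, ∫⁻ y, ∫⁻ z, F x y z ∂ρ ∂ν ∂μ = ∫⁻ y, ∫⁻ z, ∫⁻ x, F x y z ∂μ ∂ρ ∂ν := by
  rw [(h.int ρ).swap μ ν]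
  refine lintegral_congr fun y => ?_
  have h2 : M2 (fun x z => F x y z) :=
    Measurable.comp h (measurable_fst.prodMk (measurable_const.prodMk measurable_snd))
  exact h2.swap μ ρ

theorem M3.sum {m : ℕ} {F : Fin m → X → Y → Z → ℝ≥0∞} (h : ∀ j, M3 (F j)) (μ : Measure X)
    (ν : Measure Y) (ρ : Measure Z) [SFinite ν] [SFinite ρ] :
    ∫⁻ x, ∫⁻ y, ∫⁻ z, ∑ j, F j x y z ∂ρ ∂ν ∂μ = ∑ j, ∫⁻ x, ∫⁻ y, ∫⁻ z, F j x y z ∂ρ ∂ν ∂μ := by
  rw [← lintegral_finsetSum _ (fun j _ => ((h j).int ρ).int ν)]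
  refine lintegral_congr fun x => ?_
  rw [← lintegral_finsetSum _ (fun j _ => ((h j).fix x).int ρ)]
  refine lintegral_congr fun y => ?_
  rw [← lintegral_finsetSum _ (fun j _ => ((h j).fix x).fix y)]

theorem M3.fatou {F : ℕ → X → Y → Z → ℝ≥0∞} (h : ∀ k, M3 (F k)) (μ : Measure X)
    [IsProbabilityMeasure μ] (ν : Measure Y) (ρ : Measure Z) [SFinite ν] [SFinite ρ] (c : ℝ≥0∞)
    (hc : ∀ᵐ x ∂μ, c ≤ ∫⁻ y, liminf (fun k => ∫⁻ z, F k x y z ∂ρ) atTop ∂ν) :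
    c ≤ liminf (fun k => ∫⁻ x, ∫⁻ y, ∫⁻ z, F k x y z ∂ρ ∂ν ∂μ) atTop := by
  refine le_trans ?_ (lintegral_liminf_le (fun k => ((h k).int ρ).int ν))
  calc c = ∫⁻ _x, c ∂μ := by simp
    _ ≤ _ := by
      refine lintegral_mono_ae ?_
      filter_upwards [hc] with x hx
      exact hx.trans (lintegral_liminf_le (fun k => ((h k).fix x).int ρ))

theorem sum_liminf_le {m : ℕ} (f : Fin m → ℕ → ℝ≥0∞) :
    ∑ i, liminf (f i) atTop ≤ liminf (fun k => ∑ i, f i k) atTop := by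
  have := lintegral_liminf_le (μ := (Measure.count : Measure (Fin m))) (f := fun k i => f i k)
    (u := atTop) (fun k => measurable_of_countable _)
  simpa [lintegral_count, tsum_fintype] using this

end Pool.Agent.P.MP_467638_an
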