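import Pool.Agent.P.MP_467638_an.Defs

set_option autoImplicit false

open MeasureTheory Matrix

namespace Pool.Agent.P.MP_467638_an

/-- The matrix `W` with the columns of index at least `k` replaced by zero. -/
def firstCols {𝕜 : Type} [RCLike 𝕜] {n ℓ : ℕ} (k : ℕ) (W : Matrix (Fin n) (Fin ℓ) 𝕜) :
    Matrix (Fin n) (Fin ℓ) 𝕜 :=
  Matrix.of fun i j => if (j : ℕ) < k then W i j else 0

/-- The lower bound for adaptively chosen embeddings, over the inputs with a prescribed Gram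
matrix and optimal residual of norm one. -/
def AdaptiveBound (𝕜 : Type) [RCLike 𝕜] (α : ℕ) : Prop :=
  ∀ (n ℓ d p r : ℕ), ℓ ≤ n → 1 ≤ p → r + α < ℓ →
  ∀ (A₀ : Matrix (Fin n) (Fin d) 𝕜), A₀.rank = r →
  ∀ (X : Type) [MeasurableSpace X] (μ : Measure X), IsProbabilityMeasure μ →
  ∀ (q : Fin ℓ → X × (Fin ℓ → Fin d → 𝕜) × (Fin ℓ → Fin p → 𝕜) → Fin n → 𝕜),
    (∀ k, Measurable (q k)) →
  ∀ (Ω : X → Matrix (Fin n) (Fin d) 𝕜 → Matrix (Fin n) (Fin p) 𝕜 → Matrix (Fin n) (Fin ℓ) 𝕜),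
    (∀ ω A B i k, Ω ω A B i k = q k (ω, Matrix.of.symm ((firstCols k (Ω ω A B))ᴴ * A),
      Matrix.of.symm ((firstCols k (Ω ω A B))ᴴ * B)) i) →
  ∀ (ALG : X × (Fin ℓ → Fin d → 𝕜) × (Fin ℓ → Fin p → 𝕜) → (Fin d → Fin p → 𝕜)),
    Measurable ALG →
    ENNReal.ofReal (1 + ((n : ℝ) - ℓ) / ((n : ℝ) - r) * ((r : ℝ) / ((ℓ : ℝ) - r - α))) ≤
      ⨆ (A : Matrix (Fin n) (Fin d) 𝕜) (B : Matrix (Fin n) (Fin p) 𝕜)
        (P : Matrix (Fin d) (Fin n) 𝕜)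
        (_ : Aᴴ * A = A₀ᴴ * A₀ ∧ IsPinv A P ∧ frobSq (B - A * P * B) = 1),
        ∫⁻ ω, ENNReal.ofReal (frobSq (B - A * Matrix.of (ALG (ω,
          Matrix.of.symm ((Ω ω A B)ᴴ * A), Matrix.of.symm ((Ω ω A B)ᴴ * B))))) ∂μ

end Pool.Agent.P.MP_467638_an
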