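import Pool.Agent.P.MP_467638_an.Side
import Pool.Agent.P.MP_467638_an.DefsA

set_option autoImplicit false

open MeasureTheory ProbabilityTheory Module Set Filter Matrix InnerProductSpace
open scoped ENNReal ComplexOrder

namespace Pool.Agent.P.MP_467638_an.Ad

variable {𝕜 : Type} [RCLike 𝕜] {n ℓ d p r : ℕ}

/-- The inner product given by a Gram matrix. -/
noncomputable def ip (G : Fin r → Fin r → 𝕜) (x y : EE 𝕜 r) : 𝕜 :=
  ∑ k, ∑ l, y l * (star (x k) * G k l)

theorem ip_eq (a : Fin r → EE 𝕜 n) (x y : EE 𝕜 r) :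
    ip (fun i k => inner 𝕜 (a i) (a k)) x y = inner 𝕜 (comb a x) (comb a y) := by
  simp only [ip, comb, sum_inner, inner_sum, inner_smul_left, inner_smul_right, Finset.mul_sum,
    RCLike.star_def]
  exact Finset.sum_comm

theorem measurable_ip {x y : (Fin r → Fin r → 𝕜) → EE 𝕜 r} (hx : Measurable x)
    (hy : Measurable y) : Measurable fun G => ip G (x G) (y G) := by
  have h1 : Continuous fun q : (Fin r → Fin r → 𝕜) × EE 𝕜 r × EE 𝕜 r => ip q.1 q.2.1 q.2.2 := by
    unfold ip
    fun_prop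
  have h2 := h1.measurable.comp (measurable_id.prodMk (hx.prodMk hy))
  exact h2

theorem comb_single (a : Fin r → EE 𝕜 n) (j : Fin r) :
    comb a (EuclideanSpace.single j 1) = a j := by
  simp [comb, ite_smul]

theorem comb_sum {ι : Type*} (s : Finset ι) (a : Fin r → EE 𝕜 n) (x : ι → EE 𝕜 r) :
    comb a (∑ i ∈ s, x i) = ∑ i ∈ s, comb a (x i) := by
  simp only [comb, WithLp.ofLp_sum, Finset.sum_apply, Finset.sum_smul]
  exact Finset.sum_comm

theorem exists_gs (j : Fin r) : ∃ τ : (Fin r → Fin r → 𝕜) → EE 𝕜 r, Measurable τ ∧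
    ∀ a : Fin r → EE 𝕜 n, gramSchmidt 𝕜 a j = comb a (τ fun i k => inner 𝕜 (a i) (a k)) := by
  induction j using WellFoundedLT.induction with
  | ind j ih =>
    choose! τ h1 h2 using ih
    refine ⟨fun G => EuclideanSpace.single j 1 - ∑ i ∈ Finset.Iio j,
      (ip G (τ i G) (EuclideanSpace.single j 1) / ip G (τ i G) (τ i G)) • τ i G,
      measurable_const.sub (Finset.measurable_sum _ fun i hi => ?_), fun a => ?_⟩
    · have h := h1 i (Finset.mem_Iio.1 hi)
      exact Measurable.smul (f := fun G => ip G (τ i G) (EuclideanSpace.single j 1) /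
        ip G (τ i G) (τ i G)) ((measurable_ip h measurable_const).div (measurable_ip h h)) h
    · rw [comb_sub, comb_single, comb_sum, eq_sub_iff_add_eq]
      refine Eq.trans ?_ (gramSchmidt_def'' 𝕜 a j).symm
      congr 1
      refine Finset.sum_congr rfl fun i hi => ?_
      rw [comb_smul, ip_eq, ip_eq, ← h2 i (Finset.mem_Iio.1 hi), comb_single,
        inner_self_eq_norm_sq_to_K]

theorem exists_orth : ∃ T : (Fin r → Fin r → 𝕜) → Fin r → EE 𝕜 r, Measurable T ∧
    ∀ a : Fin r → EE 𝕜 n, LinearIndependent 𝕜 a →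
      Orthonormal 𝕜 fun j => comb a (T (fun i k => inner 𝕜 (a i) (a k)) j) := by
  choose τ h1 h2 using exists_gs (𝕜 := 𝕜) (n := n) (r := r)
  refine ⟨fun G j => ((√‖ip G (τ j G) (τ j G)‖ : ℝ) : 𝕜)⁻¹ • τ j G,
    measurable_pi_lambda _ fun j => Measurable.smul
      (f := fun G => ((√‖ip G (τ j G) (τ j G)‖ : ℝ) : 𝕜)⁻¹) (RCLike.continuous_ofReal.measurable.comp
        (measurable_ip (h1 j) (h1 j)).norm.sqrt).inv (h1 j), fun a ha => ?_⟩
  have := gramSchmidtNormed_orthonormal ha
  refine (congrArg _ (funext fun j => ?_)).mp this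
  rw [comb_smul, ip_eq, ← h2, gramSchmidtNormed, inner_self_eq_norm_sq_to_K]
  simp

theorem measurable_rho : Measurable (rho : Dat 𝕜 r n → ℝ) := by
  refine (upperSemicontinuous_ciInf (fun y => ⟨0, ?_⟩) fun x => ?_).measurable
  · rintro _ ⟨x, rfl⟩
    exact norm_nonneg _
  · refine Continuous.upperSemicontinuous ?_
    unfold comb
    fun_prop

theorem rho_eq (a : Fin r → EE 𝕜 n) (b : EE 𝕜 n) :
    rho (a, b) = ‖(Submodule.span 𝕜 (range a))ᗮ.starProjection b‖ := by
  rw [Submodule.starProjection_orthogonal_val, Submodule.starProjection_minimal]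
  refine Function.Surjective.iInf_congr (fun x => ⟨comb a x, comb_mem a x⟩) ?_ fun _ => rfl
  rintro ⟨_, h⟩
  obtain ⟨c, rfl⟩ := (Submodule.mem_span_range_iff_exists_fun 𝕜).1 h
  exact ⟨WithLp.toLp 2 c, rfl⟩

theorem exists_factor (A : Matrix (Fin n) (Fin d) 𝕜) (h : A.rank = r) :
    ∃ S : Matrix (Fin r) (Fin d) 𝕜, Sᴴ * S = Aᴴ * A ∧ IsUnit (S * Sᴴ).det := by
  let c : Fin d → EE 𝕜 n := fun j => WithLp.toLp 2 (A.col j)
  let W := Submodule.span 𝕜 (range c)
  have hW : finrank 𝕜 W = r := by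
    rw [← h, rank_eq_finrank_span_cols, ← LinearEquiv.finrank_map_eq
      (WithLp.linearEquiv 2 𝕜 (Fin n → 𝕜)).symm, Submodule.map_span, ← range_comp]
    rfl
  let o := (stdOrthonormalBasis 𝕜 W).reindex (finCongr hW)
  let c' : Fin d → W := fun j => ⟨c j, Submodule.subset_span ⟨j, rfl⟩⟩
  have h1 : (Matrix.of fun i j => inner 𝕜 (o i) (c' j))ᴴ * (Matrix.of fun i j => inner 𝕜 (o i) (c' j))
      = Aᴴ * A := by
    ext j k
    simp only [mul_apply, conjTranspose_apply, of_apply, RCLike.star_def, inner_conj_symm,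
      o.sum_inner_mul_inner]
    simp [c', c, PiLp.inner_apply, mul_comm]
  refine ⟨_, h1, (isUnit_iff_isUnit_det _).1 (linearIndependent_rows_iff_isUnit.1 ?_)⟩
  rw [linearIndependent_iff_card_eq_finrank_span, Set.finrank, ← rank_eq_finrank_span_row,
    rank_self_mul_conjTranspose, ← rank_conjTranspose_mul_self, h1, rank_conjTranspose_mul_self, h,
    Fintype.card_fin]

theorem le_frob (S : Matrix (Fin r) (Fin d) 𝕜) (e : Fin p) (a : Fin r → EE 𝕜 n) (b : EE 𝕜 n)
    (X : Matrix (Fin d) (Fin p) 𝕜) :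
    ‖b - comb a (WithLp.toLp 2 fun j => (S * X) j e)‖ ^ 2 ≤ frobSq (matB e b - matA0 a * S * X) := by
  rw [frobSq, EuclideanSpace.norm_sq_eq]
  refine Finset.sum_le_sum fun i _ => ?_
  refine le_trans (le_of_eq ?_) (Finset.single_le_sum (f := fun k =>
    ‖(matB e b - matA0 a * S * X) i k‖ ^ 2) (fun k _ => sq_nonneg _) (Finset.mem_univ e))
  congr 2
  rw [Matrix.mul_assoc, Matrix.sub_apply, Matrix.mul_apply]
  simp [matB, matA0, comb, mul_comm]

theorem pinv_orth {S : Matrix (Fin r) (Fin d) 𝕜} (hS : IsUnit (S * Sᴴ).det)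
    {o : Fin r → EE 𝕜 n} (ho : Orthonormal 𝕜 o) : (matA0 o * S)ᴴ * (matA0 o * S) = Sᴴ * S ∧
    ∃ P, IsPinv (matA0 o * S) P ∧ ∀ b : EE 𝕜 n,
      b - WithLp.toLp 2 ((matA0 o * S * P) *ᵥ b.ofLp) =
        (Submodule.span 𝕜 (range o))ᗮ.starProjection b := by
  have h1 : (matA0 o)ᴴ * matA0 o = 1 := by
    ext i j
    have := orthonormal_iff_ite.1 ho i j
    rw [one_apply, ← this]
    simp [mul_apply, matA0, PiLp.inner_apply, mul_comm]
  set O := matA0 o with hO
  have h2 : O * S * (Sᴴ * (S * Sᴴ)⁻¹ * Oᴴ) = O * Oᴴ := by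
    calc _ = O * (S * Sᴴ * (S * Sᴴ)⁻¹) * Oᴴ := by simp only [Matrix.mul_assoc]
      _ = _ := by rw [mul_nonsing_inv _ hS, Matrix.mul_one]
  have h3 : Sᴴ * (S * Sᴴ)⁻¹ * Oᴴ * (O * S) = Sᴴ * (S * Sᴴ)⁻¹ * S := by
    calc _ = Sᴴ * (S * Sᴴ)⁻¹ * (Oᴴ * O) * S := by simp only [Matrix.mul_assoc]
      _ = _ := by rw [h1, Matrix.mul_one]
  refine ⟨?_, Sᴴ * (S * Sᴴ)⁻¹ * Oᴴ, ⟨?_, ?_, ?_, ?_⟩, fun b => ?_⟩
  · rw [conjTranspose_mul, Matrix.mul_assoc, ← Matrix.mul_assoc Oᴴ, h1, Matrix.one_mul]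
  · rw [h2, Matrix.mul_assoc, ← Matrix.mul_assoc Oᴴ, h1, Matrix.one_mul]
  · rw [Matrix.mul_assoc _ (O * S), h2, Matrix.mul_assoc _ Oᴴ, ← Matrix.mul_assoc Oᴴ, h1,
      Matrix.one_mul]
  · rw [h2, conjTranspose_mul, conjTranspose_conjTranspose]
  · rw [h3, conjTranspose_mul, conjTranspose_mul, conjTranspose_nonsing_inv, conjTranspose_mul,
      conjTranspose_conjTranspose, Matrix.mul_assoc]
  · rw [h2, Submodule.starProjection_orthogonal_val, ← mulVec_mulVec, hO, matA0_mulVec]
    congr 1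
    refine (Submodule.eq_starProjection_of_mem_orthogonal (comb_mem _ _) ?_).symm
    rw [Submodule.mem_orthogonal]
    intro u hu
    induction hu using Submodule.span_induction with
    | mem x hx =>
      obtain ⟨j, rfl⟩ := hx
      rw [inner_sub_right, comb, ho.inner_right_fintype, sub_eq_zero]
      simp [mulVec, dotProduct, matA0, PiLp.inner_apply, mul_comm]
    | zero => simp
    | add x y _ _ hx hy => rw [inner_add_left, hx, hy, add_zero]
    | smul c x _ hx => rw [inner_smul_left, hx, mul_zero]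

theorem measurable_sketch {Y : Type*} [MeasurableSpace Y] {m : ℕ}
    {W : Y → Matrix (Fin n) (Fin ℓ) 𝕜} {M : Y → Matrix (Fin n) (Fin m) 𝕜}
    (hW : ∀ i j, Measurable fun y => W y i j) (hM : ∀ i j, Measurable fun y => M y i j) :
    Measurable fun y => Matrix.of.symm ((W y)ᴴ * M y) := by
  refine measurable_pi_lambda _ fun i => measurable_pi_lambda _ fun k => ?_
  simp only [of_symm_apply, mul_apply, conjTranspose_apply]
  exact Finset.measurable_sum _ fun x _ => (continuous_star.measurable.comp (hW x i)).mul (hM x k)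

theorem firstCols_all (W : Matrix (Fin n) (Fin ℓ) 𝕜) : firstCols ℓ W = W := by
  ext i j
  simp [firstCols]

theorem frobSq_eq_one {b : EE 𝕜 n} (h : b ≠ 0) : ‖(‖b‖ : 𝕜)⁻¹ • b‖ ^ 2 = 1 := by
  rw [norm_smul_inv_norm h, one_pow]

theorem adaptiveBound (𝕜 : Type) [RCLike 𝕜] (α : ℕ) (hα : α + finrank ℝ 𝕜 = 2) :
    AdaptiveBound 𝕜 α := by
  intro n ℓ d p r hℓ hp hr A₀ hA₀ X _ μ hμ q hq Ω hΩ ALG hALG
  obtain ⟨S, hS1, hS2⟩ := exists_factor A₀ hA₀
  obtain ⟨T, hT1, hT2⟩ := exists_orth (𝕜 := 𝕜) (n := n) (r := r)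
  set e : Fin p := ⟨0, hp⟩
  have hβ : 0 < finrank ℝ 𝕜 := finrank_pos
  let G : Dat 𝕜 r n → Fin r → Fin r → 𝕜 := fun y i k => inner 𝕜 (y.1 i) (y.1 k)
  have hG : Measurable G := Continuous.measurable (by fun_prop)
  let A : Dat 𝕜 r n → Matrix (Fin n) (Fin d) 𝕜 := fun y =>
    matA0 (fun j => comb y.1 (T (G y) j)) * S
  let B : Dat 𝕜 r n → Matrix (Fin n) (Fin p) 𝕜 := fun y => matB e (((rho y : ℝ) : 𝕜)⁻¹ • y.2)
  have hρ : Measurable fun y : Dat 𝕜 r n => ((rho y : ℝ) : 𝕜) :=
    RCLike.continuous_ofReal.measurable.comp measurable_rho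
  have hco : ∀ {m : ℕ} (i : Fin m), Measurable fun z : EE 𝕜 m => z i := fun i =>
    Continuous.measurable (by fun_prop)
  have hAm : ∀ i j, Measurable fun y => A y i j := fun i j => by
    simp only [A, mul_apply, matA0, of_apply]
    exact Finset.measurable_sum _ fun k _ => ((hco i).comp (continuous_comb.measurable.comp
      (measurable_fst.prodMk ((measurable_pi_apply k).comp (hT1.comp hG))))).mul_const _
  have hBm : ∀ i j, Measurable fun y => B y i j := fun i j => by
    simp only [B, matB, of_apply]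
    split_ifs
    · exact hρ.inv.mul ((hco i).comp measurable_snd)
    · exact measurable_const
  have hΩm : ∀ (k : Fin ℓ) i, Measurable fun z : X × Dat 𝕜 r n => Ω z.1 (A z.2) (B z.2) i k := by
    intro k
    induction k using WellFoundedLT.induction with
    | ind k ih =>
      intro i
      have h1 : ∀ i j, Measurable fun z : X × Dat 𝕜 r n =>
          firstCols k (Ω z.1 (A z.2) (B z.2)) i j := fun i j => by
        simp only [firstCols, of_apply]
        split_ifs with h
        exacts [ih j h i, measurable_const]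
      simp only [hΩ _ _ _ i k]
      exact (measurable_pi_apply i).comp ((hq k).comp (measurable_fst.prodMk
        ((measurable_sketch h1 fun i j => (hAm i j).comp measurable_snd).prodMk
          (measurable_sketch h1 fun i j => (hBm i j).comp measurable_snd))))
  let Q : X → ℕ → Dat 𝕜 r n → EE 𝕜 n := fun ω j y =>
    if h : j < ℓ then WithLp.toLp 2 fun i => Ω ω (A y) (B y) i ⟨j, h⟩ else 0
  have key : ∀ ω y y' (k : ℕ), Side y y' → (∀ i < k, Agree (Q ω i y) y y') →
      (firstCols k (Ω ω (A y) (B y)))ᴴ * A y = (firstCols k (Ω ω (A y) (B y)))ᴴ * A y' ∧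
      (firstCols k (Ω ω (A y) (B y)))ᴴ * B y = (firstCols k (Ω ω (A y) (B y)))ᴴ * B y' := by
    intro ω y y' k hs ha
    have h1 : ∀ (z : EE 𝕜 n) (j : Fin ℓ), ((firstCols k (Ω ω (A y) (B y)))ᴴ *ᵥ z.ofLp) j =
        if (j : ℕ) < k then inner 𝕜 (Q ω j y) z else 0 := fun z j => by
      split_ifs with h <;>
        simp [mulVec, dotProduct, firstCols, h, Q, PiLp.inner_apply, mul_comm]
    have hG' : G y = G y' := funext₂ hs.1
    constructor
    · simp only [A, ← Matrix.mul_assoc, ← hG']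
      congr 1
      ext j l
      refine (h1 (comb y.1 (T (G y) l)) j).trans (Eq.trans ?_ (h1 (comb y'.1 (T (G y) l)) j).symm)
      split_ifs with h
      · simp only [comb, inner_sum, inner_smul_right, (ha j h).1]
      · rfl
    · simp only [B, mul_matB, ← hs.2]
      congr 2
      ext j
      rw [h1, h1]
      split_ifs with h
      · rw [inner_smul_right, inner_smul_right, (ha j h).2]
      · rfl
  have key2 : ∀ ω y y' (k : ℕ), Side y y' → (∀ i < k, Agree (Q ω i y) y y') → ∀ (j : Fin ℓ),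
      (j : ℕ) ≤ k → ∀ i, Ω ω (A y) (B y) i j = Ω ω (A y') (B y') i j := by
    intro ω y y' k hs ha j
    induction j using WellFoundedLT.induction with
    | ind j ih =>
      intro hj i
      have h1 : firstCols j (Ω ω (A y) (B y)) = firstCols j (Ω ω (A y') (B y')) := by
        ext i l
        simp only [firstCols, of_apply]
        split_ifs with h
        exacts [ih l h (by omega) i, rfl]
      obtain ⟨h2, h3⟩ := key ω y y' j hs fun i hi => ha i (by omega)
      rw [hΩ, hΩ ω (A y'), h2, h3, h1]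
  let out : X × Dat 𝕜 r n → Matrix (Fin d) (Fin p) 𝕜 := fun z => Matrix.of (ALG (z.1,
    Matrix.of.symm ((Ω z.1 (A z.2) (B z.2))ᴴ * A z.2),
    Matrix.of.symm ((Ω z.1 (A z.2) (B z.2))ᴴ * B z.2)))
  have hout : ∀ i j, Measurable fun z => out z i j := fun i j =>
    (measurable_pi_apply j).comp ((measurable_pi_apply i).comp (hALG.comp (measurable_fst.prodMk
      ((measurable_sketch (fun i j => hΩm j i) fun i j => (hAm i j).comp measurable_snd).prodMk
        (measurable_sketch (fun i j => hΩm j i) fun i j => (hBm i j).comp measurable_snd)))))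
  let est : X × Dat 𝕜 r n → EE 𝕜 r := fun z =>
    ∑ j, (((rho z.2 : ℝ) : 𝕜) * (S * out z) j e) • T (G z.2) j
  have hest : Measurable est := Finset.measurable_sum _ fun j _ => by
    refine Measurable.smul (f := fun z : X × Dat 𝕜 r n => ((rho z.2 : ℝ) : 𝕜) * (S * out z) j e)
      ((hρ.comp measurable_snd).mul ?_)
      ((measurable_pi_apply j).comp (hT1.comp (hG.comp measurable_snd)))
    simp only [mul_apply]
    exact Finset.measurable_sum _ fun k _ => (hout k e).const_mul _
  have h3 : 3 ≤ finrank ℝ 𝕜 * (ℓ + 1 - r) := by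
    have : (α = 1 ∧ finrank ℝ 𝕜 = 1) ∨ (α = 0 ∧ finrank ℝ 𝕜 = 2) := by omega
    rcases this with ⟨h1, h2⟩ | ⟨h1, h2⟩ <;> rw [h2] <;> omega
  have hne0 : ((finrank ℝ 𝕜 * (n - r) : ℕ) : ℝ≥0∞) ≠ 0 := by
    have : 0 < finrank ℝ 𝕜 * (n - r) := Nat.mul_pos hβ (by omega)
    exact_mod_cast this.ne'
  refine (ENNReal.mul_le_mul_iff_left hne0 (ENNReal.natCast_ne_top _)).1 ?_
  rw [arith hα hβ hℓ hr]
  refine core2 μ hℓ (by omega) (by omega) h3 Q (fun ω j => ?_) (fun ω j y y' hs ha => ?_) est hest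
    (fun ω y y' hs ha => ?_) _ fun a b ha hb => ?_
  · simp only [Q]
    split_ifs with h
    · exact (WithLp.measurable_toLp 2 _).comp
        (measurable_pi_lambda _ fun i => (hΩm _ i).comp measurable_prodMk_left)
    · exact measurable_const
  · simp only [Q]
    split_ifs with h
    · exact congrArg _ (funext (key2 ω y y' j hs ha ⟨j, h⟩ le_rfl))
    · rfl
  · have h1 : Ω ω (A y) (B y) = Ω ω (A y') (B y') :=
      Matrix.ext fun i j => key2 ω y y' ℓ hs ha j j.2.le i
    obtain ⟨h2, h4⟩ := key ω y y' ℓ hs ha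
    rw [firstCols_all] at h2 h4
    have h5 : out (ω, y) = out (ω, y') := by
      simp only [out]
      rw [h2, h4, h1]
    simp only [est, h5, hs.2, show G y = G y' from funext₂ hs.1]
  · have ho := hT2 a ha
    set o : Fin r → EE 𝕜 n := fun j => comb a (T (G (a, b)) j) with ho'
    replace ho : Orthonormal 𝕜 o := ho
    have hW : Submodule.span 𝕜 (range o) = Submodule.span 𝕜 (range a) :=
      Submodule.eq_of_le_of_finrank_eq (Submodule.span_le.2 (by
        rintro _ ⟨j, rfl⟩
        exact comb_mem _ _)) (by rw [finrank_span_eq_card ha, finrank_span_eq_card ho.linearIndependent])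
    obtain ⟨h1, P, h2, h4⟩ := pinv_orth hS2 ho
    have h0 : (Submodule.span 𝕜 (range a))ᗮ.starProjection b ≠ 0 := by
      rw [Ne, Submodule.starProjection_apply_eq_zero_iff, Submodule.orthogonal_orthogonal]
      exact hb
    have h5 : ((rho (a, b) : ℝ) : 𝕜) ≠ 0 := by simpa [rho_eq] using h0
    rw [mul_comm, ← rho_eq]
    refine le_trans (b := ENNReal.ofReal (rho (a, b) ^ 2) *
      ∫⁻ ω, ENNReal.ofReal (frobSq (B (a, b) - A (a, b) * out (ω, a, b))) ∂μ) ?_
      (mul_le_mul_right ?_ _)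
    · rw [← lintegral_const_mul' _ _ ENNReal.ofReal_ne_top]
      refine lintegral_mono fun ω => ?_
      rw [← ENNReal.ofReal_mul (sq_nonneg _)]
      refine ENNReal.ofReal_le_ofReal (le_trans (le_of_eq ?_)
        (mul_le_mul_of_nonneg_left (le_frob S e o _ (out (ω, a, b))) (sq_nonneg _)))
      rw [← sq_abs (rho _), ← RCLike.norm_ofReal (K := 𝕜), ← mul_pow, ← norm_smul, smul_sub,
        smul_inv_smul₀ h5, ← comb_smul]
      simp only [est, comb_sum, comb_smul]
      rw [comb, Finset.smul_sum]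
      simp only [smul_smul]
      rfl
    · refine le_iSup_of_le (A (a, b)) (le_iSup_of_le (B (a, b))
        (le_iSup_of_le P (le_iSup_of_le ⟨h1.trans hS1, h2, ?_⟩ le_rfl)))
      simp only [A, B]
      rw [mul_matB, matB_sub, frobSq_matB, h4, hW, map_smul, rho_eq, frobSq_eq_one h0]

end Pool.Agent.P.MP_467638_an.Ad
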