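import Pool.Agent.P.MP_467638_an.GaussK

set_option autoImplicit false

open MeasureTheory ProbabilityTheory Module Set Filter
open scoped ENNReal

namespace Pool.Agent.P.MP_467638_an

abbrev EE (𝕜 : Type) [RCLike 𝕜] (n : ℕ) := EuclideanSpace 𝕜 (Fin n)

abbrev HH (𝕜 : Type) [RCLike 𝕜] (r n : ℕ) := WithLp 2 (EE 𝕜 r × EE 𝕜 n)

variable {𝕜 : Type} [RCLike 𝕜] {n r : ℕ}

noncomputable def comb (a : Fin r → EE 𝕜 n) (x : EE 𝕜 r) : EE 𝕜 n := ∑ j, x j • a j

noncomputable def bvec (t : ℝ) (a : Fin r → EE 𝕜 n) (ξ : HH 𝕜 r n) : EE 𝕜 n :=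
  comb a ((t : 𝕜) • ξ.fst) + ξ.snd

noncomputable def err (est : (Fin r → EE 𝕜 n) × EE 𝕜 n → EE 𝕜 r) (t : ℝ) (a : Fin r → EE 𝕜 n)
    (ξ : HH 𝕜 r n) : EE 𝕜 r :=
  (t : 𝕜) • ξ.fst - est (a, bvec t a ξ)

def Inv (K : Submodule 𝕜 (EE 𝕜 n)) (est : (Fin r → EE 𝕜 n) × EE 𝕜 n → EE 𝕜 r) : Prop :=
  ∀ a a' b b', (∀ j, a j - a' j ∈ K) → b - b' ∈ K → est (a, b) = est (a', b')

theorem comb_add (a : Fin r → EE 𝕜 n) (x y : EE 𝕜 r) : comb a (x + y) = comb a x + comb a y := by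
  simp [comb, add_smul, Finset.sum_add_distrib]

theorem comb_sub (a : Fin r → EE 𝕜 n) (x y : EE 𝕜 r) : comb a (x - y) = comb a x - comb a y := by
  simp [comb, sub_smul, Finset.sum_sub_distrib]

theorem comb_smul (a : Fin r → EE 𝕜 n) (c : 𝕜) (x : EE 𝕜 r) : comb a (c • x) = c • comb a x := by
  simp [comb, Finset.smul_sum, mul_smul]

theorem comb_mem (a : Fin r → EE 𝕜 n) (x : EE 𝕜 r) :
    comb a x ∈ Submodule.span 𝕜 (Set.range a) :=
  Submodule.sum_mem _ fun j _ => Submodule.smul_mem _ _ (Submodule.subset_span ⟨j, rfl⟩)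

theorem map_comb (T : EE 𝕜 n →L[𝕜] EE 𝕜 n) (a : Fin r → EE 𝕜 n) (x : EE 𝕜 r) :
    T (comb a x) = comb (fun j => T (a j)) x := by
  simp [comb]

theorem continuous_comb : Continuous (fun q : (Fin r → EE 𝕜 n) × EE 𝕜 r => comb q.1 q.2) := by
  unfold comb
  fun_prop

theorem continuous_bvec (t : ℝ) :
    Continuous (fun q : (Fin r → EE 𝕜 n) × HH 𝕜 r n => bvec t q.1 q.2) := by
  unfold bvec comb
  fun_prop

theorem bvec_sub_comb (est : (Fin r → EE 𝕜 n) × EE 𝕜 n → EE 𝕜 r) (t : ℝ) (a : Fin r → EE 𝕜 n)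
    (ξ : HH 𝕜 r n) :
    bvec t a ξ - comb a (est (a, bvec t a ξ)) = comb a (err est t a ξ) + ξ.snd := by
  rw [err, comb_sub]
  conv_lhs => rw [bvec]
  abel

theorem measurable_err_param {X : Type*} [MeasurableSpace X]
    (est : X × (Fin r → EE 𝕜 n) × EE 𝕜 n → EE 𝕜 r) (hm : Measurable est) (t : ℝ) :
    Measurable (fun q : X × (Fin r → EE 𝕜 n) × HH 𝕜 r n =>
      err (fun y => est (q.1, y)) t q.2.1 q.2.2) := by
  unfold err
  have h1 : Measurable (fun q : X × (Fin r → EE 𝕜 n) × HH 𝕜 r n => (t : 𝕜) • q.2.2.fst) := by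
    have : Continuous (fun ξ : HH 𝕜 r n => (t : 𝕜) • ξ.fst) := by fun_prop
    exact this.measurable.comp (measurable_snd.comp measurable_snd)
  have h2 : Measurable (fun q : X × (Fin r → EE 𝕜 n) × HH 𝕜 r n => bvec t q.2.1 q.2.2) :=
    (continuous_bvec t).measurable.comp measurable_snd
  exact h1.sub (hm.comp (measurable_fst.prodMk ((measurable_fst.comp measurable_snd).prodMk h2)))

theorem measurable_err (est : (Fin r → EE 𝕜 n) × EE 𝕜 n → EE 𝕜 r) (hm : Measurable est) (t : ℝ) :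
    Measurable (fun q : (Fin r → EE 𝕜 n) × HH 𝕜 r n => err est t q.1 q.2) :=
  (measurable_err_param (X := Unit) (fun q => est q.2) (hm.comp measurable_snd) t).comp
    (measurable_prodMk_left (x := ()))

theorem measurable_coord (j : Fin r) :
    Measurable (fun x : EE 𝕜 r => ENNReal.ofReal (‖x j‖ ^ 2)) := by
  apply Measurable.ennreal_ofReal
  apply Continuous.measurable
  fun_prop

theorem map_snd_stdGaussian :
    (stdGaussian (HH 𝕜 r n)).map (fun ξ => ξ.snd) = stdGaussian (EE 𝕜 n) := by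
  apply map_stdGaussianK (𝕜 := 𝕜) _ (Continuous.measurable (by fun_prop))
    (fun t => WithLp.toLp 2 (0, t))
  · intro z t
    simp [WithLp.prod_inner_apply]
  · intro t
    simp

theorem two_mul_ofReal (x : ℝ) : 2 * ENNReal.ofReal x = ENNReal.ofReal (2 * x) := by
  rw [ENNReal.ofReal_mul (by norm_num), ENNReal.ofReal_ofNat]

theorem reflect (K : Submodule 𝕜 (EE 𝕜 n)) (est : (Fin r → EE 𝕜 n) × EE 𝕜 n → EE 𝕜 r)
    (hm : Measurable est) (hinv : Inv K est) (t : ℝ) (ht : 0 < t) (a : Fin r → EE 𝕜 n)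
    (j : Fin r) (v : EE 𝕜 r) (hv : v j = 1) :
    (finrank ℝ 𝕜 : ℝ≥0∞) *
        (ENNReal.ofReal (‖v‖ ^ 2 / t ^ 2 + ‖Kᗮ.starProjection (comb a v)‖ ^ 2))⁻¹
      ≤ ∫⁻ ξ, ENNReal.ofReal (‖err est t a ξ j‖ ^ 2) ∂(stdGaussian (HH 𝕜 r n)) := by
  have htK : (t : 𝕜) ≠ 0 := by exact_mod_cast ht.ne'
  set w : HH 𝕜 r n := WithLp.toLp 2 (-((t : 𝕜)⁻¹) • v, Kᗮ.starProjection (comb a v)) with hw
  have hwf : w.fst = -((t : 𝕜)⁻¹) • v := rfl
  have hws : w.snd = Kᗮ.starProjection (comb a v) := rfl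
  have hwn : ‖w‖ ^ 2 = ‖v‖ ^ 2 / t ^ 2 + ‖Kᗮ.starProjection (comb a v)‖ ^ 2 := by
    rw [WithLp.prod_norm_sq_eq_of_L2, hwf, hws, norm_smul, norm_neg, norm_inv, RCLike.norm_ofReal,
      abs_of_pos ht]
    field_simp
  have hw0 : w ≠ 0 := by
    intro h
    have h1 : w.fst j = 0 := by rw [h]; simp
    rw [hwf] at h1
    simp [hv, htK] at h1
  have hwpos : 0 < ‖w‖ ^ 2 := by positivity
  set L : Submodule 𝕜 (HH 𝕜 r n) := 𝕜 ∙ w with hL
  set ρ := Lᗮ.reflection with hρ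
  have hρm : Measurable ρ := ρ.continuous.measurable
  have hmap : (stdGaussian (HH 𝕜 r n)).map ρ = stdGaussian (HH 𝕜 r n) := by
    apply map_stdGaussianK (𝕜 := 𝕜) _ hρm ρ
    · intro z s
      rw [← ρ.inner_map_map z (ρ s), hρ, Submodule.reflection_reflection]
    · intro s; simp
  have hF : Measurable (fun ξ : HH 𝕜 r n => ENNReal.ofReal (‖err est t a ξ j‖ ^ 2)) :=
    (measurable_coord j).comp ((measurable_err est hm t).comp measurable_prodMk_left)
  have key : ∀ ξ : HH 𝕜 r n, 2 * ((ENNReal.ofReal (‖w‖ ^ 2))⁻¹ *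
      ENNReal.ofReal (‖L.starProjection ξ‖ ^ 2))
      ≤ ENNReal.ofReal (‖err est t a ξ j‖ ^ 2) + ENNReal.ofReal (‖err est t a (ρ ξ) j‖ ^ 2) := by
    intro ξ
    obtain ⟨c, hc⟩ := Submodule.mem_span_singleton.1 (L.starProjection_apply_mem ξ)
    have h1 : ρ ξ = ξ - (2 * c) • w := by
      rw [hρ, Submodule.reflection_orthogonal_apply, Submodule.reflection_apply, ← hc]
      rw [mul_smul, two_smul, two_smul]; abel
    have h2 : bvec t a (ρ ξ) - bvec t a ξ ∈ K := by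
      have e1 : bvec t a (ρ ξ) - bvec t a ξ = (2 * c) • K.starProjection (comb a v) := by
        have e2 : K.starProjection (comb a v) = comb a v - Kᗮ.starProjection (comb a v) := by
          rw [Submodule.starProjection_orthogonal_val]; abel
        rw [h1, e2]
        simp only [bvec, WithLp.sub_fst, WithLp.sub_snd, WithLp.smul_fst, WithLp.smul_snd, hwf, hws,
          smul_sub, comb_sub, comb_smul, smul_smul]
        have e3 : (t : 𝕜) * (2 * c * -(t : 𝕜)⁻¹) = -(2 * c) := by field_simp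
        rw [e3, neg_smul]; abel
      rw [e1]
      exact K.smul_mem _ (K.starProjection_apply_mem _)
    have h3 : est (a, bvec t a (ρ ξ)) = est (a, bvec t a ξ) :=
      hinv _ _ _ _ (fun j => by simp) h2
    have h4 : err est t a (ρ ξ) j = err est t a ξ j + 2 * c := by
      rw [err, err, h3, h1]
      simp only [WithLp.sub_fst, WithLp.smul_fst, hwf, PiLp.sub_apply, PiLp.smul_apply, hv,
        smul_eq_mul]
      field_simp
      ring
    have h5 : ‖L.starProjection ξ‖ ^ 2 = ‖c‖ ^ 2 * ‖w‖ ^ 2 := by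
      rw [← hc, norm_smul, mul_pow]
    rw [h4, h5, ← ENNReal.ofReal_inv_of_pos hwpos, ← ENNReal.ofReal_mul (by positivity),
      ← ENNReal.ofReal_add (by positivity) (by positivity), two_mul_ofReal]
    apply ENNReal.ofReal_le_ofReal
    have h6 : (‖w‖ ^ 2)⁻¹ * (‖c‖ ^ 2 * ‖w‖ ^ 2) = ‖c‖ ^ 2 := by field_simp
    rw [h6]
    set e := err est t a ξ j
    have h7 : ‖2 * c‖ ≤ ‖e‖ + ‖e + 2 * c‖ := by
      have := norm_sub_le (e + 2 * c) e
      rw [add_sub_cancel_left] at this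
      linarith
    rw [norm_mul, RCLike.norm_two] at h7
    nlinarith [sq_nonneg (‖e‖ - ‖e + 2 * c‖), norm_nonneg c, norm_nonneg e, norm_nonneg (e + 2 * c)]
  have hI : ∫⁻ ξ, ENNReal.ofReal (‖err est t a ξ j‖ ^ 2) ∂(stdGaussian (HH 𝕜 r n))
      = ∫⁻ ξ, ENNReal.ofReal (‖err est t a (ρ ξ) j‖ ^ 2) ∂(stdGaussian (HH 𝕜 r n)) := by
    conv_lhs => rw [← hmap]
    rw [lintegral_map hF hρm]
  have h8 := lintegral_mono (μ := stdGaussian (HH 𝕜 r n)) key
  have hwne : (ENNReal.ofReal (‖w‖ ^ 2))⁻¹ ≠ ⊤ := by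
    simp [hw0]
  rw [lintegral_add_left hF, ← hI, ← two_mul, lintegral_const_mul' _ _ (by simp),
    lintegral_const_mul' _ _ hwne, lintegral_normSq_starProjection, hL,
    finrank_span_singleton hw0] at h8
  have h9 := (ENNReal.mul_le_mul_iff_right (by simp) (by simp)).1 h8
  rw [← hwn, mul_comm]
  simpa using h9

end Pool.Agent.P.MP_467638_an
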