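import Pool.Agent.P.MP_467638_an.Core1

set_option autoImplicit false

open MeasureTheory ProbabilityTheory Module Set Filter
open scoped ENNReal

namespace Pool.Agent.P.MP_467638_an

variable {𝕜 : Type} [RCLike 𝕜] {n r : ℕ}

theorem lintegral_of_mp_prod {X Y Z : Type*} [MeasurableSpace X] [MeasurableSpace Y]
    [MeasurableSpace Z] {μ : Measure X} {ν : Measure Y} {ρ : Measure Z} [SFinite ν]
    {T : X × Y → Z} (hT : MeasurePreserving T (μ.prod ν) ρ) {f : Z → ℝ≥0∞} (hf : Measurable f) :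
    ∫⁻ z, f z ∂ρ = ∫⁻ x, ∫⁻ y, f (T (x, y)) ∂ν ∂μ := by
  rw [← hT.lintegral_comp hf]
  exact lintegral_prod _ (hf.comp hT.measurable).aemeasurable

theorem finrank_orth (K : Submodule 𝕜 (EE 𝕜 n)) {ℓ : ℕ} (hK : finrank 𝕜 K + ℓ = n) :
    finrank 𝕜 Kᗮ = ℓ := by
  have := K.finrank_add_finrank_orthogonal
  rw [finrank_euclideanSpace_fin] at this
  omega

theorem span_proj_le {m : ℕ} (V : Submodule 𝕜 (EE 𝕜 n)) (a : Fin m → EE 𝕜 n) :
    Submodule.span 𝕜 (Set.range fun i => V.starProjection (a i)) ≤ V := by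
  rw [Submodule.span_le]
  rintro _ ⟨i, rfl⟩
  exact V.starProjection_apply_mem _

theorem exists_vec {m : ℕ} (K : Submodule 𝕜 (EE 𝕜 n)) (o : Fin m → EE 𝕜 n) (j : Fin (m + 1))
    (x : EE 𝕜 n) :
    ∃ v : EE 𝕜 (m + 1), v j = 1 ∧
      Kᗮ.starProjection (comb (Fin.insertNth j x o) v) =
        ((Submodule.span 𝕜 (Set.range fun i => Kᗮ.starProjection (o i)))ᗮ ⊓ Kᗮ).starProjection x := by
  set W := Submodule.span 𝕜 (Set.range fun i => Kᗮ.starProjection (o i)) with hW
  have hWle : W ≤ Kᗮ := span_proj_le _ _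
  set y := Kᗮ.starProjection x with hy
  obtain ⟨d, hd⟩ := (Submodule.mem_span_range_iff_exists_fun 𝕜).1 (W.starProjection_apply_mem y)
  refine ⟨WithLp.toLp 2 (Fin.insertNth j 1 (fun i => -d i)), by simp, ?_⟩
  have h1 : Kᗮ.starProjection (comb (Fin.insertNth j x o)
      (WithLp.toLp 2 (Fin.insertNth j 1 (fun i => -d i)))) = y - W.starProjection y := by
    rw [← hd, comb, Fin.sum_univ_succAbove _ j]
    simp only [Fin.insertNth_apply_same, Fin.insertNth_apply_succAbove, one_smul, neg_smul,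
      Finset.sum_neg_distrib, map_add, map_neg, map_sum, map_smul, hy, sub_eq_add_neg]
  rw [h1]
  symm
  apply Submodule.eq_starProjection_of_mem_orthogonal
  · exact ⟨W.sub_starProjection_mem_orthogonal y,
      Kᗮ.sub_mem (Kᗮ.starProjection_apply_mem _) (hWle (W.starProjection_apply_mem _))⟩
  · have e : x - (y - W.starProjection y) = (x - y) + W.starProjection y := by abel
    rw [e]
    apply Submodule.add_mem
    · exact Submodule.orthogonal_le inf_le_right (Kᗮ.sub_starProjection_mem_orthogonal x)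
    · exact Submodule.orthogonal_le inf_le_left
        (W.le_orthogonal_orthogonal (W.starProjection_apply_mem y))

theorem tendsto_bound (β : ℝ≥0∞) (hβ : β ≠ ⊤) (c u : ℝ) :
    Tendsto (fun k : ℕ => β * (ENNReal.ofReal (c / ((k : ℝ) + 1) ^ 2 + u))⁻¹) atTop
      (nhds (β * (ENNReal.ofReal u)⁻¹)) := by
  have h1 : Tendsto (fun k : ℕ => c / ((k : ℝ) + 1) ^ 2 + u) atTop (nhds u) := by
    have h2 : Tendsto (fun k : ℕ => ((k : ℝ) + 1) ^ 2) atTop atTop :=
      (tendsto_pow_atTop (by norm_num)).comp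
        (tendsto_atTop_add_const_right _ _ tendsto_natCast_atTop_atTop)
    simpa using (h2.const_div_atTop c).add_const u
  have h3 := (ENNReal.continuous_ofReal.tendsto u).comp h1
  exact ENNReal.Tendsto.const_mul (tendsto_inv_iff.2 h3) (Or.inr hβ)

theorem beta_ne_zero : (finrank ℝ 𝕜 : ℝ≥0∞) ≠ 0 := by
  have : 0 < finrank ℝ 𝕜 := finrank_pos
  exact_mod_cast this.ne'

theorem coord_liminf {m ℓ : ℕ} (K : Submodule 𝕜 (EE 𝕜 n)) (hK : finrank 𝕜 K + ℓ = n)
    (hm : m ≤ ℓ) (h3 : 3 ≤ finrank ℝ 𝕜 * (ℓ - m))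
    (est : (Fin (m + 1) → EE 𝕜 n) × EE 𝕜 n → EE 𝕜 (m + 1))
    (hmeas : Measurable est) (hinv : Inv K est) (j : Fin (m + 1)) :
    (finrank ℝ 𝕜 : ℝ≥0∞) * ENNReal.ofReal (1 / ((finrank ℝ 𝕜 : ℝ) * ((ℓ - m : ℕ) : ℝ) - 2))
      ≤ ∫⁻ a, liminf (fun k : ℕ => ∫⁻ ξ, ENNReal.ofReal (‖err est ((k : ℝ) + 1) a ξ j‖ ^ 2)
          ∂(stdGaussian (HH 𝕜 (m + 1) n))) atTop
        ∂(Measure.pi fun _ : Fin (m + 1) => stdGaussian (EE 𝕜 n)) := by
  have hg : Measurable (fun a : Fin (m + 1) → EE 𝕜 n => liminf (fun k : ℕ =>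
      ∫⁻ ξ, ENNReal.ofReal (‖err est ((k : ℝ) + 1) a ξ j‖ ^ 2)
          ∂(stdGaussian (HH 𝕜 (m + 1) n))) atTop) := by
    apply Measurable.liminf
    intro k
    exact ((measurable_coord j).comp (measurable_err est hmeas _)).lintegral_prod_right'
  have hmp := measurePreserving_insertNth (stdGaussian (EE 𝕜 n)) m j
  rw [lintegral_of_mp_prod hmp hg]
  have hl := finrank_orth K hK
  have hae := ae_linearIndependent Kᗮ m (by omega)
  calc (finrank ℝ 𝕜 : ℝ≥0∞) * ENNReal.ofReal (1 / ((finrank ℝ 𝕜 : ℝ) * ((ℓ - m : ℕ) : ℝ) - 2))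
      = ∫⁻ _o, (finrank ℝ 𝕜 : ℝ≥0∞) *
          ENNReal.ofReal (1 / ((finrank ℝ 𝕜 : ℝ) * ((ℓ - m : ℕ) : ℝ) - 2))
          ∂(Measure.pi fun _ : Fin m => stdGaussian (EE 𝕜 n)) := by simp
    _ ≤ _ := by
      refine lintegral_mono_ae ?_
      filter_upwards [hae] with o ho
      set W := Submodule.span 𝕜 (Set.range fun i => Kᗮ.starProjection (o i)) with hW
      have hWle : W ≤ Kᗮ := span_proj_le _ _
      have hWr : finrank 𝕜 W = m := by
        rw [finrank_span_eq_card ho]; simp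
      have hV : finrank 𝕜 (Wᗮ ⊓ Kᗮ : Submodule 𝕜 (EE 𝕜 n)) = ℓ - m := by
        have := Submodule.finrank_add_inf_finrank_orthogonal hWle
        omega
      have h4 := le_lintegral_inv_normSq_starProjection (Wᗮ ⊓ Kᗮ) (by rw [hV]; exact h3)
      rw [hV] at h4
      refine (mul_le_mul_right h4 _).trans ?_
      rw [← lintegral_const_mul' _ _ (by simp)]
      refine lintegral_mono fun x => ?_
      obtain ⟨v, hv, hvx⟩ := exists_vec K o j x
      have h5 := tendsto_bound (finrank ℝ 𝕜 : ℝ≥0∞) (by simp) (‖v‖ ^ 2)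
        (‖(Wᗮ ⊓ Kᗮ).starProjection x‖ ^ 2)
      rw [← h5.liminf_eq]
      refine liminf_le_liminf (Eventually.of_forall fun k => ?_)
      have h6 := reflect K est hmeas hinv ((k : ℝ) + 1) (by positivity) (Fin.insertNth j x o) j v hv
      rw [hvx] at h6
      exact h6

theorem term1 {ℓ : ℕ} (K : Submodule 𝕜 (EE 𝕜 n)) (hK : finrank 𝕜 K + ℓ = n)
    (a : Fin r → EE 𝕜 n) (e : HH 𝕜 r n → EE 𝕜 r) :
    ((finrank ℝ 𝕜 * (ℓ - r) : ℕ) : ℝ≥0∞) ≤
      ∫⁻ ξ, ENNReal.ofReal (‖Kᗮ.starProjection (comb a (e ξ) + ξ.snd)‖ ^ 2)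
        ∂(stdGaussian (HH 𝕜 r n)) := by
  set W := Submodule.span 𝕜 (Set.range fun i => Kᗮ.starProjection (a i)) with hW
  have hWle : W ≤ Kᗮ := span_proj_le _ _
  have hWr : finrank 𝕜 W ≤ r := by
    have := finrank_range_le_card (R := 𝕜) (fun i => Kᗮ.starProjection (a i))
    simpa [Set.finrank] using this
  have hl := finrank_orth K hK
  set V : Submodule 𝕜 (EE 𝕜 n) := Wᗮ ⊓ Kᗮ with hVdef
  have hV : ℓ - r ≤ finrank 𝕜 V := by
    have := Submodule.finrank_add_inf_finrank_orthogonal hWle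
    rw [← hVdef] at this
    omega
  have h1 := lintegral_normSq_starProjection V
  have hm : Measurable (fun z : EE 𝕜 n => ENNReal.ofReal (‖V.starProjection z‖ ^ 2)) := by
    apply Measurable.ennreal_ofReal
    apply Continuous.measurable
    fun_prop
  rw [← map_snd_stdGaussian (r := r), lintegral_map hm (Continuous.measurable (by fun_prop))] at h1
  calc ((finrank ℝ 𝕜 * (ℓ - r) : ℕ) : ℝ≥0∞) ≤ ((finrank ℝ 𝕜 * finrank 𝕜 V : ℕ) : ℝ≥0∞) := by
        exact_mod_cast Nat.mul_le_mul_left _ hV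
    _ = _ := h1.symm
    _ ≤ _ := by
      refine lintegral_mono fun ξ => ENNReal.ofReal_le_ofReal ?_
      have e1 : V.starProjection (Kᗮ.starProjection (comb a (e ξ) + ξ.snd))
          = V.starProjection ξ.snd := by
        rw [map_add, map_add]
        have e2 : V.starProjection (Kᗮ.starProjection (comb a (e ξ))) = 0 := by
          rw [Submodule.starProjection_apply_eq_zero_iff, map_comb]
          exact Submodule.orthogonal_le inf_le_left (W.le_orthogonal_orthogonal (comb_mem _ _))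
        have e3 := congrArg (fun T : EE 𝕜 n →L[𝕜] EE 𝕜 n => T ξ.snd)
          (Submodule.starProjection_comp_starProjection_of_le (U := V) (V := Kᗮ) inf_le_right)
        rw [e2, zero_add]
        exact e3
      rw [← e1]
      gcongr
      exact V.norm_starProjection_apply_le _

theorem term2 (K : Submodule 𝕜 (EE 𝕜 n)) (est : (Fin r → EE 𝕜 n) × EE 𝕜 n → EE 𝕜 r)
    (hmeas : Measurable est) (hinv : Inv K est) (t : ℝ) (ξ : HH 𝕜 r n) :
    ∫⁻ a, ENNReal.ofReal (‖K.starProjection (comb a (err est t a ξ) + ξ.snd)‖ ^ 2)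
        ∂(Measure.pi fun _ : Fin r => stdGaussian (EE 𝕜 n))
      = (∫⁻ a, ENNReal.ofReal (‖err est t a ξ‖ ^ 2)
          ∂(Measure.pi fun _ : Fin r => stdGaussian (EE 𝕜 n)))
          * ((finrank ℝ 𝕜 * finrank 𝕜 K : ℕ) : ℝ≥0∞)
        + ENNReal.ofReal (‖K.starProjection ξ.snd‖ ^ 2) := by
  have herr : Measurable (fun a : Fin r → EE 𝕜 n => err est t a ξ) :=
    (measurable_err est hmeas t).comp measurable_prodMk_right
  have hF : Measurable (fun a : Fin r → EE 𝕜 n =>
      ENNReal.ofReal (‖K.starProjection (comb a (err est t a ξ) + ξ.snd)‖ ^ 2)) := by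
    have hc : Continuous (fun q : (Fin r → EE 𝕜 n) × EE 𝕜 r =>
        ‖K.starProjection (comb q.1 q.2 + ξ.snd)‖ ^ 2) := by
      have := continuous_comb (𝕜 := 𝕜) (n := n) (r := r)
      fun_prop
    exact (hc.measurable.comp (measurable_id.prodMk herr)).ennreal_ofReal
  have hmp := measurePreserving_split_pi (ι := Fin r) K
  rw [lintegral_of_mp_prod hmp hF,
    ← lintegral_mul_const' _ _ (ENNReal.natCast_ne_top _)]
  have hc : ENNReal.ofReal (‖K.starProjection ξ.snd‖ ^ 2) =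
      ∫⁻ _a, ENNReal.ofReal (‖K.starProjection ξ.snd‖ ^ 2)
        ∂(Measure.pi fun _ : Fin r => stdGaussian (EE 𝕜 n)) := by simp
  rw [hc, ← lintegral_add_right _ measurable_const]
  refine lintegral_congr fun z => ?_
  rw [← lintegral_pi_normSq_sum_add K (err est t z ξ) (K.starProjection ξ.snd)]
  refine lintegral_congr fun z' => ?_
  have hd : ∀ j, (Kᗮ.starProjection (z j) + K.starProjection (z' j)) - z j ∈ K := by
    intro j
    have e : (Kᗮ.starProjection (z j) + K.starProjection (z' j)) - z j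
        = K.starProjection (z' j) - K.starProjection (z j) := by
      rw [Submodule.starProjection_orthogonal_val]; abel
    rw [e]
    exact K.sub_mem (K.starProjection_apply_mem _) (K.starProjection_apply_mem _)
  have he : err est t (fun j => Kᗮ.starProjection (z j) + K.starProjection (z' j)) ξ
      = err est t z ξ := by
    unfold err
    congr 1
    apply hinv _ _ _ _ hd
    simp only [bvec, comb, add_sub_add_right_eq_sub, ← Finset.sum_sub_distrib, ← smul_sub]
    exact K.sum_mem fun j _ => K.smul_mem _ (hd j)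
  simp only []
  rw [he, map_add, map_comb]
  congr 4
  simp only [comb, map_sum, map_smul, map_add]
  refine Finset.sum_congr rfl fun j _ => ?_
  rw [(Submodule.starProjection_apply_eq_zero_iff K).2 (Kᗮ.starProjection_apply_mem _), zero_add,
    Submodule.starProjection_eq_self_iff.2 (K.starProjection_apply_mem _)]

end Pool.Agent.P.MP_467638_an
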