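import Pool.Agent.P.MP_467638_an.Core2
import Pool.Agent.P.MP_467638_an.Abs

set_option autoImplicit false

open MeasureTheory ProbabilityTheory Module Set Filter
open scoped ENNReal

namespace Pool.Agent.P.MP_467638_an

variable {𝕜 : Type} [RCLike 𝕜] {n r : ℕ}

theorem measurable_normSq {G : Type*} [NormedAddCommGroup G] [MeasurableSpace G] [BorelSpace G] :
    Measurable (fun x : G => ENNReal.ofReal (‖x‖ ^ 2)) := by
  apply Measurable.ennreal_ofReal
  apply Continuous.measurable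
  fun_prop

theorem measurable_resid (est : (Fin r → EE 𝕜 n) × EE 𝕜 n → EE 𝕜 r) (hm : Measurable est)
    (t : ℝ) :
    Measurable (fun q : (Fin r → EE 𝕜 n) × HH 𝕜 r n => comb q.1 (err est t q.1 q.2) + q.2.snd) := by
  have h1 : Measurable (fun q : (Fin r → EE 𝕜 n) × HH 𝕜 r n => comb q.1 (err est t q.1 q.2)) :=
    continuous_comb.measurable.comp (measurable_fst.prodMk (measurable_err est hm t))
  have h2 : Measurable (fun q : (Fin r → EE 𝕜 n) × HH 𝕜 r n => q.2.snd) := by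
    have : Continuous (fun ξ : HH 𝕜 r n => ξ.snd) := by fun_prop
    exact this.measurable.comp measurable_snd
  exact h1.add h2

theorem lossA {ℓ : ℕ} (K : Submodule 𝕜 (EE 𝕜 n)) (hK : finrank 𝕜 K + ℓ = n)
    (est : (Fin r → EE 𝕜 n) × EE 𝕜 n → EE 𝕜 r) (hmeas : Measurable est) (hinv : Inv K est)
    (t : ℝ) :
    ((finrank ℝ 𝕜 * (ℓ - r) : ℕ) : ℝ≥0∞) + ((finrank ℝ 𝕜 * (n - ℓ) : ℕ) : ℝ≥0∞) *
        (1 + ∫⁻ a, ∫⁻ ξ, ENNReal.ofReal (‖err est t a ξ‖ ^ 2) ∂(stdGaussian (HH 𝕜 r n))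
          ∂(Measure.pi fun _ : Fin r => stdGaussian (EE 𝕜 n)))
      ≤ ∫⁻ a, ∫⁻ ξ, ENNReal.ofReal (‖comb a (err est t a ξ) + ξ.snd‖ ^ 2)
          ∂(stdGaussian (HH 𝕜 r n)) ∂(Measure.pi fun _ : Fin r => stdGaussian (EE 𝕜 n)) := by
  have hres := measurable_resid est hmeas t
  have hm1 : M2 (fun (a : Fin r → EE 𝕜 n) (ξ : HH 𝕜 r n) =>
      ENNReal.ofReal (‖Kᗮ.starProjection (comb a (err est t a ξ) + ξ.snd)‖ ^ 2)) :=
    measurable_normSq.comp (Kᗮ.starProjection.continuous.measurable.comp hres)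
  have hm2 : M2 (fun (a : Fin r → EE 𝕜 n) (ξ : HH 𝕜 r n) =>
      ENNReal.ofReal (‖K.starProjection (comb a (err est t a ξ) + ξ.snd)‖ ^ 2)) :=
    measurable_normSq.comp (K.starProjection.continuous.measurable.comp hres)
  have hm3 : M2 (fun (a : Fin r → EE 𝕜 n) (ξ : HH 𝕜 r n) =>
      ENNReal.ofReal (‖err est t a ξ‖ ^ 2)) :=
    measurable_normSq.comp (measurable_err est hmeas t)
  have hsplit : ∀ y : EE 𝕜 n, ENNReal.ofReal (‖y‖ ^ 2) =
      ENNReal.ofReal (‖Kᗮ.starProjection y‖ ^ 2) + ENNReal.ofReal (‖K.starProjection y‖ ^ 2) := by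
    intro y
    rw [← ENNReal.ofReal_add (sq_nonneg _) (sq_nonneg _),
      Submodule.norm_sq_eq_add_norm_sq_starProjection y K, add_comm]
  have e1 : ∫⁻ a, ∫⁻ ξ, ENNReal.ofReal (‖comb a (err est t a ξ) + ξ.snd‖ ^ 2)
      ∂(stdGaussian (HH 𝕜 r n)) ∂(Measure.pi fun _ : Fin r => stdGaussian (EE 𝕜 n)) = _ :=
    (lintegral_congr fun a => lintegral_congr fun ξ => hsplit _).trans (hm1.add _ _)
  rw [e1]
  apply add_le_add
  · calc ((finrank ℝ 𝕜 * (ℓ - r) : ℕ) : ℝ≥0∞) = ∫⁻ _a, ((finrank ℝ 𝕜 * (ℓ - r) : ℕ) : ℝ≥0∞)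
          ∂(Measure.pi fun _ : Fin r => stdGaussian (EE 𝕜 n)) := by simp
      _ ≤ _ := lintegral_mono fun a => term1 K hK a (err est t a)
  · rw [hm2.swap, hm3.swap]
    simp_rw [term2 K est hmeas hinv t]
    have hm4 : Measurable (fun ξ : HH 𝕜 r n => ENNReal.ofReal (‖K.starProjection ξ.snd‖ ^ 2)) :=
      measurable_normSq.comp (Continuous.measurable (by fun_prop))
    have h5 := lintegral_normSq_starProjection K
    rw [← map_snd_stdGaussian (r := r), lintegral_map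
      (f := fun z : EE 𝕜 n => ENNReal.ofReal (‖K.starProjection z‖ ^ 2))
      (measurable_normSq.comp K.starProjection.continuous.measurable)
      (Continuous.measurable (by fun_prop))] at h5
    rw [lintegral_add_right _ hm4, lintegral_mul_const' _ _ (ENNReal.natCast_ne_top _), h5,
      show finrank 𝕜 K = n - ℓ by omega, mul_add, mul_one, add_comm, mul_comm]

theorem upper (a : Fin r → EE 𝕜 n) (ha : LinearIndependent 𝕜 a) (t : ℝ) :
    ∫⁻ ξ, ENNReal.ofReal (‖(Submodule.span 𝕜 (Set.range a))ᗮ.starProjection (bvec t a ξ)‖ ^ 2)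
      ∂(stdGaussian (HH 𝕜 r n)) = ((finrank ℝ 𝕜 * (n - r) : ℕ) : ℝ≥0∞) := by
  set W := Submodule.span 𝕜 (Set.range a)
  have hW : finrank 𝕜 W = r := by
    rw [finrank_span_eq_card ha]; simp
  have hW2 : finrank 𝕜 Wᗮ = n - r := by
    have := W.finrank_add_finrank_orthogonal
    rw [finrank_euclideanSpace_fin] at this
    omega
  have h5 := lintegral_normSq_starProjection Wᗮ
  rw [← map_snd_stdGaussian (r := r), lintegral_map
    (f := fun z : EE 𝕜 n => ENNReal.ofReal (‖Wᗮ.starProjection z‖ ^ 2))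
    (measurable_normSq.comp Wᗮ.starProjection.continuous.measurable)
    (Continuous.measurable (by fun_prop)), hW2] at h5
  rw [← h5]
  refine lintegral_congr fun ξ => ?_
  rw [bvec, map_add, Submodule.starProjection_orthogonal_apply_eq_zero (comb_mem _ _), zero_add]

theorem ae_not_mem (a : Fin r → EE 𝕜 n) (hr : r < n) (t : ℝ) :
    ∀ᵐ ξ ∂(stdGaussian (HH 𝕜 r n)), bvec t a ξ ∉ Submodule.span 𝕜 (Set.range a) := by
  set W := Submodule.span 𝕜 (Set.range a)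
  have hW : finrank 𝕜 W ≤ r := by
    have := finrank_range_le_card (R := 𝕜) a
    simpa [Set.finrank] using this
  have hne : W ≠ ⊤ := by
    intro h
    rw [h, finrank_top, finrank_euclideanSpace_fin] at hW
    omega
  have h0 := measure_submodule_eq_zero W hne
  rw [← compl_mem_ae_iff, ← map_snd_stdGaussian (r := r)] at h0
  have h1 := ae_of_ae_map (Continuous.measurable (by fun_prop)).aemeasurable h0
  filter_upwards [h1] with ξ hξ hb
  apply hξ
  have := W.sub_mem hb (comb_mem a ((t : 𝕜) • ξ.fst))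
  simpa [bvec] using this

theorem bayes_lower {X : Type*} [MeasurableSpace X] (μ : Measure X) [IsProbabilityMeasure μ]
    {ℓ : ℕ} (K : X → Submodule 𝕜 (EE 𝕜 n)) (hK : ∀ᵐ ω ∂μ, finrank 𝕜 (K ω) + ℓ = n)
    (hr : r ≤ ℓ) (h3 : 3 ≤ finrank ℝ 𝕜 * (ℓ + 1 - r))
    (est : X × (Fin r → EE 𝕜 n) × EE 𝕜 n → EE 𝕜 r) (hmeas : Measurable est)
    (hinv : ∀ ω, Inv (K ω) (fun y => est (ω, y))) :
    (r : ℝ≥0∞) * ((finrank ℝ 𝕜 : ℝ≥0∞) *
        ENNReal.ofReal (1 / ((finrank ℝ 𝕜 : ℝ) * ((ℓ + 1 - r : ℕ) : ℝ) - 2)))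
      ≤ ⨆ k : ℕ, ∫⁻ ω, ∫⁻ a, ∫⁻ ξ,
          ENNReal.ofReal (‖err (fun y => est (ω, y)) ((k : ℝ) + 1) a ξ‖ ^ 2)
          ∂(stdGaussian (HH 𝕜 r n)) ∂(Measure.pi fun _ : Fin r => stdGaussian (EE 𝕜 n)) ∂μ := by
  rcases r with _ | m
  · simp
  have hm0 : ∀ (k : ℕ) (j : Fin (m + 1)), M3
      (fun (ω : X) (a : Fin (m + 1) → EE 𝕜 n) (ξ : HH 𝕜 (m + 1) n) =>
        ENNReal.ofReal (‖err (fun y => est (ω, y)) ((k : ℝ) + 1) a ξ j‖ ^ 2)) := by
    intro k j
    exact (measurable_coord j).comp (measurable_err_param est hmeas _)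
  have hn : ∀ y : EE 𝕜 (m + 1), ENNReal.ofReal (‖y‖ ^ 2) = ∑ j, ENNReal.ofReal (‖y j‖ ^ 2) := by
    intro y
    rw [EuclideanSpace.norm_sq_eq, ENNReal.ofReal_sum_of_nonneg (fun i _ => sq_nonneg _)]
  have hsum : ∀ k : ℕ, ∫⁻ ω, ∫⁻ a, ∫⁻ ξ,
      ENNReal.ofReal (‖err (fun y => est (ω, y)) ((k : ℝ) + 1) a ξ‖ ^ 2)
      ∂(stdGaussian (HH 𝕜 (m + 1) n))
      ∂(Measure.pi fun _ : Fin (m + 1) => stdGaussian (EE 𝕜 n)) ∂μ = _ := fun k =>
    (lintegral_congr fun ω => lintegral_congr fun a => lintegral_congr fun ξ => hn _).trans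
      (M3.sum (fun j => hm0 k j) _ _ _)
  simp_rw [hsum]
  refine le_trans ?_ (le_trans (liminf_le_limsup (f := atTop)) limsup_le_iSup)
  refine le_trans ?_ (sum_liminf_le _)
  have hc : ∀ c : ℝ≥0∞, ((m + 1 : ℕ) : ℝ≥0∞) * c = ∑ _j : Fin (m + 1), c := by
    intro c; simp
  rw [hc]
  refine Finset.sum_le_sum fun j _ => ?_
  have e : ℓ + 1 - (m + 1) = ℓ - m := by omega
  rw [e] at h3 ⊢
  refine M3.fatou (fun k => hm0 k j) μ _ _ _ ?_
  filter_upwards [hK] with ω hω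
  exact coord_liminf (K ω) hω (by omega) h3 (fun y => est (ω, y))
    (hmeas.comp measurable_prodMk_left) (hinv ω) j

theorem core {X : Type*} [MeasurableSpace X] (μ : Measure X) [IsProbabilityMeasure μ]
    {ℓ : ℕ} (K : X → Submodule 𝕜 (EE 𝕜 n)) (hK : ∀ᵐ ω ∂μ, finrank 𝕜 (K ω) + ℓ = n)
    (hr : r ≤ ℓ) (hrn : r < n) (h3 : 3 ≤ finrank ℝ 𝕜 * (ℓ + 1 - r))
    (est : X × (Fin r → EE 𝕜 n) × EE 𝕜 n → EE 𝕜 r) (hmeas : Measurable est)
    (hinv : ∀ ω, Inv (K ω) (fun y => est (ω, y))) (C : ℝ≥0∞)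
    (hC : ∀ a b, LinearIndependent 𝕜 a → b ∉ Submodule.span 𝕜 (Set.range a) →
      ∫⁻ ω, ENNReal.ofReal (‖b - comb a (est (ω, a, b))‖ ^ 2) ∂μ ≤
        C * ENNReal.ofReal (‖(Submodule.span 𝕜 (Set.range a))ᗮ.starProjection b‖ ^ 2)) :
    ((finrank ℝ 𝕜 * (ℓ - r) : ℕ) : ℝ≥0∞) + ((finrank ℝ 𝕜 * (n - ℓ) : ℕ) : ℝ≥0∞) *
        (1 + (r : ℝ≥0∞) * ((finrank ℝ 𝕜 : ℝ≥0∞) *
          ENNReal.ofReal (1 / ((finrank ℝ 𝕜 : ℝ) * ((ℓ + 1 - r : ℕ) : ℝ) - 2))))
      ≤ C * ((finrank ℝ 𝕜 * (n - r) : ℕ) : ℝ≥0∞) := by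
  have hb := bayes_lower μ K hK hr h3 est hmeas hinv
  refine le_trans (add_le_add_right (mul_le_mul_right (add_le_add_right hb _) _) _) ?_
  rw [ENNReal.add_iSup, ENNReal.mul_iSup, ENNReal.add_iSup]
  refine iSup_le fun k => ?_
  set t : ℝ := (k : ℝ) + 1
  have hL : M3 (fun (ω : X) (a : Fin r → EE 𝕜 n) (ξ : HH 𝕜 r n) =>
      ENNReal.ofReal (‖comb a (err (fun y => est (ω, y)) t a ξ) + ξ.snd‖ ^ 2)) := by
    have h1 : Measurable (fun q : X × (Fin r → EE 𝕜 n) × HH 𝕜 r n =>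
        comb q.2.1 (err (fun y => est (q.1, y)) t q.2.1 q.2.2)) :=
      continuous_comb.measurable.comp ((measurable_fst.comp measurable_snd).prodMk
        (measurable_err_param est hmeas t))
    have h2 : Measurable (fun q : X × (Fin r → EE 𝕜 n) × HH 𝕜 r n => q.2.2.snd) := by
      have : Continuous (fun ξ : HH 𝕜 r n => ξ.snd) := by fun_prop
      exact this.measurable.comp (measurable_snd.comp measurable_snd)
    exact measurable_normSq.comp (h1.add h2)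
  calc _ = ∫⁻ ω, (((finrank ℝ 𝕜 * (ℓ - r) : ℕ) : ℝ≥0∞) + ((finrank ℝ 𝕜 * (n - ℓ) : ℕ) : ℝ≥0∞) *
        (1 + ∫⁻ a, ∫⁻ ξ, ENNReal.ofReal (‖err (fun y => est (ω, y)) t a ξ‖ ^ 2)
          ∂(stdGaussian (HH 𝕜 r n)) ∂(Measure.pi fun _ : Fin r => stdGaussian (EE 𝕜 n)))) ∂μ := by
        rw [lintegral_add_left measurable_const,
          lintegral_const_mul' _ _ (ENNReal.natCast_ne_top _), lintegral_add_left measurable_const]
        simp
    _ ≤ ∫⁻ ω, ∫⁻ a, ∫⁻ ξ, ENNReal.ofReal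
          (‖comb a (err (fun y => est (ω, y)) t a ξ) + ξ.snd‖ ^ 2)
          ∂(stdGaussian (HH 𝕜 r n)) ∂(Measure.pi fun _ : Fin r => stdGaussian (EE 𝕜 n)) ∂μ := by
        refine lintegral_mono_ae ?_
        filter_upwards [hK] with ω hω
        exact lossA (K ω) hω _ (hmeas.comp measurable_prodMk_left) (hinv ω) t
    _ = _ := hL.rotate _ _ _
    _ ≤ ∫⁻ _a, C * ((finrank ℝ 𝕜 * (n - r) : ℕ) : ℝ≥0∞)
          ∂(Measure.pi fun _ : Fin r => stdGaussian (EE 𝕜 n)) := by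
        refine lintegral_mono_ae ?_
        have hae := ae_linearIndependent (⊤ : Submodule 𝕜 (EE 𝕜 n)) r
          (by rw [finrank_top, finrank_euclideanSpace_fin]; omega)
        filter_upwards [hae] with a ha
        have ha' : LinearIndependent 𝕜 a := by simpa [Submodule.starProjection_top] using ha
        have hm5 : Measurable (fun ξ : HH 𝕜 r n => ENNReal.ofReal
            (‖(Submodule.span 𝕜 (Set.range a))ᗮ.starProjection (bvec t a ξ)‖ ^ 2)) := by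
          have h6 : Continuous (fun ξ : HH 𝕜 r n => bvec t a ξ) := by
            unfold bvec comb
            fun_prop
          exact measurable_normSq.comp
            ((Submodule.span 𝕜 (Set.range a))ᗮ.starProjection.continuous.comp h6).measurable
        rw [← upper a ha' t, ← lintegral_const_mul _ hm5]
        refine lintegral_mono_ae ?_
        filter_upwards [ae_not_mem a hrn t] with ξ hξ
        refine le_trans (le_of_eq ?_) (hC a _ ha' hξ)
        refine lintegral_congr fun ω => ?_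
        rw [← bvec_sub_comb (fun y => est (ω, y)) t a ξ]
    _ = _ := by simp

end Pool.Agent.P.MP_467638_an
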