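import Pool.Agent.P.MP_467638_an.Adapt

set_option autoImplicit false

open Matrix
open scoped ComplexOrder MatrixOrder

namespace Pool.Agent.P.MP_467638_an.Cv

variable {𝕜 : Type} [RCLike 𝕜] {n m ℓ d p : ℕ}

theorem mul_eq_of_gram {k : ℕ} {A : Matrix (Fin n) (Fin m) 𝕜} {S : Matrix (Fin k) (Fin m) 𝕜}
    (h : Sᴴ * S = Aᴴ * A) {Z : Matrix (Fin m) (Fin p) 𝕜} (hZ : S * Z = 0) : A * Z = 0 := by
  rw [← conjTranspose_mul_self_eq_zero, conjTranspose_mul, Matrix.mul_assoc, ← Matrix.mul_assoc Aᴴ,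
    ← h, Matrix.mul_assoc, hZ, Matrix.mul_zero, Matrix.mul_zero]

theorem exists_pinv (A : Matrix (Fin n) (Fin m) 𝕜) : ∃ P, IsPinv A P := by
  obtain ⟨S, h1, h2⟩ := Ad.exists_factor A rfl
  obtain ⟨G, hG, a1⟩ : ∃ G : Matrix (Fin A.rank) (Fin A.rank) 𝕜, Gᴴ = G ∧ G * (S * Sᴴ) = 1 :=
    ⟨(S * Sᴴ)⁻¹, by rw [conjTranspose_nonsing_inv, conjTranspose_mul, conjTranspose_conjTranspose],
      nonsing_inv_mul _ h2⟩
  have a2 : ∀ {k : ℕ} (Z : Matrix (Fin A.rank) (Fin k) 𝕜), G * (S * (Sᴴ * Z)) = Z := fun Z => by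
    rw [← Matrix.mul_assoc S, ← Matrix.mul_assoc, a1, Matrix.one_mul]
  have a3 : ∀ {k : ℕ} (Z : Matrix (Fin A.rank) (Fin k) 𝕜), S * (Sᴴ * (G * Z)) = Z := fun Z => by
    rw [← Matrix.mul_assoc S, ← Matrix.mul_assoc, mul_eq_one_comm.1 a1, Matrix.one_mul]
  have a4 : A * (Sᴴ * (G * S)) = A := by
    have := mul_eq_of_gram h1 (Z := 1 - Sᴴ * (G * S))
      (by rw [Matrix.mul_sub, a3, Matrix.mul_one, sub_self])
    rw [Matrix.mul_sub, Matrix.mul_one, sub_eq_zero] at this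
    exact this.symm
  have a5 : Sᴴ * (G * (G * (S * Aᴴ))) * A = Sᴴ * (G * S) := by
    simp only [Matrix.mul_assoc]
    rw [← h1, a2]
  refine ⟨Sᴴ * (G * (G * (S * Aᴴ))), ?_, ?_, ?_, ?_⟩
  · rw [Matrix.mul_assoc, a5, a4]
  · rw [a5]
    simp only [Matrix.mul_assoc]
    rw [a2]
  · simp only [conjTranspose_mul, conjTranspose_conjTranspose, hG, Matrix.mul_assoc]
  · rw [a5]
    simp only [conjTranspose_mul, conjTranspose_conjTranspose, hG, Matrix.mul_assoc]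

theorem pinv_unique {A : Matrix (Fin n) (Fin m) 𝕜} {P P' : Matrix (Fin m) (Fin n) 𝕜}
    (h : IsPinv A P) (h' : IsPinv A P') : P = P' := by
  obtain ⟨a1, a2, a3, a4⟩ := h
  obtain ⟨b1, b2, b3, b4⟩ := h'
  have e1 : A * P = A * P' := by
    calc A * P = (A * P' * (A * P))ᴴ := by rw [← Matrix.mul_assoc, b1, a3]
      _ = A * P' := by rw [conjTranspose_mul, a3, b3, ← Matrix.mul_assoc, a1]
  have e2 : P * A = P' * A := by
    calc P * A = (P * A * (P' * A))ᴴ := by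
          rw [Matrix.mul_assoc P, ← Matrix.mul_assoc A, b1, a4]
      _ = P' * A := by rw [conjTranspose_mul, a4, b4, Matrix.mul_assoc P', ← Matrix.mul_assoc A, a1]
  calc P = P * A * P := a2.symm
    _ = P' * A * P' := by rw [e2, Matrix.mul_assoc, e1, Matrix.mul_assoc]
    _ = P' := b2

theorem IsPinv.normal {A : Matrix (Fin n) (Fin m) 𝕜} {P : Matrix (Fin m) (Fin n) 𝕜}
    (h : IsPinv A P) (B : Matrix (Fin n) (Fin p) 𝕜) : Aᴴ * (B - A * (P * B)) = 0 := by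
  have h1 : Aᴴ * (A * P) = Aᴴ := by
    rw [← h.2.2.1, ← conjTranspose_mul, h.1]
  rw [Matrix.mul_sub, ← Matrix.mul_assoc A, ← Matrix.mul_assoc, h1, sub_self]

theorem gram_unit {M N : Matrix (Fin n) (Fin m) 𝕜} (h : Mᴴ * M = Nᴴ * N) :
    ∃ U ∈ unitaryGroup (Fin n) 𝕜, U * M = N := by
  obtain ⟨P, hP⟩ := exists_pinv M
  have h1 : N * P * M = N := by
    have := mul_eq_of_gram h (Z := 1 - P * M)
      (by rw [Matrix.mul_sub, ← Matrix.mul_assoc, hP.1, Matrix.mul_one, sub_self])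
    rw [Matrix.mul_sub, Matrix.mul_one, sub_eq_zero] at this
    rw [Matrix.mul_assoc, ← this]
  have h2 : ∀ (Z : Matrix (Fin n) (Fin m) 𝕜) x y,
      inner 𝕜 (toEuclideanLin Z x) (toEuclideanLin Z y) = inner 𝕜 x (toEuclideanLin (Zᴴ * Z) y) :=
    fun Z x y => by
      rw [← LinearMap.adjoint_inner_right, ← toEuclideanLin_conjTranspose_eq_adjoint,
        toLpLin_mul_same]
      rfl
  have h3 : ∀ x, toEuclideanLin (N * P) (toEuclideanLin M x) = toEuclideanLin N x := fun x => by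
    conv_rhs => rw [← h1, toLpLin_mul_same]
    rfl
  have h5 : ∀ u v : LinearMap.range (toEuclideanLin M),
      inner 𝕜 ((toEuclideanLin (N * P)).domRestrict _ u) ((toEuclideanLin (N * P)).domRestrict _ v) =
        inner 𝕜 u v := by
    rintro ⟨_, x, rfl⟩ ⟨_, y, rfl⟩
    simp only [LinearMap.domRestrict_apply, Submodule.coe_inner]
    rw [h3, h3, h2, h2, h]
  let f : LinearMap.range (toEuclideanLin M) →ₗᵢ[𝕜] EuclideanSpace 𝕜 (Fin n) :=
    ⟨(toEuclideanLin (N * P)).domRestrict (LinearMap.range (toEuclideanLin M)), fun u => by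
      rw [norm_eq_sqrt_re_inner (𝕜 := 𝕜), h5, ← norm_eq_sqrt_re_inner]⟩
  let g := f.extend.toLinearIsometryEquiv rfl
  let b := EuclideanSpace.basisFun (Fin n) 𝕜
  refine ⟨_, g.toMatrix_mem_unitaryGroup b b, toEuclideanLin.injective ?_⟩
  ext1 x
  rw [toLpLin_mul_same, LinearMap.comp_apply, ← h3]
  have h4 := f.extend_apply ⟨toEuclideanLin M x, x, rfl⟩
  have h6 : toEuclideanLin (LinearMap.toMatrix b.toBasis b.toBasis g.toLinearEquiv.toLinearMap) =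
      g.toLinearEquiv.toLinearMap := by
    rw [toEuclideanLin_eq_toLin_orthonormal, toLin_toMatrix]
  exact (LinearMap.congr_fun h6 _).trans h4

theorem exists_frame {J : Matrix (Fin n) (Fin ℓ) 𝕜} (hJ : Jᴴ * J = 1)
    (Ω : Matrix (Fin n) (Fin ℓ) 𝕜) :
    ∃ (Q : Matrix (Fin n) (Fin ℓ) 𝕜) (M : Matrix (Fin ℓ) (Fin ℓ) 𝕜), Qᴴ * Q = 1 ∧ Ω = Q * M := by
  obtain ⟨M, hM⟩ :=
    CStarAlgebra.nonneg_iff_eq_star_mul_self.mp (posSemidef_conjTranspose_mul_self Ω).nonneg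
  obtain ⟨V, hV, h⟩ := gram_unit (M := J * M) (N := Ω) (by
    rw [conjTranspose_mul, Matrix.mul_assoc, ← Matrix.mul_assoc Jᴴ, hJ, Matrix.one_mul, hM]
    rfl)
  refine ⟨V * J, M, ?_, by rw [Matrix.mul_assoc, h]⟩
  have : Vᴴ * V = 1 := hV.1
  rw [conjTranspose_mul, Matrix.mul_assoc, ← Matrix.mul_assoc Vᴴ, this, Matrix.one_mul, hJ]

theorem exists_proj (M : Matrix (Fin n) (Fin m) 𝕜) :
    ∃ Y : Matrix (Fin m) (Fin n) 𝕜, (M * Y)ᴴ = M * Y ∧ M * Y * M = M :=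
  (exists_pinv M).imp fun _ h => ⟨h.2.2.1, h.1⟩

theorem refl_mem {E : Matrix (Fin n) (Fin n) 𝕜} (h1 : Eᴴ = E) (h2 : E * E = E) :
    1 - (E + E) ∈ unitaryGroup (Fin n) 𝕜 := by
  rw [mem_unitaryGroup_iff, star_eq_conjTranspose, conjTranspose_sub, conjTranspose_add, h1,
    conjTranspose_one]
  simp only [mul_sub, sub_mul, mul_add, add_mul, h2, mul_one, one_mul]
  abel

theorem exists_flip (A : Matrix (Fin n) (Fin d) 𝕜) : ∃ S ∈ unitaryGroup (Fin n) 𝕜, S * A = -A ∧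
    ∀ W : Matrix (Fin n) (Fin p) 𝕜, Aᴴ * W = 0 → S * W = W := by
  obtain ⟨Y, h1, h2⟩ := exists_proj A
  refine ⟨_, refl_mem h1 (by rw [← Matrix.mul_assoc, h2]), ?_, fun W hW => ?_⟩
  · rw [Matrix.sub_mul, Matrix.add_mul, h2, Matrix.one_mul]
    abel
  · have : A * Y * W = 0 := by
      rw [← h1, conjTranspose_mul, Matrix.mul_assoc, hW, Matrix.mul_zero]
    rw [Matrix.sub_mul, Matrix.add_mul, this, Matrix.one_mul, add_zero, sub_zero]

theorem exists_T {Q : Matrix (Fin n) (Fin ℓ) 𝕜} (hQ : Qᴴ * Q = 1) (A : Matrix (Fin n) (Fin d) 𝕜) :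
    ∃ T ∈ unitaryGroup (Fin n) 𝕜, T * A = A ∧
      ∀ (W : Matrix (Fin n) (Fin p) 𝕜) (C : Matrix (Fin d) (Fin p) 𝕜), Aᴴ * W = 0 →
        (Qᴴ * A)ᴴ * (Qᴴ * W - Qᴴ * A * C) = 0 → Qᴴ * (T * W + A * (C + C)) = Qᴴ * W := by
  obtain ⟨S, hS, s1, s2⟩ := exists_flip (p := p) A
  obtain ⟨Y1, a1, a2⟩ := exists_proj (Q * (Qᴴ * A))
  obtain ⟨Y2, b1, b2⟩ := exists_proj (A - Q * (Qᴴ * A))
  have q1 : ∀ {k : ℕ} (Z : Matrix (Fin ℓ) (Fin k) 𝕜), Qᴴ * (Q * Z) = Z := fun Z => by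
    rw [← Matrix.mul_assoc, hQ, Matrix.one_mul]
  set E1 := Q * (Qᴴ * A) * Y1 with hE1
  set E2 := (A - Q * (Qᴴ * A)) * Y2 with hE2
  have c0 : Qᴴ * (A - Q * (Qᴴ * A)) = 0 := by rw [Matrix.mul_sub, q1, sub_self]
  have c1 : Qᴴ * E2 = 0 := by rw [hE2, ← Matrix.mul_assoc, c0, Matrix.zero_mul]
  have c2 : E2 * Q = 0 := by
    rw [← b1, ← conjTranspose_conjTranspose Q, ← conjTranspose_mul, c1, conjTranspose_zero]
  have c3 : E2 * E1 = 0 := by
    rw [hE1, Matrix.mul_assoc Q, ← Matrix.mul_assoc, c2, Matrix.zero_mul]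
  have c4 : E1 * E2 = 0 := by rw [← a1, ← b1, ← conjTranspose_mul, c3, conjTranspose_zero]
  have c5 : E1 = Y1ᴴ * ((Qᴴ * A)ᴴ * Qᴴ) := by rw [← a1, hE1, conjTranspose_mul, conjTranspose_mul]
  have c6 : E1 * A = Q * (Qᴴ * A) := by
    rw [← a2, ← sub_eq_zero, ← Matrix.mul_sub, c5, Matrix.mul_assoc, Matrix.mul_assoc, c0,
      Matrix.mul_zero, Matrix.mul_zero]
  have c7 : E2 * A = A - Q * (Qᴴ * A) := by
    rw [← b2, Matrix.mul_sub, ← Matrix.mul_assoc E2, c2, Matrix.zero_mul, sub_zero]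
  have hR := refl_mem (E := E1 + E2) (by rw [conjTranspose_add, a1, b1]) (by
    have e1 : E1 * E1 = E1 := by
      conv_lhs => rw [hE1, ← Matrix.mul_assoc, ← hE1, a2]
    have e2 : E2 * E2 = E2 := by
      conv_lhs => rw [hE2, ← Matrix.mul_assoc, ← hE2, b2]
    rw [mul_add, add_mul, add_mul, c3, c4, e1, e2, add_zero, zero_add])
  refine ⟨_, mul_mem hR hS, ?_, fun W C hW hC => ?_⟩
  · rw [Matrix.mul_assoc, s1, Matrix.mul_neg]
    simp only [Matrix.sub_mul, Matrix.add_mul, c6, c7, Matrix.one_mul]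
    abel
  · have c8 : E1 * W = Q * (Qᴴ * A) * C := by
      rw [← c6, ← sub_eq_zero, Matrix.mul_assoc E1 A, ← Matrix.mul_sub, c5, Matrix.mul_assoc,
        Matrix.mul_assoc, Matrix.mul_sub Qᴴ, ← Matrix.mul_assoc Qᴴ A, hC, Matrix.mul_zero]
    have c9 : Qᴴ * (E2 * W) = 0 := by rw [← Matrix.mul_assoc, c1, Matrix.zero_mul]
    rw [Matrix.mul_assoc, s2 W hW]
    simp only [Matrix.sub_mul, Matrix.add_mul, Matrix.mul_add, Matrix.mul_sub, c8, c9,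
      Matrix.one_mul, Matrix.mul_assoc, q1]
    abel

end Pool.Agent.P.MP_467638_an.Cv
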