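import Pool.Agent.P.MP_467638_an.CvA

set_option autoImplicit false

open MeasureTheory Matrix Set Metric Module
open scoped ENNReal

namespace Pool.Agent.P.MP_467638_an.Cv

section group

variable (G : Type*) [Group G] [TopologicalSpace G] [IsTopologicalGroup G] [CompactSpace G]
  [MeasurableSpace G] [BorelSpace G]

theorem exists_haar : ∃ ν : Measure G,
    IsProbabilityMeasure ν ∧ ν.IsMulLeftInvariant ∧ ν.IsMulRightInvariant := by
  let ν : Measure G := Measure.haarMeasure ⊤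
  have h1 : IsProbabilityMeasure ν := ⟨Measure.haarMeasure_self (K₀ := ⊤)⟩
  refine ⟨ν, h1, inferInstance, ⟨fun g => ?_⟩⟩
  have h2 : IsProbabilityMeasure (ν.map (· * g)) :=
    Measure.isProbabilityMeasure_map (measurable_mul_const g).aemeasurable
  exact Measure.isHaarMeasure_eq_of_isProbabilityMeasure _ _

variable {G}

theorem avg_le [SecondCountableTopology G] (ν : Measure G) [IsProbabilityMeasure ν]
    [ν.IsMulRightInvariant] (H : Subgroup G) (hH : IsClosed (H : Set G)) {Φ Ψ : G → ℝ≥0∞}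
    (hΦ : Measurable Φ) (hΨ : Measurable Ψ)
    (h : ∀ U, ∃ g ∈ H, ∀ k ∈ H, 2 * Φ (U * k) ≤ Ψ (U * k) + Ψ (U * (g * k))) :
    ∫⁻ U, Φ U ∂ν ≤ ∫⁻ U, Ψ U ∂ν := by
  have : CompactSpace H := isCompact_iff_compactSpace.1 hH.isCompact
  obtain ⟨η, _, _, -⟩ := exists_haar H
  have hm : Measurable fun q : G × H => q.1 * q.2.1 :=
    measurable_fst.mul (measurable_subtype_coe.comp measurable_snd)
  have key : ∀ F : G → ℝ≥0∞, Measurable F →
      ∫⁻ U, F U ∂ν = ∫⁻ U, ∫⁻ k : H, F (U * k.1) ∂η ∂ν := fun F hF => by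
    rw [lintegral_lintegral_swap (f := fun U (k : H) => F (U * k.1)) (hF.comp hm).aemeasurable]
    simp only [lintegral_mul_right_eq_self F, lintegral_const, measure_univ, mul_one]
  rw [key Φ hΦ, key Ψ hΨ]
  refine lintegral_mono fun U => ?_
  obtain ⟨g, hg, h⟩ := h U
  have h1 : Measurable fun k : H => Ψ (U * k.1) := (hΨ.comp hm).comp measurable_prodMk_left
  rw [← ENNReal.mul_le_mul_iff_right (a := 2) (by simp) (by simp),
    ← lintegral_const_mul' _ _ (by simp), two_mul]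
  nth_rw 2 [← lintegral_mul_left_eq_self (fun k : H => Ψ (U * k.1)) ⟨g, hg⟩]
  rw [← lintegral_add_left h1]
  exact lintegral_mono fun k => h k.1 k.2

end group

theorem ball_step {E : Type*} [NormedAddCommGroup E] [NormedSpace ℝ E] [FiniteDimensional ℝ E]
    [MeasurableSpace E] [BorelSpace E] (lam : Measure E) [lam.IsAddHaarMeasure]
    {F₁ F₂ : E → ℝ≥0∞} (h₁ : Measurable F₁) (s : E) (v : ℝ≥0∞)
    (h : ∀ x, 2 * v ≤ F₁ x + F₂ (x + s)) {T : ℝ} (hT : 0 < T) :
    2 * (Ad.wt (finrank ℝ E) T ‖s‖ * v * lam (closedBall 0 T)) ≤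
      ∫⁻ x in closedBall 0 T, F₁ x ∂lam + ∫⁻ x in closedBall 0 T, F₂ x ∂lam := by
  simp only [← lintegral_indicator measurableSet_closedBall]
  rw [← lintegral_add_right_eq_self (fun x => (closedBall (0 : E) T).indicator F₂ x) s,
    ← lintegral_add_left (h₁.indicator measurableSet_closedBall)]
  have h3 : Ad.wt (finrank ℝ E) T ‖s‖ * lam (closedBall 0 T) ≤ lam (closedBall 0 (T - ‖s‖)) := by
    unfold Ad.wt
    split_ifs with h
    · rw [← lam.addHaar_closedBall_mul 0 (sub_nonneg.2 ((div_le_one hT).2 h)) hT.le, sub_mul,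
        one_mul, div_mul_cancel₀ _ hT.ne']
    · simp
  rw [mul_right_comm, mul_comm _ v, ← mul_assoc]
  refine (mul_le_mul_right h3 _).trans ?_
  rw [← lintegral_indicator_const measurableSet_closedBall]
  refine lintegral_mono fun x => ?_
  by_cases hx : x ∈ closedBall (0 : E) (T - ‖s‖)
  swap
  · simp [indicator_of_notMem hx]
  have h4 := mem_closedBall_zero_iff.1 hx
  rw [indicator_of_mem hx, indicator_of_mem (mem_closedBall_zero_iff.2 (by
      linarith [norm_nonneg s])), indicator_of_mem (mem_closedBall_zero_iff.2 (by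
      linarith [norm_add_le x s]))]
  exact h x

variable {𝕜 : Type} [RCLike 𝕜] {n m ℓ d p : ℕ}

instance : MeasurableSpace (Matrix (Fin n) (Fin m) 𝕜) := MeasurableSpace.pi

instance : SecondCountableTopology (Matrix (Fin n) (Fin m) 𝕜) :=
  inferInstanceAs (SecondCountableTopology (Fin n → Fin m → 𝕜))

instance : BorelSpace (Matrix (Fin n) (Fin m) 𝕜) :=
  inferInstanceAs (BorelSpace (Fin n → Fin m → 𝕜))

instance : PolishSpace (Matrix (Fin n) (Fin m) 𝕜) :=
  inferInstanceAs (PolishSpace (Fin n → Fin m → 𝕜))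

section meas

variable {α : Type*} [MeasurableSpace α]

theorem meas_mul {f : α → Matrix (Fin n) (Fin m) 𝕜} {g : α → Matrix (Fin m) (Fin p) 𝕜}
    (hf : Measurable f) (hg : Measurable g) : Measurable fun x => f x * g x :=
  (continuous_fst.matrix_mul continuous_snd).measurable.comp (hf.prodMk hg)

theorem meas_conj {f : α → Matrix (Fin n) (Fin m) 𝕜} (hf : Measurable f) :
    Measurable fun x => (f x)ᴴ :=
  continuous_id.matrix_conjTranspose.measurable.comp hf

theorem meas_pinv {P : Matrix (Fin n) (Fin m) 𝕜 → Matrix (Fin m) (Fin n) 𝕜}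
    (hP : ∀ M, IsPinv M (P M)) : Measurable P := fun S hS => by
  have a := continuous_fst (X := Matrix (Fin n) (Fin m) 𝕜) (Y := Matrix (Fin m) (Fin n) 𝕜)
  have b := continuous_snd (X := Matrix (Fin n) (Fin m) 𝕜) (Y := Matrix (Fin m) (Fin n) 𝕜)
  have hc : IsClosed {q : Matrix (Fin n) (Fin m) 𝕜 × Matrix (Fin m) (Fin n) 𝕜 | IsPinv q.1 q.2} :=
    (isClosed_eq ((a.matrix_mul b).matrix_mul a) a).inter
      ((isClosed_eq ((b.matrix_mul a).matrix_mul b) b).inter
        ((isClosed_eq (a.matrix_mul b).matrix_conjTranspose (a.matrix_mul b)).inter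
          (isClosed_eq (b.matrix_mul a).matrix_conjTranspose (b.matrix_mul a))))
  have h1 := (hc.measurableSet.inter (measurable_snd hS)).image_of_continuousOn_injOn
    a.continuousOn fun q hq q' hq' e => Prod.ext e (pinv_unique hq.1 (e ▸ hq'.1))
  refine (congrArg MeasurableSet ?_).mp h1
  ext M
  refine ⟨?_, fun h => ⟨(M, P M), ⟨hP M, h⟩, rfl⟩⟩
  rintro ⟨q, ⟨h2, h3⟩, rfl⟩
  rwa [mem_preimage, pinv_unique (hP q.1) h2]

end meas

instance : CompactSpace (unitaryGroup (Fin n) 𝕜) := by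
  have := FiniteDimensional.proper_rclike 𝕜 𝕜
  have h : IsClosed (unitaryGroup (Fin n) 𝕜 : Set (Matrix (Fin n) (Fin n) 𝕜)) := isClosed_unitary
  refine isCompact_iff_compactSpace.1 ((isCompact_univ_pi fun _ : Fin n => isCompact_univ_pi
    fun _ : Fin n => isCompact_closedBall (0 : 𝕜) 1).of_isClosed_subset h
    fun U hU i _ j _ => ?_)
  exact mem_closedBall_zero_iff.2 (entry_norm_bound_of_unitary hU i j)

theorem frame_int (ν : Measure (unitaryGroup (Fin n) 𝕜)) [IsProbabilityMeasure ν]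
    [ν.IsMulLeftInvariant] (η : Measure (Matrix (Fin n) (Fin ℓ) 𝕜)) [IsProbabilityMeasure η]
    (h1 : ∀ᵐ Q ∂η, Qᴴ * Q = 1) (h2 : ∀ U ∈ unitaryGroup (Fin n) 𝕜, η.map (fun Q => U * Q) = η)
    {f : Matrix (Fin n) (Fin ℓ) 𝕜 → ℝ≥0∞} (hf : Measurable f) {Q : Matrix (Fin n) (Fin ℓ) 𝕜}
    (hQ : Qᴴ * Q = 1) : ∫⁻ Z, f Z ∂η = ∫⁻ U, f (U.1ᴴ * Q) ∂ν := by
  have hm : Measurable fun q : unitaryGroup (Fin n) 𝕜 × Matrix (Fin n) (Fin ℓ) 𝕜 =>
      f (q.1.1ᴴ * q.2) :=
    hf.comp (meas_mul (meas_conj (measurable_subtype_coe.comp measurable_fst)) measurable_snd)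
  calc ∫⁻ Z, f Z ∂η = ∫⁻ _U, ∫⁻ Z, f Z ∂η ∂ν := by simp
    _ = ∫⁻ U, ∫⁻ Z, f (U.1ᴴ * Z) ∂η ∂ν := lintegral_congr fun U => by
        conv_lhs => rw [← h2 _ (Unitary.star_mem U.2)]
        exact lintegral_map hf (meas_mul measurable_const measurable_id')
    _ = ∫⁻ Z, ∫⁻ U, f (U.1ᴴ * Z) ∂ν ∂η := lintegral_lintegral_swap hm.aemeasurable
    _ = ∫⁻ _Z, ∫⁻ U, f (U.1ᴴ * Q) ∂ν ∂η := by
        refine lintegral_congr_ae (h1.mono fun Z hZ => ?_)
        obtain ⟨V, hV, rfl⟩ := gram_unit (hQ.trans hZ.symm)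
        have h3 : Vᴴ * V = 1 := hV.1
        dsimp only
        rw [← lintegral_mul_left_eq_self _ (⟨V, hV⟩ : unitaryGroup (Fin n) 𝕜)]
        refine lintegral_congr fun U => ?_
        rw [Submonoid.coe_mul, conjTranspose_mul, Matrix.mul_assoc, ← Matrix.mul_assoc Vᴴ, h3,
          Matrix.one_mul]
    _ = _ := by simp

end Pool.Agent.P.MP_467638_an.Cv
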