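import Pool.Agent.P.MP_467638_an.CvM

set_option autoImplicit false

open MeasureTheory Matrix Set Metric Module Filter
open scoped ENNReal

namespace Pool.Agent.P.MP_467638_an.Cv

variable {𝕜 : Type} [RCLike 𝕜] {n ℓ d p : ℕ}

instance : SecondCountableTopology (unitaryGroup (Fin n) 𝕜) :=
  inferInstanceAs (SecondCountableTopology (unitaryGroup (Fin n) 𝕜 : Set (Matrix (Fin n) (Fin n) 𝕜)))

/-- The comparison for one fixed embedding and one radius. -/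
theorem fixed_le (ν : Measure (unitaryGroup (Fin n) 𝕜)) [IsProbabilityMeasure ν]
    [ν.IsMulRightInvariant] (lam : Measure (Fin d → Fin p → 𝕜)) [lam.IsAddHaarMeasure]
    {A₀ : Matrix (Fin n) (Fin d) 𝕜} {W : Matrix (Fin n) (Fin p) 𝕜} (hW : A₀ᴴ * W = 0)
    {L₀ L : Matrix (Fin n) (Fin p) 𝕜 → ℝ≥0∞} (hL₀ : Measurable L₀) (hL : Measurable L)
    (hc : ∀ E F, 2 * L₀ E ≤ L (E + F) + L (E - F))
    (hU : ∀ U ∈ unitaryGroup (Fin n) 𝕜, ∀ E, L (U * E) = L E)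
    {c : Matrix (Fin n) (Fin ℓ) 𝕜 → Matrix (Fin d) (Fin p) 𝕜} (hcm : Measurable c)
    (hn : ∀ Z, (Zᴴ * A₀)ᴴ * (Zᴴ * W - Zᴴ * A₀ * c Z) = 0)
    {Q : Matrix (Fin n) (Fin ℓ) 𝕜} (hQ : Qᴴ * Q = 1)
    {e : Matrix (Fin n) (Fin d) 𝕜 × Matrix (Fin ℓ) (Fin p) 𝕜 → Matrix (Fin d) (Fin p) 𝕜}
    (he : Measurable e) {T : ℝ} (hT : 0 < T) :
    ∫⁻ U, Ad.wt (finrank ℝ (Fin d → Fin p → 𝕜)) T ‖of.symm (c (U.1ᴴ * Q) + c (U.1ᴴ * Q))‖ *
        L₀ (W - A₀ * c (U.1ᴴ * Q)) * lam (closedBall 0 T) ∂ν ≤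
      ∫⁻ U, ∫⁻ Y in closedBall 0 T, L (U.1 * (W + A₀ * of Y) -
        U.1 * A₀ * e (U.1 * A₀, Qᴴ * (U.1 * (W + A₀ * of Y)))) ∂lam ∂ν := by
  have m1 : Measurable fun U : unitaryGroup (Fin n) 𝕜 => c (U.1ᴴ * Q) :=
    hcm.comp (meas_mul (meas_conj measurable_subtype_coe) measurable_const)
  have m2 : Measurable fun q : unitaryGroup (Fin n) 𝕜 × (Fin d → Fin p → 𝕜) => q.1.1 :=
    measurable_subtype_coe.comp measurable_fst
  have m3 : Measurable fun q : unitaryGroup (Fin n) 𝕜 × (Fin d → Fin p → 𝕜) =>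
      q.1.1 * (W + A₀ * of q.2) :=
    meas_mul m2 (measurable_const.add (meas_mul measurable_const measurable_snd))
  have m4 := meas_mul m2 (measurable_const (a := A₀))
  have m5 : M2 fun (U : unitaryGroup (Fin n) 𝕜) (Y : Fin d → Fin p → 𝕜) =>
      L (U.1 * (W + A₀ * of Y) - U.1 * A₀ * e (U.1 * A₀, Qᴴ * (U.1 * (W + A₀ * of Y)))) :=
    hL.comp (m3.sub (meas_mul m4 (he.comp (m4.prodMk (meas_mul measurable_const m3)))))
  have m6 : Measurable fun U : unitaryGroup (Fin n) 𝕜 => of.symm (c (U.1ᴴ * Q) + c (U.1ᴴ * Q)) :=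
    m1.add m1
  let H : Subgroup (unitaryGroup (Fin n) 𝕜) :=
    { carrier := {h | h.1 * A₀ = A₀}
      mul_mem' := fun {a b} ha hb => by
        rw [mem_ofPred, Submonoid.coe_mul, Matrix.mul_assoc, hb, ha]
      one_mem' := Matrix.one_mul _
      inv_mem' := fun {a} ha => by
        have h1 : (a⁻¹).1 * a.1 = 1 := congrArg Subtype.val (inv_mul_cancel a)
        rw [mem_ofPred]
        conv_lhs => rw [← ha, ← Matrix.mul_assoc, h1, Matrix.one_mul] }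
  refine avg_le ν H (isClosed_eq (continuous_subtype_val.matrix_mul continuous_const)
    continuous_const) ((((Ad.measurable_wt _ T).comp m6.norm).mul
      (hL₀.comp (measurable_const.sub (meas_mul measurable_const m1)))).mul_const _)
    (m5.int _) fun U => ?_
  obtain ⟨R, hR, r1, r2⟩ := exists_T (p := p) hQ (U.1 * A₀)
  obtain ⟨S, hS, s1, s2⟩ := exists_flip (p := p) A₀
  have u1 : U.1ᴴ * U.1 = 1 := U.2.1
  refine ⟨U⁻¹ * (⟨R, hR⟩ * U), ?_, fun k hk => ?_⟩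
  · change U.1ᴴ * (R * U.1) * A₀ = A₀
    rw [Matrix.mul_assoc, Matrix.mul_assoc, r1, ← Matrix.mul_assoc, u1, Matrix.one_mul]
  have h1 : U * (U⁻¹ * (⟨R, hR⟩ * U) * k) = ⟨R, hR⟩ * (U * k) := by group
  have h2 : (U * k).1 * A₀ = U.1 * A₀ := by rw [Submonoid.coe_mul, Matrix.mul_assoc, hk]
  rw [h1]
  generalize U * k = V at h2 ⊢
  rw [← h2] at r1 r2
  have v1 : V.1ᴴ * V.1 = 1 := V.2.1
  set C := c (V.1ᴴ * Q) with hC
  have h3 : Qᴴ * (R * (V.1 * W) + V.1 * A₀ * (C + C)) = Qᴴ * (V.1 * W) := by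
    refine r2 _ _ ?_ ?_
    · rw [conjTranspose_mul, Matrix.mul_assoc, ← Matrix.mul_assoc V.1ᴴ, v1, Matrix.one_mul, hW]
    · have := hn (V.1ᴴ * Q)
      rwa [conjTranspose_mul V.1ᴴ, conjTranspose_conjTranspose, Matrix.mul_assoc Qᴴ V.1 A₀,
        Matrix.mul_assoc Qᴴ V.1 W] at this
  refine ball_step lam (m5.fix V) _ _ (fun Y => ?_) hT
  have h4 : (⟨R, hR⟩ * V : unitaryGroup (Fin n) 𝕜).1 * A₀ = V.1 * A₀ := by
    rw [Submonoid.coe_mul, Matrix.mul_assoc, r1]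
  have h5 : Qᴴ * ((⟨R, hR⟩ * V : unitaryGroup (Fin n) 𝕜).1 * (W + A₀ * of (Y + of.symm (C + C)))) =
      Qᴴ * (V.1 * (W + A₀ * of Y)) := by
    rw [Matrix.mul_add, ← Matrix.mul_assoc _ A₀, h4, Submonoid.coe_mul, Matrix.mul_assoc R,
      show of (Y + of.symm (C + C)) = (C + C) + of Y from add_comm _ _, Matrix.mul_add _ (C + C),
      ← add_assoc, Matrix.mul_add, h3, Matrix.mul_add V.1, Matrix.mul_add, Matrix.mul_assoc V.1]
  rw [h5]
  nth_rw 2 [h4]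
  set E := e (V.1 * A₀, Qᴴ * (V.1 * (W + A₀ * of Y)))
  rw [Matrix.mul_assoc V.1, Matrix.mul_assoc _ A₀ E, ← Matrix.mul_sub, ← Matrix.mul_sub, hU _ V.2,
    hU _ (Subtype.prop _), ← hU S hS (W + A₀ * of (Y + _) - _)]
  refine (hc _ (A₀ * (of Y + C - E))).trans_eq ?_
  congr 2
  · simp only [Matrix.mul_add, Matrix.mul_sub]
    abel
  · rw [show of (Y + of.symm (C + C)) = of Y + (C + C) from rfl]
    simp only [Matrix.mul_add, Matrix.mul_sub, ← Matrix.mul_assoc, s1, s2 W hW, Matrix.neg_mul]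
    abel

theorem core (A₀ : Matrix (Fin n) (Fin d) 𝕜) (B₀ : Matrix (Fin n) (Fin p) 𝕜)
    {L₀ L : Matrix (Fin n) (Fin p) 𝕜 → ℝ≥0∞} (hL₀ : Measurable L₀) (hL : Measurable L)
    (hc : ∀ E F, 2 * L₀ E ≤ L (E + F) + L (E - F))
    (hU : ∀ U ∈ unitaryGroup (Fin n) 𝕜, ∀ E, L (U * E) = L E)
    (η : Measure (Matrix (Fin n) (Fin ℓ) 𝕜)) [IsProbabilityMeasure η]
    (h1 : ∀ᵐ Q ∂η, Qᴴ * Q = 1) (h2 : ∀ U ∈ unitaryGroup (Fin n) 𝕜, η.map (fun Q => U * Q) = η)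
    {pinv : Matrix (Fin ℓ) (Fin d) 𝕜 → Matrix (Fin d) (Fin ℓ) 𝕜} (hp : ∀ M, IsPinv M (pinv M))
    {X : Type} [MeasurableSpace X] (μ : Measure X) [IsProbabilityMeasure μ]
    {Ω : X → Fin n → Fin ℓ → 𝕜} (hΩ : Measurable Ω)
    {ALG : X × (Fin n → Fin d → 𝕜) × (Fin ℓ → Fin p → 𝕜) → (Fin d → Fin p → 𝕜)}
    (hALG : Measurable ALG) :
    ∫⁻ Q, L₀ (B₀ - A₀ * (pinv (Qᴴ * A₀) * (Qᴴ * B₀))) ∂η ≤
      ⨆ (A : Matrix (Fin n) (Fin d) 𝕜) (B : Matrix (Fin n) (Fin p) 𝕜)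
        (_ : ∃ U ∈ unitaryGroup (Fin n) 𝕜, ∃ Y : Matrix (Fin d) (Fin p) 𝕜,
          A = U * A₀ ∧ B = U * (B₀ + A₀ * Y)),
        ∫⁻ ω, L (B - A * of (ALG (ω, of.symm A, of.symm ((of (Ω ω))ᴴ * B)))) ∂μ := by
  obtain ⟨P, hP⟩ := exists_pinv A₀
  obtain ⟨ν, _, _, _⟩ := exists_haar (unitaryGroup (Fin n) 𝕜)
  obtain ⟨J, hJ⟩ := h1.exists
  let lam : Measure (Fin d → Fin p → 𝕜) := Measure.addHaar
  set W := B₀ - A₀ * (P * B₀) with hW
  let c : Matrix (Fin n) (Fin ℓ) 𝕜 → Matrix (Fin d) (Fin p) 𝕜 := fun Z =>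
    pinv (Zᴴ * A₀) * (Zᴴ * B₀) - P * B₀
  have hcm : Measurable c := (meas_mul ((meas_pinv hp).comp (meas_mul (meas_conj measurable_id')
    measurable_const)) (meas_mul (meas_conj measurable_id') measurable_const)).sub measurable_const
  have hn : ∀ Z, (Zᴴ * A₀)ᴴ * (Zᴴ * W - Zᴴ * A₀ * c Z) = 0 := fun Z => by
    refine Eq.trans ?_ (IsPinv.normal (hp (Zᴴ * A₀)) (Zᴴ * B₀))
    simp only [hW, c, Matrix.mul_sub, Matrix.mul_assoc]
    abel
  have e1 : ∀ Z, B₀ - A₀ * (pinv (Zᴴ * A₀) * (Zᴴ * B₀)) = W - A₀ * c Z := fun Z => by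
    simp only [hW, c, Matrix.mul_sub]
    abel
  have h0 : Measurable fun Z => L₀ (W - A₀ * c Z) :=
    hL₀.comp (measurable_const.sub (meas_mul measurable_const hcm))
  have m6 : Measurable fun Z => of.symm (c Z + c Z) := hcm.add hcm
  have hw : ∀ T, Measurable fun Z : Matrix (Fin n) (Fin ℓ) 𝕜 =>
      Ad.wt (finrank ℝ (Fin d → Fin p → 𝕜)) T ‖of.symm (c Z + c Z)‖ * L₀ (W - A₀ * c Z) := fun T =>
    ((Ad.measurable_wt _ T).comp m6.norm).mul h0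
  simp only [e1]
  refine le_trans (lintegral_mono fun Z => ?_) ((lintegral_liminf_le (u := atTop)
    fun k : ℕ => hw (k + 1)).trans (liminf_le_of_frequently_le' (Frequently.of_forall fun k => ?_)))
  · have := ENNReal.Tendsto.mul_const (b := L₀ (W - A₀ * c Z))
      (Ad.tendsto_wt (finrank ℝ (Fin d → Fin p → 𝕜)) ‖of.symm (c Z + c Z)‖) (Or.inl one_ne_zero)
    rw [this.liminf_eq, one_mul]
  have hT : (0 : ℝ) < k + 1 := by positivity
  set T : ℝ := k + 1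
  rw [← ENNReal.mul_le_mul_iff_left (measure_closedBall_pos lam 0 hT).ne'
    measure_closedBall_lt_top.ne, ← lintegral_mul_const _ (hw T)]
  have m2 : Measurable fun q : X × unitaryGroup (Fin n) 𝕜 × (Fin d → Fin p → 𝕜) => q.2.1.1 :=
    measurable_subtype_coe.comp (measurable_fst.comp measurable_snd)
  have m3 : Measurable fun q : X × unitaryGroup (Fin n) 𝕜 × (Fin d → Fin p → 𝕜) =>
      q.2.1.1 * (W + A₀ * of q.2.2) :=
    meas_mul m2 (measurable_const.add (meas_mul measurable_const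
      (measurable_snd.comp measurable_snd)))
  have m4 := meas_mul m2 (measurable_const (a := A₀))
  have m5 : M3 fun (ω : X) (U : unitaryGroup (Fin n) 𝕜) (Y : Fin d → Fin p → 𝕜) =>
      L (U.1 * (W + A₀ * of Y) - U.1 * A₀ * of (ALG (ω, of.symm (U.1 * A₀),
        of.symm ((of (Ω ω))ᴴ * (U.1 * (W + A₀ * of Y)))))) :=
    hL.comp (m3.sub (meas_mul m4 (hALG.comp (measurable_fst.prodMk (m4.prodMk
      (meas_mul (meas_conj (hΩ.comp measurable_fst)) m3))))))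
  refine le_trans (b := ∫⁻ ω, ∫⁻ U, ∫⁻ Y in closedBall 0 T, L (U.1 * (W + A₀ * of Y) -
    U.1 * A₀ * of (ALG (ω, of.symm (U.1 * A₀),
      of.symm ((of (Ω ω))ᴴ * (U.1 * (W + A₀ * of Y)))))) ∂lam ∂ν ∂μ) ?_ ?_
  · rw [← mul_one (∫⁻ _, _ ∂η), ← measure_univ (μ := μ), ← lintegral_const]
    refine lintegral_mono fun ω => ?_
    obtain ⟨Q, M, hQ, hM⟩ := exists_frame hJ (of (Ω ω))
    refine (frame_int ν η h1 h2 ((hw T).mul_const _) hQ).trans_le ?_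
    refine (fixed_le ν lam (IsPinv.normal hP B₀) hL₀ hL hc hU hcm hn hQ
      (e := fun y => of (ALG (ω, of.symm y.1, of.symm (Mᴴ * y.2))))
      (hALG.comp (measurable_const.prodMk (measurable_fst.prodMk
        (meas_mul measurable_const measurable_snd)))) hT).trans_eq ?_
    simp only [hM, conjTranspose_mul, Matrix.mul_assoc]
    rfl
  · rw [m5.rotate]
    refine (lintegral_mono fun U => (lintegral_mono fun Y => ?_).trans_eq
      (setLIntegral_const _ _)).trans_eq (by rw [lintegral_const, measure_univ, mul_one])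
    refine le_iSup_of_le (U.1 * A₀) (le_iSup_of_le (U.1 * (W + A₀ * of Y))
      (le_iSup_of_le ⟨U.1, U.2, of Y - P * B₀, rfl, ?_⟩ le_rfl))
    rw [hW, Matrix.mul_sub A₀]
    congr 1
    abel

end Pool.Agent.P.MP_467638_an.Cv
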