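import Pool.Agent.P.MP_467638_an.Defs

set_option autoImplicit false

open MeasureTheory Matrix
open scoped ENNReal

namespace Pool.Agent.P.MP_467638_an

/-- Sketch-and-solve with a random orthonormal embedding is optimal, on every orbit of inputs, for
every midpoint convex loss that is invariant under unitary maps, even against algorithms that
see the whole matrix A; for the squared Frobenius norm its risk is at least the bound of Q1. -/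
def ConvexBound (𝕜 : Type) [RCLike 𝕜] (α : ℕ) : Prop :=
  ∀ (n ℓ d p : ℕ) (A₀ : Matrix (Fin n) (Fin d) 𝕜) (B₀ : Matrix (Fin n) (Fin p) 𝕜)
    (η : Measure (Fin n → Fin ℓ → 𝕜)), IsProbabilityMeasure η →
    (∀ᵐ Q ∂η, (Matrix.of Q)ᴴ * Matrix.of Q = 1) →
    (∀ U ∈ unitaryGroup (Fin n) 𝕜, η.map (fun Q => Matrix.of.symm (U * Matrix.of Q)) = η) →
  ∀ (pinv : Matrix (Fin ℓ) (Fin d) 𝕜 → Matrix (Fin d) (Fin ℓ) 𝕜), (∀ M, IsPinv M (pinv M)) →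
    (∀ (L : Matrix (Fin n) (Fin p) 𝕜 → ℝ≥0∞),
      (Measurable fun E : Fin n → Fin p → 𝕜 => L (Matrix.of E)) →
      (∀ E F, 2 * L E ≤ L (E + F) + L (E - F)) →
      (∀ U ∈ unitaryGroup (Fin n) 𝕜, ∀ E, L (U * E) = L E) →
      ∀ (X : Type) [MeasurableSpace X] (μ : Measure X), IsProbabilityMeasure μ →
      ∀ (Ω : X → Fin n → Fin ℓ → 𝕜), Measurable Ω →
      ∀ (ALG : X × (Fin n → Fin d → 𝕜) × (Fin ℓ → Fin p → 𝕜) → (Fin d → Fin p → 𝕜)),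
        Measurable ALG →
        ∫⁻ Q, L (B₀ - A₀ * (pinv ((Matrix.of Q)ᴴ * A₀) * ((Matrix.of Q)ᴴ * B₀))) ∂η ≤
          ⨆ (A : Matrix (Fin n) (Fin d) 𝕜) (B : Matrix (Fin n) (Fin p) 𝕜)
            (_ : ∃ U ∈ unitaryGroup (Fin n) 𝕜, ∃ Y : Matrix (Fin d) (Fin p) 𝕜,
              A = U * A₀ ∧ B = U * (B₀ + A₀ * Y)),
            ∫⁻ ω, L (B - A * Matrix.of (ALG (ω, Matrix.of.symm A,
              Matrix.of.symm ((Matrix.of (Ω ω))ᴴ * B)))) ∂μ) ∧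
    ∀ (r : ℕ) (P₀ : Matrix (Fin d) (Fin n) 𝕜), A₀.rank = r → r + α < ℓ → IsPinv A₀ P₀ →
      ENNReal.ofReal (1 + ((n : ℝ) - ℓ) / ((n : ℝ) - r) * ((r : ℝ) / ((ℓ : ℝ) - r - α))) *
          ENNReal.ofReal (frobSq (B₀ - A₀ * P₀ * B₀)) ≤
        ∫⁻ Q, ENNReal.ofReal (frobSq
          (B₀ - A₀ * (pinv ((Matrix.of Q)ᴴ * A₀) * ((Matrix.of Q)ᴴ * B₀)))) ∂η

end Pool.Agent.P.MP_467638_an
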