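import Pool.Agent.P.MP_467638_an.CvM
import Pool.Agent.P.MP_467638_an.DefsC

set_option autoImplicit false

open MeasureTheory Matrix Module
open scoped ENNReal

namespace Pool.Agent.P.MP_467638_an.Cv

variable {𝕜 : Type} [RCLike 𝕜] {n ℓ d p : ℕ}

theorem ps_J (h : ℓ ≤ n) : ∃ J : Matrix (Fin n) (Fin ℓ) 𝕜, Jᴴ * J = 1 := by
  refine ⟨(1 : Matrix (Fin n) (Fin n) 𝕜).submatrix (Equiv.refl _) (Fin.castLE h), ?_⟩
  rw [conjTranspose_submatrix, submatrix_mul_equiv, conjTranspose_one, Matrix.one_mul,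
    submatrix_one _ (Fin.castLE_injective h)]

/-- The random orthonormal embedding exists. -/
theorem exists_frame_law (h : ℓ ≤ n) : ∃ η : Measure (Fin n → Fin ℓ → 𝕜), IsProbabilityMeasure η ∧
    (∀ᵐ Q ∂η, (Matrix.of Q)ᴴ * Matrix.of Q = 1) ∧
    ∀ U ∈ unitaryGroup (Fin n) 𝕜, η.map (fun Q => Matrix.of.symm (U * Matrix.of Q)) = η := by
  obtain ⟨J, hJ⟩ := ps_J (𝕜 := 𝕜) h
  obtain ⟨ν, _, _, -⟩ := exists_haar (unitaryGroup (Fin n) 𝕜)
  have hf : Measurable fun U : unitaryGroup (Fin n) 𝕜 => U.1 * J :=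
    meas_mul measurable_subtype_coe measurable_const
  refine ⟨(ν.map fun U => U.1 * J : Measure (Matrix (Fin n) (Fin ℓ) 𝕜)),
    Measure.isProbabilityMeasure_map hf.aemeasurable, ?_, fun V hV => ?_⟩
  · refine (ae_map_iff hf.aemeasurable (p := fun Q => Qᴴ * Q = 1) (isClosed_eq
      (continuous_id.matrix_conjTranspose.matrix_mul continuous_id)
      continuous_const).measurableSet).2 (.of_forall fun U => ?_)
    have h1 : U.1ᴴ * U.1 = 1 := U.2.1
    rw [conjTranspose_mul, Matrix.mul_assoc, ← Matrix.mul_assoc U.1ᴴ, h1, Matrix.one_mul, hJ]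
  · have hg : Measurable fun Q : Matrix (Fin n) (Fin ℓ) 𝕜 => V * Q :=
      meas_mul measurable_const measurable_id'
    refine (Measure.map_map hg hf).trans ?_
    conv_rhs => rw [← map_mul_left_eq_self ν ⟨V, hV⟩]
    refine Eq.trans ?_ (Measure.map_map hf (measurable_const_mul _)).symm
    congr 1
    ext1 U
    exact (Matrix.mul_assoc V U.1 J).symm

theorem ps_trace (E : Matrix (Fin n) (Fin p) 𝕜) : frobSq E = RCLike.re (Eᴴ * E).trace := by
  simp only [frobSq, trace, diag, mul_apply, conjTranspose_apply, map_sum, RCLike.star_def,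
    RCLike.conj_mul, ← RCLike.ofReal_pow, RCLike.ofReal_re]
  exact Finset.sum_comm

theorem ps_unit {U : Matrix (Fin n) (Fin n) 𝕜} (hU : U ∈ unitaryGroup (Fin n) 𝕜)
    (E : Matrix (Fin n) (Fin p) 𝕜) : frobSq (U * E) = frobSq E := by
  have h1 : Uᴴ * U = 1 := hU.1
  rw [ps_trace, ps_trace, conjTranspose_mul, Matrix.mul_assoc, ← Matrix.mul_assoc Uᴴ, h1,
    Matrix.one_mul]

theorem ps_nonneg (E : Matrix (Fin n) (Fin p) 𝕜) : 0 ≤ frobSq E := by
  unfold frobSq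
  positivity

theorem ps_pos {E : Matrix (Fin n) (Fin p) 𝕜} (h : E ≠ 0) : 0 < frobSq E := by
  refine (ps_nonneg E).lt_of_ne' fun h1 => h ?_
  ext i j
  have h2 := (Finset.sum_eq_zero_iff_of_nonneg fun i _ => by positivity).1 h1 i (Finset.mem_univ _)
  simpa using (Finset.sum_eq_zero_iff_of_nonneg fun i _ => by positivity).1 h2 j (Finset.mem_univ _)

/-- The squared Frobenius norm is an admissible loss. -/
theorem frob_loss :
    (Measurable fun E : Fin n → Fin p → 𝕜 => ENNReal.ofReal (frobSq (Matrix.of E))) ∧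
    (∀ E F : Matrix (Fin n) (Fin p) 𝕜, 2 * ENNReal.ofReal (frobSq E) ≤
      ENNReal.ofReal (frobSq (E + F)) + ENNReal.ofReal (frobSq (E - F))) ∧
    ∀ U ∈ unitaryGroup (Fin n) 𝕜, ∀ E : Matrix (Fin n) (Fin p) 𝕜,
      ENNReal.ofReal (frobSq (U * E)) = ENNReal.ofReal (frobSq E) := by
  refine ⟨?_, fun E F => ?_, fun U hU E => by rw [ps_unit hU]⟩
  · refine ENNReal.measurable_ofReal.comp (Continuous.measurable ?_)
    simp only [frobSq, of_apply]
    fun_prop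
  · rw [← ENNReal.ofReal_add (ps_nonneg _) (ps_nonneg _), ← ENNReal.ofReal_ofNat,
      ← ENNReal.ofReal_mul (by norm_num)]
    refine ENNReal.ofReal_le_ofReal ?_
    simp only [frobSq, Finset.mul_sum, ← Finset.sum_add_distrib, Matrix.add_apply,
      Matrix.sub_apply]
    refine Finset.sum_le_sum fun i _ => Finset.sum_le_sum fun j _ => ?_
    nlinarith [parallelogram_law_with_norm 𝕜 (E i j) (F i j), sq_nonneg ‖F i j‖]

/-- The question as posed, from the bound for convex losses and the value of the risk. -/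
theorem posed_of (α : ℕ) (h : ConvexBound 𝕜 α) : LowerBound 𝕜 α := by
  intro n ℓ d p r _ hℓ hp hrd hr μ hμ _ ALG hALG
  obtain ⟨A₀, P₀, h0, hP⟩ : ∃ (A₀ : Matrix (Fin n) (Fin d) 𝕜) (P₀ : Matrix (Fin d) (Fin n) 𝕜),
      A₀.rank = r ∧ IsPinv A₀ P₀ := by
    obtain ⟨P₀, h0, hP, -⟩ := MP_467638_an.exists_pinv hrd _
      ((EuclideanSpace.orthonormal_single (𝕜 := 𝕜)).comp _
        (Fin.castLE_injective (show r ≤ n by omega))).linearIndependent
    exact ⟨_, P₀, h0, hP⟩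
  obtain ⟨B₀, hB⟩ : ∃ B₀ : Matrix (Fin n) (Fin p) 𝕜, B₀ - A₀ * P₀ * B₀ ≠ 0 := by
    by_contra! hc
    have h1 : A₀ * P₀ = 1 := by
      ext i j
      have := congrFun (congrFun (sub_eq_zero.1
        (hc (Matrix.of fun a _ => if a = j then 1 else 0))) i) ⟨0, hp⟩
      rw [mul_apply] at this
      simpa [one_apply] using this.symm
    have h2 := rank_mul_le_left A₀ P₀
    rw [h1, rank_one, Fintype.card_fin] at h2
    omega
  obtain ⟨η, hη, h1, h2⟩ := exists_frame_law (𝕜 := 𝕜) hℓ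
  choose pinv hpinv using fun M : Matrix (Fin ℓ) (Fin d) 𝕜 => exists_pinv M
  obtain ⟨h3, h4⟩ := h n ℓ d p A₀ B₀ η hη h1 h2 pinv hpinv
  have hc0 : ENNReal.ofReal (frobSq (B₀ - A₀ * P₀ * B₀)) ≠ 0 :=
    (ENNReal.ofReal_pos.2 (ps_pos hB)).ne'
  have hm : Measurable fun z : (Fin n → Fin ℓ → 𝕜) × (Fin n → Fin d → 𝕜) × (Fin ℓ → Fin p → 𝕜) =>
      (Matrix.of z.1)ᴴ * Matrix.of z.2.1 :=
    meas_mul (meas_conj measurable_fst) (measurable_fst.comp measurable_snd)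
  rw [← ENNReal.mul_le_mul_iff_left hc0 ENNReal.ofReal_ne_top]
  refine ((h4 r P₀ h0 hr hP).trans (h3 _ frob_loss.1 frob_loss.2.1 frob_loss.2.2 _ μ hμ id
    measurable_id (fun z => ALG (z.1, Matrix.of.symm ((Matrix.of z.1)ᴴ * Matrix.of z.2.1), z.2.2))
    (hALG.comp (measurable_fst.prodMk (hm.prodMk (measurable_snd.comp measurable_snd)))))).trans
    (iSup_le fun A => iSup_le fun B => iSup_le ?_)
  rintro ⟨U, hU, Y, hA, hBB⟩
  have u1 : Uᴴ * U = 1 := hU.1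
  have u2 : ∀ {k : ℕ} (Z : Matrix (Fin n) (Fin k) 𝕜), Uᴴ * (U * Z) = Z := fun Z => by
    rw [← Matrix.mul_assoc, u1, Matrix.one_mul]
  obtain ⟨p1, p2, p3, p4⟩ := hP
  have e1 : B - A * (P₀ * Uᴴ) * B = U * (B₀ - A₀ * P₀ * B₀) := by
    rw [hA, hBB]
    simp only [Matrix.mul_assoc, u2]
    rw [← Matrix.mul_sub, Matrix.mul_add, Matrix.mul_add, ← Matrix.mul_assoc P₀ A₀,
      ← Matrix.mul_assoc A₀ (P₀ * A₀), ← Matrix.mul_assoc A₀, ← Matrix.mul_assoc A₀, p1,
      add_sub_add_right_eq_sub]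
  rw [← ENNReal.div_le_iff hc0 ENNReal.ofReal_ne_top]
  refine le_iSup_of_le A (le_iSup_of_le B (le_iSup_of_le (P₀ * Uᴴ)
    (le_iSup_of_le ⟨?_, ⟨?_, ?_, ?_, ?_⟩, fun h5 => hB ?_⟩ ?_)))
  · open scoped ComplexOrder in
    rw [← rank_conjTranspose_mul_self, hA, conjTranspose_mul, Matrix.mul_assoc, u2,
      rank_conjTranspose_mul_self, h0]
  · rw [hA]
    simp only [Matrix.mul_assoc, u2]
    rw [← Matrix.mul_assoc A₀, p1]
  · rw [hA]
    simp only [Matrix.mul_assoc, u2]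
    rw [← Matrix.mul_assoc A₀, ← Matrix.mul_assoc P₀, ← Matrix.mul_assoc P₀, p2]
  · rw [hA, Matrix.mul_assoc, ← Matrix.mul_assoc A₀, conjTranspose_mul, conjTranspose_mul, p3,
      conjTranspose_conjTranspose, Matrix.mul_assoc U]
  · rw [hA, Matrix.mul_assoc, u2, p4]
  · rw [← u2 (B₀ - _), ← e1, ← h5, sub_self, Matrix.mul_zero]
  · rw [e1, ps_unit hU]
    rfl

end Pool.Agent.P.MP_467638_an.Cv
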