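import Pool.Agent.P.MP_467638_an.CvM

set_option autoImplicit false

open MeasureTheory ProbabilityTheory Matrix Module
open scoped ENNReal ComplexOrder MatrixOrder

namespace Pool.Agent.P.MP_467638_an.Cv

variable {𝕜 : Type} [RCLike 𝕜] {n ℓ d p : ℕ}

theorem det_gram_ne {M : Matrix (Fin n) (Fin d) 𝕜} :
    (Mᴴ * M).det ≠ 0 ↔ ∀ z, M *ᵥ z = 0 → z = 0 := by
  rw [Ne, ← exists_mulVec_eq_zero_iff]
  simp only [conjTranspose_mul_self_mulVec_eq_zero, not_exists, not_and, ne_eq, not_imp_not]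

/-- For almost every frame the sketch has the kernel of the matrix. -/
theorem ae_ker (η : Measure (Matrix (Fin n) (Fin ℓ) 𝕜)) [IsProbabilityMeasure η]
    (h1 : ∀ᵐ Q ∂η, Qᴴ * Q = 1) (h2 : ∀ U ∈ unitaryGroup (Fin n) 𝕜, η.map (fun Q => U * Q) = η)
    (A : Matrix (Fin n) (Fin d) 𝕜) (hA : A.rank ≤ ℓ) :
    ∀ᵐ Q ∂η, ∀ Y : Matrix (Fin d) (Fin p) 𝕜, Qᴴ * A * Y = 0 → A * Y = 0 := by
  obtain ⟨S, hS, -⟩ := Ad.exists_factor A rfl
  have c1 : Continuous fun a : Fin A.rank → EE 𝕜 n => matA0 a :=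
    continuous_matrix fun i j => by simp only [matA0, of_apply]; fun_prop
  have c2 : Continuous fun q : Matrix (Fin n) (Fin ℓ) 𝕜 × (Fin A.rank → EE 𝕜 n) =>
      q.1ᴴ * matA0 q.2 := continuous_fst.matrix_conjTranspose.matrix_mul (c1.comp continuous_snd)
  have c3 := (isOpen_ne_fun (c2.matrix_conjTranspose.matrix_mul c2).matrix_det
    (continuous_const (y := (0 : 𝕜)))).measurableSet
  have h3 : ∀ᵐ Q ∂η, ∀ᵐ a ∂(Measure.pi fun _ : Fin A.rank => stdGaussian (EE 𝕜 n)),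
      ((Qᴴ * matA0 a)ᴴ * (Qᴴ * matA0 a)).det ≠ 0 := by
    filter_upwards [h1] with Q hQ
    have hi : Function.Injective (toEuclideanLin Q) := by
      refine Function.LeftInverse.injective (g := toEuclideanLin Qᴴ) fun x => ?_
      rw [← LinearMap.comp_apply, ← toLpLin_mul_same, hQ, toLpLin_one, LinearMap.id_apply]
    filter_upwards [ae_linearIndependent (LinearMap.range (toEuclideanLin Q)) A.rank
      (by rw [LinearMap.finrank_range_of_inj hi, finrank_euclideanSpace_fin]; exact hA)] with a ha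
    rw [det_gram_ne]
    intro z hz
    have h4 : (LinearMap.range (toEuclideanLin Q)).starProjection (comb a (WithLp.toLp 2 z)) = 0 := by
      rw [Submodule.starProjection_apply_eq_zero_iff, Submodule.mem_orthogonal]
      rintro _ ⟨x, rfl⟩
      rw [← LinearMap.adjoint_inner_right, ← toEuclideanLin_conjTranspose_eq_adjoint,
        toLpLin_apply, ← matA0_mulVec, mulVec_mulVec, hz]
      exact inner_zero_right _
    rw [map_comb] at h4
    exact funext (Fintype.linearIndependent_iff.1 ha z h4)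
  obtain ⟨a, ha⟩ := ((Measure.ae_ae_comm c3).1 h3).exists
  obtain ⟨Q₀, h4⟩ := ha.exists
  have h5 : ((matA0 a)ᴴ * matA0 a).det ≠ 0 := det_gram_ne.2 fun z hz =>
    det_gram_ne.1 h4 z (by rw [← mulVec_mulVec, hz, mulVec_zero])
  obtain ⟨R, hR⟩ := CStarAlgebra.nonneg_iff_eq_star_mul_self.mp
    (posSemidef_conjTranspose_mul_self (matA0 a)).nonneg
  have h6 : IsUnit R.det := by
    rw [hR, det_mul] at h5
    exact (right_ne_zero_of_mul h5).isUnit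
  obtain ⟨U, hU, e⟩ := gram_unit (M := matA0 a * (R⁻¹ * S)) (N := A) (by
    rw [conjTranspose_mul, Matrix.mul_assoc, ← Matrix.mul_assoc (matA0 a)ᴴ, hR,
      star_eq_conjTranspose, Matrix.mul_assoc Rᴴ, ← Matrix.mul_assoc, ← conjTranspose_mul,
      mul_nonsing_inv_cancel_left _ _ h6, hS])
  rw [← h2 _ (Unitary.star_mem hU)] at ha
  filter_upwards [ae_of_ae_map (meas_mul measurable_const measurable_id').aemeasurable ha]
    with Q hQ Y hY
  have h7 : (star U * Q)ᴴ * matA0 a * (R⁻¹ * S * Y) = 0 := by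
    rw [← hY]
    conv_rhs => rw [← e]
    simp only [star_eq_conjTranspose, conjTranspose_mul, conjTranspose_conjTranspose,
      Matrix.mul_assoc]
  have h8 : R⁻¹ * S * Y = 0 := by
    rw [← nonsing_inv_mul_cancel_left _ (R⁻¹ * S * Y) hQ.isUnit, Matrix.mul_assoc _ᴴ, h7,
      Matrix.mul_zero, Matrix.mul_zero]
  rw [← e, Matrix.mul_assoc, Matrix.mul_assoc, h8, Matrix.mul_zero, Matrix.mul_zero]

/-- Sketch-and-solve has the same risk at every point of the orbit. -/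
theorem attained (η : Measure (Matrix (Fin n) (Fin ℓ) 𝕜)) [IsProbabilityMeasure η]
    (h1 : ∀ᵐ Q ∂η, Qᴴ * Q = 1) (h2 : ∀ U ∈ unitaryGroup (Fin n) 𝕜, η.map (fun Q => U * Q) = η)
    (A₀ : Matrix (Fin n) (Fin d) 𝕜) (hA : A₀.rank ≤ ℓ) (B₀ : Matrix (Fin n) (Fin p) 𝕜)
    (L : Matrix (Fin n) (Fin p) 𝕜 → ℝ≥0∞) (hL : Measurable L)
    (hU : ∀ U ∈ unitaryGroup (Fin n) 𝕜, ∀ E, L (U * E) = L E)
    (pinv : Matrix (Fin ℓ) (Fin d) 𝕜 → Matrix (Fin d) (Fin ℓ) 𝕜) (hp : ∀ M, IsPinv M (pinv M))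
    (U : Matrix (Fin n) (Fin n) 𝕜) (hU' : U ∈ unitaryGroup (Fin n) 𝕜)
    (Y : Matrix (Fin d) (Fin p) 𝕜) :
    ∫⁻ Q, L (U * (B₀ + A₀ * Y) -
        U * A₀ * (pinv (Qᴴ * (U * A₀)) * (Qᴴ * (U * (B₀ + A₀ * Y))))) ∂η =
      ∫⁻ Q, L (B₀ - A₀ * (pinv (Qᴴ * A₀) * (Qᴴ * B₀))) ∂η := by
  have u : Uᴴ * U = 1 := hU'.1
  have u1 : ∀ {k : ℕ} (Q : Matrix (Fin n) (Fin ℓ) 𝕜) (Z : Matrix (Fin n) (Fin k) 𝕜),
      (U * Q)ᴴ * (U * Z) = Qᴴ * Z := fun Q Z => by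
    rw [conjTranspose_mul, Matrix.mul_assoc, ← Matrix.mul_assoc Uᴴ, u, Matrix.one_mul]
  have m1 : Measurable fun Q : Matrix (Fin n) (Fin ℓ) 𝕜 => L (U * (B₀ + A₀ * Y) -
      U * A₀ * (pinv (Qᴴ * (U * A₀)) * (Qᴴ * (U * (B₀ + A₀ * Y))))) :=
    hL.comp (measurable_const.sub (meas_mul measurable_const (meas_mul
      ((meas_pinv hp).comp (meas_mul (meas_conj measurable_id') measurable_const))
      (meas_mul (meas_conj measurable_id') measurable_const))))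
  conv_lhs => rw [← h2 U hU']
  rw [lintegral_map m1 (meas_mul measurable_const measurable_id')]
  refine lintegral_congr_ae ((ae_ker (p := p) η h1 h2 A₀ hA).mono fun Q hQ => ?_)
  have h3 := hQ (Y - pinv (Qᴴ * A₀) * (Qᴴ * A₀ * Y)) (by
    rw [Matrix.mul_sub, ← Matrix.mul_assoc _ (pinv _), ← Matrix.mul_assoc _ (Qᴴ * A₀), (hp _).1,
      sub_self])
  rw [Matrix.mul_sub, sub_eq_zero] at h3
  dsimp only
  rw [u1, u1, Matrix.mul_assoc U, ← Matrix.mul_sub, hU U hU', Matrix.mul_add Qᴴ, Matrix.mul_add,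
    Matrix.mul_add, ← Matrix.mul_assoc Qᴴ A₀ Y, ← h3, add_sub_add_right_eq_sub]

theorem v2_gram {m : ℕ} (E : Matrix (Fin n) (Fin m) 𝕜) :
    ((frobSq E : ℝ) : 𝕜) = ∑ j, (Eᴴ * E) j j := by
  simp only [frobSq, mul_apply, conjTranspose_apply, RCLike.ofReal_sum, RCLike.star_def,
    RCLike.conj_mul, RCLike.ofReal_pow]
  exact Finset.sum_comm

theorem v2_nonneg {m : ℕ} (E : Matrix (Fin n) (Fin m) 𝕜) : 0 ≤ frobSq E :=
  Finset.sum_nonneg fun _ _ => Finset.sum_nonneg fun _ _ => sq_nonneg _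

theorem v2_unit {m : ℕ} (U : Matrix (Fin n) (Fin n) 𝕜) (hU : U ∈ unitaryGroup (Fin n) 𝕜)
    (E : Matrix (Fin n) (Fin m) 𝕜) :
    ENNReal.ofReal (frobSq (U * E)) = ENNReal.ofReal (frobSq E) := by
  have h : Uᴴ * U = 1 := hU.1
  have h1 : ((frobSq (U * E) : ℝ) : 𝕜) = (frobSq E : ℝ) := by
    rw [v2_gram, v2_gram, conjTranspose_mul, Matrix.mul_assoc, ← Matrix.mul_assoc Uᴴ, h,
      Matrix.one_mul]
  rw [RCLike.ofReal_injective h1]

theorem v2_meas {m : ℕ} :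
    Measurable fun E : Matrix (Fin n) (Fin m) 𝕜 => ENNReal.ofReal (frobSq E) := by
  have h : Continuous fun E : Matrix (Fin n) (Fin m) 𝕜 => ∑ i, ∑ j, ‖E i j‖ ^ 2 :=
    continuous_finsetSum _ fun i _ => continuous_finsetSum _ fun j _ =>
      ((continuous_id.matrix_elem i j).norm).pow 2
  exact h.measurable.ennreal_ofReal

theorem v2_smul {m : ℕ} (a : 𝕜) (E : Matrix (Fin n) (Fin m) 𝕜) :
    frobSq (a • E) = ‖a‖ ^ 2 * frobSq E := by
  simp only [frobSq, Matrix.smul_apply, norm_smul, mul_pow, Finset.mul_sum]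

theorem v2_cols {m : ℕ} (E : Matrix (Fin n) (Fin m) 𝕜) :
    frobSq E = ∑ j, frobSq (E.submatrix id fun _ : Fin 1 => j) := by
  simp only [frobSq, submatrix_apply, id, Fin.sum_univ_one]
  exact Finset.sum_comm

theorem v2_two {A A' : Matrix (Fin n) (Fin d) 𝕜} {W W' : Matrix (Fin n) (Fin p) 𝕜}
    (h1 : Aᴴ * A = A'ᴴ * A') (h2 : Aᴴ * W = A'ᴴ * W') (h3 : Wᴴ * W = W'ᴴ * W') :
    ∃ U ∈ unitaryGroup (Fin n) 𝕜, U * A = A' ∧ U * W = W' := by
  have h4 : Wᴴ * A = W'ᴴ * A' := by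
    have := congrArg conjTranspose h2
    rwa [conjTranspose_mul, conjTranspose_mul, conjTranspose_conjTranspose,
      conjTranspose_conjTranspose] at this
  obtain ⟨U, hU, h⟩ := gram_unit (M := Matrix.of fun i => Fin.append (A i) (W i))
    (N := Matrix.of fun i => Fin.append (A' i) (W' i)) (by
      ext a b
      refine Fin.addCases (fun a => ?_) (fun a => ?_) a <;>
        refine Fin.addCases (fun b => ?_) (fun b => ?_) b <;>
        simp only [mul_apply, conjTranspose_apply, of_apply, Fin.append_left, Fin.append_right]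
      · exact congrFun (congrFun h1 a) b
      · exact congrFun (congrFun h2 a) b
      · exact congrFun (congrFun h4 a) b
      · exact congrFun (congrFun h3 a) b)
  refine ⟨U, hU, ?_, ?_⟩
  · ext i j
    have := congrFun (congrFun h i) (Fin.castAdd p j)
    simpa only [mul_apply, of_apply, Fin.append_left] using this
  · ext i j
    have := congrFun (congrFun h i) (Fin.natAdd d j)
    simpa only [mul_apply, of_apply, Fin.append_right] using this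

theorem v2_one (α : ℕ) (hα : AdaptiveBound 𝕜 α) {r : ℕ} (hr : r + α < ℓ)
    (η : Measure (Matrix (Fin n) (Fin ℓ) 𝕜)) [IsProbabilityMeasure η]
    (h1 : ∀ᵐ Q ∂η, Qᴴ * Q = 1) (h2 : ∀ U ∈ unitaryGroup (Fin n) 𝕜, η.map (fun Q => U * Q) = η)
    (A₀ : Matrix (Fin n) (Fin d) 𝕜) (hA : A₀.rank = r) (hℓ : ℓ ≤ n)
    (pinv : Matrix (Fin ℓ) (Fin d) 𝕜 → Matrix (Fin d) (Fin ℓ) 𝕜) (hp : ∀ M, IsPinv M (pinv M))
    (W : Matrix (Fin n) (Fin 1) 𝕜) (hW : A₀ᴴ * W = 0) (hn : frobSq W = 1) :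
    ENNReal.ofReal (1 + ((n : ℝ) - ℓ) / ((n : ℝ) - r) * ((r : ℝ) / ((ℓ : ℝ) - r - α))) ≤
      ∫⁻ Q, ENNReal.ofReal (frobSq (W - A₀ * (pinv (Qᴴ * A₀) * (Qᴴ * W)))) ∂η := by
  have m1 : Measurable fun z : Matrix (Fin n) (Fin ℓ) 𝕜 × Matrix (Fin ℓ) (Fin d) 𝕜 ×
      Matrix (Fin ℓ) (Fin 1) 𝕜 => pinv z.2.1 * z.2.2 :=
    meas_mul ((meas_pinv hp).comp measurable_snd.fst) measurable_snd.snd
  refine (hα n ℓ d 1 r hℓ le_rfl hr A₀ hA (Matrix (Fin n) (Fin ℓ) 𝕜) η inferInstance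
    (fun k z i => z.1 i k)
    (fun k => measurable_pi_lambda _ fun i =>
      (measurable_pi_apply k).comp ((measurable_pi_apply i).comp measurable_fst))
    (fun ω _ _ => ω) (fun _ _ _ _ _ => rfl)
    (fun z => Matrix.of.symm (pinv (Matrix.of z.2.1) * Matrix.of z.2.2)) m1).trans ?_
  refine iSup_le fun A => iSup_le fun B => iSup_le fun P => iSup_le fun ⟨g1, g2, g3⟩ => ?_
  have g4 : Aᴴ * (B - A * P * B) = 0 := by
    rw [Matrix.mul_assoc A]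
    exact IsPinv.normal g2 B
  obtain ⟨U, hU, e1, e2⟩ := v2_two (W := W) (W' := B - A * P * B) g1.symm (hW.trans g4.symm) (by
    ext a b
    have k1 := v2_gram W
    have k2 := v2_gram (B - A * P * B)
    rw [Fin.sum_univ_one, hn] at k1
    rw [Fin.sum_univ_one, g3] at k2
    rw [Subsingleton.elim a 0, Subsingleton.elim b 0, ← k1, ← k2])
  have e3 : U * (W + A₀ * (P * B)) = B := by
    rw [Matrix.mul_add, e2, ← Matrix.mul_assoc U, e1, ← Matrix.mul_assoc, sub_add_cancel]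
  have key := attained η h1 h2 A₀ (by omega) W _ v2_meas (fun U hU E => v2_unit U hU E) pinv hp
    U hU (P * B)
  rw [e3, e1] at key
  exact key.le

theorem v2_col (α : ℕ) (hα : AdaptiveBound 𝕜 α) {r : ℕ} (hr : r + α < ℓ)
    (η : Measure (Matrix (Fin n) (Fin ℓ) 𝕜)) [IsProbabilityMeasure η]
    (h1 : ∀ᵐ Q ∂η, Qᴴ * Q = 1) (h2 : ∀ U ∈ unitaryGroup (Fin n) 𝕜, η.map (fun Q => U * Q) = η)
    (A₀ : Matrix (Fin n) (Fin d) 𝕜) (hA : A₀.rank = r) (hℓ : ℓ ≤ n)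
    (pinv : Matrix (Fin ℓ) (Fin d) 𝕜 → Matrix (Fin d) (Fin ℓ) 𝕜) (hp : ∀ M, IsPinv M (pinv M))
    (W : Matrix (Fin n) (Fin 1) 𝕜) (hW : A₀ᴴ * W = 0) :
    ENNReal.ofReal (1 + ((n : ℝ) - ℓ) / ((n : ℝ) - r) * ((r : ℝ) / ((ℓ : ℝ) - r - α))) *
        ENNReal.ofReal (frobSq W) ≤
      ∫⁻ Q, ENNReal.ofReal (frobSq (W - A₀ * (pinv (Qᴴ * A₀) * (Qᴴ * W)))) ∂η := by
  rcases (v2_nonneg W).eq_or_lt with h0 | h0
  · rw [← h0, ENNReal.ofReal_zero, mul_zero]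
    exact zero_le
  have ht : 0 < √(frobSq W) := Real.sqrt_pos.2 h0
  have ht' : ((√(frobSq W) : ℝ) : 𝕜) ≠ 0 := RCLike.ofReal_ne_zero.2 ht.ne'
  have hn : ‖((√(frobSq W) : ℝ) : 𝕜)‖ ^ 2 = frobSq W := by
    rw [RCLike.norm_ofReal, sq_abs, Real.sq_sqrt h0.le]
  generalize ((√(frobSq W) : ℝ) : 𝕜) = t at ht' hn
  have key := v2_one α hα hr η h1 h2 A₀ hA hℓ pinv hp (t⁻¹ • W)
    (by rw [Matrix.mul_smul, hW, smul_zero])
    (by rw [v2_smul, norm_inv, inv_pow, hn, inv_mul_cancel₀ h0.ne'])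
  rw [mul_comm]
  refine (mul_le_mul_right key _).trans_eq ?_
  rw [← lintegral_const_mul' _ _ ENNReal.ofReal_ne_top]
  refine lintegral_congr fun Q => ?_
  rw [← ENNReal.ofReal_mul h0.le, Matrix.mul_smul, Matrix.mul_smul, Matrix.mul_smul, ← smul_sub,
    v2_smul, norm_inv, inv_pow, hn, mul_inv_cancel_left₀ h0.ne']

/-- The risk of sketch-and-solve for the squared Frobenius norm, from below. -/
theorem value (α : ℕ) (hα : AdaptiveBound 𝕜 α) {r : ℕ} (hr : r + α < ℓ)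
    (η : Measure (Matrix (Fin n) (Fin ℓ) 𝕜)) [IsProbabilityMeasure η]
    (h1 : ∀ᵐ Q ∂η, Qᴴ * Q = 1) (h2 : ∀ U ∈ unitaryGroup (Fin n) 𝕜, η.map (fun Q => U * Q) = η)
    (A₀ : Matrix (Fin n) (Fin d) 𝕜) (hA : A₀.rank = r) (B₀ : Matrix (Fin n) (Fin p) 𝕜)
    (P₀ : Matrix (Fin d) (Fin n) 𝕜) (hP : IsPinv A₀ P₀) (hℓ : ℓ ≤ n)
    (pinv : Matrix (Fin ℓ) (Fin d) 𝕜 → Matrix (Fin d) (Fin ℓ) 𝕜) (hp : ∀ M, IsPinv M (pinv M)) :
    ENNReal.ofReal (1 + ((n : ℝ) - ℓ) / ((n : ℝ) - r) * ((r : ℝ) / ((ℓ : ℝ) - r - α))) *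
        ENNReal.ofReal (frobSq (B₀ - A₀ * P₀ * B₀)) ≤
      ∫⁻ Q, ENNReal.ofReal (frobSq (B₀ - A₀ * (pinv (Qᴴ * A₀) * (Qᴴ * B₀)))) ∂η := by
  have e0 : B₀ - A₀ * P₀ * B₀ + A₀ * (P₀ * B₀) = B₀ := by
    rw [← Matrix.mul_assoc, sub_add_cancel]
  have g4 : A₀ᴴ * (B₀ - A₀ * P₀ * B₀) = 0 := by
    rw [Matrix.mul_assoc A₀]
    exact IsPinv.normal hP B₀
  have key := attained η h1 h2 A₀ (by omega) (B₀ - A₀ * P₀ * B₀) _ v2_meas
    (fun U hU E => v2_unit U hU E) pinv hp 1 (one_mem _) (P₀ * B₀)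
  rw [e0, Matrix.one_mul, Matrix.one_mul] at key
  rw [key]
  generalize B₀ - A₀ * P₀ * B₀ = W at g4
  have e1 : ∀ (Q : Matrix (Fin n) (Fin ℓ) 𝕜) (j : Fin p),
      (W - A₀ * (pinv (Qᴴ * A₀) * (Qᴴ * W))).submatrix id (fun _ : Fin 1 => j) =
        W.submatrix id (fun _ : Fin 1 => j) -
          A₀ * (pinv (Qᴴ * A₀) * (Qᴴ * W.submatrix id fun _ : Fin 1 => j)) := fun _ _ => rfl
  have e2 : ∀ Q : Matrix (Fin n) (Fin ℓ) 𝕜,
      ENNReal.ofReal (frobSq (W - A₀ * (pinv (Qᴴ * A₀) * (Qᴴ * W)))) =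
        ∑ j, ENNReal.ofReal (frobSq (W.submatrix id (fun _ : Fin 1 => j) -
          A₀ * (pinv (Qᴴ * A₀) * (Qᴴ * W.submatrix id fun _ : Fin 1 => j)))) := fun Q => by
    rw [v2_cols, ENNReal.ofReal_sum_of_nonneg fun _ _ => v2_nonneg _]
    simp only [e1]
  simp only [e2]
  rw [lintegral_finsetSum _ fun j _ => ?_, v2_cols W,
    ENNReal.ofReal_sum_of_nonneg fun _ _ => v2_nonneg _, Finset.mul_sum]
  · refine Finset.sum_le_sum fun j _ => v2_col α hα hr η h1 h2 A₀ hA hℓ pinv hp _ ?_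
    ext a b
    exact congrFun (congrFun g4 a) j
  · exact v2_meas.comp (measurable_const.sub (meas_mul measurable_const (meas_mul
      ((meas_pinv hp).comp (meas_mul (meas_conj measurable_id) measurable_const))
      (meas_mul (meas_conj measurable_id) measurable_const))))

end Pool.Agent.P.MP_467638_an.Cv
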