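import Mathlib

set_option autoImplicit false

open MeasureTheory Matrix

namespace Pool.Agent.P.MP_467638_an

/-- Squared Frobenius norm of a matrix. -/
noncomputable def frobSq {𝕜 : Type} [RCLike 𝕜] {m k : ℕ} (M : Matrix (Fin m) (Fin k) 𝕜) : ℝ :=
  ∑ i, ∑ j, ‖M i j‖ ^ 2

/-- `P` is the Moore-Penrose pseudoinverse of `A` (the four Penrose equations). -/
def IsPinv {𝕜 : Type} [RCLike 𝕜] {m k : ℕ} (A : Matrix (Fin m) (Fin k) 𝕜)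
    (P : Matrix (Fin k) (Fin m) 𝕜) : Prop :=
  A * P * A = A ∧ P * A * P = P ∧ (A * P)ᴴ = A * P ∧ (P * A)ᴴ = P * A

/-- The lower bound of Q1 over the field `𝕜` with the constant `α`. -/
def LowerBound (𝕜 : Type) [RCLike 𝕜] (α : ℕ) : Prop :=
  ∀ (n ℓ d p r : ℕ), 1 ≤ ℓ → ℓ ≤ n → 1 ≤ p → r ≤ d → r + α < ℓ →
  ∀ (μ : Measure (Fin n → Fin ℓ → 𝕜)), IsProbabilityMeasure μ →
    (∀ᵐ Ω ∂μ, (Matrix.of Ω).rank = ℓ) →
  ∀ (ALG : (Fin n → Fin ℓ → 𝕜) × (Fin ℓ → Fin d → 𝕜) × (Fin ℓ → Fin p → 𝕜) →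
      (Fin d → Fin p → 𝕜)), Measurable ALG →
    ENNReal.ofReal (1 + ((n : ℝ) - ℓ) / ((n : ℝ) - r) * ((r : ℝ) / ((ℓ : ℝ) - r - α))) ≤
      ⨆ (A : Matrix (Fin n) (Fin d) 𝕜) (B : Matrix (Fin n) (Fin p) 𝕜)
        (P : Matrix (Fin d) (Fin n) 𝕜) (_ : A.rank = r ∧ IsPinv A P ∧ B ≠ A * P * B),
        (∫⁻ Ω, ENNReal.ofReal (frobSq (B - A * Matrix.of (ALG (Ω,
            Matrix.of.symm ((Matrix.of Ω)ᴴ * A), Matrix.of.symm ((Matrix.of Ω)ᴴ * B))))) ∂μ)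
          / ENNReal.ofReal (frobSq (B - A * P * B))

end Pool.Agent.P.MP_467638_an
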