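import Mathlib

set_option autoImplicit false

open MeasureTheory ProbabilityTheory Module Set
open scoped RealInnerProductSpace ENNReal

namespace Pool.Agent.P.MP_467638_an

section real

variable {H G : Type*} [NormedAddCommGroup H] [InnerProductSpace ℝ H] [FiniteDimensional ℝ H]
  [MeasurableSpace H] [BorelSpace H]
  [NormedAddCommGroup G] [InnerProductSpace ℝ G] [FiniteDimensional ℝ G]
  [MeasurableSpace G] [BorelSpace G]

theorem map_stdGaussian_smul (T : H → G) (hT : Measurable T) (S : G → H) (c : ℝ)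
    (hS : ∀ z t, ⟪T z, t⟫ = ⟪z, S t⟫) (hc : ∀ t, ‖S t‖ ^ 2 = c ^ 2 * ‖t‖ ^ 2) :
    (stdGaussian H).map T = (stdGaussian G).map (c • ·) := by
  have : IsProbabilityMeasure ((stdGaussian H).map T) :=
    Measure.isProbabilityMeasure_map hT.aemeasurable
  have : IsProbabilityMeasure ((stdGaussian G).map (c • ·)) :=
    Measure.isProbabilityMeasure_map (by fun_prop)
  apply Measure.ext_of_charFun
  ext t
  rw [charFun_map_smul, charFun_stdGaussian, charFun_apply, integral_map hT.aemeasurable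
    (by fun_prop)]
  simp_rw [hS]
  rw [← charFun_apply, charFun_stdGaussian]
  congr 1
  have h1 : ((‖S t‖ : ℂ)) ^ 2 = ((‖c • t‖ : ℝ) : ℂ) ^ 2 := by
    rw [← Complex.ofReal_pow, ← Complex.ofReal_pow, hc, norm_smul, mul_pow, Real.norm_eq_abs,
      sq_abs]
  rw [h1]

theorem map_stdGaussian (T : H → G) (hT : Measurable T) (S : G → H)
    (hS : ∀ z t, ⟪T z, t⟫ = ⟪z, S t⟫) (hc : ∀ t, ‖S t‖ ^ 2 = ‖t‖ ^ 2) :
    (stdGaussian H).map T = stdGaussian G := by
  rw [map_stdGaussian_smul T hT S 1 hS (by simpa using hc)]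
  simp

theorem map_stdGaussian_split (T₁ T₂ : H → H) (h₁ : Measurable T₁) (h₂ : Measurable T₂)
    (hs₁ : ∀ z t, ⟪T₁ z, t⟫ = ⟪z, T₁ t⟫) (hs₂ : ∀ z t, ⟪T₂ z, t⟫ = ⟪z, T₂ t⟫)
    (hn : ∀ t, ‖T₁ t‖ ^ 2 + ‖T₂ t‖ ^ 2 = ‖t‖ ^ 2) :
    ((stdGaussian H).prod (stdGaussian H)).map (fun q => T₁ q.1 + T₂ q.2) = stdGaussian H := by
  have hm : Measurable (fun q : H × H => T₁ q.1 + T₂ q.2) := by fun_prop
  have : IsProbabilityMeasure (((stdGaussian H).prod (stdGaussian H)).map
      (fun q => T₁ q.1 + T₂ q.2)) := Measure.isProbabilityMeasure_map hm.aemeasurable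
  apply Measure.ext_of_charFun
  ext t
  rw [charFun_stdGaussian, charFun_apply, integral_map hm.aemeasurable (by fun_prop)]
  simp_rw [inner_add_left, hs₁, hs₂, Complex.ofReal_add, add_mul, Complex.exp_add]
  rw [integral_prod_mul (fun z : H => Complex.exp ((⟪z, T₁ t⟫ : ℝ) * Complex.I))
    (fun z : H => Complex.exp ((⟪z, T₂ t⟫ : ℝ) * Complex.I)), ← charFun_apply, ← charFun_apply,
    charFun_stdGaussian, charFun_stdGaussian, ← Complex.exp_add]
  congr 1
  have := hn t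
  have h2 : ((‖t‖ : ℂ)) ^ 2 = (‖T₁ t‖ : ℂ) ^ 2 + (‖T₂ t‖ : ℂ) ^ 2 := by
    exact_mod_cast this.symm
  rw [h2]; ring

theorem map_pi_sum {ι : Type*} [Fintype ι] (T : ι → H → H) (hT : ∀ i, Measurable (T i))
    (S : ι → H → H) (c : ℝ) (hS : ∀ i z t, ⟪T i z, t⟫ = ⟪z, S i t⟫)
    (hc : ∀ t, ∑ i, ‖S i t‖ ^ 2 = c ^ 2 * ‖t‖ ^ 2) :
    (Measure.pi (fun _ : ι => stdGaussian H)).map (fun a => ∑ i, T i (a i))
      = (stdGaussian H).map (c • ·) := by
  have hm : Measurable (fun a : ι → H => ∑ i, T i (a i)) :=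
    Finset.measurable_sum _ (fun i _ => (hT i).comp (measurable_pi_apply i))
  have : IsProbabilityMeasure ((Measure.pi (fun _ : ι => stdGaussian H)).map
      (fun a => ∑ i, T i (a i))) := Measure.isProbabilityMeasure_map hm.aemeasurable
  have : IsProbabilityMeasure ((stdGaussian H).map (c • ·)) :=
    Measure.isProbabilityMeasure_map (by fun_prop)
  apply Measure.ext_of_charFun
  ext t
  rw [charFun_map_smul, charFun_stdGaussian, charFun_apply, integral_map hm.aemeasurable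
    (by fun_prop)]
  simp_rw [sum_inner, hS, Complex.ofReal_sum, Finset.sum_mul, Complex.exp_sum]
  rw [integral_fintype_prod_eq_prod (f := fun i (z : H) =>
    Complex.exp ((⟪z, S i t⟫ : ℝ) * Complex.I))]
  simp_rw [← charFun_apply, charFun_stdGaussian, ← Complex.exp_sum]
  congr 1
  have h1 : ((‖c • t‖ : ℝ) : ℂ) ^ 2 = ∑ i, ((‖S i t‖ : ℝ) : ℂ) ^ 2 := by
    have := hc t
    rw [← Complex.ofReal_pow, norm_smul, mul_pow, Real.norm_eq_abs, sq_abs, ← this]
    push_cast; rfl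
  rw [h1, ← Finset.sum_div, Finset.sum_neg_distrib]

theorem stdGaussian_real : stdGaussian ℝ = gaussianReal 0 1 := by
  apply Measure.ext_of_charFun
  ext t
  rw [charFun_stdGaussian, charFun_gaussianReal]
  congr 1
  have : ((‖t‖ : ℝ) : ℂ) ^ 2 = (t : ℂ) ^ 2 := by
    rw [← Complex.ofReal_pow, Real.norm_eq_abs, sq_abs, Complex.ofReal_pow]
  rw [this]; simp; ring

theorem lintegral_sq_gaussianReal :
    ∫⁻ x, ENNReal.ofReal (x ^ 2) ∂(gaussianReal 0 1) = 1 := by
  have hi : Integrable (fun x : ℝ => x ^ 2) (gaussianReal 0 1) := by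
    have := (memLp_id_gaussianReal (μ := 0) (v := 1) 2).integrable_sq
    simpa using this
  rw [← ofReal_integral_eq_lintegral_ofReal hi (ae_of_all _ fun x => sq_nonneg x)]
  have h1 : ∫ x, x ^ 2 ∂(gaussianReal 0 1) = 1 := by
    have h := variance_id_gaussianReal (μ := 0) (v := 1)
    rw [variance_eq_integral (by fun_prop)] at h
    simpa using h
  rw [h1]; simp

theorem lintegral_normSq_stdGaussian :
    ∫⁻ x, ENNReal.ofReal (‖x‖ ^ 2) ∂(stdGaussian G) = (finrank ℝ G : ℝ≥0∞) := by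
  set b := stdOrthonormalBasis ℝ G
  have h1 : ∀ x : G, ENNReal.ofReal (‖x‖ ^ 2) = ∑ i, ENNReal.ofReal (⟪x, b i⟫ ^ 2) := by
    intro x
    rw [← ENNReal.ofReal_sum_of_nonneg (fun i _ => sq_nonneg _), b.sum_sq_inner_left]
  simp_rw [h1]
  rw [lintegral_finsetSum _ (fun i _ => by fun_prop)]
  have h2 : ∀ i, ∫⁻ x, ENNReal.ofReal (⟪x, b i⟫ ^ 2) ∂(stdGaussian G) = 1 := by
    intro i
    have hm := map_stdGaussian (fun x : G => ⟪x, b i⟫) (by fun_prop) (fun t : ℝ => t • b i)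
      (by intro z t; simp [inner_smul_right])
      (by intro t; simp [norm_smul, b.orthonormal.1 i])
    rw [← lintegral_sq_gaussianReal, ← stdGaussian_real, ← hm,
      lintegral_map (by fun_prop) (by fun_prop)]
  simp [h2]

theorem integral_exp_neg_sq_gaussianReal {s : ℝ} (hs : 0 ≤ s) :
    ∫ x, Real.exp (-s * x ^ 2) ∂(gaussianReal 0 1) = (1 + 2 * s) ^ (-(1 / 2 : ℝ)) := by
  rw [integral_gaussianReal_eq_integral_smul (by norm_num)]
  have h1 : ∀ x : ℝ, gaussianPDFReal 0 1 x • Real.exp (-s * x ^ 2)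
      = (√(2 * Real.pi))⁻¹ * Real.exp (-(s + 1 / 2) * x ^ 2) := by
    intro x
    simp only [gaussianPDFReal, NNReal.coe_one, mul_one, sub_zero, smul_eq_mul]
    rw [mul_assoc, ← Real.exp_add]
    congr 2
    ring
  simp_rw [h1]
  rw [integral_const_mul, integral_gaussian]
  have hpi := Real.pi_pos
  have hs1 : 0 < 1 + 2 * s := by linarith
  rw [Real.rpow_neg hs1.le, ← Real.sqrt_eq_rpow, ← Real.sqrt_inv, ← Real.sqrt_inv,
    ← Real.sqrt_mul (by positivity)]
  congr 1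
  field_simp
  ring

theorem lintegral_exp_neg_normSq {s : ℝ} (hs : 0 ≤ s) :
    ∫⁻ x, ENNReal.ofReal (Real.exp (-s * ‖x‖ ^ 2)) ∂(stdGaussian G)
      = ENNReal.ofReal ((1 + 2 * s) ^ (-(finrank ℝ G : ℝ) / 2)) := by
  have hi : Integrable (fun x : G => Real.exp (-s * ‖x‖ ^ 2)) (stdGaussian G) := by
    refine (integrable_const (1 : ℝ)).mono' (by fun_prop) (ae_of_all _ fun x => ?_)
    rw [Real.norm_eq_abs, abs_of_pos (Real.exp_pos _)]
    apply Real.exp_le_one_iff.2
    have := sq_nonneg ‖x‖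
    nlinarith
  rw [← ofReal_integral_eq_lintegral_ofReal hi (ae_of_all _ fun x => (Real.exp_pos _).le)]
  congr 1
  set b := stdOrthonormalBasis ℝ G
  rw [stdGaussian_eq_map_pi_orthonormalBasis b, integral_map (Measurable.aemeasurable (by fun_prop)) (by fun_prop)]
  have h1 : ∀ x : Fin (finrank ℝ G) → ℝ, Real.exp (-s * ‖∑ i, x i • b i‖ ^ 2)
      = ∏ i, Real.exp (-s * x i ^ 2) := by
    intro x
    rw [← Real.exp_sum, ← Finset.mul_sum]
    congr 2
    rw [← b.sum_sq_inner_right]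
    refine Finset.sum_congr rfl fun i _ => ?_
    rw [b.orthonormal.inner_right_fintype]
  simp_rw [h1]
  rw [integral_fintype_prod_eq_prod (f := fun (_ : Fin (finrank ℝ G)) (x : ℝ) =>
    Real.exp (-s * x ^ 2))]
  simp only [integral_exp_neg_sq_gaussianReal hs, Finset.prod_const, Finset.card_univ,
    Fintype.card_fin]
  rw [← Real.rpow_natCast, ← Real.rpow_mul (by linarith)]
  congr 1
  ring

theorem lintegral_exp_le_inv (u : ℝ) (hu : 0 ≤ u) :
    ∫⁻ s in Ioi (0 : ℝ), ENNReal.ofReal (Real.exp (-s * u)) ≤ (ENNReal.ofReal u)⁻¹ := by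
  rcases hu.eq_or_lt with rfl | hu
  · simp
  · have hi : IntegrableOn (fun s : ℝ => Real.exp (-u * s)) (Ioi 0) :=
      exp_neg_integrableOn_Ioi 0 hu
    have h1 : ∀ s : ℝ, Real.exp (-s * u) = Real.exp (-u * s) := fun s => by ring_nf
    simp_rw [h1]
    rw [← ofReal_integral_eq_lintegral_ofReal hi (ae_of_all _ fun x => (Real.exp_pos _).le),
      integral_exp_mul_Ioi (by linarith), ← ENNReal.ofReal_inv_of_pos hu]
    apply le_of_eq
    congr 1
    simp

theorem lintegral_rpow_Ioi {m : ℝ} (hm : 2 < m) :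
    ∫⁻ s in Ioi (0 : ℝ), ENNReal.ofReal ((1 + 2 * s) ^ (-m / 2)) = ENNReal.ofReal (1 / (m - 2)) := by
  have hderiv : ∀ s ∈ Ici (0 : ℝ), HasDerivAt (fun s : ℝ => -(1 / (m - 2)) * (1 + 2 * s) ^ (1 - m / 2))
      ((1 + 2 * s) ^ (-m / 2)) s := by
    intro s hs
    have hs1 : 0 < 1 + 2 * s := by have : 0 ≤ s := hs; linarith
    have h1 : HasDerivAt (fun s : ℝ => 1 + 2 * s) 2 s := by
      simpa using ((hasDerivAt_id s).const_mul 2).const_add 1
    have h2 := (h1.rpow_const (p := 1 - m / 2) (Or.inl hs1.ne')).const_mul (-(1 / (m - 2)))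
    have h3 : -(1 / (m - 2)) * (2 * (1 - m / 2) * (1 + 2 * s) ^ (1 - m / 2 - 1))
        = (1 + 2 * s) ^ (-m / 2) := by
      have : m - 2 ≠ 0 := by linarith
      rw [show (1 - m / 2 - 1) = -m / 2 by ring]
      field_simp
      ring
    rw [h3] at h2
    exact h2
  have hlim : Filter.Tendsto (fun s : ℝ => -(1 / (m - 2)) * (1 + 2 * s) ^ (1 - m / 2))
      Filter.atTop (nhds 0) := by
    have h1 : Filter.Tendsto (fun s : ℝ => 1 + 2 * s) Filter.atTop Filter.atTop :=
      Filter.tendsto_atTop_add_const_left _ _ (Filter.tendsto_id.const_mul_atTop (by norm_num))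
    have h2 := (tendsto_rpow_neg_atTop (y := m / 2 - 1) (by linarith)).comp h1
    have h3 := h2.const_mul (-(1 / (m - 2)))
    simp only [mul_zero] at h3
    refine h3.congr fun s => ?_
    simp
  have hnn : ∀ s ∈ Ioi (0 : ℝ), 0 ≤ (1 + 2 * s) ^ (-m / 2) := by
    intro s hs
    have : 0 < s := hs
    positivity
  have hint := integrableOn_Ioi_deriv_of_nonneg' hderiv hnn hlim
  have hval := integral_Ioi_of_hasDerivAt_of_nonneg' hderiv hnn hlim
  rw [← ofReal_integral_eq_lintegral_ofReal hint, hval]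
  · simp
  · exact (ae_restrict_iff' measurableSet_Ioi).2 (ae_of_all _ hnn)

theorem le_lintegral_inv_normSq (hm : 3 ≤ finrank ℝ G) :
    ENNReal.ofReal (1 / ((finrank ℝ G : ℝ) - 2))
      ≤ ∫⁻ x, (ENNReal.ofReal (‖x‖ ^ 2))⁻¹ ∂(stdGaussian G) := by
  have hm' : (2 : ℝ) < finrank ℝ G := by
    have : (3 : ℝ) ≤ finrank ℝ G := by exact_mod_cast hm
    linarith
  rw [← lintegral_rpow_Ioi hm']
  calc ∫⁻ s in Ioi (0 : ℝ), ENNReal.ofReal ((1 + 2 * s) ^ (-(finrank ℝ G : ℝ) / 2))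
      = ∫⁻ s in Ioi (0 : ℝ), ∫⁻ x, ENNReal.ofReal (Real.exp (-s * ‖x‖ ^ 2)) ∂(stdGaussian G) := by
        refine setLIntegral_congr_fun measurableSet_Ioi fun s hs => ?_
        exact (lintegral_exp_neg_normSq (le_of_lt hs)).symm
    _ = ∫⁻ x, (∫⁻ s in Ioi (0 : ℝ), ENNReal.ofReal (Real.exp (-s * ‖x‖ ^ 2))) ∂(stdGaussian G) := by
        apply lintegral_lintegral_swap
        apply Measurable.aemeasurable
        fun_prop
    _ ≤ _ := lintegral_mono fun x => lintegral_exp_le_inv _ (sq_nonneg _)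

theorem measure_inner_eq_zero {s : G} (hs : ‖s‖ = 1) :
    stdGaussian G {x | ⟪x, s⟫ = 0} = 0 := by
  have hm := map_stdGaussian (fun x : G => ⟪x, s⟫) (by fun_prop) (fun t : ℝ => t • s)
    (by intro z t; simp [inner_smul_right])
    (by intro t; simp [norm_smul, hs])
  have h1 : {x : G | ⟪x, s⟫ = 0} = (fun x : G => ⟪x, s⟫) ⁻¹' {0} := rfl
  rw [h1, ← Measure.map_apply (by fun_prop) (measurableSet_singleton _), hm, stdGaussian_real]
  have := nullSingletonClass_gaussianReal (μ := 0) (v := 1) (by norm_num)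
  exact measure_singleton _

theorem map_neg_stdGaussian : (stdGaussian G).map (fun x => -x) = stdGaussian G :=
  map_stdGaussian _ (by fun_prop) (fun t => -t) (by intro z t; simp) (by intro t; simp)

end real

end Pool.Agent.P.MP_467638_an
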