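import Pool.Agent.P.MP_467638_an.Gauss

set_option autoImplicit false

open MeasureTheory ProbabilityTheory Module Set
open scoped ENNReal

namespace Pool.Agent.P.MP_467638_an

variable {𝕜 : Type} [RCLike 𝕜]

theorem inner_real_eq_re {H : Type*} [NormedAddCommGroup H] [InnerProductSpace ℝ H]
    [InnerProductSpace 𝕜 H] (x y : H) : inner ℝ x y = RCLike.re (inner 𝕜 x y) := by
  have h1 := norm_add_sq_real x y
  have h2 := norm_add_sq (𝕜 := 𝕜) x y
  linarith

theorem finrank_euclidean (m : ℕ) :
    finrank ℝ (EuclideanSpace 𝕜 (Fin m)) = finrank ℝ 𝕜 * m := by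
  rw [← Module.finrank_mul_finrank ℝ 𝕜 (EuclideanSpace 𝕜 (Fin m))]
  simp

variable {H G : Type*} [NormedAddCommGroup H] [InnerProductSpace ℝ H] [FiniteDimensional ℝ H]
  [InnerProductSpace 𝕜 H] [FiniteDimensional 𝕜 H] [MeasurableSpace H] [BorelSpace H]
  [NormedAddCommGroup G] [InnerProductSpace ℝ G] [FiniteDimensional ℝ G]
  [InnerProductSpace 𝕜 G] [MeasurableSpace G] [BorelSpace G]

omit [FiniteDimensional 𝕜 H] in
theorem map_stdGaussian_smulK (T : H → G) (hT : Measurable T) (S : G → H) (c : ℝ)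
    (hS : ∀ z t, inner 𝕜 (T z) t = inner 𝕜 z (S t)) (hc : ∀ t, ‖S t‖ ^ 2 = c ^ 2 * ‖t‖ ^ 2) :
    (stdGaussian H).map T = (stdGaussian G).map (c • ·) :=
  map_stdGaussian_smul T hT S c
    (fun z t => by rw [inner_real_eq_re (𝕜 := 𝕜), inner_real_eq_re (𝕜 := 𝕜), hS]) hc

omit [FiniteDimensional 𝕜 H] in
theorem map_stdGaussianK (T : H → G) (hT : Measurable T) (S : G → H)
    (hS : ∀ z t, inner 𝕜 (T z) t = inner 𝕜 z (S t)) (hc : ∀ t, ‖S t‖ ^ 2 = ‖t‖ ^ 2) :
    (stdGaussian H).map T = stdGaussian G :=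
  map_stdGaussian T hT S
    (fun z t => by rw [inner_real_eq_re (𝕜 := 𝕜), inner_real_eq_re (𝕜 := 𝕜), hS]) hc

theorem lintegral_norm_starProjection (U : Submodule 𝕜 H) (f : ℝ → ℝ≥0∞) (hf : Measurable f) :
    ∫⁻ z, f ‖U.starProjection z‖ ∂(stdGaussian H)
      = ∫⁻ y, f ‖y‖ ∂(stdGaussian (EuclideanSpace 𝕜 (Fin (finrank 𝕜 U)))) := by
  set b := stdOrthonormalBasis 𝕜 U
  have hT : Measurable (fun z : H => b.repr (U.orthogonalProjectionOnto z)) := by
    apply Continuous.measurable
    fun_prop
  have hm := map_stdGaussianK (𝕜 := 𝕜) (fun z : H => b.repr (U.orthogonalProjectionOnto z)) hT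
    (fun t => ((b.repr.symm t : U) : H))
    (by
      intro z t
      rw [← Submodule.inner_orthogonalProjectionOnto_eq_of_mem_right,
        ← b.repr.inner_map_map (U.orthogonalProjectionOnto z)]
      simp)
    (by intro t; rw [← Submodule.coe_norm, LinearIsometryEquiv.norm_map])
  rw [← hm, lintegral_map (by fun_prop) hT]
  refine lintegral_congr fun z => ?_
  rw [LinearIsometryEquiv.norm_map, Submodule.starProjection_apply, Submodule.coe_norm]

theorem lintegral_normSq_starProjection (U : Submodule 𝕜 H) :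
    ∫⁻ z, ENNReal.ofReal (‖U.starProjection z‖ ^ 2) ∂(stdGaussian H)
      = ((finrank ℝ 𝕜 * finrank 𝕜 U : ℕ) : ℝ≥0∞) := by
  rw [lintegral_norm_starProjection U (fun x => ENNReal.ofReal (x ^ 2)) (by fun_prop),
    lintegral_normSq_stdGaussian, finrank_euclidean]

theorem le_lintegral_inv_normSq_starProjection (U : Submodule 𝕜 H)
    (hm : 3 ≤ finrank ℝ 𝕜 * finrank 𝕜 U) :
    ENNReal.ofReal (1 / ((finrank ℝ 𝕜 : ℝ) * finrank 𝕜 U - 2))
      ≤ ∫⁻ z, (ENNReal.ofReal (‖U.starProjection z‖ ^ 2))⁻¹ ∂(stdGaussian H) := by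
  rw [lintegral_norm_starProjection U (fun x => (ENNReal.ofReal (x ^ 2))⁻¹) (by fun_prop)]
  have := le_lintegral_inv_normSq (G := EuclideanSpace 𝕜 (Fin (finrank 𝕜 U)))
    (by rw [finrank_euclidean]; exact hm)
  rw [finrank_euclidean] at this
  simpa using this

theorem measure_submodule_eq_zero (U : Submodule 𝕜 H) (hU : U ≠ ⊤) :
    stdGaussian H (U : Set H) = 0 := by
  have h1 : Uᗮ ≠ ⊥ := by
    intro h
    exact hU (Submodule.orthogonal_eq_bot_iff.1 h)
  obtain ⟨s, hs, hs0⟩ := Submodule.exists_mem_ne_zero_of_ne_bot h1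
  have hn : ‖s‖ ≠ 0 := norm_ne_zero_iff.2 hs0
  set s' : H := ((‖s‖⁻¹ : ℝ) : 𝕜) • s with hs'
  have hs'1 : ‖s'‖ = 1 := by
    rw [hs', norm_smul, RCLike.norm_ofReal, abs_inv, abs_norm, inv_mul_cancel₀ hn]
  refine measure_mono_null (fun x hx => ?_) (measure_inner_eq_zero hs'1)
  have : inner 𝕜 x s' = 0 := Submodule.inner_right_of_mem_orthogonal hx (Uᗮ.smul_mem _ hs)
  show inner ℝ x s' = 0
  rw [inner_real_eq_re (𝕜 := 𝕜), this, map_zero]

theorem map_split_starProjection (K : Submodule 𝕜 H) :
    ((stdGaussian H).prod (stdGaussian H)).map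
      (fun q => Kᗮ.starProjection q.1 + K.starProjection q.2) = stdGaussian H := by
  apply map_stdGaussian_split _ _ (Continuous.measurable (by fun_prop))
    (Continuous.measurable (by fun_prop))
  · intro z t
    rw [inner_real_eq_re (𝕜 := 𝕜), inner_real_eq_re (𝕜 := 𝕜),
      Submodule.inner_starProjection_left_eq_right]
  · intro z t
    rw [inner_real_eq_re (𝕜 := 𝕜), inner_real_eq_re (𝕜 := 𝕜),
      Submodule.inner_starProjection_left_eq_right]
  · intro t
    rw [Submodule.norm_sq_eq_add_norm_sq_starProjection t K, add_comm]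

theorem measurePreserving_split_pi {ι : Type*} [Fintype ι] (K : Submodule 𝕜 H) :
    MeasurePreserving
      (fun (q : (ι → H) × (ι → H)) (i : ι) => Kᗮ.starProjection (q.1 i) + K.starProjection (q.2 i))
      ((Measure.pi fun _ : ι => stdGaussian H).prod (Measure.pi fun _ : ι => stdGaussian H))
      (Measure.pi fun _ : ι => stdGaussian H) := by
  have h1 := (measurePreserving_arrowProdEquivProdArrow H H ι (fun _ => stdGaussian H)
    (fun _ => stdGaussian H)).symm
  have h2 : MeasurePreserving (fun q : H × H => Kᗮ.starProjection q.1 + K.starProjection q.2)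
      ((stdGaussian H).prod (stdGaussian H)) (stdGaussian H) :=
    ⟨Continuous.measurable (by fun_prop), map_split_starProjection K⟩
  have h3 := measurePreserving_pi (fun _ : ι => (stdGaussian H).prod (stdGaussian H))
    (fun _ : ι => stdGaussian H) (fun _ => h2)
  exact h3.comp h1

omit [FiniteDimensional 𝕜 H] in
theorem map_pi_sum_smul {ι : Type*} [Fintype ι] (e : EuclideanSpace 𝕜 ι) :
    (Measure.pi (fun _ : ι => stdGaussian H)).map (fun a => ∑ i, e i • a i)
      = (stdGaussian H).map (‖e‖ • ·) := by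
  apply map_pi_sum (fun i z => e i • z) (fun i => Continuous.measurable (by fun_prop))
    (fun i t => (starRingEnd 𝕜) (e i) • t)
  · intro i z t
    rw [inner_real_eq_re (𝕜 := 𝕜), inner_real_eq_re (𝕜 := 𝕜), inner_smul_left, inner_smul_right]
  · intro t
    simp_rw [norm_smul, mul_pow, RCLike.norm_conj]
    rw [← Finset.sum_mul, EuclideanSpace.norm_sq_eq]

theorem lintegral_normSq_smul_add [IsScalarTower ℝ 𝕜 H] (U : Submodule 𝕜 H) (s : ℝ) (c : H) :
    ∫⁻ z, ENNReal.ofReal (‖U.starProjection (s • z) + c‖ ^ 2) ∂(stdGaussian H)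
      = ENNReal.ofReal (s ^ 2) * ((finrank ℝ 𝕜 * finrank 𝕜 U : ℕ) : ℝ≥0∞)
        + ENNReal.ofReal (‖c‖ ^ 2) := by
  have hm : Measurable (fun z : H => ENNReal.ofReal (‖U.starProjection (s • z) + c‖ ^ 2)) := by
    apply Measurable.ennreal_ofReal
    apply Continuous.measurable
    fun_prop
  have h1 : ∫⁻ z, ENNReal.ofReal (‖U.starProjection (s • z) + c‖ ^ 2) ∂(stdGaussian H)
      = ∫⁻ z, ENNReal.ofReal (‖U.starProjection (s • (-z)) + c‖ ^ 2) ∂(stdGaussian H) := by
    conv_lhs => rw [← map_neg_stdGaussian]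
    rw [lintegral_map hm (by fun_prop)]
  have h2 : ∀ z : H, ENNReal.ofReal (‖U.starProjection (s • z) + c‖ ^ 2)
      + ENNReal.ofReal (‖U.starProjection (s • (-z)) + c‖ ^ 2)
      = 2 * (ENNReal.ofReal (s ^ 2) * ENNReal.ofReal (‖U.starProjection z‖ ^ 2)
        + ENNReal.ofReal (‖c‖ ^ 2)) := by
    intro z
    have e1 : U.starProjection (s • z) = s • U.starProjection z :=
      U.starProjection.map_smul_of_tower s z
    have e2 : U.starProjection (s • (-z)) = -(s • U.starProjection z) := by
      rw [smul_neg, map_neg, e1]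
    rw [e1, e2, ← ENNReal.ofReal_add (sq_nonneg _) (sq_nonneg _),
      ← ENNReal.ofReal_mul (sq_nonneg _), ← ENNReal.ofReal_add (by positivity) (sq_nonneg _),
      ← ENNReal.ofReal_ofNat 2, ← ENNReal.ofReal_mul (by norm_num)]
    congr 1
    have := parallelogram_law_with_norm ℝ c (s • U.starProjection z)
    rw [add_comm (s • _) c, add_comm (-(s • _)) c, ← sub_eq_add_neg, ← mul_pow, ← sq_abs (s * _),
      abs_mul, abs_norm, ← Real.norm_eq_abs, ← norm_smul]
    nlinarith
  have h3 : 2 * ∫⁻ z, ENNReal.ofReal (‖U.starProjection (s • z) + c‖ ^ 2) ∂(stdGaussian H)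
      = 2 * (ENNReal.ofReal (s ^ 2) * ((finrank ℝ 𝕜 * finrank 𝕜 U : ℕ) : ℝ≥0∞)
        + ENNReal.ofReal (‖c‖ ^ 2)) := by
    rw [two_mul]
    nth_rewrite 2 [h1]
    rw [← lintegral_add_left hm]
    simp_rw [h2]
    rw [lintegral_const_mul' _ _ (by simp), lintegral_add_right _ measurable_const,
      lintegral_const_mul' _ _ (by simp), lintegral_normSq_starProjection]
    simp
  exact (ENNReal.mul_right_inj (by simp) (by simp)).1 h3

theorem lintegral_pi_normSq_sum_add [IsScalarTower ℝ 𝕜 H] {ι : Type*} [Fintype ι]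
    (U : Submodule 𝕜 H) (e : EuclideanSpace 𝕜 ι) (c : H) :
    ∫⁻ a, ENNReal.ofReal (‖U.starProjection (∑ i, e i • a i) + c‖ ^ 2)
        ∂(Measure.pi (fun _ : ι => stdGaussian H))
      = ENNReal.ofReal (‖e‖ ^ 2) * ((finrank ℝ 𝕜 * finrank 𝕜 U : ℕ) : ℝ≥0∞)
        + ENNReal.ofReal (‖c‖ ^ 2) := by
  have hm : Measurable (fun z : H => ENNReal.ofReal (‖U.starProjection z + c‖ ^ 2)) := by
    apply Measurable.ennreal_ofReal
    apply Continuous.measurable
    fun_prop
  rw [← lintegral_normSq_smul_add U ‖e‖ c,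
    ← lintegral_map hm (Continuous.measurable (by fun_prop)), map_pi_sum_smul,
    lintegral_map hm (by fun_prop)]

theorem measurePreserving_insertNth {X : Type*} [MeasurableSpace X] (ν : Measure X)
    [IsProbabilityMeasure ν] (m : ℕ) (j : Fin (m + 1)) :
    MeasurePreserving (fun q : (Fin m → X) × X => (Fin.insertNth j q.2 q.1 : Fin (m + 1) → X))
      ((Measure.pi (fun _ : Fin m => ν)).prod ν) (Measure.pi (fun _ : Fin (m + 1) => ν)) := by
  have hmp := (measurePreserving_piFinSuccAbove (fun _ : Fin (m + 1) => ν) j).symm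
  have hsw := (Measure.measurePreserving_swap (μ := Measure.pi (fun _ : Fin m => ν)) (ν := ν))
  exact hmp.comp hsw

theorem ae_linearIndependent (V : Submodule 𝕜 H) (m : ℕ) (hm : m ≤ finrank 𝕜 V) :
    ∀ᵐ a ∂(Measure.pi (fun _ : Fin m => stdGaussian H)),
      LinearIndependent 𝕜 (fun i => V.starProjection (a i)) := by
  induction m with
  | zero => exact ae_of_all _ fun a => linearIndependent_empty_type
  | succ m ih =>
    have ih' := ih (by omega)
    have hmp := measurePreserving_insertNth (stdGaussian H) m 0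
    have hopen : MeasurableSet {a : Fin (m + 1) → H |
        LinearIndependent 𝕜 (fun i => V.starProjection (a i))} := by
      have hc : Continuous (fun (a : Fin (m + 1) → H) (i : Fin (m + 1)) =>
          V.starProjection (a i)) :=
        continuous_pi fun i => V.starProjection.continuous.comp (continuous_apply i)
      have := (isOpen_setOfPred_linearIndependent (𝕜 := 𝕜) (E := H) (ι := Fin (m + 1))).preimage hc
      exact this.measurableSet
    rw [← hmp.map_eq, ae_map_iff hmp.aemeasurable hopen]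
    refine (Measure.ae_prod_iff_ae_ae (hmp.measurable hopen)).2 ?_
    filter_upwards [ih'] with v hv
    set W : Submodule 𝕜 H := Submodule.span 𝕜 (Set.range fun i => V.starProjection (v i))
    have hW : finrank 𝕜 W = m := by
      rw [finrank_span_eq_card hv]; simp
    have hne : W.comap (V.starProjection : H →ₗ[𝕜] H) ≠ ⊤ := by
      intro h
      have hle : V ≤ W := by
        intro x hx
        have : x ∈ W.comap (V.starProjection : H →ₗ[𝕜] H) := by rw [h]; trivial
        rw [Submodule.mem_comap] at this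
        simpa [Submodule.starProjection_eq_self_iff.2 hx] using this
      have := Submodule.finrank_mono hle
      omega
    have h0 := measure_submodule_eq_zero _ hne
    rw [← compl_mem_ae_iff] at h0
    filter_upwards [h0] with x hx
    have : (fun i => V.starProjection
        ((Fin.insertNth 0 x v : Fin (m + 1) → H) i))
        = Fin.cons (V.starProjection x) (fun i => V.starProjection (v i)) := by
      ext1 i
      refine Fin.cases ?_ (fun i => ?_) i <;> simp
    show LinearIndependent 𝕜 _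
    rw [this, linearIndependent_finCons]
    exact ⟨hv, hx⟩

end Pool.Agent.P.MP_467638_an
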