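import Pool.Agent.P.MP_467638_an.Core3
import Pool.Agent.P.MP_467638_an.Defs

set_option autoImplicit false

open MeasureTheory ProbabilityTheory Module Set Filter Matrix
open scoped ENNReal ComplexOrder

namespace Pool.Agent.P.MP_467638_an

variable {𝕜 : Type} [RCLike 𝕜] {n ℓ d p r : ℕ}

def matJ (𝕜 : Type) [RCLike 𝕜] (h : r ≤ d) : Matrix (Fin r) (Fin d) 𝕜 :=
  Matrix.of fun j k => if k = Fin.castLE h j then 1 else 0

def matA0 (a : Fin r → EE 𝕜 n) : Matrix (Fin n) (Fin r) 𝕜 := Matrix.of fun i j => a j i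

def matB (e : Fin p) (b : EE 𝕜 n) : Matrix (Fin n) (Fin p) 𝕜 :=
  Matrix.of fun i k => if k = e then b i else 0

theorem matJ_mul (h : r ≤ d) : matJ 𝕜 h * (matJ 𝕜 h)ᴴ = 1 := by
  ext i j
  simp only [matJ, Matrix.mul_apply, Matrix.conjTranspose_apply, Matrix.of_apply, Matrix.one_apply]
  rw [Finset.sum_eq_single (Fin.castLE h i)]
  · simp [Fin.castLE_inj]
  · intro k _ hk; simp [hk]
  · simp

theorem matJ_mul_apply (h : r ≤ d) (X : Matrix (Fin d) (Fin p) 𝕜) (j : Fin r) (k : Fin p) :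
    (matJ 𝕜 h * X) j k = X (Fin.castLE h j) k := by
  simp [matJ, Matrix.mul_apply]

theorem matA0_mulVec (a : Fin r → EE 𝕜 n) (x : Fin r → 𝕜) :
    matA0 a *ᵥ x = (comb a (WithLp.toLp 2 x)).ofLp := by
  ext i
  simp [matA0, Matrix.mulVec, dotProduct, comb, mul_comm]

theorem gram_isUnit (a : Fin r → EE 𝕜 n) (ha : LinearIndependent 𝕜 a) :
    IsUnit ((matA0 a)ᴴ * matA0 a) := by
  have hinj : Function.Injective (matA0 a).mulVec := by
    intro x y hxy
    rw [matA0_mulVec, matA0_mulVec] at hxy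
    have h1 : comb a (WithLp.toLp 2 x) = comb a (WithLp.toLp 2 y) := WithLp.ofLp_injective 2 hxy
    have h2 := (Fintype.linearIndependent_iffₛ.1 ha) x y (by simpa [comb] using h1)
    exact funext h2
  exact (Matrix.PosDef.conjTranspose_mul_self _ hinj).isUnit

theorem mul_matB (e : Fin p) {m : ℕ} (M : Matrix (Fin m) (Fin n) 𝕜) (b : EE 𝕜 n) :
    M * matB e b = matB e (WithLp.toLp 2 (M *ᵥ b.ofLp) : EE 𝕜 m) := by
  ext i k
  simp only [matB, Matrix.mul_apply, Matrix.of_apply, Matrix.mulVec, dotProduct]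
  split_ifs <;> simp

theorem matB_sub (e : Fin p) (b c : EE 𝕜 n) : matB e b - matB e c = matB e (b - c) := by
  ext i k
  simp only [matB, Matrix.sub_apply, Matrix.of_apply]
  split_ifs <;> simp

theorem frobSq_matB (e : Fin p) (b : EE 𝕜 n) : frobSq (matB e b) = ‖b‖ ^ 2 := by
  rw [frobSq, EuclideanSpace.norm_sq_eq]
  refine Finset.sum_congr rfl fun i _ => ?_
  rw [Finset.sum_eq_single e]
  · simp [matB]
  · intro k _ hk; simp [matB, hk]
  · simp

theorem le_frobSq (h : r ≤ d) (e : Fin p) (a : Fin r → EE 𝕜 n) (b : EE 𝕜 n)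
    (X : Matrix (Fin d) (Fin p) 𝕜) :
    ‖b - comb a (WithLp.toLp 2 fun j => X (Fin.castLE h j) e)‖ ^ 2
      ≤ frobSq (matB e b - matA0 a * matJ 𝕜 h * X) := by
  rw [frobSq, EuclideanSpace.norm_sq_eq]
  refine Finset.sum_le_sum fun i _ => ?_
  refine le_trans (le_of_eq ?_) (Finset.single_le_sum (f := fun k =>
    ‖(matB e b - matA0 a * matJ 𝕜 h * X) i k‖ ^ 2) (fun k _ => sq_nonneg _) (Finset.mem_univ e))
  congr 2
  rw [Matrix.mul_assoc, Matrix.sub_apply, Matrix.mul_apply]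
  simp [matJ_mul_apply, matB, matA0, comb, mul_comm]

theorem exists_pinv (h : r ≤ d) (a : Fin r → EE 𝕜 n) (ha : LinearIndependent 𝕜 a) :
    ∃ P : Matrix (Fin d) (Fin n) 𝕜, (matA0 a * matJ 𝕜 h).rank = r ∧
      IsPinv (matA0 a * matJ 𝕜 h) P ∧ ∀ b : EE 𝕜 n,
        b - WithLp.toLp 2 ((matA0 a * matJ 𝕜 h * P) *ᵥ b.ofLp)
          = (Submodule.span 𝕜 (Set.range a))ᗮ.starProjection b := by
  set A := matA0 a
  set J := matJ 𝕜 h
  have hJ : J * Jᴴ = 1 := matJ_mul h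
  have hG := gram_isUnit a ha
  have hGd : IsUnit (Aᴴ * A).det := (Matrix.isUnit_iff_isUnit_det _).1 hG
  have hG1 : (Aᴴ * A)⁻¹ * (Aᴴ * A) = 1 := Matrix.nonsing_inv_mul _ hGd
  have hG2 : (Aᴴ * A) * (Aᴴ * A)⁻¹ = 1 := Matrix.mul_nonsing_inv _ hGd
  have hGh : ((Aᴴ * A)⁻¹)ᴴ = (Aᴴ * A)⁻¹ := by
    rw [Matrix.conjTranspose_nonsing_inv, Matrix.conjTranspose_mul, conjTranspose_conjTranspose]
  have hAP : A * J * (Jᴴ * (Aᴴ * A)⁻¹ * Aᴴ) = A * (Aᴴ * A)⁻¹ * Aᴴ := by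
    calc A * J * (Jᴴ * (Aᴴ * A)⁻¹ * Aᴴ) = A * (J * Jᴴ) * (Aᴴ * A)⁻¹ * Aᴴ := by
          simp only [Matrix.mul_assoc]
      _ = _ := by rw [hJ, Matrix.mul_one]
  have hPA : Jᴴ * (Aᴴ * A)⁻¹ * Aᴴ * (A * J) = Jᴴ * J := by
    calc Jᴴ * (Aᴴ * A)⁻¹ * Aᴴ * (A * J) = Jᴴ * ((Aᴴ * A)⁻¹ * (Aᴴ * A)) * J := by
          simp only [Matrix.mul_assoc]
      _ = _ := by rw [hG1, Matrix.mul_one]
  refine ⟨Jᴴ * (Aᴴ * A)⁻¹ * Aᴴ, ?_, ⟨?_, ?_, ?_, ?_⟩, ?_⟩
  · have h1 : A.rank = r := by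
      rw [← Matrix.rank_conjTranspose_mul_self, Matrix.rank_of_isUnit _ hG, Fintype.card_fin]
    apply le_antisymm
    · exact (Matrix.rank_mul_le_left _ _).trans h1.le
    · have h2 : A = A * J * Jᴴ := by rw [Matrix.mul_assoc, hJ, Matrix.mul_one]
      calc r = (A * J * Jᴴ).rank := by rw [← h2, h1]
        _ ≤ _ := Matrix.rank_mul_le_left _ _
  · rw [Matrix.mul_assoc, hPA, ← Matrix.mul_assoc, Matrix.mul_assoc A, hJ, Matrix.mul_one]
  · rw [hPA]
    calc Jᴴ * J * (Jᴴ * (Aᴴ * A)⁻¹ * Aᴴ) = Jᴴ * (J * Jᴴ) * (Aᴴ * A)⁻¹ * Aᴴ := by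
          simp only [Matrix.mul_assoc]
      _ = _ := by rw [hJ, Matrix.mul_one]
  · rw [hAP, Matrix.conjTranspose_mul, Matrix.conjTranspose_mul, hGh, conjTranspose_conjTranspose,
      Matrix.mul_assoc]
  · rw [hPA, Matrix.conjTranspose_mul, conjTranspose_conjTranspose]
  · intro b
    rw [hAP]
    symm
    have hmem : (WithLp.toLp 2 ((A * (Aᴴ * A)⁻¹ * Aᴴ) *ᵥ b.ofLp) : EE 𝕜 n)
        ∈ Submodule.span 𝕜 (Set.range a) := by
      rw [Matrix.mul_assoc, ← Matrix.mulVec_mulVec, matA0_mulVec]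
      exact comb_mem _ _
    apply Submodule.eq_starProjection_of_mem_orthogonal
    · rw [Submodule.mem_orthogonal]
      intro u hu
      induction hu using Submodule.span_induction with
      | mem x hx =>
        obtain ⟨j, rfl⟩ := hx
        have h3 : Aᴴ *ᵥ (b.ofLp - (A * (Aᴴ * A)⁻¹ * Aᴴ) *ᵥ b.ofLp) = 0 := by
          rw [Matrix.mulVec_sub, Matrix.mulVec_mulVec]
          have : Aᴴ * (A * (Aᴴ * A)⁻¹ * Aᴴ) = Aᴴ := by
            calc Aᴴ * (A * (Aᴴ * A)⁻¹ * Aᴴ) = (Aᴴ * A) * (Aᴴ * A)⁻¹ * Aᴴ := by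
                  simp only [Matrix.mul_assoc]
              _ = _ := by rw [hG2, Matrix.one_mul]
          rw [this, sub_self]
        have h4 := congrFun h3 j
        rw [PiLp.inner_apply]
        simpa [Matrix.mulVec, dotProduct, A, matA0, mul_comm] using h4
      | zero => simp
      | add x y _ _ hx hy => rw [inner_add_left, hx, hy, add_zero]
      | smul c x _ hx => rw [inner_smul_left, hx, mul_zero]
    · rw [sub_sub_cancel]
      exact Submodule.le_orthogonal_orthogonal _ hmem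

noncomputable def kerK (Ω : Fin n → Fin ℓ → 𝕜) : Submodule 𝕜 (EE 𝕜 n) :=
  LinearMap.ker (((Matrix.of Ω)ᴴ).mulVecLin ∘ₗ (WithLp.linearEquiv 2 𝕜 (Fin n → 𝕜)).toLinearMap)

theorem mem_kerK (Ω : Fin n → Fin ℓ → 𝕜) (x : EE 𝕜 n) :
    x ∈ kerK Ω ↔ (Matrix.of Ω)ᴴ *ᵥ x.ofLp = 0 := Iff.rfl

theorem finrank_kerK (Ω : Fin n → Fin ℓ → 𝕜) (h : (Matrix.of Ω).rank = ℓ) :
    finrank 𝕜 (kerK Ω) + ℓ = n := by
  have h1 := LinearMap.finrank_range_add_finrank_ker
    (((Matrix.of Ω)ᴴ).mulVecLin ∘ₗ (WithLp.linearEquiv 2 𝕜 (Fin n → 𝕜)).toLinearMap)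
  rw [LinearMap.range_comp_of_range_eq_top _ (LinearEquiv.range _)] at h1
  have h2 : finrank 𝕜 (LinearMap.range ((Matrix.of Ω)ᴴ).mulVecLin) = ℓ := by
    have := Matrix.rank_conjTranspose (Matrix.of Ω)
    rw [h] at this
    exact this
  have h3 : finrank 𝕜 (WithLp 2 (Fin n → 𝕜)) = n := finrank_euclideanSpace_fin
  rw [h2, h3] at h1
  rw [add_comm]
  exact h1

theorem arith {α β : ℕ} (hαβ : α + β = 2) (hβ : 0 < β) (hℓ : ℓ ≤ n) (hr : r + α < ℓ) :
    ENNReal.ofReal (1 + ((n : ℝ) - ℓ) / ((n : ℝ) - r) * ((r : ℝ) / ((ℓ : ℝ) - r - α)))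
        * ((β * (n - r) : ℕ) : ℝ≥0∞)
      = ((β * (ℓ - r) : ℕ) : ℝ≥0∞) + ((β * (n - ℓ) : ℕ) : ℝ≥0∞) *
        (1 + (r : ℝ≥0∞) * ((β : ℝ≥0∞) *
          ENNReal.ofReal (1 / ((β : ℝ) * ((ℓ + 1 - r : ℕ) : ℝ) - 2)))) := by
  have h1 : (r : ℝ) + α < ℓ := by exact_mod_cast hr
  have h2 : (ℓ : ℝ) ≤ n := by exact_mod_cast hℓ
  have h3 : (0 : ℝ) ≤ α := Nat.cast_nonneg _
  have h4 : (0 : ℝ) ≤ r := Nat.cast_nonneg _
  have h5 : (β : ℝ) * ((ℓ + 1 - r : ℕ) : ℝ) - 2 = β * ((ℓ : ℝ) - r - α) := by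
    rw [Nat.cast_sub (by omega)]
    push_cast
    have : (α = 1 ∧ β = 1) ∨ (α = 0 ∧ β = 2) := by omega
    rcases this with ⟨rfl, rfl⟩ | ⟨rfl, rfl⟩ <;> push_cast <;> ring
  have h6 : (0 : ℝ) < β := by exact_mod_cast hβ
  have h7 : (0 : ℝ) < (ℓ : ℝ) - r - α := by linarith
  have h8 : (0 : ℝ) < (n : ℝ) - r := by linarith
  have h9 : (0 : ℝ) ≤ (n : ℝ) - ℓ := by linarith
  rw [h5, ← ENNReal.ofReal_natCast (β * (n - r)), ← ENNReal.ofReal_natCast (β * (ℓ - r)),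
    ← ENNReal.ofReal_natCast (β * (n - ℓ)), ← ENNReal.ofReal_natCast r,
    ← ENNReal.ofReal_natCast β, ← ENNReal.ofReal_mul (by positivity),
    ← ENNReal.ofReal_mul (by positivity), ← ENNReal.ofReal_mul (by positivity),
    ← ENNReal.ofReal_one, ← ENNReal.ofReal_add (by positivity) (by positivity),
    ← ENNReal.ofReal_mul (by positivity), ← ENNReal.ofReal_add (by positivity) (by positivity)]
  congr 1
  push_cast [Nat.cast_sub (show r ≤ n by omega), Nat.cast_sub (show r ≤ ℓ by omega),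
    Nat.cast_sub hℓ]
  field_simp
  ring

theorem lowerBound (𝕜 : Type) [RCLike 𝕜] (α : ℕ) (hα : α + finrank ℝ 𝕜 = 2) :
    LowerBound 𝕜 α := by
  intro n ℓ d p r _ hℓ hp hrd hr μ hμ hrank ALG hALG
  set C := ⨆ (A : Matrix (Fin n) (Fin d) 𝕜) (B : Matrix (Fin n) (Fin p) 𝕜)
        (P : Matrix (Fin d) (Fin n) 𝕜) (_ : A.rank = r ∧ IsPinv A P ∧ B ≠ A * P * B),
        (∫⁻ Ω, ENNReal.ofReal (frobSq (B - A * Matrix.of (ALG (Ω,
            Matrix.of.symm ((Matrix.of Ω)ᴴ * A), Matrix.of.symm ((Matrix.of Ω)ᴴ * B))))) ∂μ)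
          / ENNReal.ofReal (frobSq (B - A * P * B)) with hCdef
  set e : Fin p := ⟨0, hp⟩
  have hβ : 0 < finrank ℝ 𝕜 := finrank_pos
  let est : (Fin n → Fin ℓ → 𝕜) × (Fin r → EE 𝕜 n) × EE 𝕜 n → EE 𝕜 r := fun q =>
    WithLp.toLp 2 fun j => ALG (q.1, Matrix.of.symm ((Matrix.of q.1)ᴴ * (matA0 q.2.1 * matJ 𝕜 hrd)),
      Matrix.of.symm ((Matrix.of q.1)ᴴ * matB e q.2.2)) (Fin.castLE hrd j) e
  have hmeas : Measurable est := by
    have h1 : Measurable (fun q : (Fin n → Fin ℓ → 𝕜) × (Fin r → EE 𝕜 n) × EE 𝕜 n =>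
        (q.1, Matrix.of.symm ((Matrix.of q.1)ᴴ * (matA0 q.2.1 * matJ 𝕜 hrd)),
          Matrix.of.symm ((Matrix.of q.1)ᴴ * matB e q.2.2))) := by
      refine measurable_fst.prodMk (Measurable.prodMk ?_ ?_)
      · refine measurable_pi_lambda _ fun i => measurable_pi_lambda _ fun k => ?_
        simp only [Matrix.of_symm_apply, Matrix.mul_apply, Matrix.conjTranspose_apply,
          Matrix.of_apply, matA0]
        refine Finset.measurable_sum _ fun x _ => Measurable.mul ?_ ?_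
        · exact continuous_star.measurable.comp ((measurable_pi_apply i).comp
            ((measurable_pi_apply x).comp measurable_fst))
        · refine Finset.measurable_sum _ fun y _ => Measurable.mul_const ?_ _
          have : Continuous (fun z : EE 𝕜 n => z x) := by fun_prop
          exact this.measurable.comp ((measurable_pi_apply y).comp
            (measurable_fst.comp measurable_snd))
      · refine measurable_pi_lambda _ fun i => measurable_pi_lambda _ fun k => ?_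
        simp only [Matrix.of_symm_apply, Matrix.mul_apply, Matrix.conjTranspose_apply,
          Matrix.of_apply, matB]
        refine Finset.measurable_sum _ fun x _ => Measurable.mul ?_ ?_
        · exact continuous_star.measurable.comp ((measurable_pi_apply i).comp
            ((measurable_pi_apply x).comp measurable_fst))
        · split_ifs
          · have : Continuous (fun z : EE 𝕜 n => z x) := by fun_prop
            exact this.measurable.comp (measurable_snd.comp measurable_snd)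
          · exact measurable_const
    have h2 := hALG.comp h1
    refine (WithLp.measurable_toLp 2 _).comp (measurable_pi_lambda _ fun j => ?_)
    exact (measurable_pi_apply e).comp ((measurable_pi_apply (Fin.castLE hrd j)).comp h2)
  have hinv : ∀ Ω, Inv (kerK Ω) (fun y => est (Ω, y)) := by
    intro Ω a a' b b' ha hb
    have h1 : (Matrix.of Ω)ᴴ * matA0 a = (Matrix.of Ω)ᴴ * matA0 a' := by
      ext i j
      have := congrFun ((mem_kerK Ω _).1 (ha j)) i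
      rw [WithLp.ofLp_sub, Matrix.mulVec_sub, Pi.sub_apply, Pi.zero_apply, sub_eq_zero] at this
      exact this
    have h2 : (Matrix.of Ω)ᴴ * matB e b = (Matrix.of Ω)ᴴ * matB e b' := by
      have := (mem_kerK Ω _).1 hb
      rw [WithLp.ofLp_sub, Matrix.mulVec_sub, sub_eq_zero] at this
      rw [mul_matB, mul_matB, this]
    simp only [est]
    rw [← Matrix.mul_assoc, ← Matrix.mul_assoc, h1, h2]
  have hC : ∀ a b, LinearIndependent 𝕜 a → b ∉ Submodule.span 𝕜 (Set.range a) →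
      ∫⁻ ω, ENNReal.ofReal (‖b - comb a (est (ω, a, b))‖ ^ 2) ∂μ ≤
        C * ENNReal.ofReal (‖(Submodule.span 𝕜 (Set.range a))ᗮ.starProjection b‖ ^ 2) := by
    intro a b ha hb
    obtain ⟨P, hP1, hP2, hP3⟩ := exists_pinv hrd a ha
    have hD : frobSq (matB e b - matA0 a * matJ 𝕜 hrd * P * matB e b)
        = ‖(Submodule.span 𝕜 (Set.range a))ᗮ.starProjection b‖ ^ 2 := by
      rw [mul_matB, matB_sub, frobSq_matB, hP3]
    have hpos : 0 < ‖(Submodule.span 𝕜 (Set.range a))ᗮ.starProjection b‖ ^ 2 := by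
      have : (Submodule.span 𝕜 (Set.range a))ᗮ.starProjection b ≠ 0 := by
        rw [Ne, Submodule.starProjection_apply_eq_zero_iff, Submodule.orthogonal_orthogonal]
        exact hb
      positivity
    have hne : matB e b ≠ matA0 a * matJ 𝕜 hrd * P * matB e b := by
      intro h
      rw [← hD, ← h, sub_self] at hpos
      simp [frobSq] at hpos
    have hle : (∫⁻ Ω, ENNReal.ofReal (frobSq (matB e b - (matA0 a * matJ 𝕜 hrd) *
          Matrix.of (ALG (Ω, Matrix.of.symm ((Matrix.of Ω)ᴴ * (matA0 a * matJ 𝕜 hrd)),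
            Matrix.of.symm ((Matrix.of Ω)ᴴ * matB e b))))) ∂μ)
          / ENNReal.ofReal (frobSq (matB e b - matA0 a * matJ 𝕜 hrd * P * matB e b)) ≤ C := by
      rw [hCdef]
      exact le_iSup_of_le (matA0 a * matJ 𝕜 hrd) (le_iSup_of_le (matB e b) (le_iSup_of_le P
        (le_iSup_of_le ⟨hP1, hP2, hne⟩ le_rfl)))
    rw [hD, ENNReal.div_le_iff (ENNReal.ofReal_pos.2 hpos).ne' ENNReal.ofReal_ne_top] at hle
    refine le_trans (lintegral_mono fun Ω => ENNReal.ofReal_le_ofReal ?_) hle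
    exact le_frobSq hrd e a b _
  have hK : ∀ᵐ Ω ∂μ, finrank 𝕜 (kerK Ω) + ℓ = n := hrank.mono fun Ω h => finrank_kerK Ω h
  have h3 : 3 ≤ finrank ℝ 𝕜 * (ℓ + 1 - r) := by
    have : (α = 1 ∧ finrank ℝ 𝕜 = 1) ∨ (α = 0 ∧ finrank ℝ 𝕜 = 2) := by omega
    rcases this with ⟨h1, h2⟩ | ⟨h1, h2⟩ <;> rw [h2] <;> omega
  have hcore := core μ kerK hK (by omega) (by omega) h3 est hmeas hinv C hC
  rw [← arith hα hβ hℓ hr] at hcore
  have hne0 : ((finrank ℝ 𝕜 * (n - r) : ℕ) : ℝ≥0∞) ≠ 0 := by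
    have : 0 < finrank ℝ 𝕜 * (n - r) := Nat.mul_pos hβ (by omega)
    exact_mod_cast this.ne'
  exact (ENNReal.mul_le_mul_iff_left hne0 (ENNReal.natCast_ne_top _)).1 hcore

theorem main : LowerBound ℝ 1 ∧ LowerBound ℂ 0 :=
  ⟨lowerBound ℝ 1 (by simp), lowerBound ℂ 0 (by simp)⟩

end Pool.Agent.P.MP_467638_an
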