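import Pool.Agent.P.MP_467638_an.Main

set_option autoImplicit false

open MeasureTheory ProbabilityTheory Module Set Filter InnerProductSpace
open scoped ENNReal

namespace Pool.Agent.P.MP_467638_an.Ad

theorem map_act {G Y : Type*} [Group G] [TopologicalSpace G] [IsTopologicalGroup G]
    [CompactSpace G] [MeasurableSpace G] [BorelSpace G] [MeasurableSpace Y] (act : G → Y → Y)
    (hm : Measurable fun q : G × Y => act q.1 q.2)
    (hmul : ∀ g h y, act (g * h) y = act g (act h y)) (ν : Measure Y) [SFinite ν]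
    (hν : ∀ g, ν.map (act g) = ν) (V : Y → G) (hV : Measurable V)
    (hinv : ∀ g y, V (act g y) = V y) : ν.map (fun y => act (V y) y) = ν := by
  have hT : Measurable fun y => act (V y) y := hm.comp (hV.prodMk measurable_id)
  refine Measure.ext_of_lintegral _ fun f hf => ?_
  rw [lintegral_map hf hT]
  let η : Measure G := Measure.haar
  have h0 : η univ ≠ 0 := isOpen_univ.measure_ne_zero η univ_nonempty
  have h1 : ∀ g, Measurable (act g) := fun g => hm.comp measurable_prodMk_left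
  have h2 : ∀ F : Y → ℝ≥0∞, Measurable F →
      ∫⁻ y, ∫⁻ g, F (act g y) ∂η ∂ν = (∫⁻ y, F y ∂ν) * η univ := fun F hF => by
    rw [← lintegral_lintegral_swap (f := fun g y => F (act g y)) (hF.comp hm).aemeasurable,
      ← lintegral_const]
    refine lintegral_congr fun g => ?_
    rw [← lintegral_map hF (h1 g), hν]
  rw [← ENNReal.mul_left_inj h0 (measure_ne_top η _), ← h2 f hf,
    ← h2 (fun y => f (act (V y) y)) (hf.comp hT)]
  refine lintegral_congr fun y => ?_
  simp only [hinv, ← hmul]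
  exact lintegral_mul_left_eq_self (fun g => f (act g y)) (V y)

variable {𝕜 : Type} [RCLike 𝕜] {n r : ℕ}

instance : ContinuousStar (EE 𝕜 n →L[𝕜] EE 𝕜 n) := ⟨ContinuousLinearMap.adjoint.continuous⟩

noncomputable abbrev UU (𝕜 : Type) [RCLike 𝕜] (n : ℕ) := unitary (EE 𝕜 n →L[𝕜] EE 𝕜 n)

abbrev Dat (𝕜 : Type) [RCLike 𝕜] (r n : ℕ) := (Fin r → EE 𝕜 n) × EE 𝕜 n

noncomputable def act (U : UU 𝕜 n) (y : Dat 𝕜 r n) : Dat 𝕜 r n := (fun j => U.1 (y.1 j), U.1 y.2)

theorem act_mul (U V : UU 𝕜 n) (y : Dat 𝕜 r n) : act (U * V) y = act U (act V y) := rfl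

theorem continuous_act : Continuous fun q : UU 𝕜 n × Dat 𝕜 r n => act q.1 q.2 := by
  unfold act
  fun_prop

def fixG (K : Submodule 𝕜 (EE 𝕜 n)) : Subgroup (UU 𝕜 n) where
  carrier := {U | ∀ z, U.1 z - z ∈ K}
  mul_mem' {U V} hU hV z := by
    have := K.add_mem (hU (V.1 z)) (hV z)
    rwa [sub_add_sub_cancel] at this
  one_mem' z := by simp
  inv_mem' {U} hU z := by
    have h1 : U.1 ((U⁻¹).1 z) = z := congrArg (fun V : UU 𝕜 n => V.1 z) (mul_inv_cancel U)
    have := K.neg_mem (hU ((U⁻¹).1 z))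
    rwa [h1, neg_sub] at this

theorem compact_UU : CompactSpace (UU 𝕜 n) := by
  have := FiniteDimensional.proper_rclike 𝕜 (EE 𝕜 n →L[𝕜] EE 𝕜 n)
  refine isCompact_iff_compactSpace.1 (Metric.isCompact_of_isClosed_isBounded isClosed_unitary
    ((Metric.isBounded_closedBall (x := 0) (r := 1)).subset fun U hU => ?_))
  rw [mem_closedBall_zero_iff]
  exact ContinuousLinearMap.opNorm_le_bound _ zero_le_one fun z => by
    rw [U.norm_map_of_mem_unitary hU, one_mul]

theorem compact_fixG (K : Submodule 𝕜 (EE 𝕜 n)) : CompactSpace (fixG K) := by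
  have := compact_UU (𝕜 := 𝕜) (n := n)
  refine isCompact_iff_compactSpace.1 (IsClosed.isCompact ?_)
  have : (fixG K : Set (UU 𝕜 n)) = ⋂ z, (fun U : UU 𝕜 n => U.1 z - z) ⁻¹' K := by
    ext U
    simp only [mem_iInter]
    rfl
  rw [this]
  exact isClosed_iInter fun z => K.closed_of_finiteDimensional.preimage (by fun_prop)

/-- The reflection in the hyperplane orthogonal to a vector. -/
noncomputable def house (w : EE 𝕜 n) : EE 𝕜 n →L[𝕜] EE 𝕜 n :=
  1 - (2 : 𝕜) • rankOne 𝕜 ((‖w‖ : 𝕜)⁻¹ • w) ((‖w‖ : 𝕜)⁻¹ • w)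

theorem house_apply (w z : EE 𝕜 n) :
    house w z = z - (2 * inner 𝕜 w z / (‖w‖ : 𝕜) ^ 2) • w := by
  simp only [house, sub_apply, one_apply_eq_self, smul_apply,
    rankOne_apply, inner_smul_left, smul_smul, map_inv₀,
    RCLike.conj_ofReal]
  congr 2
  ring

theorem star_house (w : EE 𝕜 n) : star (house w) = house w := by
  refine ((ContinuousLinearMap.eq_adjoint_iff _ _).2 fun x y => ?_).symm
  simp only [house_apply, inner_sub_left, inner_sub_right, inner_smul_left, inner_smul_right,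
    map_div₀, map_mul, map_pow, RCLike.conj_ofReal, inner_conj_symm, map_ofNat]
  ring

theorem house_mem (w : EE 𝕜 n) : house w ∈ unitary (EE 𝕜 n →L[𝕜] EE 𝕜 n) := by
  have : house w * house w = 1 := by
    ext1 z
    rcases eq_or_ne w 0 with rfl | h
    · simp [house_apply]
    have h0 : (‖w‖ : 𝕜) ≠ 0 := by simpa using h
    rw [mul_apply_eq_comp, house_apply, house_apply, inner_sub_right, inner_smul_right,
      inner_self_eq_norm_sq_to_K, sub_sub, ← add_smul, one_apply_eq_self,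
      sub_eq_self, smul_eq_zero]
    left
    field_simp
    ring
  exact ⟨by rw [star_house, this], by rw [star_house, this]⟩

theorem measurable_house : Measurable (house : EE 𝕜 n → _) := by
  have h1 : Measurable fun w : EE 𝕜 n => (‖w‖ : 𝕜)⁻¹ • w :=
    Measurable.smul (f := fun w : EE 𝕜 n => (‖w‖ : 𝕜)⁻¹) (g := fun w => w)
      (RCLike.continuous_ofReal.comp continuous_norm).measurable.inv measurable_id
  have h2 : Continuous fun x : EE 𝕜 n => 1 - (2 : 𝕜) • rankOne 𝕜 x x :=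
    continuous_clm_apply.2 fun y => by
      change Continuous fun x : EE 𝕜 n => y - (2 : 𝕜) • (inner 𝕜 x y • x)
      fun_prop
  exact h2.measurable.comp h1

theorem house_sub {u s : EE 𝕜 n} (h1 : ‖u‖ = ‖s‖) (h2 : inner 𝕜 s u = inner 𝕜 u s) :
    house (u - s) u = s := by
  rcases eq_or_ne (u - s) 0 with h | h
  · rw [h, sub_eq_zero.1 h]
    simp [house_apply]
  have h0 : (‖u - s‖ : 𝕜) ≠ 0 := by simpa using h
  have h3 : 2 * inner 𝕜 (u - s) u = (‖u - s‖ : 𝕜) ^ 2 := by
    rw [← inner_self_eq_norm_sq_to_K, inner_sub_right, inner_sub_left, inner_sub_left, h2,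
      inner_self_eq_norm_sq_to_K, inner_self_eq_norm_sq_to_K, h1]
    ring
  rw [house_apply, h3, div_self (pow_ne_zero _ h0), one_smul, sub_sub_cancel]

theorem exists_turn (K : Submodule 𝕜 (EE 𝕜 n)) {e : EE 𝕜 n} (he : e ∈ K) (h1 : ‖e‖ = 1) :
    ∃ V : EE 𝕜 n → fixG K, Measurable V ∧ ∀ v z, z ∈ (𝕜 ∙ e)ᗮ ⊓ K →
      inner 𝕜 v ((V v).1.1 z) = 0 := by
  classical
  let θ : 𝕜 → 𝕜 := fun c => if c = 0 then 1 else c / (‖c‖ : 𝕜)
  have hθ : Measurable θ := Measurable.ite (measurableSet_singleton 0) measurable_const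
    (measurable_id.div (RCLike.continuous_ofReal.comp continuous_norm).measurable)
  have t1 : ∀ c, ‖θ c‖ = 1 := fun c => by
    by_cases h : c = 0 <;> simp [θ, h]
  have t2 : ∀ c, (starRingEnd 𝕜) (θ c) * c = θ c * (starRingEnd 𝕜) c := fun c => by
    by_cases h : c = 0
    · simp [h]
    · simp only [θ, if_neg h, map_div₀, RCLike.conj_ofReal]
      ring
  let s : EE 𝕜 n → EE 𝕜 n := fun u => (θ (inner 𝕜 e u) * (‖u‖ : 𝕜)) • e
  have hs : Measurable s := ((hθ.comp (Continuous.measurable (by fun_prop))).mul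
    (RCLike.continuous_ofReal.comp continuous_norm).measurable).smul_const e
  have h2 : ∀ u, house (u - s u) u = s u := fun u => house_sub (by simp [s, norm_smul, t1, h1]) (by
    simp only [s, inner_smul_left, inner_smul_right, map_mul, RCLike.conj_ofReal]
    rw [mul_right_comm, t2, inner_conj_symm, mul_right_comm])
  let w : EE 𝕜 n → EE 𝕜 n := fun v => K.starProjection v - s (K.starProjection v)
  have hw : ∀ v, w v ∈ K := fun v => K.sub_mem (K.starProjection_apply_mem v) (K.smul_mem _ he)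
  have h3 : ∀ v z, house (w v) z - z ∈ K := fun v z => by
    rw [house_apply, sub_sub_cancel_left]
    exact K.neg_mem (K.smul_mem _ (hw v))
  refine ⟨fun v => ⟨⟨house (w v), house_mem _⟩, h3 v⟩, (measurable_house.comp
    (K.starProjection.continuous.measurable.sub
      (hs.comp K.starProjection.continuous.measurable))).subtype_mk.subtype_mk, fun v z hz => ?_⟩
  have h4 : house (w v) z ∈ K := by simpa using K.add_mem (h3 v z) hz.2
  change inner 𝕜 v (house (w v) z) = 0
  rw [← Submodule.starProjection_eq_self_iff.2 h4, ← Submodule.inner_starProjection_left_eq_right,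
    ← ContinuousLinearMap.adjoint_inner_left, ← ContinuousLinearMap.star_eq_adjoint, star_house,
    h2, inner_smul_left, (Submodule.mem_orthogonal_singleton_iff_inner_right).1 hz.1, mul_zero]

/-- The distance from the last vector to the span of the others. -/
noncomputable def rho (y : Dat 𝕜 r n) : ℝ := ⨅ x : EE 𝕜 r, ‖y.2 - comb y.1 x‖

def Side (y y' : Dat 𝕜 r n) : Prop :=
  (∀ i j, inner 𝕜 (y.1 i) (y.1 j) = inner 𝕜 (y'.1 i) (y'.1 j)) ∧ rho y = rho y'

def Sim (K : Submodule 𝕜 (EE 𝕜 n)) (y y' : Dat 𝕜 r n) : Prop :=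
  Side y y' ∧ (∀ j, y.1 j - y'.1 j ∈ K) ∧ y.2 - y'.2 ∈ K

def Agree (v : EE 𝕜 n) (y y' : Dat 𝕜 r n) : Prop :=
  (∀ j, inner 𝕜 v (y.1 j) = inner 𝕜 v (y'.1 j)) ∧ inner 𝕜 v y.2 = inner 𝕜 v y'.2

theorem norm_act (U : UU 𝕜 n) (y : Dat 𝕜 r n) (x : EE 𝕜 r) :
    ‖(act U y).2 - comb (act U y).1 x‖ = ‖y.2 - comb y.1 x‖ := by
  rw [← Unitary.norm_map U (y.2 - _), map_sub, map_comb]
  rfl

theorem side_act (U : UU 𝕜 n) (y : Dat 𝕜 r n) : Side (act U y) y :=
  ⟨fun _ _ => Unitary.inner_map_map U _ _, iInf_congr (norm_act U y)⟩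

theorem Side.symm {y y' : Dat 𝕜 r n} (h : Side y y') : Side y' y :=
  ⟨fun i j => (h.1 i j).symm, h.2.symm⟩

theorem Side.trans {y y' z : Dat 𝕜 r n} (h : Side y y') (h' : Side y' z) : Side y z :=
  ⟨fun i j => (h.1 i j).trans (h'.1 i j), h.2.trans h'.2⟩

theorem Sim.symm {K : Submodule 𝕜 (EE 𝕜 n)} {y y' : Dat 𝕜 r n} (h : Sim K y y') : Sim K y' y :=
  ⟨h.1.symm, fun j => by simpa using K.neg_mem (h.2.1 j), by simpa using K.neg_mem h.2.2⟩

theorem Sim.trans {K : Submodule 𝕜 (EE 𝕜 n)} {y y' z : Dat 𝕜 r n} (h : Sim K y y')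
    (h' : Sim K y' z) : Sim K y z :=
  ⟨h.1.trans h'.1, fun j => by simpa using K.add_mem (h.2.1 j) (h'.2.1 j),
    by simpa using K.add_mem h.2.2 h'.2.2⟩

theorem sim_act {K : Submodule 𝕜 (EE 𝕜 n)} (g : fixG K) (y : Dat 𝕜 r n) : Sim K (act g.1 y) y :=
  ⟨side_act _ _, fun _ => g.2 _, g.2 _⟩

theorem measurable_act {X : Type*} [MeasurableSpace X] {U : X → UU 𝕜 n} {y : X → Dat 𝕜 r n}
    (hU : Measurable U) (hy : Measurable y) : Measurable fun x => act (U x) (y x) :=
  continuous_act.measurable.comp (hU.prodMk hy)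

theorem measurable_inv_apply {X : Type*} [MeasurableSpace X] {U : X → UU 𝕜 n} {z : X → EE 𝕜 n}
    (hU : Measurable U) (hz : Measurable z) : Measurable fun x => ((U x)⁻¹).1 (z x) := by
  have h1 : Continuous fun q : (EE 𝕜 n →L[𝕜] EE 𝕜 n) × EE 𝕜 n => star q.1 q.2 :=
    continuous_fst.star.clm_apply continuous_snd
  have h2 := h1.measurable.comp ((measurable_subtype_coe.comp hU).prodMk hz)
  exact h2

theorem measurable_mulU {X : Type*} [MeasurableSpace X] {U V : X → UU 𝕜 n}
    (hU : Measurable U) (hV : Measurable V) : Measurable fun x => U x * V x := by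
  have : Continuous fun q : (EE 𝕜 n →L[𝕜] EE 𝕜 n) × (EE 𝕜 n →L[𝕜] EE 𝕜 n) => q.1 ∘L q.2 :=
    continuous_fst.clm_comp continuous_snd
  exact (this.measurable.comp ((measurable_subtype_coe.comp hU).prodMk
    (measurable_subtype_coe.comp hV))).subtype_mk

theorem rot (k : ℕ) (hk : k ≤ n) : ∃ K : Submodule 𝕜 (EE 𝕜 n), finrank 𝕜 K + k = n ∧
    ∀ Q : ℕ → Dat 𝕜 r n → EE 𝕜 n, (∀ j, Measurable (Q j)) →
      (∀ j y y', Side y y' → (∀ i < j, Agree (Q i y) y y') → Q j y = Q j y') →
      ∃ U : Dat 𝕜 r n → UU 𝕜 n, Measurable U ∧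
        (∀ (ν : Measure (Dat 𝕜 r n)) [SFinite ν], (∀ g, ν.map (act g) = ν) →
          ν.map (fun y => act (U y) y) = ν) ∧
        ∀ y y', Sim K y y' → U y = U y' ∧
          ∀ j < k, Agree (Q j (act (U y) y)) (act (U y) y) (act (U y) y') := by
  induction k with
  | zero =>
    exact ⟨⊤, by simp, fun Q _ _ => ⟨fun _ => 1, measurable_const, fun ν _ h => h 1,
      fun _ _ _ => ⟨rfl, fun _ h => (Nat.not_lt_zero _ h).elim⟩⟩⟩
  | succ k ih =>
    obtain ⟨K, hK, ih⟩ := ih (by omega)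
    obtain ⟨e, he, h1⟩ : ∃ e ∈ K, ‖e‖ = 1 := by
      obtain ⟨e, he, h0⟩ := Submodule.exists_mem_ne_zero_of_ne_bot (p := K) (by
        rintro rfl
        rw [finrank_bot] at hK
        omega)
      exact ⟨(‖e‖ : 𝕜)⁻¹ • e, K.smul_mem _ he, norm_smul_inv_norm h0⟩
    have h2 := Submodule.finrank_add_inf_finrank_orthogonal
      ((Submodule.span_singleton_le_iff_mem e K).2 he)
    rw [finrank_span_singleton (by rintro rfl; simp at h1)] at h2
    refine ⟨(𝕜 ∙ e)ᗮ ⊓ K, by omega, fun Q hQ hA => ?_⟩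
    obtain ⟨U, hU, hν, hS⟩ := ih Q hQ hA
    obtain ⟨V, hV, hV'⟩ := exists_turn K he h1
    have hUa : Measurable fun y => act (U y) y := measurable_act hU measurable_id'
    obtain ⟨v, hv, hv'⟩ : ∃ v : Dat 𝕜 r n → EE 𝕜 n, Measurable v ∧
        ∀ y, v y = ((U y)⁻¹).1 (Q k (act (U y) y)) :=
      ⟨_, measurable_inv_apply hU (z := fun y => Q k (act (U y) y)) ((hQ k).comp hUa), fun _ => rfl⟩
    have h3 : ∀ y y', Sim K y y' → v y = v y' := fun y y' h => by
      rw [hv', hv', hA k _ (act (U y) y') ((side_act _ _).trans (h.1.trans (side_act _ _).symm))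
        (hS y y' h).2, (hS y y' h).1]
    have h4 : ∀ y, (U y).1 (v y) = Q k (act (U y) y) := fun y => by
      rw [hv']
      exact congrArg (fun W : UU 𝕜 n => W.1 (Q k (act (U y) y))) (mul_inv_cancel (U y))
    have hV2 : Measurable fun y => (V (v y)).1 := measurable_subtype_coe.comp (hV.comp hv)
    refine ⟨fun y => U y * (V (v y)).1, ?_, fun ν _ h => ?_, fun y y' h => ?_⟩
    · exact measurable_mulU hU hV2
    · have := compact_fixG K
      have h5 := map_act (fun (g : fixG K) y => act g.1 y)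
        (measurable_act (measurable_subtype_coe.comp measurable_fst) measurable_snd)
        (fun _ _ _ => rfl) ν (fun g => h g.1) (fun y => V (v y)) (hV.comp hv)
        fun g y => by rw [h3 _ _ (sim_act g y)]
      conv_rhs => rw [← hν ν h]
      conv_rhs => rw [← h5]
      rw [Measure.map_map hUa (measurable_act hV2 measurable_id')]
      congr 1
      ext1 y
      simp only [Function.comp_apply, act_mul, (hS _ _ (sim_act (V (v y)) y)).1]
    · have h' : Sim K y y' := ⟨h.1, fun j => (h.2.1 j).2, h.2.2.2⟩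
      refine ⟨by simp only [(hS y y' h').1, h3 y y' h'], fun j hj => ?_⟩
      have h6 := sim_act (V (v y)) y
      simp only [act_mul]
      rcases Nat.lt_succ_iff_lt_or_eq.1 hj with hj | rfl
      · rw [← (hS _ _ h6).1]
        exact (hS _ _ (h6.trans (h'.trans (sim_act _ _).symm))).2 j hj
      · have h7 := h4 (act (V (v y)).1 y)
        rw [(hS _ _ h6).1, h3 _ _ h6] at h7
        rw [← h7]
        have h8 : ∀ a a', a - a' ∈ (𝕜 ∙ e)ᗮ ⊓ K → inner 𝕜 ((U y).1 (v y))
            ((U y).1 ((V (v y)).1.1 a)) = inner 𝕜 ((U y).1 (v y)) ((U y).1 ((V (v y)).1.1 a')) :=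
          fun a a' ha => by
            rw [Unitary.inner_map_map, Unitary.inner_map_map, ← sub_eq_zero, ← inner_sub_right,
              ← map_sub, hV' _ _ ha]
        exact ⟨fun i => h8 _ _ (h.2.1 i), h8 _ _ h.2.2⟩

end Pool.Agent.P.MP_467638_an.Ad
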