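import Pool.Agent.P.MP_467638_an.Rot

set_option autoImplicit false

open MeasureTheory ProbabilityTheory Module Set Filter Matrix Metric
open scoped ENNReal

namespace Pool.Agent.P.MP_467638_an.Ad

variable {𝕜 : Type} [RCLike 𝕜] {n r : ℕ}

/-- The least squares solution of the projected problem. -/
noncomputable def est0 (K : Submodule 𝕜 (EE 𝕜 n)) (y : Dat 𝕜 r n) : EE 𝕜 r :=
  WithLp.toLp 2 ((gram 𝕜 fun j => Kᗮ.starProjection (y.1 j))⁻¹ *ᵥ
    fun j => inner 𝕜 (Kᗮ.starProjection (y.1 j)) y.2)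

variable (K : Submodule 𝕜 (EE 𝕜 n))

theorem measurable_est0 : Measurable (est0 (r := r) K) := by
  have h1 : Continuous fun y : Dat 𝕜 r n => gram 𝕜 fun j => Kᗮ.starProjection (y.1 j) :=
    continuous_matrix fun i j => by simp only [gram_apply]; fun_prop
  have h2 : Continuous fun y : Dat 𝕜 r n =>
      (gram 𝕜 fun j => Kᗮ.starProjection (y.1 j)).adjugate *ᵥ
        fun j => inner 𝕜 (Kᗮ.starProjection (y.1 j)) y.2 :=
    h1.matrix_adjugate.matrix_mulVec (by fun_prop)
  refine (WithLp.measurable_toLp 2 _).comp ?_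
  simp only [Matrix.inv_def, Ring.inverse_eq_inv', smul_mulVec]
  exact Measurable.smul (f := fun y : Dat 𝕜 r n =>
    (gram 𝕜 fun j => Kᗮ.starProjection (y.1 j)).det⁻¹) h1.matrix_det.measurable.inv h2.measurable

theorem inv_est0 : Inv K (est0 (r := r) K) := fun a a' b b' ha hb => by
  have h1 : ∀ j, Kᗮ.starProjection (a j) = Kᗮ.starProjection (a' j) := fun j => by
    rw [← sub_eq_zero, ← map_sub, Submodule.starProjection_orthogonal_apply_eq_zero (ha j)]
  have h2 : ∀ j, inner 𝕜 (Kᗮ.starProjection (a' j)) b = inner 𝕜 (Kᗮ.starProjection (a' j)) b' :=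
    fun j => by
      rw [← sub_eq_zero, ← inner_sub_right,
        Submodule.inner_left_of_mem_orthogonal hb (Kᗮ.starProjection_apply_mem _)]
  simp only [est0, h1, h2]

theorem inner_comb (a : Fin r → EE 𝕜 n) (x : EE 𝕜 r) :
    (fun j => inner 𝕜 (Kᗮ.starProjection (a j)) (comb a x)) =
      (gram 𝕜 fun j => Kᗮ.starProjection (a j)) *ᵥ x.ofLp := by
  ext i
  simp only [comb, inner_sum, inner_smul_right, mulVec, dotProduct, gram_apply]
  refine Finset.sum_congr rfl fun j _ => ?_
  rw [mul_comm, ← Submodule.inner_starProjection_left_eq_right,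
    Submodule.starProjection_eq_self_iff.2 (Kᗮ.starProjection_apply_mem _)]

variable {K} {a : Fin r → EE 𝕜 n} (ha : LinearIndependent 𝕜 fun j => Kᗮ.starProjection (a j))

include ha

theorem est0_add (x : EE 𝕜 r) (g : EE 𝕜 n) : est0 K (a, comb a x + g) = x + est0 K (a, g) := by
  have h := (det_gram_ne_zero_iff_linearIndependent.2 ha).isUnit
  have e : (fun j => inner 𝕜 (Kᗮ.starProjection (a j)) (comb a x + g)) =
      (gram 𝕜 fun j => Kᗮ.starProjection (a j)) *ᵥ x.ofLp +
        fun j => inner 𝕜 (Kᗮ.starProjection (a j)) g := by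
    rw [← inner_comb]
    ext j
    exact inner_add_right _ _ _
  simp only [est0]
  rw [e, mulVec_add, mulVec_mulVec, nonsing_inv_mul _ h, one_mulVec]
  rfl

theorem proj_est0 (g : EE 𝕜 n) :
    (Submodule.span 𝕜 (range fun j => Kᗮ.starProjection (a j))).starProjection g =
      Kᗮ.starProjection (comb a (est0 K (a, g))) := by
  have h := (det_gram_ne_zero_iff_linearIndependent.2 ha).isUnit
  have h1 := inner_comb K a (est0 K (a, g))
  rw [est0, mulVec_mulVec, mul_nonsing_inv _ h, one_mulVec] at h1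
  refine Submodule.eq_starProjection_of_mem_orthogonal (by rw [map_comb]; exact comb_mem _ _) ?_
  rw [Submodule.mem_orthogonal]
  intro u hu
  induction hu using Submodule.span_induction with
  | mem x hx =>
    obtain ⟨j, rfl⟩ := hx
    rw [inner_sub_right, ← Submodule.inner_starProjection_left_eq_right (K := Kᗮ) _ (comb _ _),
      Submodule.starProjection_eq_self_iff.2 (Kᗮ.starProjection_apply_mem _), sub_eq_zero]
    exact (congrFun h1 j).symm
  | zero => simp
  | add x y _ _ hx hy => rw [inner_add_left, hx, hy, add_zero]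
  | smul c x _ hx => rw [inner_smul_left, hx, mul_zero]

theorem exists_refl : ∃ R : EE 𝕜 n ≃ₗᵢ[𝕜] EE 𝕜 n, (∀ x, R (comb a x) = -comb a x) ∧
    ∀ g, comb a ((2 : 𝕜) • est0 K (a, g)) + R g - g ∈ K := by
  set Z := Submodule.span 𝕜 (range fun j => Kᗮ.starProjection (a j))
  set Z' := Submodule.span 𝕜 (range fun j => K.starProjection (a j))
  have h1 : Z ≤ Kᗮ := span_proj_le _ _
  have h2 : Z' ≤ K := span_proj_le _ _
  have h3 : ∀ (V : Submodule 𝕜 (EE 𝕜 n)) z, Vᗮ.reflection z = z - (2 : 𝕜) • V.starProjection z :=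
    fun V z => by
      rw [Submodule.reflection_orthogonal_apply, Submodule.reflection_apply, two_smul, two_smul]
      abel
  refine ⟨Zᗮ.reflection.trans Z'ᗮ.reflection, fun x => ?_, fun g => ?_⟩
  · have e1 : Kᗮ.starProjection (comb a x) ∈ Z := by rw [map_comb]; exact comb_mem _ _
    have e2 : K.starProjection (comb a x) ∈ Z' := by rw [map_comb]; exact comb_mem _ _
    rw [← K.starProjection_add_starProjection_orthogonal (comb a x), LinearIsometryEquiv.trans_apply,
      map_add, Submodule.reflection_mem_subspace_orthogonal_precomplement_eq_neg e1,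
      Submodule.reflection_mem_subspace_eq_self (Submodule.orthogonal_le h1
        (K.le_orthogonal_orthogonal (h2 e2))), map_add, map_neg,
      Submodule.reflection_mem_subspace_orthogonal_precomplement_eq_neg e2,
      Submodule.reflection_mem_subspace_eq_self (Submodule.orthogonal_le h2 (h1 e1)), neg_add]
  · rw [LinearIsometryEquiv.trans_apply, h3 Z', h3 Z, proj_est0 ha, comb_smul,
      Submodule.starProjection_orthogonal_val]
    have := K.smul_mem (2 : 𝕜) (K.sub_mem (K.starProjection_apply_mem (comb a (est0 K (a, g))))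
      (h2 (Z'.starProjection_apply_mem (g - (2 : 𝕜) • (comb a (est0 K (a, g)) -
        K.starProjection (comb a (est0 K (a, g))))))))
    refine (congrArg (· ∈ K) ?_).mp this
    simp only [smul_sub]
    abel

omit ha in
theorem map_iso (R : EE 𝕜 n ≃ₗᵢ[𝕜] EE 𝕜 n) :
    (stdGaussian (EE 𝕜 n)).map R = stdGaussian (EE 𝕜 n) :=
  map_stdGaussianK (𝕜 := 𝕜) _ R.continuous.measurable R.symm
    (fun z s => R.inner_map_eq_flip z s) fun s => by simp

/-- The share of a ball that survives a translation. -/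
noncomputable def wt (D : ℕ) (T s : ℝ) : ℝ≥0∞ :=
  if s ≤ T then ENNReal.ofReal ((1 - s / T) ^ D) else 0

/-- The loss of an estimator. -/
noncomputable def loss (est : Dat 𝕜 r n → EE 𝕜 r) (y : Dat 𝕜 r n) : ℝ≥0∞ :=
  ENNReal.ofReal (‖y.2 - comb y.1 (est y)‖ ^ 2)

omit ha in
theorem measurable_loss {X : Type*} [MeasurableSpace X] {est : X × Dat 𝕜 r n → EE 𝕜 r}
    (h : Measurable est) : Measurable fun q : X × Dat 𝕜 r n => loss (fun y => est (q.1, y)) q.2 :=
  measurable_normSq.comp ((measurable_snd.comp measurable_snd).sub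
    (continuous_comb.measurable.comp ((measurable_fst.comp measurable_snd).prodMk h)))

omit ha in
theorem measurable_loss' {est : Dat 𝕜 r n → EE 𝕜 r} (h : Measurable est) :
    Measurable (loss est) :=
  measurable_normSq.comp (measurable_snd.sub
    (continuous_comb.measurable.comp (measurable_fst.prodMk h)))

theorem refl_bound (lam : Measure (EE 𝕜 r)) [lam.IsAddHaarMeasure] {est : Dat 𝕜 r n → EE 𝕜 r}
    (hm : Measurable est) (hS : ∀ y y', Sim K y y' → est y = est y') {T : ℝ} (hT : 0 < T) :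
    ∫⁻ g, wt (finrank ℝ (EE 𝕜 r)) T ‖(2 : 𝕜) • est0 K (a, g)‖ * loss (est0 K) (a, g) *
        lam (closedBall 0 T) ∂(stdGaussian (EE 𝕜 n)) ≤
      ∫⁻ g, ∫⁻ x in closedBall 0 T, loss est (a, comb a x + g) ∂lam ∂(stdGaussian (EE 𝕜 n)) := by
  obtain ⟨R, h1, h2⟩ := exists_refl ha
  have hc : Continuous fun q : EE 𝕜 n × EE 𝕜 r => ((a, comb a q.2 + q.1) : Dat 𝕜 r n) := by
    unfold comb
    fun_prop
  have hf : M2 fun (g : EE 𝕜 n) (x : EE 𝕜 r) => loss est (a, comb a x + g) :=
    (measurable_loss' hm).comp hc.measurable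
  have hΦ := hf.int (lam.restrict (closedBall 0 T))
  rw [← ENNReal.mul_le_mul_iff_right (a := 2) (by simp) (by simp),
    ← lintegral_const_mul' _ _ (by simp), two_mul]
  nth_rw 3 [← map_iso R]
  rw [lintegral_map hΦ R.continuous.measurable, ← lintegral_add_left hΦ]
  refine lintegral_mono fun g => ?_
  set c := est0 K (a, g) with hc'
  set s := (2 : 𝕜) • c with hs
  simp only [← lintegral_indicator measurableSet_closedBall]
  rw [← lintegral_add_right_eq_self (fun x => (closedBall (0 : EE 𝕜 r) T).indicator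
      (fun x => loss est (a, comb a x + R g)) x) s,
    ← lintegral_add_left ((hf.fix g).indicator measurableSet_closedBall)]
  have h3 : wt (finrank ℝ (EE 𝕜 r)) T ‖s‖ * lam (closedBall 0 T) ≤
      lam (closedBall 0 (T - ‖s‖)) := by
    unfold wt
    split_ifs with h
    · rw [← lam.addHaar_closedBall_mul 0 (sub_nonneg.2 ((div_le_one hT).2 h)) hT.le, sub_mul,
        one_mul, div_mul_cancel₀ _ hT.ne']
    · simp
  rw [mul_right_comm, mul_left_comm, mul_comm]
  refine (mul_le_mul_right h3 _).trans ?_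
  rw [← lintegral_indicator_const measurableSet_closedBall]
  refine lintegral_mono fun x => ?_
  by_cases hx : x ∈ closedBall (0 : EE 𝕜 r) (T - ‖s‖)
  swap
  · simp [indicator_of_notMem hx]
  have h4 := mem_closedBall_zero_iff.1 hx
  rw [indicator_of_mem hx, indicator_of_mem (mem_closedBall_zero_iff.2 (by
      linarith [norm_nonneg s])), indicator_of_mem (mem_closedBall_zero_iff.2 (by
      linarith [norm_add_le x s]))]
  have h5 : ∀ z, ‖comb a (x + s) + R g - comb a z‖ = ‖g - comb a (x + s - z)‖ := fun z => by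
    rw [← R.norm_map (g - _), map_sub, h1, comb_sub]
    congr 1
    abel
  have h6 : est (a, comb a (x + s) + R g) = est (a, comb a x + g) := by
    refine hS _ _ ⟨⟨fun _ _ => rfl, ?_⟩, fun j => by simp, ?_⟩
    · refine (Equiv.subLeft (x + (x + s))).iInf_congr fun z => ?_
      rw [h5, Equiv.subLeft_apply]
      simp only [comb_sub, comb_add]
      congr 1
      abel
    · refine (congrArg (· ∈ K) ?_).mp (h2 g)
      rw [comb_add]
      change comb a s + R g - g = comb a x + comb a s + R g - (comb a x + g)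
      abel
  simp only [loss]
  rw [h6, h5, two_mul_ofReal, ← ENNReal.ofReal_add (sq_nonneg _) (sq_nonneg _)]
  refine ENNReal.ofReal_le_ofReal ?_
  set e := est (a, comb a x + g)
  have h7 := norm_add_le (comb a x + g - comb a e) (g - comb a (x + s - e))
  have h8 : comb a x + g - comb a e + (g - comb a (x + s - e)) = (2 : 𝕜) • (g - comb a c) := by
    rw [comb_sub, comb_add, hs, comb_smul, two_smul, two_smul]
    abel
  rw [h8, norm_smul, RCLike.norm_two] at h7
  nlinarith [sq_nonneg (‖comb a x + g - comb a e‖ - ‖g - comb a (x + s - e)‖),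
    norm_nonneg (g - comb a c), norm_nonneg (comb a x + g - comb a e),
    norm_nonneg (g - comb a (x + s - e))]

omit ha

theorem lower0 {ℓ : ℕ} (hK : finrank 𝕜 K + ℓ = n) (hr : r ≤ ℓ)
    (h3 : 3 ≤ finrank ℝ 𝕜 * (ℓ + 1 - r)) :
    ((finrank ℝ 𝕜 * (ℓ - r) : ℕ) : ℝ≥0∞) + ((finrank ℝ 𝕜 * (n - ℓ) : ℕ) : ℝ≥0∞) *
        (1 + (r : ℝ≥0∞) * ((finrank ℝ 𝕜 : ℝ≥0∞) *
          ENNReal.ofReal (1 / ((finrank ℝ 𝕜 : ℝ) * ((ℓ + 1 - r : ℕ) : ℝ) - 2))))
      ≤ ∫⁻ a, ∫⁻ g, loss (est0 K) (a, g) ∂(stdGaussian (EE 𝕜 n))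
        ∂(Measure.pi fun _ : Fin r => stdGaussian (EE 𝕜 n)) := by
  have hae := ae_linearIndependent Kᗮ r (by rw [finrank_orth K hK]; exact hr)
  have he : ∀ (t : ℝ) (a : Fin r → EE 𝕜 n), (LinearIndependent 𝕜 fun j => Kᗮ.starProjection (a j)) →
      ∀ ξ, err (est0 K) t a ξ = -est0 K (a, ξ.snd) := fun t a ha ξ => by
    rw [err, bvec, est0_add ha, sub_add_cancel_left]
  have hb := bayes_lower (Measure.dirac ()) (fun _ => K) (ae_of_all _ fun _ => hK) hr h3
    (fun q => est0 K q.2) ((measurable_est0 K).comp measurable_snd) fun _ => inv_est0 K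
  refine le_trans ?_ ((lossA (r := r) K hK _ (measurable_est0 K) (inv_est0 K) 1).trans_eq ?_)
  · gcongr
    refine hb.trans (iSup_le fun k => ?_)
    rw [lintegral_dirac]
    refine (lintegral_congr_ae (hae.mono fun a ha => lintegral_congr fun ξ => ?_)).le
    exact congrArg (fun z => ENNReal.ofReal (‖z‖ ^ 2)) ((he _ a ha ξ).trans (he _ a ha ξ).symm)
  · refine lintegral_congr_ae (hae.mono fun a ha => ?_)
    dsimp only
    rw [← map_snd_stdGaussian (r := r), lintegral_map (f := fun g => loss (est0 K) (a, g))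
      ((measurable_loss' (measurable_est0 K)).comp measurable_prodMk_left)
      (Continuous.measurable (by fun_prop))]
    refine lintegral_congr fun ξ => ?_
    rw [he _ a ha, loss, ← neg_one_smul 𝕜, comb_smul, neg_one_smul, neg_add_eq_sub]

theorem tendsto_wt (D : ℕ) (s : ℝ) : Tendsto (fun k : ℕ => wt D (k + 1) s) atTop (nhds 1) := by
  have h1 : Tendsto (fun k : ℕ => (k : ℝ) + 1) atTop atTop :=
    tendsto_atTop_add_const_right _ _ tendsto_natCast_atTop_atTop
  have h2 := ENNReal.tendsto_ofReal (((h1.const_div_atTop s).const_sub 1).pow D)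
  rw [sub_zero, one_pow, ENNReal.ofReal_one] at h2
  exact h2.congr' ((h1.eventually_ge_atTop s).mono fun k hk => (if_pos hk).symm)

theorem measurable_wt (D : ℕ) (T : ℝ) : Measurable (wt D T) :=
  Measurable.ite measurableSet_Iic (Measurable.ennreal_ofReal (by fun_prop)) measurable_const

/-- The data made from columns, noise and solution. -/
noncomputable def mk (q : (Fin r → EE 𝕜 n) × EE 𝕜 n × EE 𝕜 r) : Dat 𝕜 r n :=
  (q.1, comb q.1 q.2.2 + q.2.1)

theorem measurable_mk : Measurable (mk : _ → Dat 𝕜 r n) := by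
  refine Continuous.measurable ?_
  unfold mk comb
  fun_prop

/-- The prior on the data. -/
noncomputable def prior (σ : Measure (EE 𝕜 r)) : Measure (Dat 𝕜 r n) :=
  ((Measure.pi fun _ : Fin r => stdGaussian (EE 𝕜 n)).prod
    ((stdGaussian (EE 𝕜 n)).prod σ)).map mk

variable (σ : Measure (EE 𝕜 r)) [IsFiniteMeasure σ]

instance : IsFiniteMeasure (prior (n := n) σ) := Measure.isFiniteMeasure_map _ _

theorem lintegral_prior {F : Dat 𝕜 r n → ℝ≥0∞} (hF : Measurable F) :
    ∫⁻ y, F y ∂(prior σ) = ∫⁻ a, ∫⁻ g, ∫⁻ x, F (a, comb a x + g) ∂σ ∂(stdGaussian (EE 𝕜 n))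
      ∂(Measure.pi fun _ : Fin r => stdGaussian (EE 𝕜 n)) := by
  have h := hF.comp measurable_mk
  rw [prior, lintegral_map hF measurable_mk, lintegral_prod (fun q => F (mk q)) h.aemeasurable]
  exact lintegral_congr fun a => lintegral_prod (fun q => F (mk (a, q)))
    (h.comp measurable_prodMk_left).aemeasurable

theorem prior_act (U : UU 𝕜 n) : (prior (n := n) σ).map (act U) = prior σ := by
  have h1 : MeasurePreserving U.1 (stdGaussian (EE 𝕜 n)) (stdGaussian (EE 𝕜 n)) :=
    ⟨U.1.continuous.measurable, map_iso (Unitary.linearIsometryEquiv U)⟩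
  have h2 := (measurePreserving_pi (fun _ : Fin r => stdGaussian (EE 𝕜 n)) _ fun _ => h1).prod
    (h1.prod (MeasurePreserving.id σ))
  rw [prior, Measure.map_map (measurable_act measurable_const measurable_id') measurable_mk]
  conv_rhs => rw [← h2.map_eq, Measure.map_map measurable_mk h2.measurable]
  congr 1
  ext1 q
  simp only [Function.comp_apply, mk, act, map_add, map_comb]
  rfl

theorem core2 {X : Type*} [MeasurableSpace X] (μ : Measure X) [IsProbabilityMeasure μ]
    {ℓ : ℕ} (hℓ : ℓ ≤ n) (hr : r ≤ ℓ) (hrn : r < n) (h3 : 3 ≤ finrank ℝ 𝕜 * (ℓ + 1 - r))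
    (Q : X → ℕ → Dat 𝕜 r n → EE 𝕜 n) (hQ : ∀ ω j, Measurable (Q ω j))
    (hA : ∀ ω j y y', Side y y' → (∀ i < j, Agree (Q ω i y) y y') → Q ω j y = Q ω j y')
    (est : X × Dat 𝕜 r n → EE 𝕜 r) (hm : Measurable est)
    (hE : ∀ ω y y', Side y y' → (∀ i < ℓ, Agree (Q ω i y) y y') → est (ω, y) = est (ω, y'))
    (C : ℝ≥0∞) (hC : ∀ a b, LinearIndependent 𝕜 a → b ∉ Submodule.span 𝕜 (range a) →
      ∫⁻ ω, loss (fun y => est (ω, y)) (a, b) ∂μ ≤
        C * ENNReal.ofReal (‖(Submodule.span 𝕜 (range a))ᗮ.starProjection b‖ ^ 2)) :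
    ((finrank ℝ 𝕜 * (ℓ - r) : ℕ) : ℝ≥0∞) + ((finrank ℝ 𝕜 * (n - ℓ) : ℕ) : ℝ≥0∞) *
        (1 + (r : ℝ≥0∞) * ((finrank ℝ 𝕜 : ℝ≥0∞) *
          ENNReal.ofReal (1 / ((finrank ℝ 𝕜 : ℝ) * ((ℓ + 1 - r : ℕ) : ℝ) - 2))))
      ≤ C * ((finrank ℝ 𝕜 * (n - r) : ℕ) : ℝ≥0∞) := by
  obtain ⟨K, hK, hrot⟩ := rot (𝕜 := 𝕜) (r := r) ℓ hℓ
  let lam : Measure (EE 𝕜 r) := Measure.addHaar
  have h0 := measurable_loss' (measurable_est0 (r := r) K)
  have hw : ∀ T, Measurable fun y : Dat 𝕜 r n =>
      wt (finrank ℝ (EE 𝕜 r)) T ‖(2 : 𝕜) • est0 K y‖ * loss (est0 K) y := fun T =>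
    ((measurable_wt _ T).comp ((measurable_est0 K).const_smul (2 : 𝕜)).norm).mul h0
  refine (lower0 hK hr h3).trans ?_
  rw [← lintegral_prod _ h0.aemeasurable]
  refine le_trans (lintegral_mono fun y => ?_) ((lintegral_liminf_le (u := atTop)
    fun k : ℕ => hw (k + 1)).trans (liminf_le_of_frequently_le' (Frequently.of_forall fun k => ?_)))
  · have := ENNReal.Tendsto.mul_const (b := loss (est0 K) y)
      (tendsto_wt (finrank ℝ (EE 𝕜 r)) ‖(2 : 𝕜) • est0 K y‖) (Or.inl one_ne_zero)
    rw [this.liminf_eq, one_mul]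
  have hT : (0 : ℝ) < k + 1 := by positivity
  set T : ℝ := k + 1
  rw [← ENNReal.mul_le_mul_iff_left (measure_closedBall_pos lam 0 hT).ne'
    measure_closedBall_lt_top.ne, ← lintegral_mul_const _ (hw T),
    lintegral_prod _ ((hw T).mul_const _).aemeasurable]
  have hl := measurable_loss hm
  have : IsFiniteMeasure (lam.restrict (closedBall 0 T)) :=
    isFiniteMeasure_restrict.2 measure_closedBall_lt_top.ne
  have h1 : ∀ ω, ∫⁻ a, ∫⁻ g, wt (finrank ℝ (EE 𝕜 r)) T ‖(2 : 𝕜) • est0 K (a, g)‖ *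
      loss (est0 K) (a, g) * lam (closedBall 0 T) ∂(stdGaussian (EE 𝕜 n))
      ∂(Measure.pi fun _ : Fin r => stdGaussian (EE 𝕜 n)) ≤
      ∫⁻ y, loss (fun y => est (ω, y)) y ∂(prior (lam.restrict (closedBall 0 T))) := fun ω => by
    obtain ⟨U, hU, hν, hS⟩ := hrot (Q ω) (hQ ω) (hA ω)
    have hUa : Measurable fun y => act (U y) y := measurable_act hU measurable_id'
    have hmω : Measurable fun y => est (ω, y) := hm.comp measurable_prodMk_left
    have hm' : Measurable fun y => est (ω, act (U y) y) := hmω.comp hUa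
    rw [← hν _ (prior_act _), lintegral_map (measurable_loss' hmω) hUa]
    have e : ∀ y, loss (fun y => est (ω, y)) (act (U y) y) =
        loss (fun y => est (ω, act (U y) y)) y := fun y => by rw [loss, norm_act, loss]
    simp only [e]
    rw [lintegral_prior _ (measurable_loss' hm')]
    refine lintegral_mono_ae ((ae_linearIndependent Kᗮ r
      (by rw [finrank_orth K hK]; exact hr)).mono fun a ha => refl_bound ha lam hm' ?_ hT)
    intro y y' h
    rw [← (hS y y' h).1]
    exact hE ω _ _ ((side_act _ _).trans (h.1.trans (side_act _ _).symm)) (hS y y' h).2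
  have h2 := lintegral_mono (μ := μ) h1
  rw [lintegral_const, measure_univ, mul_one, lintegral_lintegral_swap
    (f := fun ω y => loss (fun y => est (ω, y)) y) hl.aemeasurable, lintegral_prior _ hl.lintegral_prod_left'] at h2
  refine h2.trans ((lintegral_mono_ae (g := fun _ => C * ((finrank ℝ 𝕜 * (n - r) : ℕ) : ℝ≥0∞) *
    lam (closedBall 0 T)) ?_).trans_eq (by simp))
  filter_upwards [ae_linearIndependent (⊤ : Submodule 𝕜 (EE 𝕜 n)) r
    (by rw [finrank_top, finrank_euclideanSpace_fin]; omega)] with a ha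
  have ha' : LinearIndependent 𝕜 a := by simpa [Submodule.starProjection_top] using ha
  set W := Submodule.span 𝕜 (range a)
  have hW : finrank 𝕜 W = r := by rw [finrank_span_eq_card ha']; simp
  have hW2 := W.finrank_add_finrank_orthogonal
  rw [finrank_euclideanSpace_fin] at hW2
  have h4 := measure_submodule_eq_zero W (by
    intro h
    rw [h, finrank_top, finrank_euclideanSpace_fin] at hW
    omega)
  have h5 : Measurable fun z => ENNReal.ofReal (‖Wᗮ.starProjection z‖ ^ 2) :=
    measurable_normSq.comp Wᗮ.starProjection.continuous.measurable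
  rw [show n - r = finrank 𝕜 Wᗮ by omega, ← lintegral_normSq_starProjection,
    ← lintegral_const_mul _ h5, ← lintegral_mul_const _ (h5.const_mul _)]
  refine lintegral_mono_ae ?_
  filter_upwards [compl_mem_ae_iff.2 h4] with g hg
  rw [← setLIntegral_const]
  refine lintegral_mono fun x => (hC a _ ha' fun h => hg ?_).trans_eq ?_
  · simpa using W.sub_mem h (comb_mem a x)
  · rw [map_add, Submodule.starProjection_orthogonal_apply_eq_zero (comb_mem _ _), zero_add]

end Pool.Agent.P.MP_467638_an.Ad
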