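import Pool.Agent.P.MP_467638_an.TlRat

set_option autoImplicit false

open MeasureTheory ProbabilityTheory Module Set Metric Filter Matrix
open scoped ENNReal

namespace Pool.Agent.P.MP_467638_an.Tl

open Ad

variable {𝕜 : Type} [RCLike 𝕜] {n r : ℕ}

theorem exists_turnK {K K' : Submodule 𝕜 (EE 𝕜 n)} (h : finrank 𝕜 K = finrank 𝕜 K') :
    ∃ U : EE 𝕜 n ≃ₗᵢ[𝕜] EE 𝕜 n, ∀ z, K'.starProjection (U z) = U (K.starProjection z) := by
  let e := (stdOrthonormalBasis 𝕜 K).equiv (stdOrthonormalBasis 𝕜 K') (finCongr h)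
  let L := K'.subtypeₗᵢ.comp e.toLinearIsometry
  let U := L.extend.toLinearIsometryEquiv rfl
  have h1 : K.map (U.toLinearEquiv : EE 𝕜 n →ₗ[𝕜] EE 𝕜 n) = K' := by
    refine Submodule.eq_of_le_of_finrank_eq ?_ (by rw [LinearEquiv.finrank_map_eq, h])
    rintro _ ⟨x, hx, rfl⟩
    exact (L.extend_apply ⟨x, hx⟩).symm ▸ (e ⟨x, hx⟩).2
  refine ⟨U, fun z => ?_⟩
  have h2 := Submodule.starProjection_map_apply U K (U z)
  simp only [h1, U.symm_apply_apply] at h2
  exact h2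

theorem ss_const {ℓ : ℕ} {K K' : Submodule 𝕜 (EE 𝕜 n)} (hK : finrank 𝕜 K + ℓ = n)
    (hK' : finrank 𝕜 K' + ℓ = n) {φ : ℝ → ℝ≥0∞} (hφ : Measurable φ) :
    ∫⁻ a, ∫⁻ g, φ (rat (a, g) (est0 K (a, g))) ∂stdGaussian (EE 𝕜 n)
        ∂(Measure.pi fun _ : Fin r => stdGaussian (EE 𝕜 n)) =
      ∫⁻ a, ∫⁻ g, φ (rat (a, g) (est0 K' (a, g))) ∂stdGaussian (EE 𝕜 n)
        ∂(Measure.pi fun _ : Fin r => stdGaussian (EE 𝕜 n)) := by
  obtain ⟨U, hU⟩ := exists_turnK (K := Kᗮ) (K' := K'ᗮ) (by rw [finrank_orth K hK, finrank_orth K' hK'])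
  have h0 : ∀ W W' : Submodule 𝕜 (EE 𝕜 n), (∀ z, W'ᗮ.starProjection (U z) = U (Wᗮ.starProjection z)) →
      ∀ (a : Fin r → EE 𝕜 n) g, est0 W' (fun j => U (a j), U g) = est0 W (a, g) := by
    intro W W' h a g
    have e : (gram 𝕜 fun j => U (Wᗮ.starProjection (a j))) =
        gram 𝕜 fun j => Wᗮ.starProjection (a j) := by
      ext i j
      simp only [gram_apply, U.inner_map_map]
    simp only [est0, h, U.inner_map_map, e]
  have h1 : MeasurePreserving U (stdGaussian (EE 𝕜 n)) (stdGaussian (EE 𝕜 n)) :=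
    ⟨U.continuous.measurable, map_iso U⟩
  have hm : Measurable fun y : Dat 𝕜 r n => φ (rat y (est0 K' y)) :=
    meas_rat hφ measurable_id' (measurable_est0 K')
  have hm1 : Measurable fun a : Fin r → EE 𝕜 n =>
      ∫⁻ g, φ (rat (a, g) (est0 K' (a, g))) ∂stdGaussian (EE 𝕜 n) := hm.lintegral_prod_right'
  refine Eq.trans (lintegral_congr fun a => ?_) ((measurePreserving_pi
    (fun _ : Fin r => stdGaussian (EE 𝕜 n)) _ fun _ => h1).lintegral_comp hm1)
  have hm2 : Measurable fun g => φ (rat (fun j => U (a j), g) (est0 K' (fun j => U (a j), g))) :=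
    meas_rat hφ measurable_prodMk_left ((measurable_est0 K').comp measurable_prodMk_left)
  refine Eq.trans (lintegral_congr fun g => ?_) (h1.lintegral_comp hm2)
  have h2 : ∀ x, ‖U g - comb (fun j => U (a j)) x‖ = ‖g - comb a x‖ := fun x => by
    rw [← U.norm_map (g - comb a x), map_sub]
    simp [comb]
  simp only [rat, h2, h0 K K' hU, h0 ⊥ ⊥ (by simp [Submodule.starProjection_top])]

end Pool.Agent.P.MP_467638_an.Tl
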