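import Pool.Agent.P.MP_467638_an.TlPoint
import Pool.Agent.P.MP_467638_an.TlTurn

set_option autoImplicit false

open MeasureTheory ProbabilityTheory Module Set Metric Filter Matrix
open scoped ENNReal

namespace Pool.Agent.P.MP_467638_an.Tl

open Ad

variable {𝕜 : Type} [RCLike 𝕜] {n r : ℕ}

theorem tail_core {X : Type*} [MeasurableSpace X] (μ : Measure X) [IsProbabilityMeasure μ] {ℓ : ℕ}
    (K : X → Submodule 𝕜 (EE 𝕜 n)) (hK : ∀ᵐ ω ∂μ, finrank 𝕜 (K ω) + ℓ = n) (hr : r < ℓ)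
    {K₀ : Submodule 𝕜 (EE 𝕜 n)} (hK₀ : finrank 𝕜 K₀ + ℓ = n)
    (est : X × Dat 𝕜 r n → EE 𝕜 r) (hm : Measurable est)
    (hinv : ∀ ω, Inv (K ω) fun y => est (ω, y)) {φ : ℝ → ℝ≥0∞} (hφ : Monotone φ) {B : ℝ≥0∞}
    (hB : B ≠ ⊤) (hφB : ∀ t, φ t ≤ B) (C : ℝ≥0∞)
    (hC : ∀ a b, LinearIndependent 𝕜 a → b ∉ Submodule.span 𝕜 (range a) →
      ∫⁻ ω, φ (rat (a, b) (est (ω, a, b))) ∂μ ≤ C) :
    ∫⁻ a, ∫⁻ g, φ (rat (a, g) (est0 K₀ (a, g))) ∂stdGaussian (EE 𝕜 n)
      ∂(Measure.pi fun _ : Fin r => stdGaussian (EE 𝕜 n)) ≤ C := by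
  let lam : Measure (EE 𝕜 r) := Measure.addHaar
  have := pri_prob lam
  let F : X → (Fin r → EE 𝕜 n) → (ℝ × EE 𝕜 r) × EE 𝕜 n → ℝ≥0∞ := fun ω a q =>
    φ (rat (a, comb a q.1.2 + Real.exp q.1.1 • q.2) (est (ω, a, comb a q.1.2 + Real.exp q.1.1 • q.2)))
  have hF : M3 F := by
    have c1 : Continuous fun q : (Fin r → EE 𝕜 n) × (ℝ × EE 𝕜 r) × EE 𝕜 n =>
        ((q.1, comb q.1 q.2.1.2 + Real.exp q.2.1.1 • q.2.2) : Dat 𝕜 r n) := by
      unfold comb
      fun_prop
    have m1 : Measurable fun q : X × (Fin r → EE 𝕜 n) × (ℝ × EE 𝕜 r) × EE 𝕜 n =>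
        ((q.2.1, comb q.2.1 q.2.2.1.2 + Real.exp q.2.2.1.1 • q.2.2.2) : Dat 𝕜 r n) :=
      c1.measurable.comp measurable_snd
    exact meas_rat hφ.measurable m1 (hm.comp (measurable_fst.prodMk m1))
  have hJ := fun j => hF.int ((pri lam j).prod (stdGaussian (EE 𝕜 n)))
  calc _ = ∫⁻ _ω, ∫⁻ a, ∫⁻ g, φ (rat (a, g) (est0 K₀ (a, g))) ∂stdGaussian (EE 𝕜 n)
        ∂(Measure.pi fun _ : Fin r => stdGaussian (EE 𝕜 n)) ∂μ := by simp
    _ ≤ ∫⁻ ω, liminf (fun j => ∫⁻ a, ∫⁻ q, F ω a q ∂(pri lam j).prod (stdGaussian (EE 𝕜 n))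
        ∂(Measure.pi fun _ : Fin r => stdGaussian (EE 𝕜 n))) atTop ∂μ := by
      refine lintegral_mono_ae (hK.mono fun ω hω => ?_)
      rw [ss_const hK₀ hω hφ.measurable]
      refine le_trans (lintegral_mono_ae ?_) (lintegral_liminf_le fun j => (hJ j).fix ω)
      filter_upwards [ae_linearIndependent (K ω)ᗮ r (by rw [finrank_orth _ hω]; exact hr.le)]
        with a ha
      refine (point_core lam hφ hB hφB hω hr ha (hm.comp measurable_prodMk_left)
        (hinv ω)).trans_eq ?_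
      congr 1
      ext1 j
      exact (lintegral_prod _ ((hF.fix ω).fix a).aemeasurable).symm
    _ ≤ _ := lintegral_liminf_le fun j => (hJ j).int _
    _ ≤ C := by
      refine liminf_le_of_frequently_le' (Frequently.of_forall fun j => ?_)
      rw [hF.rotate]
      refine (lintegral_mono_ae (g := fun _ => C) ?_).trans_eq (by simp)
      obtain ⟨ω₀, h₀⟩ := hK.exists
      filter_upwards [ae_linearIndependent (⊤ : Submodule 𝕜 (EE 𝕜 n)) r
        (by rw [finrank_top, finrank_euclideanSpace_fin]; omega)] with a ha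
      have ha' : LinearIndependent 𝕜 a := by simpa [Submodule.starProjection_top] using ha
      have hW : finrank 𝕜 (Submodule.span 𝕜 (range a)) = r := by
        rw [finrank_span_eq_card ha']; simp
      have h4 := measure_submodule_eq_zero (Submodule.span 𝕜 (range a)) (by
        intro h
        rw [h, finrank_top, finrank_euclideanSpace_fin] at hW
        omega)
      have m2 : Measurable fun q : ((ℝ × EE 𝕜 r) × EE 𝕜 n) × X => F q.2 a q.1 :=
        Measurable.comp (g := fun q : X × (Fin r → EE 𝕜 n) × (ℝ × EE 𝕜 r) × EE 𝕜 n =>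
          F q.1 q.2.1 q.2.2) (f := fun q : ((ℝ × EE 𝕜 r) × EE 𝕜 n) × X => (q.2, a, q.1)) hF
          (measurable_snd.prodMk (measurable_const.prodMk measurable_fst))
      rw [lintegral_prod _ m2.lintegral_prod_right'.aemeasurable]
      refine (lintegral_mono (g := fun _ => C) fun s => ?_).trans_eq (by simp)
      refine (lintegral_mono_ae (g := fun _ => C) ?_).trans_eq (by simp)
      filter_upwards [compl_mem_ae_iff.2 h4] with g hg
      refine hC a _ ha' fun h => hg ?_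
      have h5 := Submodule.sub_mem _ h (comb_mem a s.2)
      rw [add_sub_cancel_left, RCLike.real_smul_eq_coe_smul (K := 𝕜)] at h5
      exact (Submodule.smul_mem_iff _ (by simp)).1 h5

end Pool.Agent.P.MP_467638_an.Tl
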