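import Pool.Agent.P.MP_467638_an.Defs

set_option autoImplicit false

open MeasureTheory ProbabilityTheory Matrix

namespace Pool.Agent.P.MP_467638_an.Tl

/-- The vector `z` with the coordinates of index at least `ℓ` replaced by zero. -/
def cut {𝕜 : Type} [RCLike 𝕜] {n : ℕ} (ℓ : ℕ) (z : EuclideanSpace 𝕜 (Fin n)) :
    EuclideanSpace 𝕜 (Fin n) :=
  WithLp.toLp 2 fun i => if (i : ℕ) < ℓ then z i else 0

/-- The least squares coefficients of `b` on the columns `a j`, by the normal equations. -/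
noncomputable def lsq {𝕜 : Type} [RCLike 𝕜] {n r : ℕ} (a : Fin r → EuclideanSpace 𝕜 (Fin n))
    (b : EuclideanSpace 𝕜 (Fin n)) : Fin r → 𝕜 :=
  (gram 𝕜 a)⁻¹ *ᵥ fun j => inner 𝕜 (a j) b

/-- The error ratio of least squares on the first `ℓ` rows (sketch-and-solve with the first `ℓ`
coordinates as sketch) against least squares on all rows. -/
noncomputable def ssRatio {𝕜 : Type} [RCLike 𝕜] {n r : ℕ} (ℓ : ℕ)
    (a : Fin r → EuclideanSpace 𝕜 (Fin n)) (b : EuclideanSpace 𝕜 (Fin n)) : ℝ :=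
  ‖b - ∑ j, lsq (fun i => cut ℓ (a i)) (cut ℓ b) j • a j‖ ^ 2 / ‖b - ∑ j, lsq a b j • a j‖ ^ 2

/-- The lower bound for every non-decreasing loss. -/
def TailBound (𝕜 : Type) [RCLike 𝕜] : Prop :=
  ∀ (n ℓ d p r : ℕ), ℓ ≤ n → 1 ≤ p → r ≤ d → r < ℓ →
  ∀ (X : Type) [MeasurableSpace X] (μ : Measure X), IsProbabilityMeasure μ →
  ∀ (Ω : X → Fin n → Fin ℓ → 𝕜), Measurable Ω → (∀ᵐ ω ∂μ, (Matrix.of (Ω ω)).rank = ℓ) →
  ∀ (ALG : X × (Fin ℓ → Fin d → 𝕜) × (Fin ℓ → Fin p → 𝕜) → (Fin d → Fin p → 𝕜)),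
    Measurable ALG →
  ∀ (φ : ℝ → ENNReal), Monotone φ →
    ∫⁻ a, ∫⁻ b, φ (ssRatio ℓ a b) ∂(stdGaussian (EuclideanSpace 𝕜 (Fin n)))
        ∂(Measure.pi fun _ : Fin r => stdGaussian (EuclideanSpace 𝕜 (Fin n))) ≤
      ⨆ (A : Matrix (Fin n) (Fin d) 𝕜) (B : Matrix (Fin n) (Fin p) 𝕜)
        (P : Matrix (Fin d) (Fin n) 𝕜) (_ : A.rank = r ∧ IsPinv A P ∧ B ≠ A * P * B),
        ∫⁻ ω, φ (frobSq (B - A * Matrix.of (ALG (ω,
            Matrix.of.symm ((Matrix.of (Ω ω))ᴴ * A), Matrix.of.symm ((Matrix.of (Ω ω))ᴴ * B))))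
          / frobSq (B - A * P * B)) ∂μ

end Pool.Agent.P.MP_467638_an.Tl
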