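import Pool.Agent.P.MP_467638_an.TlKey1

set_option autoImplicit false

open MeasureTheory ProbabilityTheory Module Set Metric Filter
open scoped RealInnerProductSpace ENNReal

namespace Pool.Agent.P.MP_467638_an.Tl

theorem fol0 {Z Γ : Type*} [MeasurableSpace Z] [MeasurableSpace Γ] (γ : Measure Z) [SFinite γ]
    (m : Measure Γ) [SFinite m] {T : Z → Γ → Γ} (hT : ∀ g, MeasurePreserving (T g) m m)
    {f F : Z → Γ → ℝ≥0∞} (hf : Measurable fun q : Z × Γ => f q.1 q.2)
    (hF : Measurable fun q : Z × Γ => F q.1 q.2) (h1 : ∀ᵐ g ∂γ, ∀ s, F g s = f g (T g s))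
    {B c : ℝ≥0∞} (h2 : ∀ g s, f g s ≤ B) (h3 : ∀ s, c ≤ ∫⁻ g, f g s ∂γ) {S S' : Set Γ}
    (hS' : MeasurableSet S') {W : Set Z} (hW : MeasurableSet W)
    (h4 : ∀ g, g ∉ W → T g ⁻¹' S' ⊆ S) :
    c * m S' ≤ ∫⁻ s in S, ∫⁻ g, F g s ∂γ ∂m + B * γ W * m S' := by
  rw [← setLIntegral_const, ← lintegral_lintegral_swap hF.aemeasurable]
  refine (lintegral_mono h3).trans ?_
  rw [← lintegral_lintegral_swap hf.aemeasurable, mul_right_comm, ← lintegral_indicator_const hW,
    ← lintegral_add_right _ (measurable_const.indicator hW)]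
  refine lintegral_mono_ae (h1.mono fun g hg => ?_)
  by_cases h : g ∈ W
  · rw [indicator_of_mem h, ← setLIntegral_const]
    exact le_add_left (lintegral_mono (h2 g))
  · have hm : Measurable (f g) := hf.comp measurable_prodMk_left
    simp only [hg]
    rw [← (hT g).setLIntegral_comp_preimage hS' hm]
    exact le_add_right (lintegral_mono_set (h4 g h))

variable {X : Type*} [NormedAddCommGroup X] [NormedSpace ℝ X] [FiniteDimensional ℝ X]
  [MeasurableSpace X] [BorelSpace X] (lam : Measure X) [lam.IsAddHaarMeasure]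

/-- The box of scales and shifts, shrunk by `N`. -/
def box (X : Type*) [NormedAddCommGroup X] (t N : ℝ) : Set (ℝ × X) :=
  Icc N (t - N) ×ˢ closedBall 0 ((t - N) * Real.exp t)

theorem box_vol {t N : ℝ} (h0 : 0 ≤ N) (h : 2 * N ≤ t) : (volume.prod lam) (box X t N) =
    ENNReal.ofReal ((t - 2 * N) * ((t - N) * Real.exp t) ^ finrank ℝ X) * lam (ball 0 1) := by
  rw [box, Measure.prod_prod, Real.volume_Icc, Measure.addHaar_closedBall _ _
    (mul_nonneg (by linarith) (Real.exp_nonneg _)), ENNReal.ofReal_mul (by linarith), mul_assoc]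
  congr 2
  ring

theorem box_ne {t : ℝ} (h : 0 < t) :
    (volume.prod lam) (box X t 0) ≠ 0 ∧ (volume.prod lam) (box X t 0) ≠ ⊤ := by
  rw [box_vol lam le_rfl (by linarith)]
  refine ⟨mul_ne_zero ?_ (measure_ball_pos lam 0 one_pos).ne',
    ENNReal.mul_ne_top ENNReal.ofReal_ne_top measure_ball_lt_top.ne⟩
  simp only [mul_zero, sub_zero]
  exact (ENNReal.ofReal_pos.2 (by positivity)).ne'

/-- The uniform law on the box. -/
noncomputable def pri (j : ℕ) : Measure (ℝ × X) :=
  ((volume.prod lam) (box X (j + 1) 0))⁻¹ • (volume.prod lam).restrict (box X (j + 1) 0)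

theorem pri_prob (j : ℕ) : IsProbabilityMeasure (pri lam j) := by
  have h := box_ne lam (show (0 : ℝ) < j + 1 by positivity)
  exact ⟨by simp [pri, ENNReal.inv_mul_cancel h.1 h.2]⟩

theorem fol1 {Z : Type*} [MeasurableSpace Z] (γ : Measure Z) [IsFiniteMeasure γ] {p : Z → ℝ}
    {u : Z → X} (hp : Measurable p) (hu : Measurable u)
    {f F : Z → ℝ × X → ℝ≥0∞} (hf : Measurable fun q : Z × (ℝ × X) => f q.1 q.2)
    (hF : Measurable fun q : Z × (ℝ × X) => F q.1 q.2)
    (h1 : ∀ᵐ g ∂γ, ∀ s, F g s = f g (s.1 + p g, s.2 + Real.exp s.1 • u g))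
    {B c : ℝ≥0∞} (hB : B ≠ ⊤) (hc : c ≠ ⊤) (h2 : ∀ g s, f g s ≤ B)
    (h3 : ∀ s, c ≤ ∫⁻ g, f g s ∂γ) :
    c ≤ liminf (fun j => ∫⁻ s, ∫⁻ g, F g s ∂γ ∂pri lam j) atTop := by
  have hT : ∀ g, MeasurePreserving (fun s : ℝ × X => (s.1 + p g, s.2 + Real.exp s.1 • u g))
      (volume.prod lam) (volume.prod lam) := fun g =>
    (measurePreserving_add_right volume (p g)).skew_product
      (g := fun a x => x + Real.exp a • u g) (Continuous.measurable (by fun_prop))
      (ae_of_all _ fun a => (measurePreserving_add_right lam _).map_eq)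
  let W : ℕ → Set Z := fun N => {g | (N : ℝ) < max ‖u g‖ |p g|}
  have hW : ∀ N, MeasurableSet (W N) := fun N =>
    measurableSet_lt measurable_const (hu.norm.max (continuous_abs.measurable.comp hp))
  have hW0 : Tendsto (fun N => γ (W N)) atTop (nhds 0) := by
    have := tendsto_measure_iInter_atTop (μ := γ) (fun N => (hW N).nullMeasurableSet)
      (fun a b hab g (hg : (b : ℝ) < _) => lt_of_le_of_lt (Nat.cast_le.2 hab) hg)
      ⟨0, measure_ne_top _ _⟩
    rwa [show ⋂ N, W N = ∅ from eq_empty_of_forall_notMem fun g hg => by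
      obtain ⟨N, hN⟩ := exists_nat_ge (max ‖u g‖ |p g|)
      exact absurd (mem_iInter.1 hg N) (not_lt.2 hN), measure_empty] at this
  have hε : Tendsto (fun N => c - B * γ (W N)) atTop (nhds c) := by
    have := ENNReal.Tendsto.sub (tendsto_const_nhds (x := c))
      (ENNReal.Tendsto.const_mul hW0 (Or.inr hB)) (Or.inl hc)
    simpa using this
  refine le_of_tendsto' hε fun N => ?_
  have ht : Tendsto (fun j : ℕ => (j : ℝ) + 1) atTop atTop :=
    tendsto_atTop_add_const_right _ _ tendsto_natCast_atTop_atTop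
  let ρ : ℕ → ℝ := fun j => (1 - 2 * N / (j + 1)) * (1 - N / (j + 1)) ^ finrank ℝ X
  have hρ : Tendsto (fun j => c * ENNReal.ofReal (ρ j) - B * γ (W N)) atTop
      (nhds (c - B * γ (W N))) := by
    have a1 := ENNReal.tendsto_ofReal (((ht.const_div_atTop (2 * N)).const_sub 1).mul
      (((ht.const_div_atTop N).const_sub 1).pow (finrank ℝ X)))
    simp only [sub_zero, one_pow, mul_one, ENNReal.ofReal_one] at a1
    have a2 := ENNReal.Tendsto.const_mul (a := c) a1 (Or.inl one_ne_zero)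
    rw [mul_one] at a2
    exact ENNReal.Tendsto.sub a2 tendsto_const_nhds (Or.inl hc)
  rw [← hρ.liminf_eq]
  refine liminf_le_liminf ((ht.eventually_ge_atTop (2 * N)).mono fun j hj => ?_)
  have hN : (0 : ℝ) ≤ N := Nat.cast_nonneg _
  have hj0 : (0 : ℝ) < j + 1 := by positivity
  set t : ℝ := j + 1
  have hb := box_ne lam hj0
  have a3 := fol0 γ (volume.prod lam) hT hf hF h1 h2 h3 (S := box X t 0) (S' := box X t N)
    (measurableSet_Icc.prod measurableSet_closedBall) (hW N) fun g hg s hs => by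
      obtain ⟨b1, b2⟩ := max_le_iff.1 (not_lt.1 (show ¬(N : ℝ) < max ‖u g‖ |p g| from hg))
      obtain ⟨⟨b3, b4⟩, b5⟩ := hs
      rw [abs_le] at b2
      dsimp only at b3 b4 b5
      rw [mem_closedBall_zero_iff] at b5
      have b6 : s.1 ≤ t := by linarith
      refine ⟨⟨by linarith, by linarith⟩, mem_closedBall_zero_iff.2 ?_⟩
      have b7 := norm_sub_le (s.2 + Real.exp s.1 • u g) (Real.exp s.1 • u g)
      rw [add_sub_cancel_right, norm_smul, Real.norm_eq_abs, abs_of_pos (Real.exp_pos _)] at b7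
      have b8 := mul_le_mul (Real.exp_le_exp.2 b6) b1 (norm_nonneg _) (Real.exp_nonneg _)
      linarith
  have a4 : (volume.prod lam) (box X t N) = ENNReal.ofReal (ρ j) * (volume.prod lam) (box X t 0) := by
    have b1 : 0 ≤ 1 - 2 * N / t := sub_nonneg.2 ((div_le_one hj0).2 hj)
    have b2 : 0 ≤ 1 - N / t := sub_nonneg.2 ((div_le_one hj0).2 (by linarith))
    rw [box_vol lam hN hj, box_vol lam le_rfl (by linarith), ← mul_assoc,
      ← ENNReal.ofReal_mul (mul_nonneg b1 (pow_nonneg b2 _))]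
    congr 2
    have b3 : (t - N) * Real.exp t = (1 - N / t) * ((t - 0) * Real.exp t) := by field_simp; ring
    rw [b3, mul_pow]
    field_simp
    ring
  have a5 : (volume.prod lam) (box X t N) ≤ (volume.prod lam) (box X t 0) := by
    refine measure_mono (prod_mono (Icc_subset_Icc hN (by linarith)) (closedBall_subset_closedBall ?_))
    exact mul_le_mul_of_nonneg_right (by linarith) (Real.exp_nonneg _)
  rw [tsub_le_iff_right, pri, lintegral_smul_measure, smul_eq_mul,
    ← ENNReal.mul_le_mul_iff_left hb.1 hb.2, add_mul, mul_assoc, ← a4, mul_right_comm,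
    ENNReal.inv_mul_cancel hb.1 hb.2, one_mul]
  exact a3.trans (add_le_add_right (mul_le_mul_right a5 _) _)

end Pool.Agent.P.MP_467638_an.Tl
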