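import Pool.Agent.P.MP_467638_an.TlPol

set_option autoImplicit false

open MeasureTheory ProbabilityTheory Module Set
open scoped RealInnerProductSpace ENNReal

namespace Pool.Agent.P.MP_467638_an.Tl

variable {E H : Type*} [NormedAddCommGroup E] [InnerProductSpace ℝ E] [FiniteDimensional ℝ E]
  [NormedAddCommGroup H] [InnerProductSpace ℝ H] [FiniteDimensional ℝ H]

theorem exists_diag (T : E →ₗ[ℝ] H) : ∃ (b : OrthonormalBasis (Fin (finrank ℝ E)) ℝ E)
    (lam : Fin (finrank ℝ E) → ℝ), Antitone lam ∧ (∀ i, 0 ≤ lam i) ∧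
      (∀ z, ‖T z‖ ^ 2 = qf lam (b.repr z)) ∧ ∀ i z, ⟪T (b i), T z⟫ = lam i * b.repr z i := by
  have hS : (LinearMap.adjoint T ∘ₗ T).IsSymmetric := fun x y => by
    simp [LinearMap.adjoint_inner_left, LinearMap.adjoint_inner_right]
  have h1 : ∀ i z, ⟪T (hS.eigenvectorBasis rfl i), T z⟫ =
      hS.eigenvalues rfl i * (hS.eigenvectorBasis rfl).repr z i := fun i z => by
    have := hS.apply_eigenvectorBasis rfl i
    rw [← LinearMap.adjoint_inner_left, OrthonormalBasis.repr_apply_apply, ← real_inner_smul_left]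
    exact congrArg (fun w => ⟪w, z⟫) this
  refine ⟨hS.eigenvectorBasis rfl, hS.eigenvalues rfl, hS.eigenvalues_antitone rfl, fun i => ?_,
    fun z => ?_, h1⟩
  · have := h1 i (hS.eigenvectorBasis rfl i)
    rw [OrthonormalBasis.repr_self, real_inner_self_eq_norm_sq] at this
    have h := sq_nonneg ‖T (hS.eigenvectorBasis rfl i)‖
    rw [this] at h
    simpa using h
  · rw [← real_inner_self_eq_norm_sq]
    nth_rewrite 1 [← (hS.eigenvectorBasis rfl).sum_repr z]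
    rw [map_sum, sum_inner, qf]
    refine Finset.sum_congr rfl fun i _ => ?_
    rw [map_smul, real_inner_smul_left, h1]
    ring

theorem interlace {m : ℕ} (hm : finrank ℝ E = m) (b f : OrthonormalBasis (Fin m) ℝ E)
    {lam mu : Fin m → ℝ} (h1 : Antitone lam) (h2 : Antitone mu) (h3 : ∀ i, 0 ≤ mu i) {e : E}
    (h4 : ∀ i, lam i * b.repr e i = 0)
    (h5 : ∀ z, ⟪e, z⟫ = 0 → qf lam (b.repr z) = qf mu (f.repr z)) (i : Fin m) : lam i ≤ mu i := by
  by_contra hlt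
  rw [not_le] at hlt
  let Λ : E →ₗ[ℝ] (Finset.Ioi i → ℝ) × (Finset.Iio i → ℝ) :=
    LinearMap.prod
      (LinearMap.pi fun l => (EuclideanSpace.projₗ l.1 : _ →ₗ[ℝ] ℝ) ∘ₗ b.repr.toLinearEquiv.toLinearMap)
      (LinearMap.pi fun l => (EuclideanSpace.projₗ l.1 : _ →ₗ[ℝ] ℝ) ∘ₗ f.repr.toLinearEquiv.toLinearMap)
  have hk : LinearMap.ker Λ ≠ ⊥ := LinearMap.ker_ne_bot_of_finrank_lt (by
    have := i.2
    simp only [finrank_prod, finrank_fintype_fun_eq_card, Fintype.card_coe, Fin.card_Ioi,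
      Fin.card_Iio, hm]
    omega)
  obtain ⟨z, hz, hz0⟩ := Submodule.exists_mem_ne_zero_of_ne_bot hk
  have z1 : ∀ l, i < l → b.repr z l = 0 := fun l h =>
    congrFun (congrArg Prod.fst (LinearMap.mem_ker.1 hz)) ⟨l, Finset.mem_Ioi.2 h⟩
  have z2 : ∀ l, l < i → f.repr z l = 0 := fun l h =>
    congrFun (congrArg Prod.snd (LinearMap.mem_ker.1 hz)) ⟨l, Finset.mem_Iio.2 h⟩
  have z3 : ⟪e, z⟫ = 0 := by
    rw [← b.repr.inner_map_map, inner_sum']
    refine Finset.sum_eq_zero fun l _ => ?_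
    rcases lt_or_ge i l with h | h
    · rw [z1 l h, mul_zero]
    · rw [(mul_eq_zero.1 (h4 l)).resolve_left (((h3 i).trans_lt hlt).trans_le (h1 h)).ne', zero_mul]
  have z4 : lam i * ‖z‖ ^ 2 ≤ qf lam (b.repr z) := by
    rw [← b.repr.norm_map, EuclideanSpace.real_norm_sq_eq, Finset.mul_sum]
    refine Finset.sum_le_sum fun l _ => ?_
    rcases lt_or_ge i l with h | h
    · simp [z1 l h]
    · exact mul_le_mul_of_nonneg_right (h1 h) (sq_nonneg _)
  have z5 : qf mu (f.repr z) ≤ mu i * ‖z‖ ^ 2 := by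
    rw [← f.repr.norm_map, EuclideanSpace.real_norm_sq_eq, Finset.mul_sum]
    refine Finset.sum_le_sum fun l _ => ?_
    rcases lt_or_ge l i with h | h
    · simp [z2 l h]
    · exact mul_le_mul_of_nonneg_right (h2 h) (sq_nonneg _)
  have z6 : 0 < ‖z‖ ^ 2 := by positivity
  have := h5 z z3
  nlinarith

variable [MeasurableSpace E] [BorelSpace E]

theorem to_FF (k : ℕ) {Φ : ℝ → ℝ≥0∞} (hΦ : Monotone Φ) {m : ℕ} (b : OrthonormalBasis (Fin m) ℝ E)
    (lam : Fin m → ℝ) (e : E) :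
    ∫⁻ z, Φ (qf lam (b.repr z) / ‖z‖ ^ 2) * wgt k ⟪e, z⟫ ∂stdGaussian E =
      FF k Φ lam (b.repr e) := by
  have hm : Measurable fun z : EuclideanSpace ℝ (Fin m) =>
      Φ (qf lam z / ‖z‖ ^ 2) * wgt k ⟪b.repr e, z⟫ :=
    (measurable_psi hΦ lam).mul ((measurable_wgt k).comp (Continuous.measurable (by fun_prop)))
  rw [FF, ← lintegral_iso b.repr hm]
  simp only [b.repr.norm_map, b.repr.inner_map_map]

theorem key0 (k : ℕ) {Φ : ℝ → ℝ≥0∞} (hΦ : Monotone Φ) (L : E →ₗ[ℝ] H) {e : E} (he : e ≠ 0)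
    (hL : L e = 0) (y : H) :
    ∫⁻ z, Φ (‖L z‖ ^ 2 / ‖z‖ ^ 2) * wgt k ⟪e, z⟫ ∂stdGaussian E ≤
      ∫⁻ z, Φ (‖L z + ⟪e, z⟫ • y‖ ^ 2 / ‖z‖ ^ 2) * wgt k ⟪e, z⟫ ∂stdGaussian E := by
  let M : E →ₗ[ℝ] H := L + (innerₗ E e).smulRight y
  have hM : ∀ z, L z + ⟪e, z⟫ • y = M z := fun z => by simp [M]
  obtain ⟨b, lam, a1, a2, a3, a4⟩ := exists_diag L
  obtain ⟨f, mu, b1, b2, b3, -⟩ := exists_diag M
  have h1 : ∀ i, lam i * b.repr e i = 0 := fun i => by rw [← a4, hL, inner_zero_right]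
  have h2 := interlace rfl b f a1 b1 b2 h1 fun z hz => by
    rw [← a3, ← b3, ← hM, hz, zero_smul, add_zero]
  simp only [hM, a3, b3]
  rw [to_FF k hΦ, to_FF k hΦ]
  refine (FF_le k hΦ a2 (a := f.repr e) (by simpa using he) h1 (by simp)).trans
    (lintegral_mono fun z => mul_le_mul_left (hΦ (div_le_div_of_nonneg_right ?_ (sq_nonneg _))) _)
  exact Finset.sum_le_sum fun i _ => mul_le_mul_of_nonneg_right (h2 i) (sq_nonneg _)

end Pool.Agent.P.MP_467638_an.Tl
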