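import Pool.Agent.P.MP_467638_an.TlPolar

set_option autoImplicit false

open MeasureTheory ProbabilityTheory Module Set Metric
open scoped RealInnerProductSpace ENNReal

namespace Pool.Agent.P.MP_467638_an.Tl

variable {E : Type*} [NormedAddCommGroup E] [InnerProductSpace ℝ E] [FiniteDimensional ℝ E]
  [MeasurableSpace E] [BorelSpace E]

theorem half (k : ℕ) {e : E} (he : ‖e‖ = 1) {G : E → ℝ≥0∞} (hG : Measurable G)
    (h : ∀ z, G (-z) = G z) :
    2 * ∫⁻ z, wp k ⟪e, z⟫ * G z ∂stdGaussian E = ∫⁻ z, G z * wgt k ⟪e, z⟫ ∂stdGaussian E := by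
  have m : Measurable fun z : E => wp k ⟪e, z⟫ * G z :=
    ((measurable_wp k).comp (Continuous.measurable (by fun_prop))).mul hG
  have e1 := lintegral_iso (LinearIsometryEquiv.neg ℝ : E ≃ₗᵢ[ℝ] E) m
  rw [two_mul]
  nth_rewrite 2 [← e1]
  rw [← lintegral_add_left m]
  refine lintegral_congr_ae ?_
  filter_upwards [compl_mem_ae_iff.2 (measure_inner_eq_zero he)] with z hz
  have hz' : ⟪e, z⟫ ≠ 0 := by rwa [real_inner_comm]
  simp only [LinearIsometryEquiv.coe_neg, h, inner_neg_right, wp]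
  rcases lt_or_gt_of_ne hz' with h1 | h1
  · rw [indicator_of_notMem (by simpa using h1.le), indicator_of_mem (by simpa using h1)]
    simp [wgt, mul_comm]
  · rw [indicator_of_mem (by simpa using h1), indicator_of_notMem (by simpa using h1.le)]
    simp [mul_comm]

theorem key_half (k : ℕ) {Φ : ℝ → ℝ≥0∞} (hΦ : Monotone Φ) {H : Type*} [NormedAddCommGroup H]
    [InnerProductSpace ℝ H] [FiniteDimensional ℝ H] (L : E →ₗ[ℝ] H) {e : E} (he : ‖e‖ = 1)
    (hL : L e = 0) (y : H) :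
    ∫⁻ z, wp k ⟪e, z⟫ * Φ (‖L z‖ ^ 2 / ‖z‖ ^ 2) ∂stdGaussian E ≤
      ∫⁻ z, wp k ⟪e, z⟫ * Φ (‖L z + ⟪e, z⟫ • y‖ ^ 2 / ‖z‖ ^ 2) ∂stdGaussian E := by
  have hc := L.continuous_of_finiteDimensional
  have m1 : Measurable fun z : E => Φ (‖L z‖ ^ 2 / ‖z‖ ^ 2) :=
    hΦ.measurable.comp ((Continuous.measurable (by fun_prop)).div
      (Continuous.measurable (by fun_prop)))
  have m2 : Measurable fun z : E => Φ (‖L z + ⟪e, z⟫ • y‖ ^ 2 / ‖z‖ ^ 2) :=
    hΦ.measurable.comp ((Continuous.measurable (by fun_prop)).div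
      (Continuous.measurable (by fun_prop)))
  rw [← ENNReal.mul_le_mul_iff_right (a := 2) (by simp) (by simp), half k he m1 (by simp),
    half k he m2 fun z => by rw [map_neg, inner_neg_right, neg_smul, ← neg_add, norm_neg, norm_neg]]
  exact key0 k hΦ L (by rintro rfl; simp at he) hL y

theorem key1 {Φ : ℝ → ℝ≥0∞} (hΦ : Monotone Φ) {N V : Submodule ℝ E} (hVN : V ≤ N)
    (hV : 0 < finrank ℝ V) (L : E →ₗ[ℝ] E) (h1 : ∀ z, L (N.starProjection z) = L z)
    (h2 : ∀ v ∈ V, L v = 0) {Y : E → E} (hY : Measurable Y) :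
    ∫⁻ g, Φ (‖L g‖ ^ 2 / ‖N.starProjection g‖ ^ 2) ∂stdGaussian E ≤
      ∫⁻ g, Φ (‖L g + ‖V.starProjection g‖ • Y (‖V.starProjection g‖⁻¹ • V.starProjection g)‖ ^ 2 /
        ‖N.starProjection g‖ ^ 2) ∂stdGaussian E := by
  obtain ⟨k, hk⟩ : ∃ k, finrank ℝ V = k + 1 := ⟨finrank ℝ V - 1, by omega⟩
  obtain ⟨τ, hτ⟩ := polar V hk
  have hc := L.continuous_of_finiteDimensional
  have mp : Measurable fun g : E => V.starProjection g := Continuous.measurable (by fun_prop)
  have mN : Measurable fun g : E => ‖N.starProjection g‖ ^ 2 := Continuous.measurable (by fun_prop)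
  have m1 : Measurable fun g : E => Φ (‖L g‖ ^ 2 / ‖N.starProjection g‖ ^ 2) :=
    hΦ.measurable.comp ((Continuous.measurable (by fun_prop)).div mN)
  have m2 : Measurable fun g : E => Φ (‖L g + ‖V.starProjection g‖ •
      Y (‖V.starProjection g‖⁻¹ • V.starProjection g)‖ ^ 2 / ‖N.starProjection g‖ ^ 2) :=
    hΦ.measurable.comp (((hc.measurable.add
      (mp.norm.smul (hY.comp (mp.norm.inv.smul mp)))).norm.pow_const 2).div mN)
  rw [hτ _ m1, hτ _ m2]
  refine lintegral_mono fun θ => ?_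
  have hθ : ‖(θ.1 : E)‖ = 1 := norm_eq_of_mem_sphere θ
  have hθV : (θ.1 : E) ∈ V := θ.1.2
  generalize ((θ.1 : V) : E) = e at hθ hθV ⊢
  set V' : Submodule ℝ E := V ⊓ (ℝ ∙ e)ᗮ
  set U : Submodule ℝ E := N ⊓ V'ᗮ
  have heU : e ∈ U := ⟨hVN hθV, fun v hv =>
    Submodule.inner_left_of_mem_orthogonal (Submodule.mem_span_singleton_self e) hv.2⟩
  have a1 : ∀ g, U.starProjection g = N.starProjection (Vᗮ.starProjection g + ⟪e, g⟫ • e) := by
    intro g
    apply Submodule.eq_starProjection_of_mem_orthogonal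
    · refine ⟨N.starProjection_apply_mem _, fun v hv => ?_⟩
      rw [← Submodule.inner_starProjection_left_eq_right,
        Submodule.starProjection_eq_self_iff.2 (hVN hv.1), inner_add_right, inner_smul_right,
        Submodule.inner_right_of_mem_orthogonal hv.1 (Vᗮ.starProjection_apply_mem g),
        heU.2 v hv, mul_zero, add_zero]
    · have b1 : g - (Vᗮ.starProjection g + ⟪e, g⟫ • e) ∈ V' := by
        have b2 : g - (Vᗮ.starProjection g + ⟪e, g⟫ • e) = V.starProjection g - ⟪e, g⟫ • e := by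
          rw [Submodule.starProjection_orthogonal_val]
          abel
        rw [b2]
        refine ⟨V.sub_mem (V.starProjection_apply_mem _) (V.smul_mem _ hθV), ?_⟩
        refine Submodule.mem_orthogonal_singleton_iff_inner_right.2 ?_
        rw [inner_sub_right, ← Submodule.inner_starProjection_left_eq_right,
          Submodule.starProjection_eq_self_iff.2 hθV, inner_smul_right,
          real_inner_self_eq_norm_sq, hθ]
        ring
      have b3 := Submodule.add_mem _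
        (Submodule.orthogonal_le (inf_le_right : U ≤ V'ᗮ) (V'.le_orthogonal_orthogonal b1))
        (Submodule.orthogonal_le (inf_le_left : U ≤ N)
          (N.sub_starProjection_mem_orthogonal (Vᗮ.starProjection g + ⟪e, g⟫ • e)))
      rwa [sub_add_sub_cancel] at b3
  have a2 : ∀ g, ⟪(⟨e, heU⟩ : U), U.orthogonalProjectionOnto g⟫ = ⟪e, g⟫ := fun g =>
    Submodule.inner_orthogonalProjectionOnto_eq_of_mem_left _ _
  have a3 : ∀ y : E, ∫⁻ z : U, wp k ⟪(⟨e, heU⟩ : U), z⟫ *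
      Φ (‖(L ∘ₗ U.subtype) z + ⟪(⟨e, heU⟩ : U), z⟫ • y‖ ^ 2 / ‖z‖ ^ 2) ∂stdGaussian U =
      ∫⁻ g, wp k ⟪e, g⟫ * Φ (‖L (Vᗮ.starProjection g + ⟪e, g⟫ • e) + ⟪e, g⟫ • y‖ ^ 2 /
        ‖N.starProjection (Vᗮ.starProjection g + ⟪e, g⟫ • e)‖ ^ 2) ∂stdGaussian E := fun y => by
    have hc' := (L ∘ₗ U.subtype).continuous_of_finiteDimensional
    have mm : Measurable fun z : U => wp k ⟪(⟨e, heU⟩ : U), z⟫ *
        Φ (‖(L ∘ₗ U.subtype) z + ⟪(⟨e, heU⟩ : U), z⟫ • y‖ ^ 2 / ‖z‖ ^ 2) :=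
      ((measurable_wp k).comp (Continuous.measurable (by fun_prop))).mul
        (hΦ.measurable.comp ((Continuous.measurable (by fun_prop)).div
          (Continuous.measurable (by fun_prop))))
    rw [← lintegral_proj U mm]
    refine lintegral_congr fun g => ?_
    rw [a2, ← h1 (_ + _), ← a1]
    rfl
  have a4 := key_half k hΦ (L ∘ₗ U.subtype) (e := ⟨e, heU⟩) hθ (h2 e hθV) (Y e)
  have a5 := a3 0
  simp only [smul_zero, add_zero] at a5
  rw [a5, a3] at a4
  refine a4.trans_eq (lintegral_congr fun g => ?_)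
  by_cases hs : ⟪e, g⟫ ∈ Ioi (0 : ℝ)
  · have a6 : V.starProjection (Vᗮ.starProjection g + ⟪e, g⟫ • e) = ⟪e, g⟫ • e := by
      rw [map_add, (Submodule.starProjection_apply_eq_zero_iff V).2 (Vᗮ.starProjection_apply_mem _),
        zero_add, Submodule.starProjection_eq_self_iff.2 (V.smul_mem _ hθV)]
    rw [a6, norm_smul, hθ, mul_one, Real.norm_eq_abs, abs_of_pos hs.out, smul_smul,
      inv_mul_cancel₀ hs.out.ne', one_smul]
  · simp only [wp, indicator_of_notMem hs, zero_mul]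

end Pool.Agent.P.MP_467638_an.Tl
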