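import Pool.Agent.P.MP_467638_an.TlCore
import Pool.Agent.P.MP_467638_an.TlDefs

set_option autoImplicit false

open MeasureTheory ProbabilityTheory Module Set Metric Filter Matrix
open scoped ENNReal ComplexOrder

namespace Pool.Agent.P.MP_467638_an.Tl

open Ad

variable {𝕜 : Type} [RCLike 𝕜] {n ℓ d p r : ℕ}

theorem exists_cut (hℓ : ℓ ≤ n) : ∃ K : Submodule 𝕜 (EE 𝕜 n), finrank 𝕜 K + ℓ = n ∧
    ∀ (a : Fin r → EE 𝕜 n) b, ssRatio ℓ a b = rat (a, b) (est0 K (a, b)) := by
  set K := kerK (Matrix.of.symm (matJ 𝕜 hℓ)ᴴ)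
  have h1 : ∀ x : EE 𝕜 n, x ∈ K ↔ ∀ j, x (Fin.castLE hℓ j) = 0 := fun x => by
    rw [mem_kerK, Equiv.apply_symm_apply, conjTranspose_conjTranspose, funext_iff]
    simp [matJ, mulVec, dotProduct]
  have h2 : ∀ z, Kᗮ.starProjection z = cut ℓ z := fun z => by
    apply Submodule.eq_starProjection_of_mem_orthogonal
    · intro x hx
      rw [PiLp.inner_apply]
      refine Finset.sum_eq_zero fun i _ => ?_
      by_cases h : (i : ℕ) < ℓ
      · rw [show x i = 0 from (h1 x).1 hx ⟨i, h⟩, inner_zero_left]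
      · simp [cut, h]
    · exact K.le_orthogonal_orthogonal ((h1 _).2 fun j => by simp [cut])
  refine ⟨K, finrank_kerK _ ?_, fun a b => ?_⟩
  · rw [Equiv.apply_symm_apply, rank_conjTranspose, ← rank_self_mul_conjTranspose, matJ_mul,
      rank_one, Fintype.card_fin]
  · have h3 : ∀ j, inner 𝕜 (Kᗮ.starProjection (a j)) (Kᗮ.starProjection b) =
        inner 𝕜 (Kᗮ.starProjection (a j)) b := fun j => by
      rw [← Submodule.inner_starProjection_left_eq_right,
        Submodule.starProjection_eq_self_iff.2 (Kᗮ.starProjection_apply_mem _)]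
    simp only [ssRatio, lsq, rat, est0, comb, ← h2, h3, Submodule.bot_orthogonal_eq_top,
      Submodule.starProjection_top, ContinuousLinearMap.id_apply]

theorem tailBound (𝕜 : Type) [RCLike 𝕜] : TailBound 𝕜 := by
  intro n ℓ d p r hℓ hp hrd hr X _ μ hμ Ω hΩ hrank ALG hALG φ hφ
  set e : Fin p := ⟨0, hp⟩
  let est : X × Dat 𝕜 r n → EE 𝕜 r := fun q =>
    WithLp.toLp 2 fun j => ALG (q.1,
      Matrix.of.symm ((Matrix.of (Ω q.1))ᴴ * (matA0 q.2.1 * matJ 𝕜 hrd)),
      Matrix.of.symm ((Matrix.of (Ω q.1))ᴴ * matB e q.2.2)) (Fin.castLE hrd j) e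
  have hmeas : Measurable est := by
    have h0 : ∀ x i, Measurable fun q : X × Dat 𝕜 r n => star (Ω q.1 x i) := fun x i =>
      continuous_star.measurable.comp ((measurable_pi_apply i).comp
        ((measurable_pi_apply x).comp (hΩ.comp measurable_fst)))
    have h1 : Measurable (fun q : X × Dat 𝕜 r n =>
        (q.1, Matrix.of.symm ((Matrix.of (Ω q.1))ᴴ * (matA0 q.2.1 * matJ 𝕜 hrd)),
          Matrix.of.symm ((Matrix.of (Ω q.1))ᴴ * matB e q.2.2))) := by
      refine measurable_fst.prodMk (Measurable.prodMk ?_ ?_)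
      · refine measurable_pi_lambda _ fun i => measurable_pi_lambda _ fun k => ?_
        simp only [Matrix.of_symm_apply, Matrix.mul_apply, Matrix.conjTranspose_apply,
          Matrix.of_apply, matA0]
        refine Finset.measurable_sum _ fun x _ => Measurable.mul (h0 x i) ?_
        refine Finset.measurable_sum _ fun y _ => Measurable.mul_const ?_ _
        have : Continuous (fun z : EE 𝕜 n => z x) := by fun_prop
        exact this.measurable.comp ((measurable_pi_apply y).comp
          (measurable_fst.comp measurable_snd))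
      · refine measurable_pi_lambda _ fun i => measurable_pi_lambda _ fun k => ?_
        simp only [Matrix.of_symm_apply, Matrix.mul_apply, Matrix.conjTranspose_apply,
          Matrix.of_apply, matB]
        refine Finset.measurable_sum _ fun x _ => Measurable.mul (h0 x i) ?_
        split_ifs
        · have : Continuous (fun z : EE 𝕜 n => z x) := by fun_prop
          exact this.measurable.comp (measurable_snd.comp measurable_snd)
        · exact measurable_const
    have h2 := hALG.comp h1
    refine (WithLp.measurable_toLp 2 _).comp (measurable_pi_lambda _ fun j => ?_)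
    exact (measurable_pi_apply e).comp ((measurable_pi_apply (Fin.castLE hrd j)).comp h2)
  have hinv : ∀ ω, Inv (kerK (Ω ω)) (fun y => est (ω, y)) := by
    intro ω a a' b b' ha hb
    have h1 : (Matrix.of (Ω ω))ᴴ * matA0 a = (Matrix.of (Ω ω))ᴴ * matA0 a' := by
      ext i j
      have := congrFun ((mem_kerK (Ω ω) _).1 (ha j)) i
      rw [WithLp.ofLp_sub, Matrix.mulVec_sub, Pi.sub_apply, Pi.zero_apply, sub_eq_zero] at this
      exact this
    have h2 : (Matrix.of (Ω ω))ᴴ * matB e b = (Matrix.of (Ω ω))ᴴ * matB e b' := by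
      have := (mem_kerK (Ω ω) _).1 hb
      rw [WithLp.ofLp_sub, Matrix.mulVec_sub, sub_eq_zero] at this
      rw [mul_matB, mul_matB, this]
    simp only [est]
    rw [← Matrix.mul_assoc, ← Matrix.mul_assoc, h1, h2]
  obtain ⟨K₀, hK₀, hss⟩ := exists_cut (𝕜 := 𝕜) (r := r) hℓ
  simp only [hss]
  have hm : ∀ ψ : ℝ → ℝ≥0∞, Monotone ψ → Measurable fun y : Dat 𝕜 r n => ψ (rat y (est0 K₀ y)) :=
    fun ψ h => meas_rat h.measurable measurable_id' (measurable_est0 K₀)
  have hmono : ∀ m : ℕ, Monotone fun t => min (φ t) m := fun m => hφ.min monotone_const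
  have e1 : ∀ x : ℝ≥0∞, x = ⨆ m : ℕ, min x m := fun x => by
    rw [← inf_iSup_eq, ENNReal.iSup_natCast, inf_top_eq]
  rw [← lintegral_prod _ (hm φ hφ).aemeasurable, lintegral_congr fun y => e1 _,
    lintegral_iSup (fun m => hm _ (hmono m))
      fun i j h y => min_le_min_left _ (Nat.cast_le.2 h)]
  refine iSup_le fun m => ?_
  rw [lintegral_prod _ (hm _ (hmono m)).aemeasurable]
  refine tail_core μ (fun ω => kerK (Ω ω)) (hrank.mono fun ω h => finrank_kerK _ h) hr hK₀ est hmeas
    hinv (hmono m) (ENNReal.natCast_ne_top m) (fun _ => min_le_right _ _) _ fun a b ha hb => ?_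
  obtain ⟨P, hP1, hP2, hP3⟩ := exists_pinv hrd a ha
  have hD : frobSq (matB e b - matA0 a * matJ 𝕜 hrd * P * matB e b)
      = ‖(Submodule.span 𝕜 (Set.range a))ᗮ.starProjection b‖ ^ 2 := by
    rw [mul_matB, matB_sub, frobSq_matB, hP3]
  have hne : matB e b ≠ matA0 a * matJ 𝕜 hrd * P * matB e b := by
    intro h
    rw [← h, sub_self, eq_comm] at hD
    refine hb ?_
    rw [← Submodule.orthogonal_orthogonal (Submodule.span 𝕜 (Set.range a)),
      ← Submodule.starProjection_apply_eq_zero_iff]
    simpa [frobSq] using hD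
  refine le_iSup_of_le (matA0 a * matJ 𝕜 hrd) (le_iSup_of_le (matB e b) (le_iSup_of_le P
    (le_iSup_of_le ⟨hP1, hP2, hne⟩ (lintegral_mono fun ω => (min_le_left _ _).trans (hφ ?_)))))
  rw [hD, rat, den_eq ha]
  exact div_le_div_of_nonneg_right (le_frobSq hrd e a b _) (sq_nonneg _)

end Pool.Agent.P.MP_467638_an.Tl
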