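import Pool.Agent.P.MP_467638_an.TlMain

set_option autoImplicit false

open MeasureTheory ProbabilityTheory Module Set Metric Filter Matrix
open scoped ENNReal

namespace Pool.Agent.P.MP_467638_an.Tl

open Ad

theorem radial {E : Type*} [NormedAddCommGroup E] [InnerProductSpace ℝ E] [FiniteDimensional ℝ E]
    [MeasurableSpace E] [BorelSpace E] (N : Submodule ℝ E) (hN : 0 < finrank ℝ N)
    {ψ : E → ℝ≥0∞} (hψ : Measurable ψ)
    (h : ∀ w ∈ Nᗮ, ∀ s : ℝ, 0 < s → ∀ θ, ψ (w + s • θ) = ψ θ) :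
    ∫⁻ g, ψ g * ENNReal.ofReal (‖N.starProjection g‖ ^ 2) ∂stdGaussian E =
      (∫⁻ g, ENNReal.ofReal (‖N.starProjection g‖ ^ 2) ∂stdGaussian E) *
        ∫⁻ g, ψ g ∂stdGaussian E := by
  obtain ⟨k, hk⟩ : ∃ k, finrank ℝ N = k + 1 := ⟨finrank ℝ N - 1, by omega⟩
  obtain ⟨τ, hτ⟩ := polar N hk
  have key : ∀ (ψ : E → ℝ≥0∞), Measurable ψ →
      (∀ w ∈ Nᗮ, ∀ s : ℝ, 0 < s → ∀ θ, ψ (w + s • θ) = ψ θ) → ∀ f : ℝ → ℝ≥0∞, Measurable f →
      ∫⁻ g, ψ g * f ‖N.starProjection g‖ ∂stdGaussian E =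
        (∫⁻ θ, ψ θ.1 ∂τ) * ∫⁻ s, wp k s * f s ∂stdGaussian ℝ := fun ψ hψ h f hf => by
    have m1 : Measurable fun g => ψ g * f ‖N.starProjection g‖ :=
      hψ.mul (hf.comp (Continuous.measurable (by fun_prop)))
    have m2 : Measurable fun θ : sphere (0 : N) 1 => ψ θ.1 :=
      hψ.comp (Continuous.measurable (by fun_prop))
    have m3 : Measurable fun s => wp k s * f s := (measurable_wp k).mul hf
    rw [hτ _ m1, ← lintegral_mul_const _ m2]
    refine lintegral_congr fun θ => ?_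
    have hθ : ‖(θ.1 : E)‖ = 1 := norm_eq_of_mem_sphere θ
    have hT : Measurable fun x : E => inner ℝ (θ.1 : E) x := Continuous.measurable (by fun_prop)
    have hm := map_stdGaussian _ hT (fun t : ℝ => t • (θ.1 : E))
      (by intro z t; simp [inner_smul_right, real_inner_comm]) (by intro t; simp [norm_smul, hθ])
    have m5 : Measurable fun x : E => wp k (inner ℝ (θ.1 : E) x) * f (inner ℝ (θ.1 : E) x) :=
      m3.comp hT
    rw [← hm, lintegral_map m3 hT, ← lintegral_const_mul _ m5]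
    refine lintegral_congr fun g => ?_
    by_cases hs : inner ℝ (θ.1 : E) g ∈ Ioi (0 : ℝ)
    · rw [h _ (Nᗮ.starProjection_apply_mem g) _ hs.out, map_add,
        (Submodule.starProjection_apply_eq_zero_iff N).2 (Nᗮ.starProjection_apply_mem _), zero_add,
        Submodule.starProjection_eq_self_iff.2 (N.smul_mem _ θ.1.2), norm_smul, hθ, mul_one,
        Real.norm_eq_abs, abs_of_pos hs.out]
      exact mul_left_comm _ _ _
    · simp [wp, indicator_of_notMem hs]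
  have m4 : Measurable fun s : ℝ => ENNReal.ofReal (s ^ 2) := by fun_prop
  have a1 := key ψ hψ h _ m4
  have a2 := key ψ hψ h (fun _ => 1) measurable_const
  have a3 := key (fun _ => 1) measurable_const (fun _ _ _ _ _ => rfl) _ m4
  have a4 := key (fun _ => 1) measurable_const (fun _ _ _ _ _ => rfl) (fun _ => 1) measurable_const
  simp only [one_mul, mul_one] at a2 a3 a4
  rw [lintegral_const, one_mul, measure_univ] at a4
  rw [a1, a2, a3, mul_mul_mul_comm, mul_comm (∫⁻ _, 1 ∂τ), mul_assoc, mul_comm (∫⁻ s, wp k s * _ ∂_),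
    ← mul_assoc (∫⁻ _, 1 ∂τ), ← a4, one_mul]

variable {𝕜 : Type} [RCLike 𝕜] {n ℓ r : ℕ}

theorem rat_hom {K : Submodule 𝕜 (EE 𝕜 n)} {a : Fin r → EE 𝕜 n}
    (ha : LinearIndependent 𝕜 fun j => Kᗮ.starProjection (a j)) (x : EE 𝕜 r) {s : 𝕜} (hs : s ≠ 0)
    (θ : EE 𝕜 n) : rat (a, comb a x + s • θ) (est0 K (a, comb a x + s • θ)) =
      rat (a, θ) (est0 K (a, θ)) := by
  have ha' : LinearIndependent 𝕜 a :=
    LinearIndependent.of_comp (Kᗮ.starProjection : EE 𝕜 n →ₗ[𝕜] EE 𝕜 n) ha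
  have h2 : est0 K (a, s • θ) = s • est0 K (a, θ) := by
    simp only [est0, inner_smul_right]
    exact congrArg (WithLp.toLp 2) (mulVec_smul _ s _)
  rw [est0_add ha x (s • θ), h2]
  generalize est0 K (a, θ) = y
  have d1 := den_eq ha' (comb a x + s • θ)
  have d2 := den_eq ha' θ
  rw [map_add, Submodule.starProjection_orthogonal_apply_eq_zero (comb_mem a x), zero_add,
    map_smul] at d1
  have d3 : comb a x + s • θ - comb a (x + s • y) = s • (θ - comb a y) := by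
    rw [comb_add, comb_smul, add_sub_add_left_eq_sub, smul_sub]
  have d4 : ∀ u v : EE 𝕜 n, ‖s • u‖ ^ 2 / ‖s • v‖ ^ 2 = ‖u‖ ^ 2 / ‖v‖ ^ 2 := fun u v => by
    rw [norm_smul, norm_smul, mul_pow, mul_pow,
      mul_div_mul_left _ _ (pow_ne_zero 2 (norm_ne_zero_iff.2 hs))]
  exact (congrArg₂ (fun u v : EE 𝕜 n => ‖u‖ ^ 2 / ‖v‖ ^ 2) d3 d1).trans ((d4 _ _).trans
    (congrArg (fun v : EE 𝕜 n => ‖θ - comb a y‖ ^ 2 / ‖v‖ ^ 2) d2.symm))

theorem loss_eq {K : Submodule 𝕜 (EE 𝕜 n)} (hr : r < n) {a : Fin r → EE 𝕜 n}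
    (ha : LinearIndependent 𝕜 fun j => Kᗮ.starProjection (a j)) :
    ∫⁻ g, loss (est0 K) (a, g) ∂stdGaussian (EE 𝕜 n) = ((finrank ℝ 𝕜 * (n - r) : ℕ) : ℝ≥0∞) *
      ∫⁻ g, ENNReal.ofReal (rat (a, g) (est0 K (a, g))) ∂stdGaussian (EE 𝕜 n) := by
  have ha' : LinearIndependent 𝕜 a :=
    LinearIndependent.of_comp (Kᗮ.starProjection : EE 𝕜 n →ₗ[𝕜] EE 𝕜 n) ha
  have hd := den_eq ha'
  have hW : finrank 𝕜 (Submodule.span 𝕜 (range a)) = r := by
    rw [finrank_span_eq_card ha']; simp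
  generalize Submodule.span 𝕜 (range a) = S at hd hW
  have hW2 := S.finrank_add_finrank_orthogonal
  rw [finrank_euclideanSpace_fin] at hW2
  have hm : Measurable fun g => ENNReal.ofReal (rat (a, g) (est0 K (a, g))) :=
    meas_rat ENNReal.measurable_ofReal measurable_prodMk_left
      ((measurable_est0 K).comp measurable_prodMk_left)
  have h0 : 0 < finrank ℝ (Sᗮ.restrictScalars ℝ) := Nat.pos_of_ne_zero fun h => by
    have h1 : Sᗮ = ⊥ := by simpa using Submodule.finrank_eq_zero.1 h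
    rw [h1, finrank_bot] at hW2
    omega
  have h := radial (ψ := fun g => ENNReal.ofReal (rat (a, g) (est0 K (a, g))))
    (Sᗮ.restrictScalars ℝ) h0 hm fun w hw s hs θ => by
      have h1 := (Submodule.starProjection_apply_eq_zero_iff _).2 hw
      rw [proj_real, ← hd, sub_eq_zero] at h1
      obtain ⟨x, rfl⟩ : ∃ x, w = comb a x := ⟨_, h1⟩
      rw [RCLike.real_smul_eq_coe_smul (K := 𝕜)]
      exact congrArg ENNReal.ofReal (rat_hom ha x (RCLike.ofReal_ne_zero.2 hs.ne') θ)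
  simp only [proj_real] at h
  rw [lintegral_normSq_starProjection, show finrank 𝕜 Sᗮ = n - r by omega] at h
  rw [← h]
  refine lintegral_congr_ae ?_
  filter_upwards [compl_mem_ae_iff.2 (measure_submodule_eq_zero S (by
    intro h
    rw [h, finrank_top, finrank_euclideanSpace_fin] at hW
    omega))] with g hg
  have h3 : Sᗮ.starProjection g ≠ 0 := by
    rwa [Ne, Submodule.starProjection_apply_eq_zero_iff, Submodule.orthogonal_orthogonal]
  have h4 : ‖Sᗮ.starProjection g‖ ^ 2 ≠ 0 := pow_ne_zero 2 (norm_ne_zero_iff.2 h3)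
  have h5 : rat (a, g) (est0 K (a, g)) =
      ‖g - comb a (est0 K (a, g))‖ ^ 2 / ‖Sᗮ.starProjection g‖ ^ 2 := by
    rw [← hd]
    rfl
  rw [h5, ← ENNReal.ofReal_mul (div_nonneg (sq_nonneg _) (sq_nonneg _)), div_mul_cancel₀ _ h4]
  rfl

theorem mean_ge {α : ℕ} (hα : α + finrank ℝ 𝕜 = 2) (hℓ : ℓ ≤ n) (hr : r + α < ℓ) :
    ENNReal.ofReal (1 + ((n : ℝ) - ℓ) / ((n : ℝ) - r) * ((r : ℝ) / ((ℓ : ℝ) - r - α))) ≤
      ∫⁻ a, ∫⁻ b, ENNReal.ofReal (ssRatio ℓ a b) ∂(stdGaussian (EE 𝕜 n))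
        ∂(Measure.pi fun _ : Fin r => stdGaussian (EE 𝕜 n)) := by
  obtain ⟨K, hK, hss⟩ := exists_cut (𝕜 := 𝕜) (r := r) hℓ
  have hβ : 0 < finrank ℝ 𝕜 := finrank_pos
  have h3 : 3 ≤ finrank ℝ 𝕜 * (ℓ + 1 - r) := by
    have : (α = 1 ∧ finrank ℝ 𝕜 = 1) ∨ (α = 0 ∧ finrank ℝ 𝕜 = 2) := by omega
    rcases this with ⟨h1, h2⟩ | ⟨h1, h2⟩ <;> rw [h2] <;> omega
  have h := lower0 (r := r) hK (by omega) h3
  rw [← arith hα hβ hℓ hr, lintegral_congr_ae ((ae_linearIndependent Kᗮ r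
    (by rw [finrank_orth K hK]; omega)).mono fun a ha => loss_eq (by omega) ha),
    lintegral_const_mul' _ _ (ENNReal.natCast_ne_top _), mul_comm] at h
  have hne0 : ((finrank ℝ 𝕜 * (n - r) : ℕ) : ℝ≥0∞) ≠ 0 := by
    have : 0 < finrank ℝ 𝕜 * (n - r) := Nat.mul_pos hβ (by omega)
    exact_mod_cast this.ne'
  simp only [hss]
  exact (ENNReal.mul_le_mul_iff_right hne0 (ENNReal.natCast_ne_top _)).1 h

end Pool.Agent.P.MP_467638_an.Tl
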