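import Pool.Agent.P.MP_467638_an.TlRat

set_option autoImplicit false

open MeasureTheory ProbabilityTheory Module Set Metric Filter Matrix
open scoped ENNReal

namespace Pool.Agent.P.MP_467638_an.Tl

open Ad

variable {𝕜 : Type} [RCLike 𝕜] {n r : ℕ}

theorem point_core (lam : Measure (EE 𝕜 r)) [lam.IsAddHaarMeasure] {φ : ℝ → ℝ≥0∞}
    (hφ : Monotone φ) {B : ℝ≥0∞} (hB : B ≠ ⊤) (hφB : ∀ t, φ t ≤ B) {ℓ : ℕ}
    {K : Submodule 𝕜 (EE 𝕜 n)} (hK : finrank 𝕜 K + ℓ = n) (hr : r < ℓ) {a : Fin r → EE 𝕜 n}
    (ha : LinearIndependent 𝕜 fun j => Kᗮ.starProjection (a j)) {est : Dat 𝕜 r n → EE 𝕜 r}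
    (hm : Measurable est) (hinv : Inv K est) :
    ∫⁻ g, φ (rat (a, g) (est0 K (a, g))) ∂stdGaussian (EE 𝕜 n) ≤
      liminf (fun j => ∫⁻ s, ∫⁻ g, φ (rat (a, comb a s.2 + Real.exp s.1 • g)
        (est (a, comb a s.2 + Real.exp s.1 • g))) ∂stdGaussian (EE 𝕜 n) ∂pri lam j) atTop := by
  have ha' : LinearIndependent 𝕜 a :=
    LinearIndependent.of_comp (Kᗮ.starProjection : EE 𝕜 n →ₗ[𝕜] EE 𝕜 n) ha
  let A : EE 𝕜 r →ₗ[𝕜] EE 𝕜 n := ⟨⟨comb a, comb_add a⟩, comb_smul a⟩
  let u : EE 𝕜 n →ₗ[𝕜] EE 𝕜 r :=
    { toFun := fun g => est0 K (a, g)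
      map_add' := fun g g' => by
        simp only [est0, inner_add_right]
        exact congrArg (WithLp.toLp 2) (mulVec_add _ _ _)
      map_smul' := fun c g => by
        simp only [est0, inner_smul_right]
        exact congrArg (WithLp.toLp 2) (mulVec_smul _ c _) }
  set S := Submodule.span 𝕜 (range a) with hS
  set Z := Submodule.span 𝕜 (range fun j => Kᗮ.starProjection (a j)) with hZ
  have hZK : Z ≤ Kᗮ := span_proj_le _ _
  set V : Submodule 𝕜 (EE 𝕜 n) := Zᗮ ⊓ Kᗮ with hV
  have hV0 : V ≠ ⊥ := fun h => by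
    have h1 := Submodule.finrank_add_inf_finrank_orthogonal hZK
    have h2 : finrank 𝕜 Z = r := by rw [finrank_span_eq_card ha]; simp
    rw [← hV, h, finrank_bot, finrank_orth K hK] at h1
    omega
  have hVa : ∀ v ∈ V, ∀ j, inner 𝕜 (Kᗮ.starProjection (a j)) v = 0 := fun v hv j =>
    hv.1 _ (Submodule.subset_span ⟨j, rfl⟩)
  have hVS : V ≤ Sᗮ := fun v hv => by
    refine Submodule.le_orthogonal_iff_le_orthogonal.1
      (Submodule.span_le.2 ?_ : S ≤ (𝕜 ∙ v)ᗮ) (Submodule.mem_span_singleton_self v)
    rintro _ ⟨j, rfl⟩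
    refine Submodule.mem_orthogonal_singleton_iff_inner_left.2 ?_
    rw [← hVa v hv j, Submodule.inner_starProjection_left_eq_right,
      Submodule.starProjection_eq_self_iff.2 hv.2]
  have h := real_core lam hφ hB hφB (A.restrictScalars ℝ) (u.restrictScalars ℝ)
    (N := Sᗮ.restrictScalars ℝ) (V := V.restrictScalars ℝ) hVS
    (Nat.pos_of_ne_zero fun h => hV0 (by simpa using Submodule.finrank_eq_zero.1 h))
    (fun x => by
      have h1 := est0_add ha x 0
      rw [add_zero, show est0 K (a, 0) = 0 from u.map_zero, add_zero] at h1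
      exact h1)
    (fun x => (Submodule.starProjection_apply_eq_zero_iff _).1 ((proj_real _ _).trans
      (Submodule.starProjection_orthogonal_apply_eq_zero (comb_mem a x))))
    (fun g => ⟨est0 ⊥ (a, g), by
      rw [proj_real, ← den_eq ha', sub_sub_cancel]
      rfl⟩)
    (fun v hv => by
      show est0 K (a, v) = 0
      simp only [est0, hVa v hv]
      exact congrArg (WithLp.toLp 2) (mulVec_zero _))
    (est := fun b => est (a, b)) (hm.comp measurable_prodMk_left) fun b => by
      refine hinv _ _ _ _ (fun j => by simp) ?_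
      have h1 : V.starProjection b = Kᗮ.starProjection b - Z.starProjection b := by
        apply Submodule.eq_starProjection_of_mem_orthogonal
        · refine ⟨?_, Kᗮ.sub_mem (Kᗮ.starProjection_apply_mem _) (hZK (Z.starProjection_apply_mem _))⟩
          have h2 := congrArg (fun T : EE 𝕜 n →L[𝕜] EE 𝕜 n => T b)
            (Submodule.starProjection_comp_starProjection_of_le hZK)
          exact h2 ▸ Z.sub_starProjection_mem_orthogonal (Kᗮ.starProjection b)
        · rw [show b - (Kᗮ.starProjection b - Z.starProjection b) =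
            (b - Kᗮ.starProjection b) + Z.starProjection b by abel]
          exact Submodule.add_mem _
            (Submodule.orthogonal_le inf_le_right (Kᗮ.sub_starProjection_mem_orthogonal b))
            (Submodule.orthogonal_le inf_le_left
              (Z.le_orthogonal_orthogonal (Z.starProjection_apply_mem b)))
      rw [proj_real, h1, proj_est0 ha, Submodule.starProjection_orthogonal_val,
        Submodule.starProjection_orthogonal_val]
      refine (congrArg (· ∈ K) ?_).mp (K.sub_mem
        (K.starProjection_apply_mem (comb a (est0 K (a, b)))) (K.starProjection_apply_mem b))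
      show _ = comb a (est0 K (a, b)) + _ - b
      abel
  simp only [rat, den_eq ha']
  simp only [proj_real] at h
  exact h

end Pool.Agent.P.MP_467638_an.Tl
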