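import Pool.Agent.P.MP_467638_an.Gauss

set_option autoImplicit false

open MeasureTheory ProbabilityTheory Module Set
open scoped RealInnerProductSpace ENNReal

namespace Pool.Agent.P.MP_467638_an.Tl

theorem rearr {u u' p p' : ℝ≥0∞} (h1 : u ≤ u') (h2 : p ≤ p') :
    u * p' + u' * p ≤ u * p + u' * p' := by
  obtain ⟨d, rfl⟩ := exists_add_of_le h1
  obtain ⟨e, rfl⟩ := exists_add_of_le h2
  have : u * p + (u + d) * (p + e) = u * (p + e) + (u + d) * p + d * e := by ring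
  rw [this]
  exact le_self_add

/-- The radial weight. -/
noncomputable def wgt (k : ℕ) (s : ℝ) : ℝ≥0∞ := ENNReal.ofReal (|s| ^ k)

theorem measurable_wgt (k : ℕ) : Measurable (wgt k) :=
  Measurable.ennreal_ofReal (Continuous.measurable (by fun_prop))

theorem wgt_two (k : ℕ) (c : ℝ) {x x' : ℝ} (h : |x'| ≤ |x|) :
    wgt k (c + x') + wgt k (c - x') ≤ wgt k (c + x) + wgt k (c - x) := by
  have hc : ConvexOn ℝ univ fun s : ℝ => |s| ^ k :=
    (convexOn_univ_norm (E := ℝ)).pow (fun s _ => norm_nonneg s) k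
  obtain ⟨t, ht, rfl⟩ : ∃ t : ℝ, |t| ≤ 1 ∧ x' = t * x := by
    rcases eq_or_ne x 0 with rfl | hx
    · exact ⟨0, by simp, by simpa using h⟩
    · exact ⟨x' / x, by rw [abs_div]; exact div_le_one_of_le₀ h (abs_nonneg _), by field_simp⟩
  rw [abs_le] at ht
  have h1 := hc.2 (mem_univ (c + x)) (mem_univ (c - x)) (show 0 ≤ (1 + t) / 2 by linarith)
    (show 0 ≤ (1 - t) / 2 by linarith) (by ring)
  have h2 := hc.2 (mem_univ (c + x)) (mem_univ (c - x)) (show 0 ≤ (1 - t) / 2 by linarith)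
    (show 0 ≤ (1 + t) / 2 by linarith) (by ring)
  simp only [smul_eq_mul] at h1 h2
  rw [show (1 + t) / 2 * (c + x) + (1 - t) / 2 * (c - x) = c + t * x by ring] at h1
  rw [show (1 - t) / 2 * (c + x) + (1 + t) / 2 * (c - x) = c - t * x by ring] at h2
  rw [wgt, wgt, wgt, wgt, ← ENNReal.ofReal_add (by positivity) (by positivity),
    ← ENNReal.ofReal_add (by positivity) (by positivity)]
  exact ENNReal.ofReal_le_ofReal (by linarith)

section general

variable {E : Type*} [NormedAddCommGroup E] [InnerProductSpace ℝ E] [FiniteDimensional ℝ E]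
  [MeasurableSpace E] [BorelSpace E]

theorem lintegral_iso {G : Type*} [NormedAddCommGroup G] [InnerProductSpace ℝ G]
    [FiniteDimensional ℝ G] [MeasurableSpace G] [BorelSpace G] (σ : E ≃ₗᵢ[ℝ] G) {F : G → ℝ≥0∞}
    (hF : Measurable F) : ∫⁻ z, F (σ z) ∂stdGaussian E = ∫⁻ z, F z ∂stdGaussian G := by
  have h : (stdGaussian E).map σ = stdGaussian G := stdGaussian_map σ
  rw [← h, lintegral_map hF σ.continuous.measurable]

theorem two_point (k : ℕ) {Ψ : E → ℝ≥0∞} (hΨ : Measurable Ψ) {c x x' : E → ℝ} (hc : Measurable c)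
    (hx : Measurable x) (hx' : Measurable x') (σ η : E ≃ₗᵢ[ℝ] E)
    (h1 : ∀ z, Ψ (η z) = Ψ z) (h2 : ∀ z, c (η z) = c z) (h3 : ∀ z, x (η z) = -x z)
    (h4 : ∀ z, x' (η z) = -x' z) (h5 : ∀ z, c (σ z) = c z) (h6 : ∀ z, x (σ z) = x' z)
    (h7 : ∀ z, x' (σ z) = x z) (h8 : ∀ z, |x' z| ≤ |x z| → Ψ (σ z) ≤ Ψ z)
    (h9 : ∀ z, |x z| ≤ |x' z| → Ψ z ≤ Ψ (σ z)) :
    ∫⁻ z, Ψ z * wgt k (c z + x' z) ∂stdGaussian E ≤
      ∫⁻ z, Ψ z * wgt k (c z + x z) ∂stdGaussian E := by
  let G : (E → ℝ) → E → ℝ≥0∞ := fun y z => wgt k (c z + y z) + wgt k (c z - y z)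
  have hG : ∀ y, Measurable y → Measurable (G y) := fun y hy =>
    ((measurable_wgt k).comp (hc.add hy)).add ((measurable_wgt k).comp (hc.sub hy))
  have hd : ∀ y, Measurable y → (∀ z, y (η z) = -y z) →
      ∫⁻ z, Ψ z * G y z ∂stdGaussian E = 2 * ∫⁻ z, Ψ z * wgt k (c z + y z) ∂stdGaussian E := by
    intro y hy h
    have hm : Measurable fun z => Ψ z * wgt k (c z + y z) :=
      hΨ.mul ((measurable_wgt k).comp (hc.add hy))
    have e := lintegral_iso η hm
    simp only [h1, h2, h, ← sub_eq_add_neg] at e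
    simp only [G, mul_add]
    rw [lintegral_add_left hm, e, two_mul]
  have m1 : Measurable fun z => Ψ z * G x z := hΨ.mul (hG x hx)
  have m2 : Measurable fun z => Ψ z * G x' z := hΨ.mul (hG x' hx')
  have e1 := lintegral_iso σ m1
  have e2 := lintegral_iso σ m2
  have e3 : ∀ z, G x (σ z) = G x' z := fun z => by simp only [G, h5, h6]
  have e4 : ∀ z, G x' (σ z) = G x z := fun z => by simp only [G, h5, h7]
  simp only [e3] at e1
  simp only [e4] at e2
  have key : ∀ z, Ψ z * G x' z + Ψ (σ z) * G x z ≤ Ψ z * G x z + Ψ (σ z) * G x' z := fun z => by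
    rcases le_total |x' z| |x z| with h | h
    · have := rearr (h8 z h) (wgt_two k (c z) h)
      rw [add_comm, add_comm (Ψ (σ z) * _)] at this
      exact this
    · exact rearr (h9 z h) (wgt_two k (c z) h)
  have h10 := lintegral_mono (μ := stdGaussian E) key
  rw [lintegral_add_left m2, lintegral_add_left m1, e1, e2,
    ← two_mul, ← two_mul, hd x hx h3, hd x' hx' h4] at h10
  exact (ENNReal.mul_le_mul_iff_right (by simp) (by simp)).1
    ((ENNReal.mul_le_mul_iff_right (by simp) (by simp)).1 h10)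

omit [FiniteDimensional ℝ E] [MeasurableSpace E] [BorelSpace E] in
theorem exists_swap {a a' : E} (h : ‖a‖ = ‖a'‖) : ∃ σ : E ≃ₗᵢ[ℝ] E,
    (∀ z, ⟪a, σ z⟫ = ⟪a', z⟫) ∧ (∀ z, ⟪a', σ z⟫ = ⟪a, z⟫) ∧ ∀ z, ∃ t : ℝ, σ z = z + t • (a - a') := by
  have h1 := Submodule.reflection_sub h
  refine ⟨(ℝ ∙ (a - a'))ᗮ.reflection, fun z => ?_, fun z => ?_, fun z => ?_⟩
  · rw [← ((ℝ ∙ (a - a'))ᗮ.reflection).inner_map_map a, h1, Submodule.reflection_reflection]
  · rw [← ((ℝ ∙ (a - a'))ᗮ.reflection).inner_map_map a z, h1]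
  · obtain ⟨c, hc⟩ := Submodule.mem_span_singleton.1
      ((ℝ ∙ (a - a')).starProjection_apply_mem z)
    refine ⟨-(2 * c), ?_⟩
    rw [Submodule.reflection_orthogonal_apply, Submodule.reflection_apply, ← hc, neg_smul, mul_smul,
      two_smul, two_smul]
    abel

end general

section coord

variable {ι : Type*} [Fintype ι] [DecidableEq ι]

/-- A diagonal quadratic form. -/
def qf (lam : ι → ℝ) (z : EuclideanSpace ℝ ι) : ℝ := ∑ i, lam i * z i ^ 2

/-- The weighted risk with weight vector `a`. -/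
noncomputable def FF (k : ℕ) (Φ : ℝ → ℝ≥0∞) (lam : ι → ℝ) (a : EuclideanSpace ℝ ι) : ℝ≥0∞ :=
  ∫⁻ z, Φ (qf lam z / ‖z‖ ^ 2) * wgt k ⟪a, z⟫ ∂stdGaussian (EuclideanSpace ℝ ι)

omit [DecidableEq ι] in
theorem measurable_psi {Φ : ℝ → ℝ≥0∞} (hΦ : Monotone Φ) (lam : ι → ℝ) :
    Measurable fun z : EuclideanSpace ℝ ι => Φ (qf lam z / ‖z‖ ^ 2) := by
  have h1 : Continuous (qf lam) := by unfold qf; fun_prop
  exact hΦ.measurable.comp (h1.measurable.div (Continuous.measurable (by fun_prop)))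

theorem sum_split {i0 j : ι} (h : j ≠ i0) (f : ι → ℝ) :
    ∑ i, f i = ∑ i ∈ (Finset.univ.erase i0).erase j, f i + (f i0 + f j) := by
  rw [← Finset.add_sum_erase _ f (Finset.mem_univ i0),
    ← Finset.add_sum_erase _ f (Finset.mem_erase.2 ⟨h, Finset.mem_univ j⟩)]
  ring

omit [DecidableEq ι] in
theorem inner_sum' (a z : EuclideanSpace ℝ ι) : ⟪a, z⟫ = ∑ i, a i * z i := by
  simp [PiLp.inner_apply, mul_comm]

theorem givens (k : ℕ) {Φ : ℝ → ℝ≥0∞} (hΦ : Monotone Φ) {lam : ι → ℝ} (h0 : ∀ i, 0 ≤ lam i)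
    {i0 j : ι} (hi : lam i0 = 0) (hj : j ≠ i0) {a a' : EuclideanSpace ℝ ι} (hn : ‖a‖ = ‖a'‖)
    (h1 : a' j = 0) (h2 : ∀ i, i ≠ i0 → i ≠ j → a' i = a i) (h3 : a' i0 ≠ 0) :
    FF k Φ lam a' ≤ FF k Φ lam a := by
  obtain ⟨σ, s1, s2, s3⟩ := exists_swap hn
  let η : EuclideanSpace ℝ ι ≃ₗᵢ[ℝ] EuclideanSpace ℝ ι :=
    LinearIsometryEquiv.piLpCongrRight 2 fun i =>
      if i = i0 ∨ i = j then LinearIsometryEquiv.neg ℝ else LinearIsometryEquiv.refl ℝ ℝ
  have hη : ∀ z i, η z i = if i = i0 ∨ i = j then -z i else z i := fun z i => by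
    simp only [η, LinearIsometryEquiv.piLpCongrRight_apply]
    split_ifs <;> simp
  set R := (Finset.univ.erase i0).erase j with hR
  have hR' : ∀ i ∈ R, i ≠ i0 ∧ i ≠ j := fun i h =>
    ⟨(Finset.mem_erase.1 (Finset.mem_erase.1 h).2).1, (Finset.mem_erase.1 h).1⟩
  have hσ : ∀ z, ∀ i ∈ R, σ z i = z i := fun z i h => by
    obtain ⟨t, ht⟩ := s3 z
    rw [ht]
    simp [h2 i (hR' i h).1 (hR' i h).2]
  let c : EuclideanSpace ℝ ι → ℝ := fun z => ∑ i ∈ R, a i * z i
  let x : EuclideanSpace ℝ ι → ℝ := fun z => a i0 * z i0 + a j * z j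
  let x' : EuclideanSpace ℝ ι → ℝ := fun z => a' i0 * z i0
  have e1 : ∀ z, ⟪a, z⟫ = c z + x z := fun z => by rw [inner_sum', sum_split hj]
  have e2 : ∀ z, ⟪a', z⟫ = c z + x' z := fun z => by
    rw [inner_sum', sum_split hj, h1, zero_mul, add_zero]
    congr 1
    exact Finset.sum_congr rfl fun i h => by rw [h2 i (hR' i h).1 (hR' i h).2]
  have e3 : ∀ z, c (σ z) = c z := fun z => Finset.sum_congr rfl fun i h => by rw [hσ z i h]
  have e4 : ∀ z, x (σ z) = x' z := fun z => by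
    have := s1 z
    rw [e1, e2, e3] at this
    linarith
  have e5 : ∀ z, x' (σ z) = x z := fun z => by
    have := s2 z
    rw [e1, e2, e3] at this
    linarith
  have e6 : ∀ z, σ z i0 ^ 2 + σ z j ^ 2 = z i0 ^ 2 + z j ^ 2 := fun z => by
    have := congrArg (· ^ 2) (σ.norm_map z)
    simp only [EuclideanSpace.real_norm_sq_eq] at this
    rw [sum_split hj, sum_split hj, Finset.sum_congr rfl fun i h => by rw [hσ z i h]] at this
    linarith
  have e7 : ∀ z, qf lam (σ z) - qf lam z = lam j * (z i0 ^ 2 - σ z i0 ^ 2) := fun z => by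
    rw [qf, qf, sum_split hj, sum_split hj, Finset.sum_congr rfl fun i h => by rw [hσ z i h], hi]
    linear_combination lam j * e6 z
  have e8 : ∀ u v : ℝ, |a' i0 * u| ≤ |a' i0 * v| → u ^ 2 ≤ v ^ 2 := fun u v h => by
    rw [abs_mul, abs_mul] at h
    exact sq_le_sq.2 (le_of_mul_le_mul_left h (abs_pos.2 h3))
  simp only [FF, e1, e2]
  refine two_point k (measurable_psi hΦ lam) (Continuous.measurable (by fun_prop))
    (Continuous.measurable (by fun_prop)) (Continuous.measurable (by fun_prop)) σ η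
    (fun z => ?_) (fun z => ?_) (fun z => ?_) (fun z => ?_) e3 e4 e5 (fun z h => ?_) (fun z h => ?_)
  · rw [η.norm_map]
    congr 2
    refine Finset.sum_congr rfl fun i _ => ?_
    rw [hη]
    split_ifs <;> ring
  · exact Finset.sum_congr rfl fun i h => by rw [hη, if_neg (not_or.2 (hR' i h))]
  · simp only [x, hη, true_or, or_true, if_true]
    ring
  · simp only [x', hη, true_or, if_true]
    ring
  · rw [← e5 z] at h
    have := mul_nonneg (h0 j) (sub_nonneg.2 (e8 _ _ h))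
    rw [σ.norm_map]
    exact hΦ (div_le_div_of_nonneg_right (by linarith [e7 z]) (sq_nonneg _))
  · rw [← e5 z] at h
    have := mul_nonneg (h0 j) (sub_nonneg.2 (e8 _ _ h))
    rw [σ.norm_map]
    exact hΦ (div_le_div_of_nonneg_right (by linarith [e7 z]) (sq_nonneg _))

theorem to_axis (k : ℕ) {Φ : ℝ → ℝ≥0∞} (hΦ : Monotone Φ) {lam : ι → ℝ} (h0 : ∀ i, 0 ≤ lam i)
    {i0 : ι} (hi : lam i0 = 0) (s : Finset ι) : ∀ a : EuclideanSpace ℝ ι,
    (∀ i, i ∉ s → i ≠ i0 → a i = 0) →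
      FF k Φ lam (EuclideanSpace.single i0 ‖a‖) ≤ FF k Φ lam a := by
  induction s using Finset.induction_on with
  | empty =>
    intro a ha
    have e : a = EuclideanSpace.single i0 (a i0) := by
      ext i
      by_cases h : i = i0
      · simp [h]
      · simp [h, ha i (by simp) h]
    refine le_of_eq (lintegral_congr fun z => ?_)
    rw [e]
    simp [wgt, EuclideanSpace.inner_single_left, abs_mul]
  | insert j s _ ih =>
    intro a ha
    by_cases hj : j = i0 ∨ a j = 0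
    · refine ih a fun i h1 h2 => ?_
      by_cases h3 : i = j
      · rcases hj with hj | hj
        · exact absurd (h3.trans hj) h2
        · rw [h3, hj]
      · exact ha i (by simp [h1, h3]) h2
    obtain ⟨hj, hj'⟩ := not_or.1 hj
    let a' : EuclideanSpace ℝ ι := WithLp.toLp 2 fun i =>
      if i = i0 then √(a i0 ^ 2 + a j ^ 2) else if i = j then 0 else a i
    have h1 : a' j = 0 := by simp [a', hj]
    have h2 : ∀ i, i ≠ i0 → i ≠ j → a' i = a i := fun i h h' => by simp [a', h, h']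
    have h3 : a' i0 = √(a i0 ^ 2 + a j ^ 2) := by simp [a']
    have hn : ‖a‖ = ‖a'‖ := by
      rw [← sq_eq_sq₀ (norm_nonneg _) (norm_nonneg _), EuclideanSpace.real_norm_sq_eq,
        EuclideanSpace.real_norm_sq_eq, sum_split hj, sum_split hj (fun i => a' i ^ 2), h1, h3,
        Real.sq_sqrt (by positivity)]
      congr 1
      · exact Finset.sum_congr rfl fun i h => by
          rw [h2 i (Finset.mem_erase.1 (Finset.mem_erase.1 h).2).1 (Finset.mem_erase.1 h).1]
      · ring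
    refine le_trans ?_ (givens k hΦ h0 hi hj hn h1 h2 ?_)
    · rw [hn]
      refine ih a' fun i h4 h5 => ?_
      by_cases h6 : i = j
      · rw [h6, h1]
      · rw [h2 i h5 h6]
        exact ha i (by simp [h4, h6]) h5
    · rw [h3]
      exact (Real.sqrt_pos.2 (by positivity)).ne'

theorem FF_le (k : ℕ) {Φ : ℝ → ℝ≥0∞} (hΦ : Monotone Φ) {lam : ι → ℝ} (h0 : ∀ i, 0 ≤ lam i)
    {e a : EuclideanSpace ℝ ι} (he : e ≠ 0) (h1 : ∀ i, lam i * e i = 0) (hn : ‖e‖ = ‖a‖) :
    FF k Φ lam e ≤ FF k Φ lam a := by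
  obtain ⟨i0, hi0⟩ : ∃ i, e i ≠ 0 := by
    by_contra h
    exact he (by ext i; simpa using not_exists.1 h i)
  have hi : lam i0 = 0 := (mul_eq_zero.1 (h1 i0)).resolve_right hi0
  refine le_trans (le_of_eq ?_) (to_axis k hΦ h0 hi Finset.univ a fun i h => absurd (by simp) h)
  obtain ⟨σ, s1, -, s3⟩ := exists_swap (a := e) (a' := EuclideanSpace.single i0 ‖a‖)
    (by simp [hn])
  have hm : Measurable fun z : EuclideanSpace ℝ ι => Φ (qf lam z / ‖z‖ ^ 2) * wgt k ⟪e, z⟫ :=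
    (measurable_psi hΦ lam).mul ((measurable_wgt k).comp (Continuous.measurable (by fun_prop)))
  rw [FF, ← lintegral_iso σ hm]
  refine lintegral_congr fun z => ?_
  rw [s1, σ.norm_map]
  congr 3
  refine Finset.sum_congr rfl fun i _ => ?_
  by_cases h : lam i = 0
  · simp [h]
  · obtain ⟨t, ht⟩ := s3 z
    have h2 : e i = 0 := (mul_eq_zero.1 (h1 i)).resolve_left h
    have h3 : i ≠ i0 := fun h' => h (h' ▸ hi)
    rw [ht]
    simp [h2, h3]

end coord

end Pool.Agent.P.MP_467638_an.Tl
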