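import Pool.Agent.P.MP_467638_an.TlKey0
import Pool.Agent.P.MP_467638_an.GaussK

set_option autoImplicit false

open MeasureTheory ProbabilityTheory Module Set Metric
open scoped RealInnerProductSpace ENNReal

namespace Pool.Agent.P.MP_467638_an.Tl

/-- The unnormalised Gaussian density as a function of the norm. -/
noncomputable def dens (s : ℝ) : ℝ≥0∞ := ENNReal.ofReal (Real.exp (-(1 / 2) * s ^ 2))

theorem measurable_dens : Measurable dens :=
  Measurable.ennreal_ofReal (Continuous.measurable (by fun_prop))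

/-- The one-sided radial weight. -/
noncomputable def wp (k : ℕ) : ℝ → ℝ≥0∞ := (Ioi 0).indicator (wgt k)

theorem measurable_wp (k : ℕ) : Measurable (wp k) := (measurable_wgt k).indicator measurableSet_Ioi

variable {E : Type*} [NormedAddCommGroup E] [InnerProductSpace ℝ E] [FiniteDimensional ℝ E]
  [MeasurableSpace E] [BorelSpace E]

variable (E) in
theorem gauss_dens : ∃ κ : ℝ≥0∞, κ ≠ 0 ∧ κ ≠ ⊤ ∧ ∀ F : E → ℝ≥0∞, Measurable F →
    ∫⁻ x, dens ‖x‖ * F x = κ * ∫⁻ x, F x ∂stdGaussian E := by
  have hI := GaussianFourier.integral_rexp_neg_mul_sq_norm (V := E) (b := 1 / 2) (by norm_num)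
  set κ : ℝ := (Real.pi / (1 / 2)) ^ (finrank ℝ E / 2 : ℝ) with hκdef
  have hκ : 0 < κ := by positivity
  have hint : Integrable fun v : E => Real.exp (-(1 / 2) * ‖v‖ ^ 2) :=
    Integrable.of_integral_ne_zero (by rw [hI]; exact hκ.ne')
  have hm : Measurable fun x : E => dens ‖x‖ := measurable_dens.comp measurable_norm
  have : IsFiniteMeasure (volume.withDensity fun x : E => dens ‖x‖) :=
    isFiniteMeasure_withDensity_ofReal hint.2
  have h : volume.withDensity (fun x : E => dens ‖x‖) = κ.toNNReal • stdGaussian E := by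
    apply Measure.ext_of_charFun
    ext t
    rw [charFun_apply, charFun_apply, integral_smul_nnreal_measure,
      ← charFun_apply (μ := stdGaussian E), charFun_stdGaussian, integral_withDensity_eq_integral_toReal_smul hm
        (ae_of_all _ fun _ => ENNReal.ofReal_lt_top)]
    have h1 := GaussianFourier.integral_cexp_neg_mul_sq_norm_add (V := E) (b := 1 / 2)
      (by norm_num) Complex.I t
    have h2 : (κ : ℂ) = (Real.pi / (1 / 2) : ℂ) ^ (finrank ℝ E / 2 : ℂ) := by
      rw [hκdef, Complex.ofReal_cpow (by positivity)]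
      push_cast
      rfl
    rw [← h2] at h1
    rw [NNReal.smul_def, Real.coe_toNNReal _ hκ.le, Complex.real_smul]
    refine Eq.trans (integral_congr_ae (ae_of_all _ fun x => ?_)) (h1.trans ?_)
    · simp only [dens]
      rw [ENNReal.toReal_ofReal (Real.exp_nonneg _), Complex.real_smul, Complex.ofReal_exp,
        ← Complex.exp_add, real_inner_comm]
      push_cast
      ring_nf
    · rw [Complex.I_sq]
      ring_nf
  refine ⟨κ.toNNReal, by simpa using hκ, by simp, fun F hF => ?_⟩
  have h3 := lintegral_withDensity_eq_lintegral_mul volume hm hF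
  rw [h, lintegral_smul_measure] at h3
  exact h3.symm

variable (E) in
theorem polar0 {k : ℕ} (hk : finrank ℝ E = k + 1) : ∃ τ : Measure (sphere (0 : E) 1), SFinite τ ∧
    ∀ F : E → ℝ≥0∞, Measurable F →
      ∫⁻ x, F x ∂stdGaussian E = ∫⁻ θ, ∫⁻ s, wp k s * F (s • θ.1) ∂stdGaussian ℝ ∂τ := by
  have : Nontrivial E := Module.nontrivial_of_finrank_pos (R := ℝ) (by omega)
  obtain ⟨κ, k0, k1, hκ⟩ := gauss_dens E
  obtain ⟨κ', -, k2, hκ'⟩ := gauss_dens ℝ
  refine ⟨(κ⁻¹ * κ') • (volume : Measure E).toSphere, inferInstance, fun F hF => ?_⟩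
  have mp := (volume : Measure E).measurePreserving_homeomorphUnitSphereProd
  rw [hk, Nat.add_sub_cancel] at mp
  have hG : Measurable fun q : sphere (0 : E) 1 × Ioi (0 : ℝ) => dens q.2 * F (q.2.1 • q.1.1) :=
    (measurable_dens.comp (measurable_subtype_coe.comp measurable_snd)).mul
      (hF.comp (Continuous.measurable (by fun_prop)))
  have h1 := mp.lintegral_comp hG
  rw [lintegral_prod _ hG.aemeasurable] at h1
  have h2 : ∫⁻ x, dens ‖x‖ * F x = ∫⁻ x : ({(0 : E)}ᶜ : Set E), dens ‖x.1‖ * F x.1
      ∂((volume : Measure E).comap (↑)) := by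
    rw [lintegral_subtype_comap (measurableSet_singleton _).compl fun x => dens ‖x‖ * F x,
      restrict_compl_singleton]
  have h3 : ∀ θ : sphere (0 : E) 1,
      ∫⁻ s : Ioi (0 : ℝ), dens s * F (s.1 • θ.1) ∂Measure.volumeIoiPow k =
        κ' * ∫⁻ s, wp k s * F (s • θ.1) ∂stdGaussian ℝ := fun θ => by
    have m1 : Measurable fun s : ℝ => F (s • θ.1) := hF.comp (Continuous.measurable (by fun_prop))
    rw [← hκ' (fun s => wp k s * F (s • θ.1)) ((measurable_wp k).mul m1), Measure.volumeIoiPow,
      lintegral_withDensity_eq_lintegral_mul _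
        (measurable_subtype_coe.pow_const k).ennreal_ofReal
        (g := fun s : Ioi (0 : ℝ) => dens s * F (s.1 • θ.1))
        ((measurable_dens.mul m1).comp measurable_subtype_coe)]
    refine (lintegral_subtype_comap measurableSet_Ioi
      fun s => ENNReal.ofReal (s ^ k) * (dens s * F (s • θ.1))).trans ?_
    rw [← lintegral_indicator measurableSet_Ioi]
    refine lintegral_congr fun s => ?_
    by_cases hs : s ∈ Ioi (0 : ℝ)
    · simp only [wp, indicator_of_mem hs, wgt, Real.norm_eq_abs, abs_of_pos hs.out]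
      ring
    · simp [wp, indicator_of_notMem hs]
  simp only [h3] at h1
  rw [lintegral_smul_measure, smul_eq_mul, mul_assoc, ← lintegral_const_mul' _ _ k2, ← h1,
    ← ENNReal.mul_right_inj k0 k1, ← hκ F hF, h2, ← mul_assoc, ENNReal.mul_inv_cancel k0 k1,
    one_mul]
  refine lintegral_congr fun x => ?_
  have hx : ‖x.1‖ ≠ 0 := norm_ne_zero_iff.2 x.2
  simp [smul_smul, hx]

theorem lintegral_proj (U : Submodule ℝ E) {F : U → ℝ≥0∞} (hF : Measurable F) :
    ∫⁻ z, F (U.orthogonalProjectionOnto z) ∂stdGaussian E = ∫⁻ z, F z ∂stdGaussian U := by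
  have hT : Measurable fun z : E => U.orthogonalProjectionOnto z :=
    Continuous.measurable (by fun_prop)
  rw [← map_stdGaussian _ hT (fun t => (t : E))
    (fun z t => Submodule.inner_orthogonalProjectionOnto_eq_of_mem_right t z) fun t => rfl,
    lintegral_map hF hT]

theorem lintegral_split (V : Submodule ℝ E) {F : E → ℝ≥0∞} (hF : Measurable F) :
    ∫⁻ z, F z ∂stdGaussian E = ∫⁻ z, ∫⁻ z', F (Vᗮ.starProjection z + V.starProjection z')
      ∂stdGaussian E ∂stdGaussian E := by
  have hT : Measurable fun q : E × E => Vᗮ.starProjection q.1 + V.starProjection q.2 :=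
    Continuous.measurable (by fun_prop)
  conv_lhs => rw [← map_split_starProjection (𝕜 := ℝ) V]
  rw [lintegral_map hF hT]
  exact lintegral_prod _ (hF.comp hT).aemeasurable

theorem polar (V : Submodule ℝ E) {k : ℕ} (hk : finrank ℝ V = k + 1) :
    ∃ τ : Measure (sphere (0 : V) 1), ∀ F : E → ℝ≥0∞, Measurable F →
      ∫⁻ x, F x ∂stdGaussian E = ∫⁻ θ, ∫⁻ g, wp k ⟪(θ.1 : E), g⟫ *
        F (Vᗮ.starProjection g + ⟪(θ.1 : E), g⟫ • (θ.1 : E)) ∂stdGaussian E ∂τ := by
  obtain ⟨τ, hτ, h⟩ := polar0 V hk
  refine ⟨τ, fun F hF => ?_⟩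
  have h1 : ∀ z : E, ∫⁻ z', F (Vᗮ.starProjection z + V.starProjection z') ∂stdGaussian E =
      ∫⁻ θ, ∫⁻ s, wp k s * F (Vᗮ.starProjection z + s • (θ.1 : E)) ∂stdGaussian ℝ ∂τ := fun z => by
    have m : Measurable fun v : V => F (Vᗮ.starProjection z + v) :=
      hF.comp (Continuous.measurable (by fun_prop))
    exact (lintegral_proj V m).trans (h _ m)
  have m2 : Measurable fun q : (E × sphere (0 : V) 1) × ℝ =>
      wp k q.2 * F (Vᗮ.starProjection q.1.1 + q.2 • (q.1.2.1 : E)) :=
    ((measurable_wp k).comp measurable_snd).mul (hF.comp (Continuous.measurable (by fun_prop)))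
  rw [lintegral_split V hF]
  simp only [h1]
  rw [lintegral_lintegral_swap (m2.lintegral_prod_right' (ν := stdGaussian ℝ)).aemeasurable]
  refine lintegral_congr fun θ => ?_
  have hθ : ‖(θ.1 : E)‖ = 1 := norm_eq_of_mem_sphere θ
  have m3 : Measurable fun g : E => wp k ⟪(θ.1 : E), g⟫ *
      F (Vᗮ.starProjection g + ⟪(θ.1 : E), g⟫ • (θ.1 : E)) :=
    ((measurable_wp k).comp (Continuous.measurable (by fun_prop))).mul
      (hF.comp (Continuous.measurable (by fun_prop)))
  rw [lintegral_split V m3]
  refine lintegral_congr fun z => ?_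
  have hT : Measurable fun x : E => ⟪(θ.1 : E), x⟫ := Continuous.measurable (by fun_prop)
  have hm := map_stdGaussian _ hT (fun t : ℝ => t • (θ.1 : E))
    (by intro z t; simp [inner_smul_right, real_inner_comm]) (by intro t; simp [norm_smul, hθ])
  have m4 : Measurable fun s : ℝ => wp k s * F (Vᗮ.starProjection z + s • (θ.1 : E)) :=
    (measurable_wp k).mul (hF.comp (Continuous.measurable (by fun_prop)))
  rw [← hm, lintegral_map m4 hT]
  refine lintegral_congr fun z' => ?_
  have e1 : ⟪(θ.1 : E), Vᗮ.starProjection z + V.starProjection z'⟫ = ⟪(θ.1 : E), z'⟫ := by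
    rw [inner_add_right, Submodule.inner_right_of_mem_orthogonal θ.1.2
      (Vᗮ.starProjection_apply_mem z), zero_add, ← Submodule.inner_starProjection_left_eq_right,
      Submodule.starProjection_eq_self_iff.2 θ.1.2]
  rw [e1, map_add, Submodule.starProjection_orthogonal_apply_eq_zero (V.starProjection_apply_mem _),
    add_zero, Submodule.starProjection_eq_self_iff.2 (Vᗮ.starProjection_apply_mem _)]

end Pool.Agent.P.MP_467638_an.Tl
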