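import Pool.Agent.P.MP_467638_an.TlReal
import Pool.Agent.P.MP_467638_an.Side

set_option autoImplicit false

open MeasureTheory ProbabilityTheory Module Set Metric Filter Matrix
open scoped ENNReal

namespace Pool.Agent.P.MP_467638_an.Tl

open Ad

variable {𝕜 : Type} [RCLike 𝕜] {n r : ℕ}

theorem proj_real (W : Submodule 𝕜 (EE 𝕜 n)) (z : EE 𝕜 n) :
    (W.restrictScalars ℝ).starProjection z = W.starProjection z :=
  Submodule.eq_starProjection_of_mem_of_inner_eq_zero (W.starProjection_apply_mem z) fun w hw => by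
    rw [inner_real_eq_re (𝕜 := 𝕜), W.starProjection_inner_eq_zero z w hw, map_zero]

/-- The error ratio of an estimator. -/
noncomputable def rat (y : Dat 𝕜 r n) (x : EE 𝕜 r) : ℝ :=
  ‖y.2 - comb y.1 x‖ ^ 2 / ‖y.2 - comb y.1 (est0 ⊥ y)‖ ^ 2

theorem measurable_rat : Measurable fun q : Dat 𝕜 r n × EE 𝕜 r => rat q.1 q.2 := by
  have h : ∀ x : Dat 𝕜 r n × EE 𝕜 r → EE 𝕜 r, Measurable x →
      Measurable fun q => ‖q.1.2 - comb q.1.1 (x q)‖ ^ 2 := fun x hx =>
    ((measurable_snd.comp measurable_fst).sub (continuous_comb.measurable.comp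
      ((measurable_fst.comp measurable_fst).prodMk hx))).norm.pow_const 2
  exact (h _ measurable_snd).div (h _ ((measurable_est0 ⊥).comp measurable_fst))

theorem meas_rat {α : Type*} [MeasurableSpace α] {φ : ℝ → ℝ≥0∞} (hφ : Measurable φ)
    {y : α → Dat 𝕜 r n} {x : α → EE 𝕜 r} (hy : Measurable y) (hx : Measurable x) :
    Measurable fun w => φ (rat (y w) (x w)) :=
  hφ.comp (Measurable.comp (g := fun q : Dat 𝕜 r n × EE 𝕜 r => rat q.1 q.2)
    (f := fun w => (y w, x w)) measurable_rat (hy.prodMk hx))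

theorem den_eq {a : Fin r → EE 𝕜 n} (ha : LinearIndependent 𝕜 a) (b : EE 𝕜 n) :
    b - comb a (est0 ⊥ (a, b)) = (Submodule.span 𝕜 (range a))ᗮ.starProjection b := by
  have h := proj_est0 (K := ⊥) (a := a) (by simpa [Submodule.starProjection_top] using ha) b
  simp only [Submodule.bot_orthogonal_eq_top, Submodule.starProjection_top'] at h
  rw [Submodule.starProjection_orthogonal_val]
  exact congrArg (b - ·) h.symm

end Pool.Agent.P.MP_467638_an.Tl
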