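import Pool.Agent.P.MP_467638_an.TlFol

set_option autoImplicit false

open MeasureTheory ProbabilityTheory Module Set Metric Filter
open scoped RealInnerProductSpace ENNReal

namespace Pool.Agent.P.MP_467638_an.Tl

variable {E : Type*} [NormedAddCommGroup E] [InnerProductSpace ℝ E] [FiniteDimensional ℝ E]
  [MeasurableSpace E] [BorelSpace E]
  {X : Type*} [NormedAddCommGroup X] [NormedSpace ℝ X] [FiniteDimensional ℝ X]
  [MeasurableSpace X] [BorelSpace X] (lam : Measure X) [lam.IsAddHaarMeasure]

theorem real_core {φ : ℝ → ℝ≥0∞} (hφ : Monotone φ) {B : ℝ≥0∞} (hB : B ≠ ⊤) (hφB : ∀ t, φ t ≤ B)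
    (A : X →ₗ[ℝ] E) (u : E →ₗ[ℝ] X) {N V : Submodule ℝ E} (hVN : V ≤ N) (hV : 0 < finrank ℝ V)
    (h1 : ∀ x, u (A x) = x) (h2 : ∀ x, A x ∈ Nᗮ) (h3 : ∀ g, ∃ x, g - N.starProjection g = A x)
    (h4 : ∀ v ∈ V, u v = 0) {est : E → X} (hm : Measurable est)
    (h5 : ∀ b, est (A (u b) + V.starProjection b) = est b) :
    ∫⁻ g, φ (‖g - A (u g)‖ ^ 2 / ‖N.starProjection g‖ ^ 2) ∂stdGaussian E ≤
      liminf (fun j => ∫⁻ s, ∫⁻ g, φ (‖A s.2 + Real.exp s.1 • g -
        A (est (A s.2 + Real.exp s.1 • g))‖ ^ 2 /
          ‖N.starProjection (A s.2 + Real.exp s.1 • g)‖ ^ 2) ∂stdGaussian E ∂pri lam j) atTop := by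
  have cA := A.continuous_of_finiteDimensional
  have cu := u.continuous_of_finiteDimensional
  let δ : ℝ × X → E → X := fun s θ => Real.exp (-s.1) • (est (A s.2 + Real.exp s.1 • θ) - s.2)
  have mδ : Measurable fun q : (ℝ × X) × E => δ q.1 q.2 :=
    (Continuous.measurable (by fun_prop) : Measurable fun q : (ℝ × X) × E => Real.exp (-q.1.1)).smul
      ((hm.comp (Continuous.measurable (by fun_prop))).sub (measurable_snd.comp measurable_fst))
  have mp : Measurable fun g : E => V.starProjection g := Continuous.measurable (by fun_prop)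
  have mN : Measurable fun g : E => ‖N.starProjection g‖ ^ 2 := Continuous.measurable (by fun_prop)
  have hae : ∀ᵐ g ∂stdGaussian E, V.starProjection g ≠ 0 := by
    have := measure_submodule_eq_zero (𝕜 := ℝ) Vᗮ (by
      intro h
      rw [V.orthogonal_eq_top_iff.1 h, finrank_bot] at hV
      exact lt_irrefl _ hV)
    filter_upwards [compl_mem_ae_iff.2 this] with g hg h
    exact hg ((Submodule.starProjection_apply_eq_zero_iff V).1 h)
  let L : E →ₗ[ℝ] E := A ∘ₗ u ∘ₗ (N.starProjection : E →ₗ[ℝ] E)
  have hL : ∀ g x, V.starProjection g ≠ 0 →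
      ‖g - A (u g) - A x‖ ^ 2 / ‖N.starProjection g‖ ^ 2 =
        1 + ‖L g + A x‖ ^ 2 / ‖N.starProjection g‖ ^ 2 := fun g x hg => by
    obtain ⟨x0, h0⟩ := h3 g
    have e1 : g - A (u g) - A x = N.starProjection g - (L g + A x) := by
      have e2 := congrArg (fun z => A (u z)) h0
      simp only [map_sub, h1] at e2
      have e3 : L g = A (u (N.starProjection g)) := rfl
      rw [e3, ← sub_eq_zero]
      calc _ = (g - N.starProjection g) - (A (u g) - A (u (N.starProjection g))) := by abel
        _ = 0 := by rw [h0, e2, sub_self]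
    have e4 : N.starProjection g ≠ 0 := fun h => hg (by
      have := congrArg (fun T : E →L[ℝ] E => T g)
        (Submodule.starProjection_comp_starProjection_of_le hVN)
      simp only [ContinuousLinearMap.comp_apply, h, map_zero] at this
      exact this.symm)
    have e5 : ⟪N.starProjection g, L g + A x⟫ = 0 :=
      Submodule.inner_right_of_mem_orthogonal (N.starProjection_apply_mem g)
        (Nᗮ.add_mem (h2 _) (h2 _))
    rw [e1, norm_sub_sq_real, e5]
    field_simp
    ring
  refine fol1 lam (stdGaussian E) (p := fun g => Real.log ‖V.starProjection g‖) (u := u)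
    mp.norm.log cu.measurable
    (f := fun g s => φ (‖g - A (u g) - A (‖V.starProjection g‖ •
      δ s (‖V.starProjection g‖⁻¹ • V.starProjection g))‖ ^ 2 / ‖N.starProjection g‖ ^ 2))
    ?_ ?_ (hae.mono fun g hg s => ?_) hB ?_ (fun _ _ => hφB _) fun s => ?_
  · have m1 : Measurable fun q : E × (ℝ × X) => V.starProjection q.1 := mp.comp measurable_fst
    have m2 : Measurable fun q : E × (ℝ × X) =>
        δ q.2 (‖V.starProjection q.1‖⁻¹ • V.starProjection q.1) :=
      mδ.comp (measurable_snd.prodMk (m1.norm.inv.smul m1))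
    exact hφ.measurable.comp (((((Continuous.measurable (by fun_prop) :
      Measurable fun q : E × (ℝ × X) => q.1 - A (u q.1))).sub
        (cA.measurable.comp (m1.norm.smul m2))).norm.pow_const 2).div (mN.comp measurable_fst))
  · have m1 : Measurable fun q : E × (ℝ × X) => A q.2.2 + Real.exp q.2.1 • q.1 :=
      Continuous.measurable (by fun_prop)
    exact hφ.measurable.comp (((m1.sub (cA.measurable.comp (hm.comp m1))).norm.pow_const 2).div
      (mN.comp m1))
  · have hv : 0 < ‖V.starProjection g‖ := norm_pos_iff.2 hg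
    have he := Real.exp_pos s.1
    have e1 : ∀ W : Submodule ℝ E, W ≤ N → W.starProjection (A s.2 + Real.exp s.1 • g) =
        Real.exp s.1 • W.starProjection g := fun W hW => by
      rw [map_add, map_smul, (Submodule.starProjection_apply_eq_zero_iff W).2
        (Submodule.orthogonal_le hW (h2 _)), zero_add]
    have e2 := h5 (A s.2 + Real.exp s.1 • g)
    rw [e1 V hVN, map_add, h1, map_smul] at e2
    have e3 : Real.exp (s.1 + Real.log ‖V.starProjection g‖) • ‖V.starProjection g‖⁻¹ •
        V.starProjection g = Real.exp s.1 • V.starProjection g := by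
      rw [Real.exp_add, Real.exp_log hv, smul_smul, mul_inv_cancel_right₀ hv.ne']
    have e4 : ‖V.starProjection g‖ * Real.exp (-(s.1 + Real.log ‖V.starProjection g‖)) =
        (Real.exp s.1)⁻¹ := by
      rw [Real.exp_neg, Real.exp_add, Real.exp_log hv]
      field_simp
    simp only [δ]
    rw [e3, e2, smul_smul, e4, e1 N le_rfl]
    generalize est (A s.2 + Real.exp s.1 • g) = x
    have e5 : A s.2 + Real.exp s.1 • g - A x = Real.exp s.1 •
        (g - A (u g) - A ((Real.exp s.1)⁻¹ • (x - (s.2 + Real.exp s.1 • u g)))) := by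
      rw [smul_sub, map_smul, smul_inv_smul₀ he.ne', map_sub, map_add, map_smul, smul_sub]
      abel
    rw [e5, norm_smul, norm_smul, mul_pow, mul_pow, mul_div_mul_left _ _ (by simp)]
  · exact ne_top_of_le_ne_top hB ((lintegral_mono fun _ => hφB _).trans_eq (by simp))
  · have hk := key1 (Φ := fun t => φ (1 + t)) (fun a b h => hφ (by linarith)) hVN hV L
      (fun z => by
        simp only [L, LinearMap.comp_apply, ContinuousLinearMap.coe_coe,
          Submodule.starProjection_eq_self_iff.2 (N.starProjection_apply_mem z)])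
      (fun v hv => by
        simp only [L, LinearMap.comp_apply, ContinuousLinearMap.coe_coe,
          Submodule.starProjection_eq_self_iff.2 (hVN hv), h4 v hv, map_zero])
      (Y := fun θ => A (δ s θ)) (cA.measurable.comp (mδ.comp measurable_prodMk_left))
    refine (lintegral_congr_ae (hae.mono fun g hg => ?_)).trans_le
      (hk.trans_eq (lintegral_congr_ae (hae.mono fun g hg => ?_)))
    · have := hL g 0 hg
      rw [map_zero, sub_zero, add_zero] at this
      exact congrArg φ this
    · dsimp only
      rw [hL g _ hg, A.map_smul ‖V.starProjection g‖]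

end Pool.Agent.P.MP_467638_an.Tl
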