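import Pool.Agent.P.MP_467638_an.TlMain
import Pool.Agent.P.MP_467638_an.CvVal

set_option autoImplicit false

open MeasureTheory ProbabilityTheory Module Set Matrix
open scoped ENNReal ComplexOrder

namespace Pool.Agent.P.MP_467638_an.Tl

open Ad

variable {𝕜 : Type} [RCLike 𝕜] {n ℓ d d' p r : ℕ}

theorem sh_transfer {Q : Matrix (Fin n) (Fin ℓ) 𝕜} {U : Matrix (Fin n) (Fin n) 𝕜} (u : Uᴴ * U = 1)
    {A : Matrix (Fin n) (Fin d) 𝕜} {A' : Matrix (Fin n) (Fin d') 𝕜}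
    {B B' : Matrix (Fin n) (Fin p) 𝕜} {M : Matrix (Fin d') (Fin d) 𝕜}
    {M' : Matrix (Fin d) (Fin d') 𝕜} {c : 𝕜} {Y X : Matrix (Fin d) (Fin p) 𝕜}
    {X' : Matrix (Fin d') (Fin p) 𝕜} (h1 : A = U * (A' * M)) (h2 : U * A' = A * M')
    (h3 : B = c • (U * B') + A * Y)
    (hk : ∀ Z : Matrix (Fin d) (Fin p) 𝕜, (U * Q)ᴴ * A * Z = 0 → A * Z = 0)
    (hX : ((U * Q)ᴴ * A)ᴴ * ((U * Q)ᴴ * B - (U * Q)ᴴ * A * X) = 0)
    (hX' : (Qᴴ * A')ᴴ * (Qᴴ * B' - Qᴴ * A' * X') = 0) :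
    B - A * X = c • (U * (B' - A' * X')) := by
  have u1 : ∀ {k : ℕ} (Z : Matrix (Fin n) (Fin k) 𝕜), (U * Q)ᴴ * (U * Z) = Qᴴ * Z := fun Z => by
    rw [conjTranspose_mul, Matrix.mul_assoc, ← Matrix.mul_assoc Uᴴ, u, Matrix.one_mul]
  have e1 : B - A * (c • (M' * X') + Y) = c • (U * (B' - A' * X')) := by
    rw [Matrix.mul_add, Matrix.mul_smul, ← Matrix.mul_assoc A, ← h2, Matrix.mul_sub, smul_sub,
      Matrix.mul_assoc U]
    nth_rewrite 1 [h3]
    abel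
  have e2 : ((U * Q)ᴴ * A)ᴴ * ((U * Q)ᴴ * (B - A * (c • (M' * X') + Y))) = 0 := by
    rw [e1, Matrix.mul_smul, u1, Matrix.mul_smul]
    nth_rewrite 1 [h1]
    rw [u1, ← Matrix.mul_assoc Qᴴ, conjTranspose_mul _ M, Matrix.mul_assoc Mᴴ, Matrix.mul_sub Qᴴ,
      ← Matrix.mul_assoc Qᴴ A' X', hX', Matrix.mul_zero, smul_zero]
  have e3 := hk (X - (c • (M' * X') + Y)) (by
    rw [← conjTranspose_mul_self_mul_eq_zero, Matrix.mul_assoc, ← sub_eq_zero.2 (e2.trans hX.symm),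
      ← Matrix.mul_sub, Matrix.mul_sub (U * Q)ᴴ, Matrix.mul_sub _ X, ← Matrix.mul_assoc (U * Q)ᴴ]
    congr 1
    abel)
  rw [Matrix.mul_sub, sub_eq_zero] at e3
  rw [e3, e1]

theorem sh_frame (A : Matrix (Fin n) (Fin d) 𝕜) (h : A.rank = r) :
    ∃ (F : Matrix (Fin n) (Fin r) 𝕜) (S : Matrix (Fin r) (Fin d) 𝕜) (T : Matrix (Fin d) (Fin r) 𝕜),
      Fᴴ * F = 1 ∧ A = F * S ∧ F = A * T := by
  obtain ⟨S, h1, h2⟩ := exists_factor A h
  obtain ⟨G, hG, a1, a2⟩ : ∃ G : Matrix (Fin r) (Fin r) 𝕜, Gᴴ = G ∧ G * (S * Sᴴ) = 1 ∧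
      S * Sᴴ * G = 1 :=
    ⟨(S * Sᴴ)⁻¹, by rw [conjTranspose_nonsing_inv, conjTranspose_mul, conjTranspose_conjTranspose],
      nonsing_inv_mul _ h2, mul_nonsing_inv _ h2⟩
  refine ⟨A * (Sᴴ * G), S, Sᴴ * G, ?_, ?_, rfl⟩
  · rw [conjTranspose_mul, Matrix.mul_assoc, ← Matrix.mul_assoc Aᴴ, ← h1, Matrix.mul_assoc Sᴴ S,
      ← Matrix.mul_assoc S, a2, Matrix.mul_one, conjTranspose_mul, hG, conjTranspose_conjTranspose,
      Matrix.mul_assoc, a1]
  · have := Cv.mul_eq_of_gram h1 (Z := 1 - Sᴴ * G * S) (by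
      rw [Matrix.mul_sub, Matrix.mul_one, ← Matrix.mul_assoc, ← Matrix.mul_assoc, a2,
        Matrix.one_mul, sub_self])
    rwa [Matrix.mul_sub, Matrix.mul_one, sub_eq_zero, ← Matrix.mul_assoc] at this

theorem sh_pos {E : Matrix (Fin n) (Fin p) 𝕜} (h : E ≠ 0) : 0 < frobSq E := by
  refine (Cv.v2_nonneg E).lt_of_ne' fun h1 => h ?_
  ext i j
  have h2 := (Finset.sum_eq_zero_iff_of_nonneg fun i _ => by positivity).1 h1 i (Finset.mem_univ _)
  simpa using (Finset.sum_eq_zero_iff_of_nonneg fun i _ => by positivity).1 h2 j (Finset.mem_univ _)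

theorem sh_flag {A : Matrix (Fin n) (Fin d) 𝕜} {A' : Matrix (Fin n) (Fin d') 𝕜}
    {B B' : Matrix (Fin n) (Fin 1) 𝕜} {P : Matrix (Fin d) (Fin n) 𝕜}
    {P' : Matrix (Fin d') (Fin n) 𝕜} (h : A.rank = r ∧ IsPinv A P ∧ B ≠ A * P * B)
    (h' : A'.rank = r ∧ IsPinv A' P' ∧ B' ≠ A' * P' * B') :
    ∃ U ∈ unitaryGroup (Fin n) 𝕜, ∃ (M : Matrix (Fin d') (Fin d) 𝕜)
      (M' : Matrix (Fin d) (Fin d') 𝕜) (c : 𝕜) (Y : Matrix (Fin d) (Fin 1) 𝕜), c ≠ 0 ∧
      A = U * (A' * M) ∧ U * A' = A * M' ∧ B = c • (U * B') + A * Y ∧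
      B - A * P * B = c • (U * (B' - A' * P' * B')) := by
  obtain ⟨F, S, T, f1, f2, f3⟩ := sh_frame A h.1
  obtain ⟨F', S', T', g1, g2, g3⟩ := sh_frame A' h'.1
  have n1 := Cv.IsPinv.normal h.2.1 B
  have n2 := Cv.IsPinv.normal h'.2.1 B'
  rw [← Matrix.mul_assoc A] at n1
  rw [← Matrix.mul_assoc A'] at n2
  have p1 := sh_pos (sub_ne_zero.2 h.2.2)
  have p2 := sh_pos (sub_ne_zero.2 h'.2.2)
  set W := B - A * P * B with hW
  set W' := B' - A' * P' * B' with hW'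
  set c : ℝ := √(frobSq W / frobSq W') with hc
  have c0 : 0 < c := Real.sqrt_pos.2 (div_pos p1 p2)
  have c1 : frobSq ((c : 𝕜) • W') = frobSq W := by
    rw [Cv.v2_smul, RCLike.norm_ofReal, sq_abs, hc, Real.sq_sqrt (div_pos p1 p2).le,
      div_mul_cancel₀ _ p2.ne']
  obtain ⟨U, hU, u1, u2⟩ := Cv.v2_two (A := F') (A' := F) (W := (c : 𝕜) • W') (W' := W)
    (g1.trans f1.symm) (by
      rw [g3, f3, conjTranspose_mul, conjTranspose_mul, Matrix.mul_smul, Matrix.mul_assoc,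
        Matrix.mul_assoc, n1, n2, Matrix.mul_zero, Matrix.mul_zero, smul_zero]) (by
      ext i j
      have a := Cv.v2_gram ((c : 𝕜) • W')
      have b := Cv.v2_gram W
      rw [c1, b, Fin.sum_univ_one, Fin.sum_univ_one] at a
      rw [Subsingleton.elim i 0, Subsingleton.elim j 0, a])
  have e2 : U * A' = A * (T * S') := by
    rw [← Matrix.mul_assoc, ← f3, ← u1, Matrix.mul_assoc, ← g2]
  rw [Matrix.mul_smul] at u2
  refine ⟨U, hU, T' * S, T * S', c, P * B - (c : 𝕜) • (T * S' * (P' * B')),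
    RCLike.ofReal_ne_zero.2 c0.ne', ?_, e2, ?_, u2.symm⟩
  · rw [← Matrix.mul_assoc A', ← g3, ← Matrix.mul_assoc, u1, ← f2]
  · rw [Matrix.mul_sub, Matrix.mul_smul, ← Matrix.mul_assoc A (T * S'), ← e2, ← sub_eq_zero,
      ← sub_eq_zero.2 u2.symm, hW, hW', Matrix.mul_sub, smul_sub, Matrix.mul_assoc A P,
      Matrix.mul_assoc A' P', Matrix.mul_assoc U A']
    abel

theorem sh_meas {α : Type*} [MeasurableSpace α] {f : α → Matrix (Fin n) (Fin p) 𝕜}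
    (hf : Measurable f) : Measurable fun x => frobSq (f x) := by
  have h : Continuous fun E : Matrix (Fin n) (Fin p) 𝕜 => ∑ i, ∑ j, ‖E i j‖ ^ 2 :=
    continuous_finsetSum _ fun i _ => continuous_finsetSum _ fun j _ =>
      ((continuous_id.matrix_elem i j).norm).pow 2
  exact h.measurable.comp hf

theorem sh_unit {U : Matrix (Fin n) (Fin n) 𝕜} (hU : U ∈ unitaryGroup (Fin n) 𝕜)
    (E : Matrix (Fin n) (Fin p) 𝕜) : frobSq (U * E) = frobSq E :=
  (ENNReal.ofReal_eq_ofReal_iff (Cv.v2_nonneg _) (Cv.v2_nonneg _)).1 (Cv.v2_unit U hU E)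

theorem sh_const (η : Measure (Matrix (Fin n) (Fin ℓ) 𝕜)) [IsProbabilityMeasure η]
    (h1 : ∀ᵐ Q ∂η, Qᴴ * Q = 1) (h2 : ∀ U ∈ unitaryGroup (Fin n) 𝕜, η.map (fun Q => U * Q) = η)
    (hr : r ≤ ℓ) {pinv : Matrix (Fin ℓ) (Fin d) 𝕜 → Matrix (Fin d) (Fin ℓ) 𝕜}
    (hp : ∀ M, IsPinv M (pinv M)) {pinv' : Matrix (Fin ℓ) (Fin d') 𝕜 → Matrix (Fin d') (Fin ℓ) 𝕜}
    (hp' : ∀ M, IsPinv M (pinv' M)) {φ : ℝ → ℝ≥0∞} (hφ : Measurable φ)
    {A : Matrix (Fin n) (Fin d) 𝕜} {A' : Matrix (Fin n) (Fin d') 𝕜}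
    {B B' : Matrix (Fin n) (Fin 1) 𝕜} {P : Matrix (Fin d) (Fin n) 𝕜}
    {P' : Matrix (Fin d') (Fin n) 𝕜} (h : A.rank = r ∧ IsPinv A P ∧ B ≠ A * P * B)
    (h' : A'.rank = r ∧ IsPinv A' P' ∧ B' ≠ A' * P' * B') :
    ∫⁻ Q, φ (frobSq (B - A * (pinv (Qᴴ * A) * (Qᴴ * B))) / frobSq (B - A * P * B)) ∂η =
      ∫⁻ Q, φ (frobSq (B' - A' * (pinv' (Qᴴ * A') * (Qᴴ * B'))) / frobSq (B' - A' * P' * B')) ∂η := by
  obtain ⟨U, hU, M, M', c, Y, c0, a1, a2, a3, a4⟩ := sh_flag h h'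
  have m1 : Measurable fun Q : Matrix (Fin n) (Fin ℓ) 𝕜 =>
      φ (frobSq (B - A * (pinv (Qᴴ * A) * (Qᴴ * B))) / frobSq (B - A * P * B)) :=
    hφ.comp ((sh_meas (measurable_const.sub (Cv.meas_mul measurable_const (Cv.meas_mul
      ((Cv.meas_pinv hp).comp (Cv.meas_mul (Cv.meas_conj measurable_id') measurable_const))
      (Cv.meas_mul (Cv.meas_conj measurable_id') measurable_const))))).div_const _)
  have m2 : Measurable fun Q : Matrix (Fin n) (Fin ℓ) 𝕜 => U * Q :=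
    Cv.meas_mul measurable_const measurable_id'
  have hk := Cv.ae_ker (p := 1) η h1 h2 A (h.1.trans_le hr)
  rw [← h2 U hU] at hk
  conv_lhs => rw [← h2 U hU]
  rw [lintegral_map m1 m2]
  refine lintegral_congr_ae ((ae_of_ae_map m2.aemeasurable hk).mono fun Q hQ => ?_)
  dsimp only
  rw [sh_transfer hU.1 a1 a2 a3 hQ (Cv.IsPinv.normal (hp _) _) (Cv.IsPinv.normal (hp' _) _), a4,
    Cv.v2_smul, Cv.v2_smul, sh_unit hU, sh_unit hU,
    mul_div_mul_left _ _ (pow_ne_zero 2 (norm_ne_zero_iff.2 c0))]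

theorem sh_num {Q : Matrix (Fin n) (Fin ℓ) 𝕜} (hQ : Qᴴ * Q = 1) {a : Fin r → EE 𝕜 n}
    (ha : LinearIndependent 𝕜 fun j => (kerK (Matrix.of.symm Q))ᗮ.starProjection (a j))
    (b : EE 𝕜 n) {X : Matrix (Fin r) (Fin 1) 𝕜}
    (hX : (Qᴴ * matA0 a)ᴴ * (Qᴴ * matB 0 b - Qᴴ * matA0 a * X) = 0) :
    frobSq (matB 0 b - matA0 a * X) =
      ‖b - comb a (est0 (kerK (Matrix.of.symm Q)) (a, b))‖ ^ 2 := by
  set K := kerK (Matrix.of.symm Q)
  have k1 : ∀ x : EE 𝕜 n, x ∈ K ↔ Qᴴ *ᵥ x.ofLp = 0 := fun x => Iff.rfl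
  have k2 : ∀ (x : EE 𝕜 n) (w : Fin ℓ → 𝕜), inner 𝕜 x (WithLp.toLp 2 (Q *ᵥ w) : EE 𝕜 n) =
      star (Qᴴ *ᵥ x.ofLp) ⬝ᵥ w := fun x w => by
    rw [EuclideanSpace.inner_eq_star_dotProduct, dotProduct_comm, star_mulVec,
      conjTranspose_conjTranspose, dotProduct_mulVec]
  have k3 : ∀ z : EE 𝕜 n, Kᗮ.starProjection z = WithLp.toLp 2 (Q *ᵥ (Qᴴ *ᵥ z.ofLp)) := fun z => by
    apply Submodule.eq_starProjection_of_mem_orthogonal
    · intro x hx
      rw [k2, (k1 x).1 hx, star_zero, zero_dotProduct]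
    · refine K.le_orthogonal_orthogonal ((k1 _).2 ?_)
      rw [WithLp.ofLp_sub, mulVec_sub, mulVec_mulVec, hQ, one_mulVec, sub_self]
  have k4 : ∀ x : EE 𝕜 r, matA0 a * matB (0 : Fin 1) x = matB 0 (comb a x) := fun x => by
    rw [mul_matB, matA0_mulVec]
  have e := sh_transfer (Q := Q) (U := 1) (by simp) (A := matA0 a) (A' := matA0 a) (B := matB 0 b)
    (B' := matB 0 b) (M := 1) (M' := 1) (c := 1) (Y := 0) (X := X)
    (X' := matB 0 (est0 K (a, b))) (by simp) (by simp) (by simp) (fun Z hZ => ?_)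
    (by rwa [Matrix.one_mul]) ?_
  · rw [e, one_smul, Matrix.one_mul, k4, matB_sub, frobSq_matB]
  · have z : Z = matB 0 (WithLp.toLp 2 fun j => Z j 0) := by
      ext i j
      simp [matB, Subsingleton.elim j 0]
    rw [Matrix.one_mul, Matrix.mul_assoc, z, k4, mul_matB] at hZ
    have h0 : comb a (WithLp.toLp 2 fun j => Z j 0) ∈ K := (k1 _).2 (funext fun i => by
      simpa [matB] using congrFun (congrFun hZ i) 0)
    have h1 := (Submodule.starProjection_apply_eq_zero_iff Kᗮ).2 (K.le_orthogonal_orthogonal h0)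
    rw [map_comb] at h1
    have h2 := Fintype.linearIndependent_iff.1 ha _ h1
    rw [show Z = 0 from Matrix.ext fun i j => by rw [Subsingleton.elim j 0]; exact h2 i,
      Matrix.mul_zero]
  · rw [Matrix.mul_assoc, k4, ← Matrix.mul_sub, matB_sub, mul_matB, mul_matB]
    ext j i
    have h1 := (Submodule.span 𝕜 (range fun j => Kᗮ.starProjection (a j))).starProjection_inner_eq_zero
      b _ (Submodule.subset_span ⟨j, rfl⟩)
    rw [proj_est0 ha, inner_eq_zero_symm, inner_sub_right,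
      ← Submodule.inner_starProjection_left_eq_right,
      Submodule.starProjection_eq_self_iff.2 (Kᗮ.starProjection_apply_mem _), ← inner_sub_right,
      Submodule.inner_starProjection_left_eq_right, k3, k2] at h1
    simpa [matB, Subsingleton.elim i 0, mulVec, dotProduct, matA0, mul_apply] using h1

theorem sharp (η : Measure (Matrix (Fin n) (Fin ℓ) 𝕜)) [IsProbabilityMeasure η]
    (h1 : ∀ᵐ Q ∂η, Qᴴ * Q = 1) (h2 : ∀ U ∈ unitaryGroup (Fin n) 𝕜, η.map (fun Q => U * Q) = η)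
    (hℓ : ℓ ≤ n) (hr : r < ℓ) {pinv : Matrix (Fin ℓ) (Fin d) 𝕜 → Matrix (Fin d) (Fin ℓ) 𝕜}
    (hp : ∀ M, IsPinv M (pinv M)) {φ : ℝ → ℝ≥0∞} (hφ : Measurable φ)
    {A : Matrix (Fin n) (Fin d) 𝕜} {B : Matrix (Fin n) (Fin 1) 𝕜} {P : Matrix (Fin d) (Fin n) 𝕜}
    (h : A.rank = r ∧ IsPinv A P ∧ B ≠ A * P * B) :
    ∫⁻ Q, φ (frobSq (B - A * (pinv (Qᴴ * A) * (Qᴴ * B))) / frobSq (B - A * P * B)) ∂η =
      ∫⁻ a : Fin r → EE 𝕜 n, ∫⁻ b, φ (ssRatio ℓ a b) ∂(stdGaussian (EE 𝕜 n))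
        ∂(Measure.pi fun _ : Fin r => stdGaussian (EE 𝕜 n)) := by
  obtain ⟨p1, hp1⟩ := Classical.skolem.1 (Cv.exists_pinv (𝕜 := 𝕜) (n := ℓ) (m := r))
  obtain ⟨p2, hp2⟩ := Classical.skolem.1 (Cv.exists_pinv (𝕜 := 𝕜) (n := n) (m := r))
  obtain ⟨K₀, hK₀, hss⟩ := exists_cut (𝕜 := 𝕜) (r := r) hℓ
  let F : Dat 𝕜 r n → Matrix (Fin n) (Fin ℓ) 𝕜 → ℝ≥0∞ := fun y Q =>
    φ (frobSq (matB 0 y.2 - matA0 y.1 * (p1 (Qᴴ * matA0 y.1) * (Qᴴ * matB (0 : Fin 1) y.2))) /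
      frobSq (matB 0 y.2 - matA0 y.1 * p2 (matA0 y.1) * matB (0 : Fin 1) y.2))
  have c1 : Measurable fun q : Dat 𝕜 r n × Matrix (Fin n) (Fin ℓ) 𝕜 => matA0 q.1.1 :=
    (continuous_matrix (f := fun a : Fin r → EE 𝕜 n => matA0 a) fun i j => by
      simp only [matA0, of_apply]; fun_prop).measurable.comp (measurable_fst.comp measurable_fst)
  have c2 : Measurable fun q : Dat 𝕜 r n × Matrix (Fin n) (Fin ℓ) 𝕜 => matB (0 : Fin 1) q.1.2 :=
    (continuous_matrix (f := fun b : EE 𝕜 n => matB (0 : Fin 1) b) fun i j => by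
      simp only [matB, of_apply, Subsingleton.elim j 0, if_true]; fun_prop).measurable.comp
      (measurable_snd.comp measurable_fst)
  have c3 : Measurable fun q : Dat 𝕜 r n × Matrix (Fin n) (Fin ℓ) 𝕜 => q.2ᴴ :=
    Cv.meas_conj measurable_snd
  have hF : Measurable (Function.uncurry F) :=
    hφ.comp ((sh_meas (c2.sub (Cv.meas_mul c1 (Cv.meas_mul
      ((Cv.meas_pinv hp1).comp (Cv.meas_mul c3 c1)) (Cv.meas_mul c3 c2))))).div
      (sh_meas (c2.sub (Cv.meas_mul (Cv.meas_mul c1 ((Cv.meas_pinv hp2).comp c1)) c2))))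
  set γ := (Measure.pi fun _ : Fin r => stdGaussian (EE 𝕜 n)).prod (stdGaussian (EE 𝕜 n))
  have hi : ∀ᵐ a ∂(Measure.pi fun _ : Fin r => stdGaussian (EE 𝕜 n)), LinearIndependent 𝕜 a := by
    simpa [Submodule.starProjection_top] using ae_linearIndependent (⊤ : Submodule 𝕜 (EE 𝕜 n)) r
      (by rw [finrank_top, finrank_euclideanSpace_fin]; omega)
  calc _ = ∫⁻ a, ∫⁻ b, ∫⁻ Q, F (a, b) Q ∂η ∂(stdGaussian (EE 𝕜 n))
        ∂(Measure.pi fun _ : Fin r => stdGaussian (EE 𝕜 n)) := by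
        refine Eq.trans (by simp) (lintegral_congr_ae (f := fun _ => ∫⁻ Q, φ (frobSq
          (B - A * (pinv (Qᴴ * A) * (Qᴴ * B))) / frobSq (B - A * P * B)) ∂η) (hi.mono fun a ha => ?_))
        have hW : finrank 𝕜 (Submodule.span 𝕜 (range a)) = r := by
          rw [finrank_span_eq_card ha]; simp
        have h4 := measure_submodule_eq_zero (Submodule.span 𝕜 (range a)) (by
          intro h
          rw [h, finrank_top, finrank_euclideanSpace_fin] at hW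
          omega)
        refine Eq.trans (by simp) (lintegral_congr_ae (f := fun _ => ∫⁻ Q, φ (frobSq
          (B - A * (pinv (Qᴴ * A) * (Qᴴ * B))) / frobSq (B - A * P * B)) ∂η) ?_)
        filter_upwards [compl_mem_ae_iff.2 h4] with b hb
        refine sh_const η h1 h2 hr.le hp hp1 hφ h ⟨?_, hp2 _, fun e => hb ?_⟩
        · rw [← rank_conjTranspose_mul_self, rank_of_isUnit _ (gram_isUnit a ha), Fintype.card_fin]
        · rw [Matrix.mul_assoc, mul_matB, mul_matB, matA0_mulVec] at e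
          have : b = comb a (WithLp.toLp 2 (p2 (matA0 a) *ᵥ b.ofLp)) := by
            ext i
            simpa [matB] using congrFun (congrFun e i) 0
          rw [this]
          exact comb_mem _ _
    _ = ∫⁻ y, ∫⁻ Q, F y Q ∂η ∂γ := (lintegral_prod _ hF.lintegral_prod_right.aemeasurable).symm
    _ = ∫⁻ Q, ∫⁻ y, F y Q ∂γ ∂η := lintegral_lintegral_swap hF.aemeasurable
    _ = _ := by
        refine (lintegral_congr_ae (h1.mono fun Q hQ => ?_)).trans ((lintegral_const _).trans (by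
          rw [measure_univ, mul_one]))
        have hK : finrank 𝕜 (kerK (Matrix.of.symm Q)) + ℓ = n := finrank_kerK _ (by
          rw [Equiv.apply_symm_apply, ← rank_conjTranspose_mul_self, hQ, rank_one, Fintype.card_fin])
        simp only [hss]
        rw [lintegral_prod _ (hF.of_uncurry_right).aemeasurable, ss_const hK₀ hK hφ]
        refine lintegral_congr_ae ?_
        filter_upwards [hi, ae_linearIndependent (kerK (Matrix.of.symm Q))ᗮ r
          (by rw [finrank_orth _ hK]; exact hr.le)] with a ha ha'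
        refine lintegral_congr fun b => ?_
        have k : kerK (Matrix.of.symm (1 : Matrix (Fin n) (Fin n) 𝕜)) = ⊥ := by
          ext x
          simp [mem_kerK]
        have d0 := Cv.IsPinv.normal (hp2 (matA0 a)) (matB (0 : Fin 1) b)
        have d1 := sh_num (Q := (1 : Matrix (Fin n) (Fin n) 𝕜))
          (by rw [conjTranspose_one, Matrix.one_mul]) (a := a) (by
          rw [k]
          simpa [Submodule.starProjection_top] using ha) b
          (X := p2 (matA0 a) * matB (0 : Fin 1) b) (by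
          rwa [conjTranspose_one, Matrix.one_mul, Matrix.one_mul])
        simp only [F]
        rw [sh_num hQ ha' b (Cv.IsPinv.normal (hp1 _) _), Matrix.mul_assoc, d1, k, rat]

end Pool.Agent.P.MP_467638_an.Tl
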