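import Pool.Agent.P.MP_467638_an.Main

set_option autoImplicit false

theorem Pool.Agent.P.MP_467638_an.variantMinimax :
    Pool.Agent.P.MP_467638_an.LowerBound ℝ 1 ∧ Pool.Agent.P.MP_467638_an.LowerBound ℂ 0 :=
  Pool.Agent.P.MP_467638_an.main
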